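import Pool.Agent.L0h77.BW.Defs

/-! BW: the module ENU -/

set_option autoImplicit false
open Filter Topology

namespace Pool.Agent.L0h77.BW

theorem ENU : S_ENU := by
  intro m hm
  classical
  obtain ⟨s, hs⟩ : ∃ s : ℕ → ℕ, s = fun e => ∑ i ∈ Finset.range e, m i := ⟨_, rfl⟩
  have s0 : s 0 = 0 := by rw [hs]; simp
  have sS : ∀ e, s (e + 1) = s e + m e := fun e => by rw [hs]; exact Finset.sum_range_succ _ _
  have smono : Monotone s := monotone_nat_of_le_succ fun e => by rw [sS]; omega
  have sunb : ∀ N, ∃ e, N < s (e + 1) := by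
    intro N
    induction N with
    | zero =>
      obtain ⟨e, -, he⟩ := hm 0
      exact ⟨e, by rw [sS]; omega⟩
    | succ N ih =>
      obtain ⟨e, he⟩ := ih
      obtain ⟨e', he', h'⟩ := hm (e + 1)
      refine ⟨e', ?_⟩
      rw [sS]
      have := smono he'
      omega
  obtain ⟨E, hE⟩ : ∃ E : ℕ → ℕ, E = fun n => Nat.find (sunb n) := ⟨_, rfl⟩
  have E1 : ∀ n, n < s (E n + 1) := fun n => by rw [hE]; exact Nat.find_spec (sunb n)
  have E2 : ∀ n, s (E n) ≤ n := by
    intro n
    rcases hn : E n with _ | e
    · rw [s0]; omega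
    · have : e < Nat.find (sunb n) := by
        have : E n = Nat.find (sunb n) := by rw [hE]
        omega
      have := Nat.find_min (sunb n) this
      omega
  have E3 : ∀ n e, s e ≤ n → n < s (e + 1) → E n = e := by
    intro n e h1 h2
    rcases lt_trichotomy (E n) e with h | h | h
    · have := smono (show E n + 1 ≤ e by omega)
      have := E1 n
      omega
    · exact h
    · have := smono (show e + 1 ≤ E n by omega)
      have := E2 n
      omega
  refine ⟨E, fun n => n - s (E n), ?_, ?_, ?_, ?_⟩
  · apply monotone_nat_of_le_succ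
    intro n
    by_contra h
    push Not at h
    have h1 := smono (show E (n + 1) + 1 ≤ E n by omega)
    have h2 := E1 (n + 1)
    have h3 := E2 n
    omega
  · rw [tendsto_atTop]
    intro N
    filter_upwards [eventually_ge_atTop (s N)] with n hn
    by_contra h
    push Not at h
    have h1 := smono (show E n + 1 ≤ N by omega)
    have h2 := E1 n
    omega
  · intro n
    have h1 := E1 n
    rw [sS] at h1
    have := E2 n
    simp only
    omega
  · intro e i hi
    have h1 : E (s e + i) = e := E3 _ _ (by omega) (by rw [sS]; omega)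
    refine ⟨s e + i, ⟨h1, by simp only [h1]; omega⟩, ?_⟩
    rintro n ⟨hn, hn'⟩
    simp only [hn] at hn'
    have := E2 n
    rw [hn] at this
    omega

end Pool.Agent.L0h77.BW
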