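import Pool.Agent.L0h77.BW.Defs

/-! BW: the module HART -/

set_option autoImplicit false
open Filter Topology Complex

namespace Pool.Agent.L0h77.BW

theorem hart_geo (M : ℕ) (hM : 0 < M) (m : ℤ) :
    ∑ j : Fin M, Complex.exp (2 * Real.pi * I * ((j : ℕ) : ℂ) * m / M) =
      if (M : ℤ) ∣ m then (M : ℂ) else 0 := by
  have hM' : (M : ℂ) ≠ 0 := by exact_mod_cast hM.ne'
  have e1 : ∀ j : Fin M, Complex.exp (2 * Real.pi * I * ((j : ℕ) : ℂ) * m / M) =
      Complex.exp (2 * Real.pi * I * m / M) ^ (j : ℕ) := by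
    intro j
    rw [← Complex.exp_nat_mul]
    congr 1
    ring
  rw [Finset.sum_congr rfl (fun j _ => e1 j), Fin.sum_univ_eq_sum_range
    (fun j => Complex.exp (2 * Real.pi * I * m / M) ^ j) M]
  split_ifs with h
  · obtain ⟨k, rfl⟩ := h
    have : Complex.exp (2 * Real.pi * I * ((M * k : ℤ) : ℂ) / M) = 1 := by
      rw [Complex.exp_eq_one_iff]
      refine ⟨k, ?_⟩
      push_cast
      field_simp
    rw [this]
    simp
  · have hne : Complex.exp (2 * Real.pi * I * m / M) ≠ 1 := by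
      intro h1
      rw [Complex.exp_eq_one_iff] at h1
      obtain ⟨k, hk⟩ := h1
      apply h
      refine ⟨k, ?_⟩
      have h2 : (m : ℂ) = M * k := by
        have hpi : (2 * Real.pi * I : ℂ) ≠ 0 := by
          simp [Real.pi_ne_zero, Complex.I_ne_zero]
        have hk' : (2 * Real.pi * I : ℂ) * m = (2 * Real.pi * I) * (M * k) := by
          rw [div_eq_iff hM'] at hk
          rw [hk]
          ring
        exact mul_left_cancel₀ hpi hk'
      exact_mod_cast h2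
    have h3 : Complex.exp (2 * Real.pi * I * m / M) ^ M = 1 := by
      rw [← Complex.exp_nat_mul, Complex.exp_eq_one_iff]
      refine ⟨m, ?_⟩
      field_simp
    have h4 := geom_sum_mul (Complex.exp (2 * Real.pi * I * m / M)) M
    rw [h3, sub_self] at h4
    rcases mul_eq_zero.1 h4 with h5 | h5
    · exact h5
    · exact absurd (sub_eq_zero.1 h5) hne

theorem hart_geo_re (M : ℕ) (hM : 0 < M) (m : ℤ) :
    ∑ j : Fin M, Real.cos (2 * Real.pi * ((j : ℕ) : ℝ) * m / M) =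
      if (M : ℤ) ∣ m then (M : ℝ) else 0 := by
  have h := congrArg Complex.re (hart_geo M hM m)
  rw [Complex.re_sum] at h
  have e : ∀ j : Fin M, (Complex.exp (2 * Real.pi * I * ((j : ℕ) : ℂ) * m / M)).re =
      Real.cos (2 * Real.pi * ((j : ℕ) : ℝ) * m / M) := by
    intro j
    rw [show (2 * Real.pi * I * ((j : ℕ) : ℂ) * m / M : ℂ) =
      ((2 * Real.pi * ((j : ℕ) : ℝ) * m / M : ℝ) : ℂ) * I by push_cast; ring]
    rw [Complex.exp_ofReal_mul_I_re]
  rw [Finset.sum_congr rfl (fun j _ => e j)] at h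
  rw [h]
  split_ifs <;> simp

theorem hart_geo_im (M : ℕ) (hM : 0 < M) (m : ℤ) :
    ∑ j : Fin M, Real.sin (2 * Real.pi * ((j : ℕ) : ℝ) * m / M) = 0 := by
  have h := congrArg Complex.im (hart_geo M hM m)
  rw [Complex.im_sum] at h
  have e : ∀ j : Fin M, (Complex.exp (2 * Real.pi * I * ((j : ℕ) : ℂ) * m / M)).im =
      Real.sin (2 * Real.pi * ((j : ℕ) : ℝ) * m / M) := by
    intro j
    rw [show (2 * Real.pi * I * ((j : ℕ) : ℂ) * m / M : ℂ) =
      ((2 * Real.pi * ((j : ℕ) : ℝ) * m / M : ℝ) : ℂ) * I by push_cast; ring]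
    rw [Complex.exp_ofReal_mul_I_im]
  rw [Finset.sum_congr rfl (fun j _ => e j)] at h
  rw [h]
  split_ifs <;> simp

/-- at most two solutions -/
theorem hart_two_sol (M : ℕ) (hM : 0 < M) (a : ℤ) :
    ((Finset.univ : Finset (Fin M)).filter (fun l : Fin M => (M : ℤ) ∣ 2 * ((l : ℕ) : ℤ) + a)).card ≤ 2 := by
  classical
  by_contra hcon
  push Not at hcon
  obtain ⟨x, hx, y, hy, z, hz, hxy, hxz, hyz⟩ := Finset.two_lt_card.1 hcon
  simp only [Finset.mem_filter, Finset.mem_univ, true_and] at hx hy hz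
  have h1 : (M : ℤ) ∣ 2 * (((x : ℕ) : ℤ) - (y : ℕ)) := by
    have h := dvd_sub hx hy
    have e : 2 * ((x : ℕ) : ℤ) + a - (2 * ((y : ℕ) : ℤ) + a) = 2 * (((x : ℕ) : ℤ) - (y : ℕ)) := by ring
    rwa [e] at h
  have h2 : (M : ℤ) ∣ 2 * (((x : ℕ) : ℤ) - (z : ℕ)) := by
    have h := dvd_sub hx hz
    have e : 2 * ((x : ℕ) : ℤ) + a - (2 * ((z : ℕ) : ℤ) + a) = 2 * (((x : ℕ) : ℤ) - (z : ℕ)) := by ring
    rwa [e] at h
  have h3 : (M : ℤ) ∣ 2 * (((y : ℕ) : ℤ) - (z : ℕ)) := by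
    have h := dvd_sub hy hz
    have e : 2 * ((y : ℕ) : ℤ) + a - (2 * ((z : ℕ) : ℤ) + a) = 2 * (((y : ℕ) : ℤ) - (z : ℕ)) := by ring
    rwa [e] at h
  have hx' := x.2
  have hy' := y.2
  have hz' := z.2
  have hxy' : (x : ℕ) ≠ y := fun h => hxy (Fin.ext h)
  have hxz' : (x : ℕ) ≠ z := fun h => hxz (Fin.ext h)
  have hyz' : (y : ℕ) ≠ z := fun h => hyz (Fin.ext h)
  have key : ∀ u v : ℕ, u < M → v < M → u ≠ v → (M : ℤ) ∣ 2 * ((u : ℤ) - v) →
      2 * ((u : ℤ) - v) = M ∨ 2 * ((u : ℤ) - v) = -M := by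
    intro u v hu hv huv hd
    obtain ⟨k, hk⟩ := hd
    have b1 : 2 * ((u : ℤ) - v) < 2 * M := by omega
    have b2 : -(2 * (M : ℤ)) < 2 * ((u : ℤ) - v) := by omega
    have hk1 : k < 2 := by
      by_contra h
      push Not at h
      have : (M : ℤ) * 2 ≤ M * k := mul_le_mul_of_nonneg_left h (by positivity)
      omega
    have hk2 : -2 < k := by
      by_contra h
      push Not at h
      have : (M : ℤ) * k ≤ M * (-2) := mul_le_mul_of_nonneg_left h (by positivity)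
      omega
    have hk0 : k ≠ 0 := by
      rintro rfl
      rw [mul_zero] at hk
      omega
    have : k = 1 ∨ k = -1 := by omega
    rcases this with rfl | rfl
    · left; rw [hk]; ring
    · right; rw [hk]; ring
  rcases key _ _ hx' hy' hxy' h1 with g1 | g1 <;> rcases key _ _ hx' hz' hxz' h2 with g2 | g2 <;>
    rcases key _ _ hy' hz' hyz' h3 with g3 | g3 <;> omega

theorem HART : S_HART := by
  intro M hM
  classical
  have hMr : (0 : ℝ) < M := by exact_mod_cast hM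
  obtain ⟨θ, hθ⟩ : ∃ θ : Fin M → Fin M → ℝ, ∀ j k : Fin M,
    θ j k = 2 * Real.pi * ((j : ℕ) : ℝ) * ((k : ℕ) : ℝ) / M := ⟨_, fun _ _ => rfl⟩
  refine ⟨Matrix.of fun j k => (Real.cos (θ j k) + Real.sin (θ j k)) / √M, ?_, ?_⟩
  · ext k l
    rw [Matrix.mul_apply]
    simp only [Matrix.transpose_apply, Matrix.of_apply]
    have e1 : ∀ j : Fin M, (Real.cos (θ k j) + Real.sin (θ k j)) / √M *
        ((Real.cos (θ l j) + Real.sin (θ l j)) / √M) =
        (Real.cos (2 * Real.pi * ((j : ℕ) : ℝ) * ((((k : ℕ) : ℤ) - ((l : ℕ) : ℤ) : ℤ) : ℝ) / M) +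
        Real.sin (2 * Real.pi * ((j : ℕ) : ℝ) * ((((k : ℕ) : ℤ) + ((l : ℕ) : ℤ) : ℤ) : ℝ) / M)) / M := by
      intro j
      rw [div_mul_div_comm, Real.mul_self_sqrt hMr.le]
      congr 1
      have a1 : 2 * Real.pi * ((j : ℕ) : ℝ) * ((((k : ℕ) : ℤ) - ((l : ℕ) : ℤ) : ℤ) : ℝ) / M = θ k j - θ l j := by
        rw [hθ, hθ]; push_cast; ring
      have a2 : 2 * Real.pi * ((j : ℕ) : ℝ) * ((((k : ℕ) : ℤ) + ((l : ℕ) : ℤ) : ℤ) : ℝ) / M = θ k j + θ l j := by
        rw [hθ, hθ]; push_cast; ring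
      rw [a1, a2, Real.cos_sub, Real.sin_add]
      ring
    rw [Finset.sum_congr rfl (fun j _ => e1 j), ← Finset.sum_div, Finset.sum_add_distrib, hart_geo_re M hM,
      hart_geo_im M hM, add_zero]
    by_cases hkl : k = l
    · subst hkl
      simp [hMr.ne']
    · rw [if_neg]
      · simp [hkl]
      · rintro ⟨c, hc⟩
        apply hkl
        apply Fin.ext
        have h1 := k.2
        have h2 := l.2
        have hc0 : c = 0 := by
          by_contra h0
          rcases lt_or_gt_of_ne h0 with h | h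
          · have : (M : ℤ) * c ≤ M * (-1) := mul_le_mul_of_nonneg_left (by omega) (by positivity)
            omega
          · have : (M : ℤ) * 1 ≤ M * c := mul_le_mul_of_nonneg_left (by omega) (by positivity)
            omega
        rw [hc0, mul_zero] at hc
        omega
  · intro f hf
    simp only [Matrix.of_apply]
    -- the deviations
    have e1 : ∀ j k : Fin M, ((Real.cos (θ j k) + Real.sin (θ j k)) / √M) ^ 2 =
        (1 + Real.sin (2 * θ j k)) / M := by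
      intro j k
      rw [div_pow, Real.sq_sqrt hMr.le, Real.sin_two_mul]
      congr 1
      have := Real.sin_sq_add_cos_sq (θ j k)
      linear_combination this
    have e2 : ∀ j : Fin M, ∑ k, ((Real.cos (θ j k) + Real.sin (θ j k)) / √M) ^ 2 * f k - (∑ k, f k) / M =
        (∑ k, Real.sin (2 * θ j k) * f k) / M := by
      intro j
      rw [Finset.sum_congr rfl (fun k _ => by rw [e1 j k]), Finset.sum_div, Finset.sum_div,
        ← Finset.sum_sub_distrib]
      apply Finset.sum_congr rfl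
      intro k _
      ring
    have e3 : ∀ j : Fin M, (∑ k, ((Real.cos (θ j k) + Real.sin (θ j k)) / √M) ^ 2 * f k -
        (∑ k, f k) / M) ^ 2 = (∑ k, ∑ l, Real.sin (2 * θ j k) * Real.sin (2 * θ j l) * (f k * f l)) / M ^ 2 := by
      intro j
      rw [e2, div_pow, sq (∑ k, Real.sin (2 * θ j k) * f k), Finset.sum_mul_sum]
      congr 1
      apply Finset.sum_congr rfl
      intro k _
      apply Finset.sum_congr rfl
      intro l _
      ring
    rw [Finset.sum_congr rfl (fun j _ => e3 j), ← Finset.sum_div, Finset.sum_comm]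
    have e4 : ∀ k : Fin M, ∑ j : Fin M, ∑ l, Real.sin (2 * θ j k) * Real.sin (2 * θ j l) * (f k * f l) =
        ∑ l : Fin M, (f k * f l) * ((if (M : ℤ) ∣ 2 * ((l : ℕ) : ℤ) + -(2 * ((k : ℕ) : ℤ)) then (M : ℝ) else 0) -
          (if (M : ℤ) ∣ 2 * ((l : ℕ) : ℤ) + 2 * ((k : ℕ) : ℤ) then (M : ℝ) else 0)) / 2 := by
      intro k
      rw [Finset.sum_comm]
      apply Finset.sum_congr rfl
      intro l _
      rw [← hart_geo_re M hM, ← hart_geo_re M hM, ← Finset.sum_sub_distrib, ← Finset.sum_mul]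
      have : ∑ j : Fin M, Real.sin (2 * θ j k) * Real.sin (2 * θ j l) =
          (∑ x : Fin M, (Real.cos (2 * Real.pi * ((x : ℕ) : ℝ) *
            ((2 * ((l : ℕ) : ℤ) + -(2 * ((k : ℕ) : ℤ)) : ℤ) : ℝ) / M) -
            Real.cos (2 * Real.pi * ((x : ℕ) : ℝ) * ((2 * ((l : ℕ) : ℤ) + 2 * ((k : ℕ) : ℤ) : ℤ) : ℝ) / M))) / 2 := by
        rw [Finset.sum_div]
        apply Finset.sum_congr rfl
        intro j _
        have a1 : 2 * Real.pi * ((j : ℕ) : ℝ) * ((2 * ((l : ℕ) : ℤ) + -(2 * ((k : ℕ) : ℤ)) : ℤ) : ℝ) / M =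
            2 * θ j l - 2 * θ j k := by
          rw [hθ, hθ]; push_cast; ring
        have a2 : 2 * Real.pi * ((j : ℕ) : ℝ) * ((2 * ((l : ℕ) : ℤ) + 2 * ((k : ℕ) : ℤ) : ℤ) : ℝ) / M =
            2 * θ j l + 2 * θ j k := by
          rw [hθ, hθ]; push_cast; ring
        rw [a1, a2, Real.cos_sub, Real.cos_add]
        ring
      rw [this]
      ring
    rw [Finset.sum_congr rfl (fun k _ => e4 k), div_le_iff₀ (by positivity)]
    have e5 : ∀ k : Fin M, ∑ l : Fin M, (f k * f l) * ((if (M : ℤ) ∣ 2 * ((l : ℕ) : ℤ) + -(2 * ((k : ℕ) : ℤ)) then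
          (M : ℝ) else 0) - (if (M : ℤ) ∣ 2 * ((l : ℕ) : ℤ) + 2 * ((k : ℕ) : ℤ) then (M : ℝ) else 0)) / 2 ≤
        2 * M := by
      intro k
      have b : ∀ l : Fin M, (f k * f l) * ((if (M : ℤ) ∣ 2 * ((l : ℕ) : ℤ) + -(2 * ((k : ℕ) : ℤ)) then
          (M : ℝ) else 0) - (if (M : ℤ) ∣ 2 * ((l : ℕ) : ℤ) + 2 * ((k : ℕ) : ℤ) then (M : ℝ) else 0)) / 2 ≤
          ((if (M : ℤ) ∣ 2 * ((l : ℕ) : ℤ) + -(2 * ((k : ℕ) : ℤ)) then (M : ℝ) else 0) +
          (if (M : ℤ) ∣ 2 * ((l : ℕ) : ℤ) + 2 * ((k : ℕ) : ℤ) then (M : ℝ) else 0)) / 2 := by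
        intro l
        have hkl : |f k * f l| ≤ 1 := by
          rw [abs_mul]
          exact mul_le_one₀ (hf k) (abs_nonneg _) (hf l)
        obtain ⟨h1, h2⟩ := abs_le.1 hkl
        have hA : (0 : ℝ) ≤ (if (M : ℤ) ∣ 2 * ((l : ℕ) : ℤ) + -(2 * ((k : ℕ) : ℤ)) then (M : ℝ) else 0) := by
          split_ifs <;> positivity
        have hB : (0 : ℝ) ≤ (if (M : ℤ) ∣ 2 * ((l : ℕ) : ℤ) + 2 * ((k : ℕ) : ℤ) then (M : ℝ) else 0) := by
          split_ifs <;> positivity
        generalize (if (M : ℤ) ∣ 2 * ((l : ℕ) : ℤ) + -(2 * ((k : ℕ) : ℤ)) then (M : ℝ) else 0) = A at hA ⊢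
        generalize (if (M : ℤ) ∣ 2 * ((l : ℕ) : ℤ) + 2 * ((k : ℕ) : ℤ) then (M : ℝ) else 0) = B at hB ⊢
        nlinarith [mul_nonneg (sub_nonneg.2 h2) hA, mul_nonneg (by linarith : (0 : ℝ) ≤ 1 + f k * f l) hB]
      refine (Finset.sum_le_sum fun l _ => b l).trans ?_
      rw [← Finset.sum_div, Finset.sum_add_distrib, ← Finset.sum_filter, ← Finset.sum_filter,
        Finset.sum_const, Finset.sum_const, nsmul_eq_mul, nsmul_eq_mul]
      have c1 : (((Finset.univ : Finset (Fin M)).filter (fun l : Fin M =>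
          (M : ℤ) ∣ 2 * ((l : ℕ) : ℤ) + -(2 * ((k : ℕ) : ℤ)))).card : ℝ) ≤ 2 := by
        have := hart_two_sol M hM (-(2 * ((k : ℕ) : ℤ)))
        exact (Nat.cast_le (α := ℝ)).2 this
      have c2 : (((Finset.univ : Finset (Fin M)).filter (fun l : Fin M =>
          (M : ℤ) ∣ 2 * ((l : ℕ) : ℤ) + 2 * ((k : ℕ) : ℤ))).card : ℝ) ≤ 2 := by
        have := hart_two_sol M hM (2 * ((k : ℕ) : ℤ))
        exact (Nat.cast_le (α := ℝ)).2 this
      nlinarith
    refine (Finset.sum_le_sum fun k _ => e5 k).trans ?_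
    rw [Finset.sum_const, Finset.card_univ, Fintype.card_fin, nsmul_eq_mul]
    nlinarith

end Pool.Agent.L0h77.BW
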