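import Pool.Agent.L0h77.BW.T_NE

/-! Module NC of project BW (helper6). -/

set_option autoImplicit false
open MeasureTheory Filter Topology Complex

namespace Pool.Agent.L0h77.BW

open Pool.Agent.L0h56.BQ

/-- the form of NC5 with all large `y` -/
def S_NC5s : Prop := ∀ (k : ℕ) (ε : ℝ), 0 < ε → ∃ y₀ : ℕ, ∀ y : ℕ, y₀ ≤ y → 0 < y → ∀ X : ℕ,
  (cnt (fun e => (∀ p : ℕ, p.Prime → y < p → ¬ p ^ 2 ∣ e) ∧ ∃ τ : Fin k → GI,
    (∀ i, τ i ∈ V e) ∧ MinRel τ ∧ ∃ p : ℕ, p.Prime ∧ y < p ∧ Splits p τ) X : ℝ) ≤ ε * X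

theorem cnt_or_le {P Q R : ℕ → Prop} (h : ∀ e, 0 < e → P e → Q e ∨ R e) (X : ℕ) :
    cnt P X ≤ cnt Q X + cnt R X := by
  classical
  unfold cnt
  rw [Finset.sum_filter, Finset.sum_filter, Finset.sum_filter, ← Finset.sum_add_distrib]
  refine Finset.sum_le_sum fun e he => ?_
  rw [Finset.mem_Icc] at he
  by_cases hP : P e
  · rw [if_pos hP]
    rcases h e he.1 hP with h | h
    · rw [if_pos h]; omega
    · rw [if_pos h]; omega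
  · rw [if_neg hP]; omega

theorem NC (hNC1 : S_NC1) (hNC5 : S_NC5s) (hNC6 : S_NC6) (hSQ : S_SQ) : S_NC := by
  intro b ε hε
  have hε3 : 0 < ε / 3 := by positivity
  obtain ⟨y₀, hy₀⟩ := hNC5 (b + 3) (ε / 3) hε3
  obtain ⟨y₁, hy₁⟩ := exists_nat_ge (72 / ε)
  set y := y₀ + y₁ + 1 with hy
  have hypos : 0 < y := by omega
  have hy24 : (24 : ℝ) / y ≤ ε / 3 := by
    have : (0 : ℝ) < y := by exact_mod_cast hypos
    rw [div_le_iff₀ this]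
    have h1 : (72 / ε : ℝ) ≤ y := hy₁.trans (by exact_mod_cast (by omega : y₁ ≤ y))
    rw [div_le_iff₀ hε] at h1
    linarith
  obtain ⟨M₀, hM₀⟩ := hNC6 y (ε / 3) hε3
  refine ⟨(8 * M₀) ^ (b + 3), Filter.Eventually.of_forall fun X => ?_⟩
  have key : ∀ e, 0 < e → (8 * M₀) ^ (b + 3) < rc b e →
      ((∀ p : ℕ, p.Prime → y < p → ¬ p ^ 2 ∣ e) ∧ ∃ τ : Fin (b + 3) → GI,
        (∀ i, τ i ∈ V e) ∧ MinRel τ ∧ ∃ p : ℕ, p.Prime ∧ y < p ∧ Splits p τ) ∨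
      ((∃ p : ℕ, p.Prime ∧ y < p ∧ p ^ 2 ∣ e) ∨
      (∃ m : ℕ, m ∣ e ∧ (∀ p : ℕ, p.Prime → p ∣ m → p ≤ y) ∧ M₀ < m)) := by
    intro e he hlt
    by_contra hcon
    push Not at hcon
    obtain ⟨h1, h2, h3⟩ := hcon
    have hsq : ∀ p : ℕ, p.Prime → y < p → ¬ p ^ 2 ∣ e := h2
    refine absurd hlt (not_lt.mpr ?_)
    refine hNC1 b e y M₀ he hsq h3 fun τ hτ hmin p hp hyp hs => ?_
    exact h1 hsq τ hτ hmin p hp hyp hs
  have h1 := cnt_or_le key X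
  have h2 := cnt_or_le (P := fun e => (∃ p : ℕ, p.Prime ∧ y < p ∧ p ^ 2 ∣ e) ∨
      (∃ m : ℕ, m ∣ e ∧ (∀ p : ℕ, p.Prime → p ∣ m → p ≤ y) ∧ M₀ < m))
      (Q := fun e => ∃ p : ℕ, p.Prime ∧ y < p ∧ p ^ 2 ∣ e)
      (R := fun e => ∃ m : ℕ, m ∣ e ∧ (∀ p : ℕ, p.Prime → p ∣ m → p ≤ y) ∧ M₀ < m)
      (fun e _ h => h) X
  have h3 := hy₀ y (by omega) hypos X
  have h4 := hSQ X y hypos
  have h5 := hM₀ X
  have h6 : (24 : ℝ) * X / y ≤ ε / 3 * X := by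
    have : (24 : ℝ) * X / y = 24 / y * X := by ring
    rw [this]
    exact mul_le_mul_of_nonneg_right hy24 (Nat.cast_nonneg _)
  have h1' : (cnt (fun e => (8 * M₀) ^ (b + 3) < rc b e) X : ℝ) ≤ _ := Nat.cast_le.mpr h1
  have h2' := (Nat.cast_le (α := ℝ)).mpr h2
  push_cast at h1' h2'
  linarith

end Pool.Agent.L0h77.BW
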