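import Pool.Agent.L0h77.BW.T_NC5
import Pool.Agent.L0h77.BW.T_NC

set_option autoImplicit false

namespace Pool.Agent.L0h77.BW

open Pool.Agent.L0h56.BQ

theorem nc5s (h3 : S_NC3) (h4 : S_NC4) (hD : S_DV) (hR : S_R2) : S_NC5s := by
  classical
  intro k ε hε
  obtain ⟨C, hC⟩ := h4 (k + 1)
  set A : ℝ := 16 * 8 ^ k * (|C| + 1) / ε with hA
  have hA0 : 0 < A := by positivity
  obtain ⟨y₀, hy₀⟩ := exists_nat_gt (A ^ 2)
  refine ⟨y₀, fun y hyy hy0 X => ?_⟩
  have hy : A ^ 2 < (y : ℝ) := hy₀.trans_le (by exact_mod_cast hyy)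
  have hsy : 0 < √(y : ℝ) := Real.sqrt_pos.2 (by exact_mod_cast hy0)
  have hAy : A ≤ √(y : ℝ) := Real.le_sqrt_of_sq_le hy.le
  -- the index set
  set pr : (ℕ × (Fin k → GI) × (Fin k → Bool)) → ℕ := fun t =>
    if h : ∃ p, NC5.Ok k y t.1 t.2.1 t.2.2 p then h.choose else 0 with hpr
  have hprs : ∀ t : ℕ × (Fin k → GI) × (Fin k → Bool), (∃ p, NC5.Ok k y t.1 t.2.1 t.2.2 p) →
      NC5.Ok k y t.1 t.2.1 t.2.2 (pr t) := by
    intro t h
    rw [hpr]
    simp only [h, dif_pos]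
    exact h.choose_spec
  set J : ℕ → Finset ((Fin k → GI) × (Fin k → Bool)) := fun m =>
    ((Fintype.piFinset fun _ : Fin k => V m) ×ˢ (Finset.univ : Finset (Fin k → Bool))).filter
      (fun t => ∃ p, NC5.Ok k y m t.1 t.2 p) with hJ
  set I : Finset (Σ _ : ℕ, (Fin k → GI) × (Fin k → Bool)) := (Finset.Icc 1 X).sigma J with hI
  have hb := NC5.cnt_le (fun e => (∀ p : ℕ, p.Prime → y < p → ¬ p ^ 2 ∣ e) ∧
    ∃ τ : Fin k → GI, (∀ i, τ i ∈ V e) ∧ MinRel τ ∧ ∃ p : ℕ, p.Prime ∧ y < p ∧ Splits p τ) X I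
    (fun t e => t.1 * pr (t.1, t.2) ∣ e) (by
      intro e he hP
      obtain ⟨hsq, τ, hV, hmin, hs⟩ := hP
      rw [Finset.mem_Icc] at he
      obtain ⟨m, p, ϖ, a, s, hm, hp, hϖ, hyp, hd, hq, ha, hsum, hne⟩ :=
        nc2 k e y (by omega) hsq τ hV hmin hs
      have hok : NC5.Ok k y m a s p := ⟨ϖ, hp, hϖ, hyp, hq, hsum, hne⟩
      obtain ⟨ϖ', hp', hϖ', hyp', hq', hsum', hne'⟩ := hprs (m, a, s) ⟨p, hok⟩
      have heq : p = pr (m, a, s) := h3 k a s p _ ϖ ϖ' hp hp' hϖ hϖ' hsum hsum' hne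
      have hle : m * p ≤ e := Nat.le_of_dvd (by omega) hd
      have hmX : m ≤ X := by
        have := Nat.le_mul_of_pos_right m hp.pos
        omega
      refine ⟨⟨m, a, s⟩, ?_, ?_⟩
      · rw [hI, Finset.mem_sigma]
        refine ⟨Finset.mem_Icc.2 ⟨hm, hmX⟩, ?_⟩
        rw [hJ]
        simp only [Finset.mem_filter, Finset.mem_product, Fintype.mem_piFinset, Finset.mem_univ,
          and_true]
        exact ⟨ha, p, hok⟩
      · show m * pr (m, a, s) ∣ e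
        rw [← heq]; exact hd)
  have hb' : (cnt (fun e => (∀ p : ℕ, p.Prime → y < p → ¬ p ^ 2 ∣ e) ∧
    ∃ τ : Fin k → GI, (∀ i, τ i ∈ V e) ∧ MinRel τ ∧ ∃ p : ℕ, p.Prime ∧ y < p ∧ Splits p τ) X : ℝ) ≤
      ∑ t ∈ I, (cnt (fun e => t.1 * pr (t.1, t.2) ∣ e) X : ℝ) := by exact_mod_cast hb
  refine hb'.trans ?_
  rw [hI, Finset.sum_sigma]
  have hin : ∀ m ∈ Finset.Icc 1 X, ∑ t ∈ J m, (cnt (fun e => m * pr (m, t) ∣ e) X : ℝ) ≤
      16 * X / √y * 8 ^ k * ((m.divisors.card : ℝ) ^ (k + 1) / (m * √(lpf m))) := by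
    intro m hm
    rw [Finset.mem_Icc] at hm
    have hm0 : 0 < m := hm.1
    have h1 : ∀ t ∈ J m, (cnt (fun e => m * pr (m, t) ∣ e) X : ℝ) ≤
        16 * X / √y * (m.divisors.card / (m * √(lpf m))) := by
      intro t ht
      rw [hJ] at ht
      have h2 := (Finset.mem_filter.1 ht).2
      exact NC5.term hD k y m X _ hm0 t.1 t.2 hy0 (hprs (m, t) h2)
    refine (Finset.sum_le_card_nsmul _ _ _ h1).trans ?_
    rw [nsmul_eq_mul]
    have hcard : ((J m).card : ℝ) ≤ 8 ^ k * (m.divisors.card : ℝ) ^ k := by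
      have h2 : (J m).card ≤ (8 * m.divisors.card) ^ k := by
        rw [hJ]
        refine (Finset.card_filter_le _ _).trans ?_
        rw [Finset.card_product, Fintype.card_piFinset]
        simp only [Finset.prod_const, Finset.card_univ, Fintype.card_fin, Fintype.card_fun,
          Fintype.card_bool]
        rw [← mul_pow]
        refine Nat.pow_le_pow_left ?_ k
        have := hR m hm0
        omega
      calc ((J m).card : ℝ) ≤ (((8 * m.divisors.card) ^ k : ℕ) : ℝ) := by exact_mod_cast h2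
        _ = 8 ^ k * (m.divisors.card : ℝ) ^ k := by push_cast; rw [mul_pow]
    have hpos : 0 ≤ 16 * (X : ℝ) / √y * (m.divisors.card / (m * √(lpf m))) := by positivity
    refine (mul_le_mul_of_nonneg_right hcard hpos).trans (le_of_eq ?_)
    rw [pow_succ]
    ring
  refine (Finset.sum_le_sum hin).trans ?_
  rw [← Finset.mul_sum]
  have hF := hC (Finset.Icc 1 X) (fun m hm => (Finset.mem_Icc.1 hm).1)
  have hF' : ∑ m ∈ Finset.Icc 1 X, ((m.divisors.card : ℝ) ^ (k + 1) / (m * √(lpf m))) ≤ |C| + 1 :=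
    hF.trans ((le_abs_self C).trans (by linarith))
  have hpos : 0 ≤ 16 * (X : ℝ) / √y * 8 ^ k := by positivity
  refine (mul_le_mul_of_nonneg_left hF' hpos).trans ?_
  have h5 : 16 * (X : ℝ) / √y * 8 ^ k * (|C| + 1) = (A * ε / √y) * X := by
    rw [hA]
    field_simp
  rw [h5]
  refine mul_le_mul_of_nonneg_right ?_ (Nat.cast_nonneg _)
  rw [div_le_iff₀ hsy, mul_comm]
  exact mul_le_mul_of_nonneg_left hAy hε.le

end Pool.Agent.L0h77.BW
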