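import Pool.Agent.L0h77.BW.Defs

/-! MP_6b977f_mp, project BW, module APX (helper57): approximation of the indicator function of a
bounded open set by trigonometric polynomials, in the dual sense -/

set_option autoImplicit false
open MeasureTheory Filter Topology Complex

namespace Pool.Agent.L0h77.BW

open Pool.Agent.L0h56.BQ

noncomputable section

namespace APXh

/-- Cauchy-Schwarz on a set of finite measure -/
theorem cs_int (Ω : Set ℂ) (hv : volume Ω ≠ ⊤) (f : ℂ → ℝ) (h1 : IntegrableOn f Ω)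
    (h2 : IntegrableOn (fun z => f z ^ 2) Ω) :
    ∫ z in Ω, f z ≤ √(volume.real Ω) * √(∫ z in Ω, f z ^ 2) := by
  have hfin : IsFiniteMeasure (volume.restrict Ω) := ⟨by simpa using hv.lt_top⟩
  have hq : ∀ t : ℝ, 0 ≤ volume.real Ω * (t * t) + (-2 * ∫ z in Ω, f z) * t +
      ∫ z in Ω, f z ^ 2 := by
    intro t
    have h3 : 0 ≤ ∫ z in Ω, (f z - t) ^ 2 := integral_nonneg fun z => sq_nonneg _
    have h4 : ∫ z in Ω, (f z - t) ^ 2 = (∫ z in Ω, f z ^ 2) - 2 * t * (∫ z in Ω, f z) +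
        t ^ 2 * volume.real Ω := by
      have h5 : ∀ z, (f z - t) ^ 2 = f z ^ 2 - 2 * t * f z + t ^ 2 := fun z => by ring
      simp_rw [h5]
      have i1 : Integrable (fun z => 2 * t * f z) (volume.restrict Ω) := h1.const_mul _
      have i2 : Integrable (fun z => f z ^ 2) (volume.restrict Ω) := h2
      have i3 : Integrable (fun z => f z ^ 2 - 2 * t * f z) (volume.restrict Ω) := i2.sub i1
      rw [integral_add i3 (integrable_const _), integral_sub i2 i1, integral_const_mul,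
        setIntegral_const, smul_eq_mul]
      ring
    rw [h4] at h3
    nlinarith
  have h3 := discrim_le_zero hq
  unfold discrim at h3
  have h4 : (∫ z in Ω, f z) ^ 2 ≤ volume.real Ω * ∫ z in Ω, f z ^ 2 := by nlinarith
  have h5 : 0 ≤ volume.real Ω := measureReal_nonneg
  rw [← Real.sqrt_mul h5]
  exact Real.le_sqrt_of_sq_le h4

theorem tendsto_int {E : Type*} [NormedAddCommGroup E] [NormedSpace ℝ E]
    (K : Set ℂ) (hK : volume K < ⊤) (f : ℕ → ℂ → E) (g : ℂ → E)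
    (hf : ∀ n, IntegrableOn (f n) K) (hg : IntegrableOn g K) (δ : ℕ → ℝ)
    (hδ : Tendsto δ atTop (𝓝 0)) (h : ∀ n, ∀ z ∈ K, ‖f n z - g z‖ ≤ δ n) :
    Tendsto (fun n => ∫ z in K, f n z) atTop (𝓝 (∫ z in K, g z)) := by
  rw [tendsto_iff_norm_sub_tendsto_zero]
  have h1 : Tendsto (fun n => δ n * volume.real K) atTop (𝓝 0) := by
    have := hδ.mul_const (volume.real K)
    rwa [zero_mul] at this
  refine squeeze_zero (fun n => norm_nonneg _) (fun n => ?_) h1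
  rw [← integral_sub (hf n) hg]
  exact norm_setIntegral_le_of_norm_le_const hK (h n)

theorem per_tp (S : Finset GI) (c : GI → ℂ) : Per 2 (fun z => ∑ ν ∈ S, c ν * ch ν z) := by
  have h1 : ∀ ν, Per 2 (ch ν) := fun ν => by
    have := ch_per ν 1 one_pos (by simp)
    simpa using this
  constructor
  · intro z
    refine Finset.sum_congr rfl fun ν _ => ?_
    rw [(h1 ν).1]
  · intro z
    refine Finset.sum_congr rfl fun ν _ => ?_
    rw [(h1 ν).2]

theorem cont_tp (S : Finset GI) (c : GI → ℂ) : Continuous (fun z => ∑ ν ∈ S, c ν * ch ν z) :=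
  continuous_finsetSum _ fun ν _ => continuous_const.mul (ch_cont ν)

theorem cell_bdd : Bornology.IsBounded (cell 2) :=
  Metric.isBounded_closedBall.subset (cell_sub 2)

end APXh

open APXh

/-- **APX** -/
theorem APX (hUNI : S_UNI) : S_APX := by
  classical
  intro Ω ho hb ε hε
  have hvol : volume Ω ≠ ⊤ := hb.measure_lt_top.ne
  obtain ⟨C, hC0, hC⟩ := per_bound Ω hb
  obtain ⟨B, hB⟩ : ∃ B, B = volume.real Ω * C := ⟨_, rfl⟩
  have hV0 : 0 ≤ volume.real Ω := measureReal_nonneg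
  have hB0 : 0 ≤ B := by rw [hB]; positivity
  obtain ⟨R, hR⟩ := hb.subset_closedBall 0
  have hint : ∀ {E : Type} [NormedAddCommGroup E] [NormedSpace ℝ E] (G : ℂ → E), Continuous G →
      IntegrableOn G Ω := fun G hG =>
    (hG.continuousOn.integrableOn_compact (isCompact_closedBall 0 R)).mono_set hR
  have hbd : ∀ G : ℂ → ℂ, Continuous G → Per 2 G →
      ‖∫ z in Ω, G z‖ ≤ √B * √(∫ z in cell 2, ‖G z‖ ^ 2) := by
    intro G hG hp
    have h1 := cs_int Ω hvol (fun z => ‖G z‖) (hint _ hG.norm) (hint _ (hG.norm.pow 2))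
    have h2 := hC (fun z => ‖G z‖ ^ 2) (hG.norm.pow 2) (fun z => by positivity)
      (fun z => by rw [hp.1]) (fun z => by rw [hp.2])
    calc ‖∫ z in Ω, G z‖ ≤ ∫ z in Ω, ‖G z‖ := norm_integral_le_integral_norm _
      _ ≤ √(volume.real Ω) * √(∫ z in Ω, ‖G z‖ ^ 2) := h1
      _ ≤ √(volume.real Ω) * √(C * ∫ z in cell 2, ‖G z‖ ^ 2) :=
          mul_le_mul_of_nonneg_left (Real.sqrt_le_sqrt h2) (Real.sqrt_nonneg _)
      _ = √B * √(∫ z in cell 2, ‖G z‖ ^ 2) := by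
          rw [hB, Real.sqrt_mul hV0, Real.sqrt_mul hC0, mul_assoc]
  obtain ⟨l, hl⟩ : ∃ l : GI → ℂ, l = fun ξ => ∫ z in Ω, ch ξ z := ⟨_, rfl⟩
  have hlin : ∀ (S : Finset GI) (c : GI → ℂ),
      ∫ z in Ω, ∑ ν ∈ S, c ν * ch ν z = ∑ ν ∈ S, c ν * l ν := by
    intro S c
    rw [integral_finsetSum]
    · refine Finset.sum_congr rfl fun ν _ => ?_
      rw [hl]
      exact integral_const_mul _ _
    · intro ν _
      exact hint _ (continuous_const.mul (ch_cont ν))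
  have hbes : ∀ T : Finset GI, ∑ ξ ∈ T, ‖l ξ‖ ^ 2 ≤ 4 * B := by
    intro T
    have h1 := hbd (fun z => ∑ ξ ∈ T, (starRingEnd ℂ) (l ξ) * ch ξ z) (cont_tp _ _) (per_tp _ _)
    rw [hlin T (fun ξ => (starRingEnd ℂ) (l ξ)),
      parseval T (fun ξ => (starRingEnd ℂ) (l ξ))] at h1
    have h2 : ∑ ξ ∈ T, (starRingEnd ℂ) (l ξ) * l ξ = ((∑ ξ ∈ T, ‖l ξ‖ ^ 2 : ℝ) : ℂ) := by
      push_cast
      refine Finset.sum_congr rfl fun ξ _ => ?_
      rw [mul_comm, Complex.mul_conj, Complex.normSq_eq_norm_sq]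
      push_cast
      rfl
    have h3 : ∀ ξ, ‖(starRingEnd ℂ) (l ξ)‖ = ‖l ξ‖ := fun ξ => RCLike.norm_conj _
    rw [h2] at h1
    simp_rw [h3] at h1
    obtain ⟨s, hs⟩ : ∃ s, s = ∑ ξ ∈ T, ‖l ξ‖ ^ 2 := ⟨_, rfl⟩
    have hs0 : 0 ≤ s := by
      rw [hs]
      exact Finset.sum_nonneg fun _ _ => by positivity
    rw [← hs] at h1 ⊢
    rw [Complex.norm_real, Real.norm_of_nonneg hs0, ← Real.sqrt_mul hB0] at h1
    have h4 : s ^ 2 ≤ B * (4 * s) := by
      calc s ^ 2 ≤ (√(B * (4 * s))) ^ 2 := pow_le_pow_left₀ hs0 h1 2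
        _ = B * (4 * s) := Real.sq_sqrt (by positivity)
    rcases hs0.eq_or_lt with h5 | h5
    · rw [← h5]
      positivity
    · by_contra hcon
      push Not at hcon
      nlinarith
  have hsum : Summable fun ξ => ‖l ξ‖ ^ 2 := summable_of_sum_le (fun _ => sq_nonneg _) hbes
  obtain ⟨T, hT⟩ := summable_iff_vanishing_norm.1 hsum (4 * ε ^ 2) (by positivity)
  refine ⟨T, fun ξ => l ξ / 4, ?_⟩
  have htp : ∀ (S : Finset GI) (c : GI → ℂ),
      ‖(∫ z in Ω, ∑ ν ∈ S, c ν * ch ν z) - ∫ z in cell 2, (∑ ξ ∈ T, l ξ / 4 * ch (-ξ) z) *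
        ∑ ν ∈ S, c ν * ch ν z‖ ≤ ε * √(∫ z in cell 2, ‖∑ ν ∈ S, c ν * ch ν z‖ ^ 2) := by
    intro S c
    rw [hlin, parseval]
    have h1 : ∫ z in cell 2, (∑ ξ ∈ T, l ξ / 4 * ch (-ξ) z) * ∑ ν ∈ S, c ν * ch ν z =
        ∑ ν ∈ S ∩ T, c ν * l ν := by
      have h2 : ∀ z, (∑ ξ ∈ T, l ξ / 4 * ch (-ξ) z) * ∑ ν ∈ S, c ν * ch ν z =
          ∑ ν ∈ S, ∑ ξ ∈ T, (c ν * (l ξ / 4)) * ch (ν + -ξ) z := by
        intro z
        rw [mul_comm, Finset.sum_mul_sum]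
        refine Finset.sum_congr rfl fun ν _ => Finset.sum_congr rfl fun ξ _ => ?_
        rw [ch_add]
        ring
      simp_rw [h2]
      rw [csum S (fun ν z => ∑ ξ ∈ T, (c ν * (l ξ / 4)) * ch (ν + -ξ) z)
        (fun ν _ => continuous_finsetSum _ fun ξ _ => continuous_const.mul (ch_cont _))]
      have h3 : ∀ ν, ∫ z in cell 2, ∑ ξ ∈ T, (c ν * (l ξ / 4)) * ch (ν + -ξ) z =
          if ν ∈ T then c ν * l ν else 0 := by
        intro ν
        rw [csum T (fun ξ z => (c ν * (l ξ / 4)) * ch (ν + -ξ) z)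
          (fun ξ _ => continuous_const.mul (ch_cont _))]
        have h4 : ∀ ξ, ∫ z in cell 2, (c ν * (l ξ / 4)) * ch (ν + -ξ) z =
            if ν = ξ then c ν * l ξ else 0 := by
          intro ξ
          rw [integral_const_mul, int_ch]
          by_cases h5 : ν = ξ
          · rw [if_pos h5, if_pos (by rw [h5]; exact add_neg_cancel ξ)]
            ring
          · rw [if_neg h5, if_neg (fun h6 => h5 (by
              have := eq_neg_of_add_eq_zero_left h6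
              rwa [neg_neg] at this)), mul_zero]
        simp_rw [h4]
        rw [Finset.sum_ite_eq]
      simp_rw [h3]
      rw [← Finset.sum_filter, Finset.filter_mem_eq_inter]
    rw [h1]
    have h2 : ∑ ν ∈ S, c ν * l ν - ∑ ν ∈ S ∩ T, c ν * l ν = ∑ ν ∈ S \ T, c ν * l ν := by
      rw [← Finset.sum_inter_add_sum_sdiff S T]
      ring
    rw [h2]
    have h3 : ‖∑ ν ∈ S \ T, c ν * l ν‖ ≤
        √(∑ ν ∈ S \ T, ‖c ν‖ ^ 2) * √(∑ ν ∈ S \ T, ‖l ν‖ ^ 2) := by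
      refine (norm_sum_le _ _).trans ?_
      simp_rw [norm_mul]
      exact Real.sum_mul_le_sqrt_mul_sqrt _ _ _
    have h4 := hT (S \ T) Finset.sdiff_disjoint
    rw [Real.norm_of_nonneg (Finset.sum_nonneg fun _ _ => by positivity)] at h4
    have h5 : √(∑ ν ∈ S \ T, ‖l ν‖ ^ 2) ≤ 2 * ε := by
      rw [Real.sqrt_le_left (by positivity)]
      nlinarith
    have h6 : √(∑ ν ∈ S \ T, ‖c ν‖ ^ 2) ≤ √(∑ ν ∈ S, ‖c ν‖ ^ 2) := by
      apply Real.sqrt_le_sqrt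
      exact Finset.sum_le_sum_of_subset_of_nonneg Finset.sdiff_subset fun _ _ _ => by positivity
    have h7 : √(4 * ∑ ν ∈ S, ‖c ν‖ ^ 2) = 2 * √(∑ ν ∈ S, ‖c ν‖ ^ 2) := by
      rw [Real.sqrt_mul (by norm_num), show (4 : ℝ) = 2 ^ 2 by norm_num,
        Real.sqrt_sq (by norm_num)]
    rw [h7]
    calc ‖∑ ν ∈ S \ T, c ν * l ν‖ ≤ √(∑ ν ∈ S \ T, ‖c ν‖ ^ 2) * √(∑ ν ∈ S \ T, ‖l ν‖ ^ 2) := h3
      _ ≤ √(∑ ν ∈ S, ‖c ν‖ ^ 2) * (2 * ε) :=
          mul_le_mul h6 h5 (Real.sqrt_nonneg _) (Real.sqrt_nonneg _)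
      _ = ε * (2 * √(∑ ν ∈ S, ‖c ν‖ ^ 2)) := by ring
  intro G hG hGp
  have h := fun n : ℕ => hUNI G hG hGp (1 / ((n : ℝ) + 1)) (by positivity)
  choose S c hSc using h
  have hδ : Tendsto (fun n : ℕ => 1 / ((n : ℝ) + 1)) atTop (𝓝 0) :=
    tendsto_one_div_add_atTop_nhds_zero_nat
  have hcell : volume (cell 2) < ⊤ := cell_bdd.measure_lt_top
  have hclose : ∀ n z, ‖(∑ ξ ∈ S n, c n ξ * ch ξ z) - G z‖ ≤ 1 / ((n : ℝ) + 1) := by
    intro n z
    rw [norm_sub_rev]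
    exact hSc n z
  have t1 := tendsto_int Ω hvol.lt_top (fun n z => ∑ ξ ∈ S n, c n ξ * ch ξ z) G
    (fun n => hint _ (cont_tp _ _)) (hint _ hG) _ hδ (fun n z _ => hclose n z)
  obtain ⟨M, hM⟩ : ∃ M, M = ∑ ξ ∈ T, ‖l ξ / 4‖ := ⟨_, rfl⟩
  have hM0 : 0 ≤ M := by
    rw [hM]
    exact Finset.sum_nonneg fun _ _ => norm_nonneg _
  have hQ : ∀ z, ‖∑ ξ ∈ T, l ξ / 4 * ch (-ξ) z‖ ≤ M := by
    intro z
    refine (norm_sum_le _ _).trans ?_
    rw [hM]
    refine Finset.sum_le_sum fun ξ _ => ?_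
    rw [norm_mul, norm_ch, mul_one]
  have hQc : Continuous fun z => ∑ ξ ∈ T, l ξ / 4 * ch (-ξ) z :=
    continuous_finsetSum _ fun ξ _ => continuous_const.mul (ch_cont _)
  have hδ2 : Tendsto (fun n : ℕ => M * (1 / ((n : ℝ) + 1))) atTop (𝓝 0) := by
    have := hδ.const_mul M
    rwa [mul_zero] at this
  have t2 := tendsto_int (cell 2) hcell
    (fun n z => (∑ ξ ∈ T, l ξ / 4 * ch (-ξ) z) * ∑ ξ ∈ S n, c n ξ * ch ξ z)
    (fun z => (∑ ξ ∈ T, l ξ / 4 * ch (-ξ) z) * G z)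
    (fun n => cell_integrable 2 (hQc.mul (cont_tp _ _))) (cell_integrable 2 (hQc.mul hG)) _ hδ2
    (fun n z _ => by
      rw [← mul_sub, norm_mul]
      exact mul_le_mul (hQ z) (hclose n z) (norm_nonneg _) hM0)
  obtain ⟨D, hD⟩ : ∃ D : ℝ, ∀ z ∈ Metric.closedBall (0 : ℂ) (2 * |(2 : ℝ)|), ‖G z‖ ≤ D :=
    (isCompact_closedBall (0 : ℂ) (2 * |(2 : ℝ)|)).exists_bound_of_continuousOn hG.continuousOn
  have hδ3 : Tendsto (fun n : ℕ => (1 / ((n : ℝ) + 1)) * (2 * D + 1)) atTop (𝓝 0) := by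
    have := hδ.mul_const (2 * D + 1)
    rwa [zero_mul] at this
  have t3 := tendsto_int (cell 2) hcell (fun n z => ‖∑ ξ ∈ S n, c n ξ * ch ξ z‖ ^ 2)
    (fun z => ‖G z‖ ^ 2) (fun n => cell_integrable 2 ((cont_tp _ _).norm.pow 2))
    (cell_integrable 2 (hG.norm.pow 2)) _ hδ3
    (fun n z hz => by
      have a1 := hclose n z
      have a2 := hD z (cell_sub 2 hz)
      have a3 : |‖∑ ξ ∈ S n, c n ξ * ch ξ z‖ - ‖G z‖| ≤ 1 / ((n : ℝ) + 1) :=
        (abs_norm_sub_norm_le _ _).trans a1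
      have a4 : 1 / ((n : ℝ) + 1) ≤ 1 := by
        rw [div_le_one (by positivity)]
        linarith [Nat.cast_nonneg (α := ℝ) n]
      have a5 := abs_le.1 a3
      have a6 : 0 ≤ 1 / ((n : ℝ) + 1) := by positivity
      have a7 : ‖∑ ξ ∈ S n, c n ξ * ch ξ z‖ ^ 2 - ‖G z‖ ^ 2 =
          (‖∑ ξ ∈ S n, c n ξ * ch ξ z‖ - ‖G z‖) * (‖∑ ξ ∈ S n, c n ξ * ch ξ z‖ + ‖G z‖) := by
        ring
      rw [a7, norm_mul, Real.norm_eq_abs, Real.norm_eq_abs,
        abs_of_nonneg (add_nonneg (norm_nonneg _) (norm_nonneg _))]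
      apply mul_le_mul a3 _ (add_nonneg (norm_nonneg _) (norm_nonneg _)) a6
      linarith)
  have t4 := t3.sqrt.const_mul ε
  exact le_of_tendsto_of_tendsto' (t1.sub t2).norm t4 fun n => htp (S n) (c n)

end

end Pool.Agent.L0h77.BW
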