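import Pool.Agent.L0h77.BW.Defs

/-! MP_6b977f_mp, project BW, module BD: divisors -/

set_option autoImplicit false

namespace Pool.Agent.L0h77.BW

open Pool.Agent.L0h56.BQ
open Finset

namespace BDaux

theorem norm_mul' (a b : GI) : (a * b).norm = a.norm * b.norm := Zsqrtd.norm_mul a b

theorem norm_nn (a : GI) : 0 ≤ a.norm := GaussianInt.norm_nonneg a

/-- the inert primes -/
theorem inert_one (p : ℕ) (hp : p.Prime) (h3 : p % 4 = 3) (ν : GI) (h : (p : ℤ) ∣ ν.norm) :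
    (p : GI) ∣ ν := by
  have := Fact.mk hp
  have hpi : Prime (p : GI) := (GaussianInt.prime_iff_mod_four_eq_three_of_nat_prime p).2 h3
  have h1 : (p : GI) ∣ ν * star ν := by
    have h2 := Zsqrtd.norm_eq_mul_conj ν
    rw [← h2]
    obtain ⟨c, hc⟩ := h
    refine ⟨(c : GI), ?_⟩
    rw [hc]
    push_cast
    rfl
  rcases hpi.dvd_or_dvd h1 with h2 | h2
  · exact h2
  · obtain ⟨c, hc⟩ := h2
    refine ⟨star c, ?_⟩
    have h3 := congrArg star hc
    rw [star_star, star_mul'] at h3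
    rw [h3]
    simp

theorem inert_pow (p : ℕ) (hp : p.Prime) (h3 : p % 4 = 3) : ∀ (a : ℕ) (ν : GI),
    (p : ℤ) ^ a ∣ ν.norm → (p : GI) ^ ((a + 1) / 2) ∣ ν := by
  intro a
  induction a using Nat.strong_induction_on with
  | _ a ih =>
    intro ν h
    rcases Nat.lt_or_ge a 2 with ha | ha
    · interval_cases a
      · simp
      · rw [pow_one] at h
        simpa using inert_one p hp h3 ν h
    · obtain ⟨μ, hμ⟩ := inert_one p hp h3 ν ((dvd_pow_self _ (by omega)).trans h)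
      obtain ⟨b, rfl⟩ : ∃ b, a = b + 2 := ⟨a - 2, by omega⟩
      have hpn : (p : GI).norm = (p : ℤ) ^ 2 := by
        rw [norm_eq]
        simp
      have h4 : (p : ℤ) ^ b ∣ μ.norm := by
        rw [hμ, norm_mul', hpn, pow_add, mul_comm] at h
        have hp0 : (p : ℤ) ^ 2 ≠ 0 := pow_ne_zero _ (by exact_mod_cast hp.ne_zero)
        exact (mul_dvd_mul_iff_left hp0).1 h
      have h5 := ih b (by omega) μ h4
      have h6 : (b + 2 + 1) / 2 = (b + 1) / 2 + 1 := by omega
      rw [h6, hμ, pow_succ, mul_comm]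
      exact mul_dvd_mul_left _ h5

/-- the prime `2` -/
def ii : GI := ⟨1, 1⟩

theorem norm_ii : ii.norm = 2 := by
  rw [norm_eq]
  simp [ii]

theorem two_one (ν : GI) (h : (2 : ℤ) ∣ ν.norm) : ii ∣ ν := by
  rw [norm_eq] at h
  have h1 : (2 : ℤ) ∣ ν.re + ν.im := by
    have h2 : (2 : ℤ) ∣ (ν.re + ν.im) ^ 2 := by
      have : (ν.re + ν.im) ^ 2 = (ν.re ^ 2 + ν.im ^ 2) + 2 * (ν.re * ν.im) := by ring
      rw [this]
      exact dvd_add h (Dvd.intro _ rfl)
    exact Int.prime_two.dvd_of_dvd_pow h2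
  obtain ⟨c, hc⟩ := h1
  refine ⟨⟨c, c - ν.re⟩, ?_⟩
  refine Zsqrtd.ext ?_ ?_
  · simp [ii]
  · simp [ii]
    linarith

theorem two_pow (a : ℕ) : ∀ ν : GI, (2 : ℤ) ^ a ∣ ν.norm → ii ^ a ∣ ν := by
  induction a with
  | zero => intro ν _; simp
  | succ a ih =>
    intro ν h
    obtain ⟨μ, hμ⟩ := two_one ν ((dvd_pow_self _ (by omega)).trans h)
    have h4 : (2 : ℤ) ^ a ∣ μ.norm := by
      rw [hμ, norm_mul', norm_ii, pow_succ, mul_comm] at h
      exact (mul_dvd_mul_iff_left (by norm_num)).1 h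
    rw [hμ, pow_succ, mul_comm]
    exact mul_dvd_mul_left _ (ih μ h4)

theorem norm_pow' (a : GI) (n : ℕ) : (a ^ n).norm = a.norm ^ n := by
  induction n with
  | zero => simp
  | succ n ih => rw [pow_succ, norm_mul', ih, pow_succ]

/-- the statement for induction -/
def PD (D : ℕ) : Prop := ∃ B : Finset GI, B.card ≤ D.divisors.card ∧
  (∀ β ∈ B, (D : ℤ) ≤ β.norm) ∧ (∀ β ∈ B, ∀ q : ℕ, q.Prime → (q : ℤ) ∣ β.norm → q ∣ D) ∧
  ∀ ν : GI, (D : ℤ) ∣ ν.norm → ∃ β ∈ B, β ∣ ν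

theorem prime_pow_dvd {p q a : ℕ} (hp : p.Prime) (hq : q.Prime) (h : (q : ℤ) ∣ (p : ℤ) ^ a)
    (b : ℕ) (hb : 0 < b) : q ∣ p ^ b := by
  have h1 : q ∣ p ^ a := by exact_mod_cast h
  have h2 := hq.dvd_of_dvd_pow h1
  exact h2.trans (dvd_pow_self _ hb.ne')

theorem pd_prime_pow (p a : ℕ) (hp : p.Prime) (ha : 0 < a) : PD (p ^ a) := by
  have hdc : (p ^ a).divisors.card = a + 1 := by
    rw [Nat.divisors_prime_pow hp, Finset.card_map, Finset.card_range]
  rcases hp.eq_two_or_odd with h2 | hodd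
  · subst h2
    refine ⟨{ii ^ a}, ?_, ?_, ?_, ?_⟩
    · rw [hdc, Finset.card_singleton]; omega
    · intro β hβ
      rw [Finset.mem_singleton.1 hβ, norm_pow', norm_ii]
      push_cast
      exact le_rfl
    · intro β hβ q hq hqd
      rw [Finset.mem_singleton.1 hβ, norm_pow', norm_ii] at hqd
      exact prime_pow_dvd Nat.prime_two hq (by exact_mod_cast hqd) a ha
    · intro ν hν
      exact ⟨_, Finset.mem_singleton_self _, two_pow a ν (by exact_mod_cast hν)⟩
  · have h4 : p % 4 = 1 ∨ p % 4 = 3 := by omega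
    rcases h4 with h1 | h3
    · obtain ⟨ϖ, hϖ⟩ := spl_exists p hp h1
      classical
      refine ⟨(Finset.range (a + 1)).image fun j => ϖ ^ j * (star ϖ) ^ (a - j), ?_, ?_, ?_, ?_⟩
      · rw [hdc]
        exact Finset.card_image_le.trans (by rw [Finset.card_range])
      · intro β hβ
        obtain ⟨j, hj, rfl⟩ := Finset.mem_image.1 hβ
        have := Finset.mem_range.1 hj
        rw [hϖ.norm_pow_mul, show j + (a - j) = a by omega]
        push_cast
        exact le_rfl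
      · intro β hβ q hq hqd
        obtain ⟨j, hj, rfl⟩ := Finset.mem_image.1 hβ
        rw [hϖ.norm_pow_mul] at hqd
        exact prime_pow_dvd hp hq hqd a ha
      · intro ν hν
        obtain ⟨j, hj, hj1, hj2⟩ := hϖ.split a ν (by exact_mod_cast hν)
        exact ⟨_, Finset.mem_image.2 ⟨j, Finset.mem_range.2 (by omega), rfl⟩,
          hϖ.both j (a - j) ν hj1 hj2⟩
    · have hpn : (p : GI).norm = (p : ℤ) ^ 2 := by
        rw [norm_eq]
        simp
      refine ⟨{(p : GI) ^ ((a + 1) / 2)}, ?_, ?_, ?_, ?_⟩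
      · rw [hdc, Finset.card_singleton]; omega
      · intro β hβ
        rw [Finset.mem_singleton.1 hβ, norm_pow', hpn, ← pow_mul]
        push_cast
        exact pow_le_pow_right₀ (by exact_mod_cast hp.one_le) (by omega)
      · intro β hβ q hq hqd
        rw [Finset.mem_singleton.1 hβ, norm_pow', hpn, ← pow_mul] at hqd
        exact prime_pow_dvd hp hq hqd a ha
      · intro ν hν
        exact ⟨_, Finset.mem_singleton_self _, inert_pow p hp h3 a ν (by exact_mod_cast hν)⟩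

theorem coprime_of_norm {α β : GI} (h : IsCoprime α.norm β.norm) : IsCoprime α β := by
  obtain ⟨u, v, huv⟩ := h
  refine ⟨(u : GI) * star α, (v : GI) * star β, ?_⟩
  have h1 := Zsqrtd.norm_eq_mul_conj α
  have h2 := Zsqrtd.norm_eq_mul_conj β
  have h3 : ((u * α.norm + v * β.norm : ℤ) : GI) = 1 := by rw [huv]; simp
  rw [← h3]
  push_cast
  rw [h1, h2]
  ring

theorem pd_mul (a b : ℕ) (ha : 1 < a) (hb : 1 < b) (hab : a.Coprime b) (hA : PD a) (hB : PD b) :
    PD (a * b) := by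
  classical
  obtain ⟨A, hA1, hA2, hA3, hA4⟩ := hA
  obtain ⟨B, hB1, hB2, hB3, hB4⟩ := hB
  refine ⟨(A ×ˢ B).image fun x => x.1 * x.2, ?_, ?_, ?_, ?_⟩
  · refine Finset.card_image_le.trans ?_
    rw [Finset.card_product, hab.card_divisors_mul]
    exact Nat.mul_le_mul hA1 hB1
  · intro β hβ
    obtain ⟨⟨x, y⟩, hx, rfl⟩ := Finset.mem_image.1 hβ
    obtain ⟨h1, h2⟩ := Finset.mem_product.1 hx
    rw [norm_mul']
    push_cast
    exact mul_le_mul (hA2 x h1) (hB2 y h2) (by positivity) (norm_nn x)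
  · intro β hβ q hq hqd
    obtain ⟨⟨x, y⟩, hx, rfl⟩ := Finset.mem_image.1 hβ
    obtain ⟨h1, h2⟩ := Finset.mem_product.1 hx
    rw [norm_mul'] at hqd
    rcases (Nat.prime_iff_prime_int.1 hq).dvd_or_dvd hqd with h | h
    · exact (hA3 x h1 q hq h).mul_right _
    · exact (hB3 y h2 q hq h).mul_left _
  · intro ν hν
    push_cast at hν
    obtain ⟨α, hα, hα'⟩ := hA4 ν ((Dvd.intro _ rfl).trans hν)
    obtain ⟨β, hβ, hβ'⟩ := hB4 ν ((Dvd.intro_left _ rfl).trans hν)
    refine ⟨α * β, Finset.mem_image.2 ⟨(α, β), Finset.mem_product.2 ⟨hα, hβ⟩, rfl⟩, ?_⟩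
    refine IsCoprime.mul_dvd (coprime_of_norm ?_) hα' hβ'
    rw [Int.isCoprime_iff_gcd_eq_one]
    by_contra hne
    obtain ⟨q, hq, hqd⟩ := Nat.exists_prime_and_dvd hne
    have h1 : (q : ℤ) ∣ α.norm := (Int.natCast_dvd_natCast.2 hqd).trans (Int.gcd_dvd_left _ _)
    have h2 : (q : ℤ) ∣ β.norm := (Int.natCast_dvd_natCast.2 hqd).trans (Int.gcd_dvd_right _ _)
    have h3 := hA3 α hα q hq h1
    have h4 := hB3 β hβ q hq h2
    have h5 := Nat.dvd_gcd h3 h4
    rw [hab] at h5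
    exact hq.one_lt.ne' (Nat.dvd_one.1 h5)

theorem pd_all (D : ℕ) (hD : 0 < D) : PD D := by
  induction D using Nat.recOnPosPrimePosCoprime with
  | zero => exact absurd hD (lt_irrefl 0)
  | one =>
    refine ⟨{1}, ?_, ?_, ?_, ?_⟩
    · simp
    · intro β hβ
      rw [Finset.mem_singleton.1 hβ]
      simp
    · intro β hβ q hq hqd
      rw [Finset.mem_singleton.1 hβ] at hqd
      simp only [Zsqrtd.norm_one] at hqd
      exact_mod_cast hqd
    · intro ν _
      exact ⟨1, Finset.mem_singleton_self _, one_dvd _⟩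
  | prime_pow p n hp hn => exact pd_prime_pow p n hp hn
  | coprime a b ha hb hab iha ihb =>
    exact pd_mul a b ha hb hab (iha (by omega)) (ihb (by omega))

end BDaux

theorem BD : S_BD := by
  intro D hD
  obtain ⟨B, h1, h2, _, h4⟩ := BDaux.pd_all D hD
  exact ⟨B, h1, h2, h4⟩

end Pool.Agent.L0h77.BW
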