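import Pool.Agent.L0h77.BW.Defs

/-! BW: CLS, most energies are good (helper71) -/

set_option autoImplicit false
open MeasureTheory Filter Topology Complex
open scoped ContDiff

namespace Pool.Agent.L0h77.BW

open Pool.Agent.L0h56.BQ

open Classical in
theorem cls_cnt_mono {P Q : ℕ → Prop} {X : ℕ} (h : ∀ e, 1 ≤ e → e ≤ X → P e → Q e) :
    cnt P X ≤ cnt Q X := by
  unfold cnt
  apply Finset.sum_le_sum_of_subset
  intro e he
  rw [Finset.mem_filter, Finset.mem_Icc] at he ⊢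
  exact ⟨he.1, h e he.1.1 he.1.2 he.2⟩

open Classical in
theorem cnt_false {P : ℕ → Prop} {X : ℕ} (h : ∀ e, 1 ≤ e → e ≤ X → ¬ P e) : cnt P X = 0 := by
  unfold cnt
  rw [Finset.filter_false_of_mem, Finset.sum_empty]
  intro e he
  rw [Finset.mem_Icc] at he
  exact h e he.1 he.2

theorem cnt_eq (P : ℕ → Prop) [DecidablePred P] (X : ℕ) :
    cnt P X = ∑ e ∈ Finset.Icc 1 X, if P e then (V e).card else 0 := by
  unfold cnt
  rw [Finset.sum_filter]
  refine Finset.sum_congr rfl fun e _ => ?_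
  split_ifs <;> rfl

open Classical in
theorem cnt_exists (Q : ℕ → ℕ → Prop) (J X : ℕ) :
    cnt (fun e => ∃ j < J, Q j e) X ≤ ∑ j ∈ Finset.range J, cnt (Q j) X := by
  have h1 : ∀ j, cnt (Q j) X = ∑ e ∈ Finset.Icc 1 X, if Q j e then (V e).card else 0 :=
    fun j => cnt_eq (Q j) X
  rw [cnt_eq, Finset.sum_congr rfl fun j _ => h1 j, Finset.sum_comm]
  refine Finset.sum_le_sum fun e _ => ?_
  split_ifs with h
  · obtain ⟨j, hj, hQ⟩ := h
    have h2 := Finset.single_le_sum (f := fun j => if Q j e then (V e).card else 0)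
      (fun i _ => Nat.zero_le _) (Finset.mem_range.2 hj)
    simp only [if_pos hQ] at h2
    exact h2
  · exact Nat.zero_le _

open Classical in
theorem cnt_or (P Q : ℕ → Prop) (X : ℕ) :
    cnt (fun e => P e ∨ Q e) X ≤ cnt P X + cnt Q X := by
  rw [cnt_eq, cnt_eq P, cnt_eq Q, ← Finset.sum_add_distrib]
  refine Finset.sum_le_sum fun e _ => ?_
  by_cases h1 : P e <;> by_cases h2 : Q e <;> simp [h1, h2]

open Classical in
/-- from large `X` to all `X` -/
theorem cnt_tail {P : ℕ → Prop} {ε : ℝ} (hε : 0 < ε) (h : ∀ᶠ X : ℕ in atTop, (cnt P X : ℝ) ≤ ε * X)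
    (j : ℕ) : ∃ T : ℕ, j ≤ T ∧ ∀ X : ℕ, (cnt (fun e => T < e ∧ P e) X : ℝ) ≤ ε * X := by
  obtain ⟨T, hT⟩ := eventually_atTop.1 h
  refine ⟨max j T, le_max_left _ _, fun X => ?_⟩
  rcases Nat.lt_or_ge (max j T) X with hX | hX
  · have h1 : cnt (fun e => max j T < e ∧ P e) X ≤ cnt P X := cls_cnt_mono fun e _ _ he => he.2
    have h2 := hT X ((le_max_right _ _).trans hX.le)
    exact le_trans (by exact_mod_cast h1) h2
  · have h1 : cnt (fun e => max j T < e ∧ P e) X = 0 := by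
      apply cnt_false
      intro e _ he hcon
      have := hcon.1
      omega
    rw [h1, Nat.cast_zero]
    positivity

theorem CLS (hNB : S_NB) (hNC : S_NC) : S_CLS := by
  classical
  intro ε hε
  have hεj : ∀ j : ℕ, 0 < ε / 2 ^ (j + 3) := fun j => by positivity
  have hA : ∀ j : ℕ, ∃ T : ℕ, j ≤ T ∧ ∀ X : ℕ,
      (cnt (fun e => T < e ∧ ¬ NoSmall j.unpair.1 j.unpair.2 e) X : ℝ) ≤ ε / 2 ^ (j + 3) * X :=
    fun j => cnt_tail (hεj j) (hNB j.unpair.1 j.unpair.2 _ (hεj j)) j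
  choose T1 hT1 hA using hA
  have hB : ∀ j : ℕ, ∃ M T : ℕ, j ≤ T ∧ ∀ X : ℕ,
      (cnt (fun e => T < e ∧ M < rc j e) X : ℝ) ≤ ε / 2 ^ (j + 3) * X := by
    intro j
    obtain ⟨M, hM⟩ := hNC j _ (hεj j)
    obtain ⟨T, h1, h2⟩ := cnt_tail (hεj j) hM j
    exact ⟨M, T, h1, h2⟩
  choose M T2 hT2 hB using hB
  set S : Set ℕ := {e | ∀ j, (T1 j < e → NoSmall j.unpair.1 j.unpair.2 e) ∧
    (T2 j < e → rc j e ≤ M j)} with hS
  refine ⟨S, fun X => ?_, fun E hES hpos htop κ hκ0 hκ => ?_⟩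
  · have h1 : cnt (fun e => e ∉ S) X ≤ cnt (fun e => ∃ j < X,
        ((T1 j < e ∧ ¬ NoSmall j.unpair.1 j.unpair.2 e) ∨ (T2 j < e ∧ M j < rc j e))) X := by
      apply cls_cnt_mono
      intro e _ heX he
      rw [hS, Set.mem_ofPred_eq, not_forall] at he
      obtain ⟨j, hj⟩ := he
      rw [not_and_or, Classical.not_imp, Classical.not_imp, not_le] at hj
      refine ⟨j, ?_, hj⟩
      rcases hj with h | h
      · have := hT1 j
        omega
      · have := hT2 j
        omega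
    have h2 := h1.trans (cnt_exists _ X X)
    have h3 : ∀ j, cnt (fun e => (T1 j < e ∧ ¬ NoSmall j.unpair.1 j.unpair.2 e) ∨
        (T2 j < e ∧ M j < rc j e)) X ≤ cnt (fun e => T1 j < e ∧ ¬ NoSmall j.unpair.1 j.unpair.2 e) X +
        cnt (fun e => T2 j < e ∧ M j < rc j e) X := by
      exact fun j => cnt_or _ _ X
    have h4 : (cnt (fun e => e ∉ S) X : ℝ) ≤ ∑ j ∈ Finset.range X,
        (ε / 2 ^ (j + 3) * X + ε / 2 ^ (j + 3) * X) := by
      have h5 := h2.trans (Finset.sum_le_sum fun j _ => h3 j)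
      have h6 : (cnt (fun e => e ∉ S) X : ℝ) ≤ ∑ j ∈ Finset.range X,
          ((cnt (fun e => T1 j < e ∧ ¬ NoSmall j.unpair.1 j.unpair.2 e) X : ℝ) +
          (cnt (fun e => T2 j < e ∧ M j < rc j e) X : ℝ)) := by exact_mod_cast h5
      exact h6.trans (Finset.sum_le_sum fun j _ => add_le_add (hA j X) (hB j X))
    refine h4.trans ?_
    have h7 : ∀ J : ℕ, ∑ j ∈ Finset.range J, (1 / (2 : ℝ) ^ (j + 3)) ≤ 1 / 4 := by
      intro J
      have h8 : ∑ j ∈ Finset.range J, (1 / (2 : ℝ) ^ (j + 3)) = 1 / 4 - 1 / 2 ^ (J + 2) := by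
        induction J with
        | zero => norm_num
        | succ J ih =>
          have e1 : (2 : ℝ) ^ (J + 1 + 2) = 2 ^ (J + 2) * 2 := by rw [← pow_succ]
          rw [Finset.sum_range_succ, ih, e1]
          field_simp
          ring
      rw [h8]
      have : (0 : ℝ) < 1 / 2 ^ (J + 2) := by positivity
      linarith
    have h9 : ∑ j ∈ Finset.range X, (ε / 2 ^ (j + 3) * X + ε / 2 ^ (j + 3) * X) =
        2 * ε * X * ∑ j ∈ Finset.range X, (1 / (2 : ℝ) ^ (j + 3)) := by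
      rw [Finset.mul_sum]
      refine Finset.sum_congr rfl fun j _ => ?_
      ring
    rw [h9]
    have h10 : (0 : ℝ) ≤ 2 * ε * X := by positivity
    calc 2 * ε * X * ∑ j ∈ Finset.range X, (1 / (2 : ℝ) ^ (j + 3)) ≤ 2 * ε * X * (1 / 4) :=
          mul_le_mul_of_nonneg_left (h7 X) h10
      _ ≤ ε * X := by
          have : (0 : ℝ) ≤ ε * X := by positivity
          linarith
  · refine ⟨hpos, htop, hκ, hκ0, fun k R => ?_, fun b => ?_⟩
    · filter_upwards [htop.eventually_gt_atTop (T1 (Nat.pair k R))] with n hn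
      have h1 := (hES n (Nat.pair k R)).1 hn
      rwa [Nat.unpair_pair] at h1
    · have h1 : Tendsto (fun n => κ n * (M b : ℝ)) atTop (𝓝 (0 * (M b : ℝ))) := hκ.mul_const _
      rw [zero_mul] at h1
      refine squeeze_zero' (Eventually.of_forall fun n => mul_nonneg (hκ0 n) (Nat.cast_nonneg _)) ?_ h1
      filter_upwards [htop.eventually_gt_atTop (T2 b)] with n hn
      have h2 := (hES n b).2 hn
      exact mul_le_mul_of_nonneg_left (by exact_mod_cast h2) (hκ0 n)

end Pool.Agent.L0h77.BW
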