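import Pool.Agent.L0h77.BW.Defs

/-! Module CNT of project BW (helper6). -/

set_option autoImplicit false
open MeasureTheory Filter Topology Complex

namespace Pool.Agent.L0h77.BW

open Pool.Agent.L0h56.BQ

theorem CNT : S_CNT := by
  classical
  refine ⟨fun e he => ⟨?_, ?_⟩, ?_⟩
  · unfold dirM neuM
    refine Finset.card_le_card fun p hp => ?_
    rw [Finset.mem_filter] at *
    exact ⟨hp.1, hp.2.2.2⟩
  · unfold neuM
    refine Finset.card_le_card_of_injOn (fun p => (⟨(p.1 : ℤ), (p.2 : ℤ)⟩ : GI)) ?_ ?_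
    · intro p hp
      rw [Finset.mem_coe, Finset.mem_filter] at hp
      rw [Finset.mem_coe, mem_V, norm_eq]
      show (p.1 : ℤ) ^ 2 + (p.2 : ℤ) ^ 2 = (e : ℤ)
      exact_mod_cast hp.2
    · intro p _ q _ h
      have h1 := congrArg Zsqrtd.re h
      have h2 := congrArg Zsqrtd.im h
      simp only at h1 h2
      exact Prod.ext (by exact_mod_cast h1) (by exact_mod_cast h2)
  · filter_upwards [eventually_ge_atTop 2] with X hX
    set s := Nat.sqrt (X / 2) with hs
    have hs1 : 1 ≤ s := by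
      rw [hs, Nat.le_sqrt]
      omega
    have hs2 : s * s ≤ X / 2 := Nat.sqrt_le _
    have hs3 : X / 2 < (s + 1) * (s + 1) := Nat.lt_succ_sqrt _
    have hcard : s * s ≤ ∑ e ∈ Finset.Icc 1 X, dirM e := by
      have h1 : ((Finset.Icc 1 s ×ˢ Finset.Icc 1 s) : Finset (ℕ × ℕ)).card = s * s := by
        rw [Finset.card_product]; simp
      rw [← h1, Finset.card_eq_sum_card_fiberwise (f := fun p : ℕ × ℕ => p.1 ^ 2 + p.2 ^ 2)
        (t := Finset.Icc 1 X)]
      · refine Finset.sum_le_sum fun e he => ?_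
        unfold dirM
        refine Finset.card_le_card fun p hp => ?_
        rw [Finset.mem_filter, Finset.mem_product, Finset.mem_Icc, Finset.mem_Icc] at hp
        obtain ⟨⟨⟨h1, h2⟩, h3, h4⟩, h5⟩ := hp
        rw [Finset.mem_filter, Finset.mem_product, Finset.mem_range, Finset.mem_range]
        exact ⟨⟨by nlinarith, by nlinarith⟩, by omega, by omega, h5⟩
      · intro p hp
        rw [Finset.mem_coe, Finset.mem_product, Finset.mem_Icc, Finset.mem_Icc] at hp
        obtain ⟨⟨h1, h2⟩, h3, h4⟩ := hp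
        rw [Finset.mem_coe, Finset.mem_Icc]
        constructor
        · show 1 ≤ p.1 ^ 2 + p.2 ^ 2
          nlinarith
        · show p.1 ^ 2 + p.2 ^ 2 ≤ X
          have h5 : p.1 ^ 2 ≤ s * s := by rw [_root_.sq]; exact Nat.mul_le_mul h2 h2
          have h6 : p.2 ^ 2 ≤ s * s := by rw [_root_.sq]; exact Nat.mul_le_mul h4 h4
          omega
    have h7 : X ≤ 16 * (s * s) := by
      have h8 : X ≤ 2 * ((s + 1) * (s + 1)) := by omega
      nlinarith
    calc X ≤ 16 * (s * s) := h7
      _ ≤ _ := Nat.mul_le_mul_left _ hcard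

end Pool.Agent.L0h77.BW
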