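import Pool.Agent.L0h77.BW.Defs

/-! BW: DEN, from energies to indices (helper71) -/

set_option autoImplicit false
open MeasureTheory Filter Topology Complex
open scoped ContDiff

namespace Pool.Agent.L0h77.BW

open Pool.Agent.L0h56.BQ

theorem fin_le {E : ℕ → ℕ} (htop : Tendsto E atTop atTop) (X : ℕ) : {n | E n ≤ X}.Finite := by
  obtain ⟨n0, hn0⟩ := eventually_atTop.1 (htop.eventually_gt_atTop X)
  refine (Set.finite_Iio n0).subset fun n hn => ?_
  rw [Set.mem_Iio]
  by_contra h
  push Not at h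
  have h1 := hn0 n h
  have h2 : E n ≤ X := hn
  omega

open Classical in
theorem DEN : S_DEN := by
  intro E hmono htop hV hlow P ε hε hP
  have hfin := fin_le htop
  have key : ∀ X, ({n | E n ≤ X ∧ P (E n)}.ncard : ℝ) ≤ ({n | E n = 0}.ncard : ℝ) + cnt P X := by
    intro X
    have h1 : {n | E n ≤ X ∧ P (E n)} ⊆ {n | E n = 0} ∪
        ⋃ e ∈ (Finset.Icc 1 X).filter P, {n | E n = e} := by
      rintro n ⟨h1, h2⟩
      rcases Nat.eq_zero_or_pos (E n) with h0 | h0
      · exact Or.inl h0
      · right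
        simp only [Set.mem_iUnion]
        exact ⟨E n, Finset.mem_filter.2 ⟨Finset.mem_Icc.2 ⟨h0, h1⟩, h2⟩, rfl⟩
    have hf0 : {n | E n = 0}.Finite := (hfin 0).subset fun n hn => by
      have h : E n = 0 := hn
      show E n ≤ 0
      omega
    have hf1 : (⋃ e ∈ (Finset.Icc 1 X).filter P, {n | E n = e}).Finite := by
      refine (hfin X).subset fun n hn => ?_
      simp only [Set.mem_iUnion] at hn
      obtain ⟨e, he, hne⟩ := hn
      rw [Finset.mem_filter, Finset.mem_Icc] at he
      have h : E n = e := hne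
      show E n ≤ X
      omega
    have h2 := Set.ncard_le_ncard h1 (hf0.union hf1)
    have h3 := Set.ncard_union_le {n | E n = 0} (⋃ e ∈ (Finset.Icc 1 X).filter P, {n | E n = e})
    have h4 := Finset.set_ncard_biUnion_le ((Finset.Icc 1 X).filter P) fun e => {n | E n = e}
    have h5 : ∑ e ∈ (Finset.Icc 1 X).filter P, {n | E n = e}.ncard ≤ cnt P X := by
      unfold cnt
      refine Finset.sum_le_sum fun e he => hV e ?_
      rw [Finset.mem_filter, Finset.mem_Icc] at he
      omega
    exact_mod_cast h2.trans (h3.trans (Nat.add_le_add_left (h4.trans h5) _))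
  set C0 : ℝ := ({n | E n = 0}.ncard : ℝ) with hC0
  have hC00 : 0 ≤ C0 := Nat.cast_nonneg _
  have h1 := htop.eventually hP
  have h2 := htop.eventually ((tendsto_sub_atTop_nat 1).eventually hlow)
  have h3 := htop.eventually_ge_atTop 1
  have h4 : ∀ᶠ N : ℕ in atTop, C0 + ε ≤ 24 * ε * N := by
    have h5 : Tendsto (fun N : ℕ => 24 * ε * (N : ℝ)) atTop atTop :=
      Tendsto.const_mul_atTop (by positivity) tendsto_natCast_atTop_atTop
    exact h5.eventually_ge_atTop _
  filter_upwards [h1, h2, h3, h4] with N k1 k2 k3 k4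
  have k5 : ((({n | P (E n)} ∩ Set.Iio N).ncard : ℕ) : ℝ) ≤ C0 + cnt P (E N) := by
    refine le_trans ?_ (key (E N))
    have h6 : {n | P (E n)} ∩ Set.Iio N ⊆ {n | E n ≤ E N ∧ P (E n)} := by
      rintro n ⟨hn1, hn2⟩
      exact ⟨hmono (le_of_lt hn2), hn1⟩
    have h7 := Set.ncard_le_ncard h6 ((hfin (E N)).subset fun n hn => hn.1)
    exact_mod_cast h7
  have k6 : {n | E n ≤ E N - 1}.ncard ≤ N := by
    have h6 : {n | E n ≤ E N - 1} ⊆ (Finset.range N : Set ℕ) := by
      intro n hn
      rw [Finset.coe_range, Set.mem_Iio]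
      by_contra h
      push Not at h
      have h8 := hmono h
      have h9 : E n ≤ E N - 1 := hn
      omega
    have h7 := Set.ncard_le_ncard h6 (Finset.finite_toSet _)
    rwa [Set.ncard_coe_finset, Finset.card_range] at h7
  have k7 : E N ≤ 16 * N + 1 := by omega
  have k8 : (E N : ℝ) ≤ 16 * N + 1 := by exact_mod_cast k7
  have k9 : ε * (E N : ℝ) ≤ ε * (16 * N + 1) := mul_le_mul_of_nonneg_left k8 hε.le
  nlinarith

end Pool.Agent.L0h77.BW
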