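import Pool.Agent.L0h77.BW.Defs

/-! BW: DIAG, selection of a subsequence of full density (helper71) -/

set_option autoImplicit false
open MeasureTheory Filter Topology Complex
open scoped ContDiff

namespace Pool.Agent.L0h77.BW

open Pool.Agent.L0h56.BQ

open Classical in
/-- the elements of the complement of a null set -/
theorem full_of_null {B : Set ℕ} (hB : Null B) :
    FullDensity (Nat.nth fun m => m ∉ B) ∧ ∀ i, Nat.nth (fun m => m ∉ B) i ∉ B := by
  set p : ℕ → Prop := fun m => m ∉ B with hp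
  -- the counting function
  have hcount : ∀ N, (Nat.count p N : ℝ) = N - ((B ∩ Set.Iio N).ncard : ℝ) := by
    intro N
    have h1 : Nat.count p N = ((Finset.range N).filter p).card := Nat.count_eq_card_filter_range p N
    have h2 : (B ∩ Set.Iio N).ncard = ((Finset.range N).filter fun m => ¬ p m).card := by
      rw [← Set.ncard_coe_finset]
      congr 1
      ext m
      simp only [hp, Set.mem_inter_iff, Set.mem_Iio, Finset.coe_filter, Finset.mem_range,
        Set.mem_ofPred_eq, not_not]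
      tauto
    have h3 := Finset.card_filter_add_card_filter_not (s := Finset.range N) p
    rw [Finset.card_range] at h3
    have h4 : (Nat.count p N : ℝ) + ((B ∩ Set.Iio N).ncard : ℝ) = N := by
      rw [h1, h2]
      exact_mod_cast h3
    linarith
  have hlim : Tendsto (fun N : ℕ => (Nat.count p N : ℝ) / N) atTop (𝓝 1) := by
    have h1 : Tendsto (fun N : ℕ => (1 : ℝ) - ((B ∩ Set.Iio N).ncard : ℝ) / N) atTop (𝓝 (1 - 0)) :=
      tendsto_const_nhds.sub hB
    rw [sub_zero] at h1
    refine h1.congr' ?_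
    filter_upwards [eventually_gt_atTop 0] with N hN
    rw [hcount]
    have : (0 : ℝ) < N := by exact_mod_cast hN
    field_simp
  have hinf : (Set.ofPred p).Infinite := by
    intro hf
    -- the count is bounded
    have hbd : ∃ C : ℕ, ∀ N, Nat.count p N ≤ C := by
      refine ⟨hf.toFinset.card, fun N => ?_⟩
      rw [Nat.count_eq_card_filter_range]
      apply Finset.card_le_card
      intro m hm
      rw [Finset.mem_filter] at hm
      rw [Set.Finite.mem_toFinset]
      exact hm.2
    obtain ⟨C, hC⟩ := hbd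
    have h1 : Tendsto (fun N : ℕ => (Nat.count p N : ℝ) / N) atTop (𝓝 0) := by
      have h2 : Tendsto (fun N : ℕ => (C : ℝ) / N) atTop (𝓝 0) :=
        tendsto_const_div_atTop_nhds_zero_nat _
      refine squeeze_zero (fun N => by positivity) (fun N => ?_) h2
      exact div_le_div_of_nonneg_right (by exact_mod_cast hC N) (Nat.cast_nonneg _)
    exact zero_ne_one (tendsto_nhds_unique h1 hlim)
  have hmem : ∀ i, p (Nat.nth p i) := fun i => Nat.nth_mem_of_infinite hinf i
  refine ⟨⟨Nat.nth_strictMono hinf, ?_⟩, hmem⟩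
  have hset : ∀ N : ℕ, {j | Nat.nth p j ≤ N}.ncard = Nat.count p (N + 1) := by
    intro N
    have h1 : {j | Nat.nth p j ≤ N} = (Finset.range (Nat.count p (N + 1)) : Set ℕ) := by
      ext j
      rw [Set.mem_ofPred_eq, Finset.coe_range, Set.mem_Iio, ← Nat.lt_succ_iff,
        Nat.lt_nth_iff_count_lt hinf]
    rw [h1, Set.ncard_coe_finset, Finset.card_range]
  have h5 : Tendsto (fun N : ℕ => (Nat.count p (N + 1) : ℝ) / ((N + 1 : ℕ) : ℝ)) atTop (𝓝 1) :=
    hlim.comp (tendsto_add_atTop_nat 1)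
  have h6 : Tendsto (fun N : ℕ => ((N + 1 : ℕ) : ℝ) / N) atTop (𝓝 1) := by
    have h7 : Tendsto (fun N : ℕ => 1 + 1 / (N : ℝ)) atTop (𝓝 (1 + 0)) :=
      tendsto_const_nhds.add tendsto_one_div_atTop_nhds_zero_nat
    rw [add_zero] at h7
    refine h7.congr' ?_
    filter_upwards [eventually_gt_atTop 0] with N hN
    have : (0 : ℝ) < N := by exact_mod_cast hN
    push_cast
    field_simp
  have h8 := h5.mul h6
  rw [mul_one] at h8
  refine h8.congr' ?_
  filter_upwards [eventually_gt_atTop 0] with N hN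
  have h9 : (0 : ℝ) < N := by exact_mod_cast hN
  rw [hset]
  have h10 : (0 : ℝ) < ((N + 1 : ℕ) : ℝ) := by positivity
  field_simp

open Classical in
theorem DIAG : S_DIAG := by
  intro B hB
  -- the thresholds
  have hM : ∀ j : ℕ, ∃ M : ℕ, ∀ N, M ≤ N → ∀ i ≤ j,
      ((B i ∩ Set.Iio N).ncard : ℝ) ≤ N / ((j : ℝ) + 1) ^ 2 := by
    intro j
    have h1 : ∀ i, ∀ᶠ N : ℕ in atTop, ((B i ∩ Set.Iio N).ncard : ℝ) ≤ N / ((j : ℝ) + 1) ^ 2 := by
      intro i
      have hpos : (0 : ℝ) < 1 / ((j : ℝ) + 1) ^ 2 := by positivity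
      have h2 := (hB i).eventually (ge_mem_nhds hpos)
      filter_upwards [h2, eventually_gt_atTop 0] with N h3 h4
      have h5 : (0 : ℝ) < N := by exact_mod_cast h4
      rw [div_le_iff₀ h5] at h3
      calc ((B i ∩ Set.Iio N).ncard : ℝ) ≤ 1 / ((j : ℝ) + 1) ^ 2 * N := h3
        _ = N / ((j : ℝ) + 1) ^ 2 := by ring
    have h2 : ∀ᶠ N : ℕ in atTop, ∀ i ∈ Finset.range (j + 1),
        ((B i ∩ Set.Iio N).ncard : ℝ) ≤ N / ((j : ℝ) + 1) ^ 2 :=
      (Filter.eventually_all_finset _).2 fun i _ => h1 i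
    obtain ⟨M, hM⟩ := eventually_atTop.1 h2
    exact ⟨M, fun N hN i hi => hM N hN i (Finset.mem_range.2 (by omega))⟩
  choose M hM using hM
  set B' : Set ℕ := {m | m ∈ B 0 ∨ ∃ j, m ∈ B j ∧ max j (M j) ≤ m} with hB'
  have hnull : Null B' := by
    unfold Null
    rw [Metric.tendsto_atTop]
    intro ε hε
    obtain ⟨J, hJ⟩ := exists_nat_one_div_lt hε
    refine ⟨max (max J (M J)) 1, fun N hN => ?_⟩
    have hN1 : 1 ≤ N := (le_max_right _ _).trans hN
    have hNJ : max J (M J) ≤ N := (le_max_left _ _).trans hN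
    have hNR : (0 : ℝ) < N := by exact_mod_cast hN1
    set j := Nat.findGreatest (fun j => max j (M j) ≤ N) N with hj
    have hjs : max j (M j) ≤ N :=
      Nat.findGreatest_spec (P := fun j => max j (M j) ≤ N) ((le_max_left J (M J)).trans hNJ) hNJ
    have hJj : J ≤ j := Nat.le_findGreatest ((le_max_left J (M J)).trans hNJ) hNJ
    have hsub : B' ∩ Set.Iio N ⊆ ⋃ i ∈ Finset.range (j + 1), (B i ∩ Set.Iio N) := by
      rintro m ⟨hm, hmN⟩
      simp only [Set.mem_iUnion]
      rcases hm with h0 | ⟨i, hi, him⟩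
      · exact ⟨0, Finset.mem_range.2 (Nat.succ_pos j), h0, hmN⟩
      · have h1 : max i (M i) ≤ N := him.trans (le_of_lt hmN)
        have h2 : i ≤ j := Nat.le_findGreatest ((le_max_left i (M i)).trans h1) h1
        exact ⟨i, Finset.mem_range.2 (Nat.lt_succ_of_le h2), hi, hmN⟩
    have hfin : (⋃ i ∈ Finset.range (j + 1), (B i ∩ Set.Iio N)).Finite := by
      refine (Set.finite_Iio N).subset fun m hm => ?_
      simp only [Set.mem_iUnion] at hm
      obtain ⟨i, -, hi⟩ := hm
      exact hi.2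
    have h3 := (Set.ncard_le_ncard hsub hfin).trans
      (Finset.set_ncard_biUnion_le (Finset.range (j + 1)) fun i => B i ∩ Set.Iio N)
    have h4 : ((B' ∩ Set.Iio N).ncard : ℝ) ≤ N / ((j : ℝ) + 1) := by
      calc ((B' ∩ Set.Iio N).ncard : ℝ) ≤ ∑ i ∈ Finset.range (j + 1), ((B i ∩ Set.Iio N).ncard : ℝ) := by
            exact_mod_cast h3
        _ ≤ ∑ i ∈ Finset.range (j + 1), (N : ℝ) / ((j : ℝ) + 1) ^ 2 :=
            Finset.sum_le_sum fun i hi => hM j N ((le_max_right j (M j)).trans hjs) i (by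
              rw [Finset.mem_range] at hi
              omega)
        _ = N / ((j : ℝ) + 1) := by
            rw [Finset.sum_const, Finset.card_range, nsmul_eq_mul]
            push_cast
            field_simp
    rw [Real.dist_eq, sub_zero, abs_of_nonneg (by positivity), div_lt_iff₀ hNR]
    have h5 : (N : ℝ) / ((j : ℝ) + 1) ≤ N * (1 / ((J : ℝ) + 1)) := by
      rw [← mul_one_div]
      apply mul_le_mul_of_nonneg_left _ hNR.le
      apply one_div_le_one_div_of_le (by positivity)
      have : (J : ℝ) ≤ j := by exact_mod_cast hJj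
      linarith
    have h6 : N * (1 / ((J : ℝ) + 1)) < N * ε := mul_lt_mul_of_pos_left hJ hNR
    linarith
  obtain ⟨hfull, hout⟩ := full_of_null hnull
  refine ⟨_, hfull, fun i h0 => hout i (Or.inl h0), fun j => ?_⟩
  have h1 : Tendsto (Nat.nth fun m => m ∉ B') atTop atTop := hfull.1.tendsto_atTop
  filter_upwards [h1.eventually_ge_atTop (max j (M j))] with i hi h2
  exact hout i (Or.inr ⟨j, h2, hi⟩)

end Pool.Agent.L0h77.BW
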