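import Pool.Agent.L0h77.BW.T_BD

/-! MP_6b977f_mp, project BW, module DV -/

set_option autoImplicit false

namespace Pool.Agent.L0h77.BW

open Pool.Agent.L0h56.BQ
open Finset

namespace BDaux

/-- the nonzero Gaussian integers of norm at most `n` -/
noncomputable def W (n : ℕ) : Finset GI := (Icc 1 n).biUnion V

theorem mem_W {n : ℕ} {ν : GI} : ν ∈ W n ↔ 1 ≤ ν.norm ∧ ν.norm ≤ n := by
  unfold W
  rw [mem_biUnion]
  constructor
  · rintro ⟨e, he, hν⟩
    rw [mem_V] at hν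
    rw [mem_Icc] at he
    rw [hν]
    exact ⟨by exact_mod_cast he.1, by exact_mod_cast he.2⟩
  · rintro ⟨h1, h2⟩
    refine ⟨ν.norm.toNat, ?_, ?_⟩
    · rw [mem_Icc]
      omega
    · rw [mem_V]
      omega

theorem card_W (n : ℕ) : (W n).card ≤ 8 * n := by
  classical
  obtain ⟨s, hs⟩ : ∃ s, s = Nat.sqrt n := ⟨_, rfl⟩
  have hs1 : s * s ≤ n := by rw [hs]; exact Nat.sqrt_le n
  have hs2 : n < (s + 1) * (s + 1) := by rw [hs]; exact Nat.lt_succ_sqrt n
  have hsub : W n ⊆ ((((Icc (-(s : ℤ)) s) ×ˢ (Icc (-(s : ℤ)) s)).image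
      (fun q => (⟨q.1, q.2⟩ : GI))).erase 0) := by
    intro ν hν
    rw [mem_W, norm_eq] at hν
    rw [mem_erase, mem_image]
    refine ⟨?_, (ν.re, ν.im), ?_, rfl⟩
    · rintro rfl
      simp at hν
    · have hb : ∀ x : ℤ, x ^ 2 ≤ n → -(s : ℤ) ≤ x ∧ x ≤ s := by
        intro x hx
        have h1 : x ^ 2 < ((s : ℤ) + 1) ^ 2 := by
          have : (n : ℤ) < ((s : ℤ) + 1) * ((s : ℤ) + 1) := by exact_mod_cast hs2
          nlinarith
        have h2 := abs_lt_of_sq_lt_sq h1 (by positivity)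
        rw [abs_lt] at h2
        omega
      have h1 := hb ν.re (by nlinarith [sq_nonneg ν.im])
      have h2 := hb ν.im (by nlinarith [sq_nonneg ν.re])
      rw [mem_product, mem_Icc, mem_Icc]
      exact ⟨h1, h2⟩
  have hc := card_le_card hsub
  have h0 : (0 : GI) ∈ ((Icc (-(s : ℤ)) s) ×ˢ (Icc (-(s : ℤ)) s)).image
      (fun q => (⟨q.1, q.2⟩ : GI)) := by
    rw [mem_image]
    refine ⟨(0, 0), ?_, rfl⟩
    rw [mem_product, mem_Icc]
    simp
  rw [card_erase_of_mem h0] at hc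
  have h1 : (((Icc (-(s : ℤ)) s) ×ˢ (Icc (-(s : ℤ)) s)).image
      (fun q => (⟨q.1, q.2⟩ : GI))).card ≤ (2 * s + 1) * (2 * s + 1) := by
    refine card_image_le.trans ?_
    rw [card_product, Int.card_Icc]
    have : ((s : ℤ) + 1 - -(s : ℤ)).toNat = 2 * s + 1 := by omega
    rw [this]
  have h2 : (2 * s + 1) * (2 * s + 1) = 4 * (s * s) + 4 * s + 1 := by ring
  have h3 : s ≤ s * s := Nat.le_mul_self s
  omega

/-- the elements with norm divisible by `D` come from `B` and `W` -/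
theorem cnt_dvd (D X : ℕ) (hD : 0 < D) :
    cnt (fun e => D ∣ e) X ≤ D.divisors.card * (8 * (X / D)) := by
  classical
  obtain ⟨B, h1, h2, h3⟩ := BD D hD
  have hdis : ∀ e ∈ (Icc 1 X).filter (fun e => D ∣ e), ∀ e' ∈ (Icc 1 X).filter (fun e => D ∣ e),
      e ≠ e' → Disjoint (V e) (V e') := by
    intro e _ e' _ hne
    rw [Finset.disjoint_left]
    intro ν hν hν'
    rw [mem_V] at hν hν'
    rw [hν] at hν'
    exact hne (by exact_mod_cast hν')
  have hcnt : cnt (fun e => D ∣ e) X = (((Icc 1 X).filter (fun e => D ∣ e)).biUnion V).card := by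
    rw [card_biUnion hdis]
    unfold cnt
    refine sum_congr ?_ fun _ _ => rfl
    ext e
    simp
  rw [hcnt]
  have hsub : ((Icc 1 X).filter (fun e => D ∣ e)).biUnion V ⊆
      (B ×ˢ W (X / D)).image fun x => x.1 * x.2 := by
    intro ν hν
    rw [mem_biUnion] at hν
    obtain ⟨e, he, hν⟩ := hν
    rw [mem_filter, mem_Icc] at he
    rw [mem_V] at hν
    obtain ⟨β, hβ, μ, hμ⟩ := h3 ν (by rw [hν]; exact_mod_cast he.2)
    rw [mem_image]
    refine ⟨(β, μ), ?_, hμ.symm⟩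
    rw [mem_product]
    refine ⟨hβ, ?_⟩
    have hβn := h2 β hβ
    have hn : ν.norm = β.norm * μ.norm := by rw [hμ, norm_mul']
    rw [hν] at hn
    have hμ0 := norm_nn μ
    have he1 : (1 : ℤ) ≤ e := by exact_mod_cast he.1.1
    have he2 : (e : ℤ) ≤ X := by exact_mod_cast he.1.2
    have hDp : (0 : ℤ) < D := by exact_mod_cast hD
    have hμ1 : 1 ≤ μ.norm := by
      rcases hμ0.lt_or_eq with h | h
      · omega
      · rw [← h, mul_zero] at hn
        omega
    rw [mem_W]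
    refine ⟨hμ1, ?_⟩
    have h4 : μ.norm * D ≤ X := by nlinarith
    have h5 : ((X / D : ℕ) : ℤ) = (X : ℤ) / (D : ℤ) := by push_cast; rfl
    rw [h5, Int.le_ediv_iff_mul_le hDp]
    exact h4
  refine (card_le_card hsub).trans (card_image_le.trans ?_)
  rw [card_product]
  exact Nat.mul_le_mul h1 (card_W _)

end BDaux

theorem DV : S_DV := by
  intro D X hD
  have h1 := BDaux.cnt_dvd D X hD
  have h2 : (cnt (fun e => D ∣ e) X : ℝ) ≤ (D.divisors.card : ℝ) * (8 * ((X / D : ℕ) : ℝ)) := by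
    exact_mod_cast h1
  have h3 : ((X / D : ℕ) : ℝ) ≤ (X : ℝ) / D := Nat.cast_div_le
  calc (cnt (fun e => D ∣ e) X : ℝ) ≤ (D.divisors.card : ℝ) * (8 * ((X / D : ℕ) : ℝ)) := h2
    _ ≤ (D.divisors.card : ℝ) * (8 * ((X : ℝ) / D)) := by gcongr
    _ = 8 * D.divisors.card * X / D := by ring

end Pool.Agent.L0h77.BW
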