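import Pool.Agent.L0h77.BW.T_BD

/-! MP_6b977f_mp, project BW, module R2 -/

set_option autoImplicit false

namespace Pool.Agent.L0h77.BW

open Pool.Agent.L0h56.BQ
open Finset

namespace BDaux

theorem card_V_one : (V 1).card ≤ 4 := by
  classical
  have h : V 1 ⊆ {(⟨1, 0⟩ : GI), ⟨-1, 0⟩, ⟨0, 1⟩, ⟨0, -1⟩} := by
    intro ν hν
    rw [mem_V, norm_eq] at hν
    have h1 : ν.re ^ 2 ≤ 1 := by
      have := sq_nonneg ν.im
      push_cast at hν
      omega
    have h2 : ν.im ^ 2 ≤ 1 := by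
      have := sq_nonneg ν.re
      push_cast at hν
      omega
    have h3 := (sq_le_one_iff_abs_le_one ν.re).1 h1
    have h4 := (sq_le_one_iff_abs_le_one ν.im).1 h2
    rw [abs_le] at h3 h4
    obtain ⟨a1, a2⟩ := h3
    obtain ⟨b1, b2⟩ := h4
    simp only [mem_insert, mem_singleton, Zsqrtd.ext_iff]
    have ha : ν.re = -1 ∨ ν.re = 0 ∨ ν.re = 1 := by omega
    have hb : ν.im = -1 ∨ ν.im = 0 ∨ ν.im = 1 := by omega
    rcases ha with ha | ha | ha <;> rcases hb with hb | hb | hb <;> rw [ha, hb] at hν ⊢ <;>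
      simp_all
  exact (card_le_card h).trans (card_le_four)

end BDaux

theorem R2 : S_R2 := by
  intro e he
  classical
  obtain ⟨B, h1, h2, h3⟩ := BD e he
  have hsub : V e ⊆ (B ×ˢ V 1).image fun x => x.1 * x.2 := by
    intro ν hν
    rw [mem_V] at hν
    obtain ⟨β, hβ, μ, hμ⟩ := h3 ν (by rw [hν])
    rw [mem_image]
    refine ⟨(β, μ), ?_, hμ.symm⟩
    rw [mem_product]
    refine ⟨hβ, ?_⟩
    have hβn := h2 β hβ
    have hn : ν.norm = β.norm * μ.norm := by rw [hμ, BDaux.norm_mul']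
    rw [hν] at hn
    have hμ0 := BDaux.norm_nn μ
    have he1 : (1 : ℤ) ≤ e := by exact_mod_cast he
    rw [mem_V]
    push_cast
    have h4 : μ.norm ≤ 1 := by
      by_contra hcon
      nlinarith
    have h5 : μ.norm ≠ 0 := by
      intro h
      rw [h, mul_zero] at hn
      omega
    omega
  refine (card_le_card hsub).trans (card_image_le.trans ?_)
  rw [card_product, mul_comm]
  exact Nat.mul_le_mul BDaux.card_V_one h1

end Pool.Agent.L0h77.BW
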