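import Pool.Agent.L0h77.BW.T_PB
import Pool.Agent.L0h77.BW.T_R2
import Pool.Agent.Helper112.Arith

/-! MP_6b977f_mp, project BW, module EP: the Euler product -/

set_option autoImplicit false
open Filter Topology Complex

namespace Pool.Agent.L0h77.BW

open Pool.Agent.L0h56.BQ

namespace EPaux

/-- the power sums -/
noncomputable def G (q n : ℕ) : ℝ := (GQ n (4 * q)).re

theorem G_eq (q n : ℕ) : G q n = ∑ ν ∈ V n, (uE n ν ^ (4 * q)).re := by
  unfold G GQ
  rw [Complex.re_sum]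

theorem G_one (q : ℕ) : G q 1 = 4 := by
  rw [G_eq, Finset.sum_congr rfl (fun ν hν => by rw [V_one_pow hν q]), Finset.sum_const, card_V_one]
  simp

theorem G_zero {q : ℕ} (hq : 0 < q) : G q 0 = 0 := by
  rw [G_eq]
  refine Finset.sum_eq_zero fun ν _ => ?_
  unfold uE
  simp [zero_pow (show 4 * q ≠ 0 by omega)]

/-- the sequence of the local factors at the split primes -/
noncomputable def U (c : ℝ) : ℕ → ℝ
  | 0 => 1
  | 1 => 2 * c
  | k + 2 => 2 * c * U c (k + 1) - U c k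

theorem split_W (q : ℕ) {p : ℕ} (hp : p.Prime) {ϖ : GI} (h : Spl p ϖ) (m : ℕ) (hpm : ¬ p ∣ m) :
    ∀ k, G q (m * p ^ k) = U (uE p ϖ ^ (4 * q)).re k * G q m := by
  have key : ∀ k, G q (m * p ^ k) = U (uE p ϖ ^ (4 * q)).re k * G q m ∧
      G q (m * p ^ (k + 1)) = U (uE p ϖ ^ (4 * q)).re (k + 1) * G q m := by
    intro k
    induction k with
    | zero =>
      refine ⟨by simp [U], ?_⟩
      have h1 := spl_GQ h hp hpm (4 * q)
      have h2 : GQ (m * p) (4 * q) =
          ((2 * (uE p ϖ ^ (4 * q)).re : ℝ) : ℂ) * GQ m (4 * q) := h1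
      rw [zero_add, pow_one]
      unfold G
      rw [h2, Complex.re_ofReal_mul]
      rfl
    | succ k ih =>
      refine ⟨ih.2, ?_⟩
      have h1 := h.recu hp (m * p ^ k) (4 * q)
      have e1 : m * p ^ k * p * p = m * p ^ (k + 1 + 1) := by ring
      have e2 : m * p ^ k * p = m * p ^ (k + 1) := by ring
      rw [e1, e2, ← add_mul, ← map_pow, Complex.add_conj] at h1
      have h2 := congrArg Complex.re h1
      rw [Complex.add_re, Complex.re_ofReal_mul] at h2
      have h3 : G q (m * p ^ (k + 1 + 1)) + G q (m * p ^ k) =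
          2 * (uE p ϖ ^ (4 * q)).re * G q (m * p ^ (k + 1)) := h2
      rw [ih.1, ih.2] at h3
      have h4 : U (uE p ϖ ^ (4 * q)).re (k + 1 + 1) =
          2 * (uE p ϖ ^ (4 * q)).re * U (uE p ϖ ^ (4 * q)).re (k + 1) -
            U (uE p ϖ ^ (4 * q)).re k := rfl
      rw [h4]
      linear_combination h3
  exact fun k => (key k).1

/-- multiplication by a fixed Gaussian integer -/
theorem G_mul (q E n : ℕ) (β : GI) (hβ : β ≠ 0) (hn : β.norm = n) (hE : 0 < n)
    (hd : ∀ ν ∈ V (E * n), β ∣ ν) (hu : uE n β ^ (4 * q) = ((uE n β ^ (4 * q)).re : ℂ)) :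
    G q (E * n) = (uE n β ^ (4 * q)).re * G q E := by
  classical
  have h1 : V (E * n) = (V E).image (fun ν => β * ν) := by
    ext ν
    rw [Finset.mem_image]
    constructor
    · intro hν
      obtain ⟨μ, rfl⟩ := hd ν hν
      refine ⟨μ, ?_, rfl⟩
      have h2 := mem_V.1 hν
      rw [Zsqrtd.norm_mul, hn] at h2
      rw [mem_V]
      have h3 : (n : ℤ) ≠ 0 := by exact_mod_cast hE.ne'
      refine mul_left_cancel₀ h3 (h2.trans ?_)
      push_cast
      ring
    · rintro ⟨μ, hμ, rfl⟩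
      rw [mem_V, Zsqrtd.norm_mul, hn, mem_V.1 hμ]
      push_cast
      ring
  have h2 : ∀ ν, uE (E * n) (β * ν) = uE n β * uE E ν := by
    intro ν
    unfold uE
    rw [map_mul]
    push_cast
    rw [Real.sqrt_mul (by positivity)]
    push_cast
    rw [div_mul_div_comm, mul_comm ((√(E : ℝ) : ℝ) : ℂ)]
  have h3 : GQ (E * n) (4 * q) = uE n β ^ (4 * q) * GQ E (4 * q) := by
    unfold GQ
    rw [h1, Finset.sum_image (fun x _ y _ hxy => mul_left_cancel₀ hβ hxy), Finset.mul_sum]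
    exact Finset.sum_congr rfl fun ν _ => by rw [h2, mul_pow]
  unfold G
  rw [h3, hu, Complex.re_ofReal_mul, Complex.ofReal_re]

/-- the inert primes -/
theorem inert_sq (q : ℕ) {p : ℕ} (hp : p.Prime) (h3 : p % 4 = 3) (E : ℕ) :
    G q (E * p ^ 2) = G q E := by
  have hp0 : (p : GI) ≠ 0 := by
    have := Fact.mk hp
    exact ((GaussianInt.prime_iff_mod_four_eq_three_of_nat_prime p).2 h3).ne_zero
  have hpr : (0 : ℝ) < p := by exact_mod_cast hp.pos
  have hu : uE (p ^ 2) (p : GI) = 1 := by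
    unfold uE
    have h1 : √(((p ^ 2 : ℕ) : ℝ)) = p := by
      push_cast
      exact Real.sqrt_sq hpr.le
    rw [h1]
    have h2 : GaussianInt.toComplex (p : GI) = (p : ℂ) := map_natCast _ _
    rw [h2]
    have : (p : ℂ) ≠ 0 := by exact_mod_cast hp.ne_zero
    push_cast
    exact div_self this
  have hn : (p : GI).norm = ((p ^ 2 : ℕ) : ℤ) := by
    rw [norm_eq]
    simp
  have := G_mul q E (p ^ 2) (p : GI) hp0 hn (pow_pos hp.pos 2) (fun ν hν => by
    apply BDaux.inert_one p hp h3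
    rw [mem_V.1 hν]
    push_cast
    exact Dvd.intro_left ((E : ℤ) * p) (by ring)) (by rw [hu]; simp)
  rw [this, hu]
  simp

theorem inert_one' (q : ℕ) {p : ℕ} (hp : p.Prime) (h3 : p % 4 = 3) {m : ℕ} (hpm : ¬ p ∣ m) :
    G q (m * p) = 0 := by
  rw [G_eq]
  refine Finset.sum_eq_zero fun ν hν => ?_
  exfalso
  apply hpm
  have h1 := mem_V.1 hν
  obtain ⟨μ, rfl⟩ := BDaux.inert_one p hp h3 ν (by rw [h1]; push_cast; exact Dvd.intro_left _ rfl)
  rw [Zsqrtd.norm_mul] at h1
  have hn : (p : GI).norm = (p : ℤ) ^ 2 := by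
    rw [norm_eq]
    simp
  rw [hn] at h1
  have hp0 : (p : ℤ) ≠ 0 := by exact_mod_cast hp.ne_zero
  have h2 : (p : ℤ) * μ.norm = m := by
    refine mul_left_cancel₀ hp0 ?_
    push_cast at h1
    linear_combination h1
  exact_mod_cast (Dvd.intro _ h2 : (p : ℤ) ∣ m)

theorem inert_W (q : ℕ) {p : ℕ} (hp : p.Prime) (h3 : p % 4 = 3) (m : ℕ) (hpm : ¬ p ∣ m) :
    ∀ k, G q (m * p ^ k) = (if Even k then 1 else 0) * G q m := by
  have key : ∀ k, G q (m * p ^ k) = (if Even k then 1 else 0) * G q m ∧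
      G q (m * p ^ (k + 1)) = (if Even (k + 1) then 1 else 0) * G q m := by
    intro k
    induction k with
    | zero =>
      refine ⟨by simp, ?_⟩
      rw [zero_add, pow_one, inert_one' q hp h3 hpm]
      simp
    | succ k ih =>
      refine ⟨ih.2, ?_⟩
      have e1 : m * p ^ (k + 1 + 1) = m * p ^ k * p ^ 2 := by ring
      rw [e1, inert_sq q hp h3, ih.1]
      have : Even (k + 1 + 1) ↔ Even k := by
        rw [show k + 1 + 1 = k + 2 by ring, Nat.even_add]
        simp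
      simp only [this]
  exact fun k => (key k).1

/-- the prime `2` -/
theorem two_mul' (q E : ℕ) : G q (E * 2) = (-1) ^ q * G q E := by
  have h2 : uE 2 BDaux.ii ^ 4 = -1 := by
    unfold uE
    have h1 : GaussianInt.toComplex BDaux.ii = 1 + I := by
      unfold BDaux.ii
      simp [GaussianInt.toComplex_def]
    have h3 : ((√((2 : ℕ) : ℝ) : ℝ) : ℂ) ^ 4 = 4 := by
      rw [← Complex.ofReal_pow]
      have : (√((2 : ℕ) : ℝ)) ^ 4 = 4 := by
        rw [show (4 : ℕ) = 2 * 2 by norm_num, pow_mul, Real.sq_sqrt (by positivity)]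
        norm_num
      rw [this]
      norm_num
    rw [div_pow, h3, h1]
    have : (1 + I) ^ 4 = -4 := by
      have h4 : (1 + I) ^ 2 = 2 * I := by
        ring_nf
        rw [I_sq]
        ring
      rw [show (4 : ℕ) = 2 * 2 by norm_num, pow_mul, h4]
      ring_nf
      rw [I_sq]
      ring
    rw [this]
    norm_num
  have hu : uE 2 BDaux.ii ^ (4 * q) = (((-1) ^ q : ℝ) : ℂ) := by
    rw [pow_mul, h2]
    push_cast
    rfl
  have hi0 : BDaux.ii ≠ 0 := by
    intro h
    have := BDaux.norm_ii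
    rw [h] at this
    simp at this
  have := G_mul q E 2 BDaux.ii hi0 (by rw [BDaux.norm_ii]; norm_num) (by norm_num) (fun ν hν => by
    apply BDaux.two_one
    rw [mem_V.1 hν]
    push_cast
    exact Dvd.intro_left _ rfl) (by rw [hu, Complex.ofReal_re])
  rw [this, hu, Complex.ofReal_re]

theorem two_W (q m : ℕ) : ∀ k, G q (m * 2 ^ k) = ((-1) ^ q) ^ k * G q m := by
  intro k
  induction k with
  | zero => simp
  | succ k ih => rw [pow_succ, ← mul_assoc, two_mul', ih, pow_succ]; ring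

/-- the local factors -/
theorem loc (q : ℕ) {p : ℕ} (hp : p.Prime) : ∃ W : ℕ → ℝ, ∀ m, ¬ p ∣ m → ∀ k,
    G q (m * p ^ k) = W k * G q m := by
  rcases hp.eq_two_or_odd with rfl | hodd
  · exact ⟨fun k => ((-1) ^ q) ^ k, fun m _ => two_W q m⟩
  · rcases (show p % 4 = 1 ∨ p % 4 = 3 by omega) with h1 | h3
    · obtain ⟨ϖ, h⟩ := spl_exists p hp h1
      exact ⟨_, fun m hm => split_W q hp h m hm⟩
    · exact ⟨_, fun m hm => inert_W q hp h3 m hm⟩

/-- the normalised power sums -/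
noncomputable def F (q n : ℕ) : ℝ := G q n / 4

theorem F_pow (q : ℕ) {p : ℕ} (hp : p.Prime) {m : ℕ} (hpm : ¬ p ∣ m) (k : ℕ) :
    F q (m * p ^ k) = F q (p ^ k) * F q m := by
  obtain ⟨W, hW⟩ := loc q hp
  have h1 := hW 1 (fun h => hp.one_lt.ne' (Nat.dvd_one.1 h)) k
  rw [one_mul, G_one] at h1
  unfold F
  rw [hW m hpm k, h1]
  ring

theorem F_mul (q : ℕ) (n : ℕ) : ∀ m, Nat.Coprime m n → F q (m * n) = F q m * F q n := by
  induction n using Nat.recOnPosPrimePosCoprime with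
  | prime_pow p k hp hk =>
    intro m hm
    rw [F_pow q hp ?_ k, mul_comm]
    intro h
    have := (Nat.Coprime.coprime_dvd_left h hm)
    rw [Nat.coprime_pow_right_iff hk, Nat.coprime_self] at this
    exact hp.one_lt.ne' this
  | zero =>
    intro m hm
    rw [Nat.coprime_zero_right] at hm
    subst hm
    rw [one_mul]
    unfold F
    rw [G_one]
    norm_num
  | one =>
    intro m _
    rw [mul_one]
    unfold F
    rw [G_one]
    norm_num
  | coprime a b ha hb hab iha ihb =>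
    intro m hm
    rw [← mul_assoc, ihb (m * a) (Nat.Coprime.mul_left hm.coprime_mul_left_right hab),
      iha m (Nat.Coprime.coprime_mul_right_right hm), ihb a hab, mul_assoc]

/-- the summands of the Dirichlet series -/
noncomputable def f (q : ℕ) (s : ℝ) (n : ℕ) : ℝ := F q n / (n : ℝ) ^ s

theorem f_one (q : ℕ) (s : ℝ) : f q s 1 = 1 := by
  unfold f F
  rw [G_one]
  simp

theorem f_zero {q : ℕ} (hq : 0 < q) (s : ℝ) : f q s 0 = 0 := by
  unfold f F
  rw [G_zero hq]
  simp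

theorem f_mul (q : ℕ) (s : ℝ) {m n : ℕ} (h : Nat.Coprime m n) :
    f q s (m * n) = f q s m * f q s n := by
  unfold f
  rw [F_mul q n m h]
  push_cast
  rw [Real.mul_rpow (by positivity) (by positivity)]
  field_simp

theorem F_le (q : ℕ) {n : ℕ} (hn : 0 < n) : |F q n| ≤ n.divisors.card := by
  have h1 : |G q n| ≤ (V n).card := by
    rw [G_eq]
    refine (Finset.abs_sum_le_sum_abs _ _).trans ?_
    have : ∀ ν ∈ V n, |(uE n ν ^ (4 * q)).re| ≤ 1 := by
      intro ν hν
      refine (Complex.abs_re_le_norm _).trans ?_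
      rw [norm_pow, uE_norm n hn ν hν, one_pow]
    refine (Finset.sum_le_sum this).trans ?_
    rw [Finset.sum_const, nsmul_eq_mul, mul_one]
  have h2 : ((V n).card : ℝ) ≤ 4 * n.divisors.card := by exact_mod_cast R2 n hn
  unfold F
  rw [abs_div, abs_of_pos (by norm_num : (0 : ℝ) < 4), div_le_iff₀ (by norm_num)]
  linarith

theorem f_sum {q : ℕ} (hq : 0 < q) {s : ℝ} (hs : 1 < s) : Summable fun n => ‖f q s n‖ := by
  obtain ⟨C, hC, hd⟩ := Pool.Agent.Helper112.divisor_bound ((s - 1) / 2) (by linarith)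
  have h1 : Summable fun n : ℕ => C * (1 / (n : ℝ) ^ ((s + 1) / 2)) :=
    (Real.summable_one_div_nat_rpow.2 (by linarith)).mul_left C
  refine Summable.of_nonneg_of_le (fun n => norm_nonneg _) (fun n => ?_) h1
  rcases Nat.eq_zero_or_pos n with rfl | hn
  · rw [f_zero hq, norm_zero]
    positivity
  · have hn' : (0 : ℝ) < n := by exact_mod_cast hn
    unfold f
    rw [norm_div, Real.norm_eq_abs, Real.norm_eq_abs, abs_of_nonneg (by positivity : (0 : ℝ) ≤ (n : ℝ) ^ s),
      div_le_iff₀ (by positivity)]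
    refine ((F_le q hn).trans (hd n hn)).trans (le_of_eq ?_)
    rw [mul_assoc, one_div, ← Real.rpow_neg hn'.le, ← Real.rpow_add hn']
    congr 2
    ring

theorem F_pp (q : ℕ) {p : ℕ} (hp : p.Prime) {W : ℕ → ℝ}
    (hW : ∀ m, ¬ p ∣ m → ∀ k, G q (m * p ^ k) = W k * G q m) (k : ℕ) : F q (p ^ k) = W k := by
  have h1 := hW 1 (fun h => hp.one_lt.ne' (Nat.dvd_one.1 h)) k
  rw [one_mul, G_one] at h1
  unfold F
  rw [h1]
  ring

theorem f_pp (q : ℕ) (s : ℝ) {p : ℕ} (hp : p.Prime) {W : ℕ → ℝ}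
    (hW : ∀ m, ¬ p ∣ m → ∀ k, G q (m * p ^ k) = W k * G q m) (k : ℕ) :
    f q s (p ^ k) = W k * (1 / (p : ℝ) ^ s) ^ k := by
  unfold f
  rw [F_pp q hp hW]
  push_cast
  rw [one_div, inv_pow, ← Real.rpow_natCast ((p : ℝ) ^ s), ← Real.rpow_mul (by positivity),
    ← Real.rpow_natCast (p : ℝ) k, ← Real.rpow_mul (by positivity), mul_comm s, div_eq_mul_inv]

theorem x_bd {p : ℕ} (hp : p.Prime) {s : ℝ} (hs : 1 < s) :
    0 < 1 / (p : ℝ) ^ s ∧ 1 / (p : ℝ) ^ s ≤ 1 / p ∧ 1 / (p : ℝ) ^ s ≤ 1 / 2 := by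
  have hp2 : (2 : ℝ) ≤ p := by exact_mod_cast hp.two_le
  have hp0 : (0 : ℝ) < p := by linarith
  have h1 : (p : ℝ) ≤ (p : ℝ) ^ s := by
    conv_lhs => rw [← Real.rpow_one (p : ℝ)]
    exact Real.rpow_le_rpow_of_exponent_le (by linarith) hs.le
  refine ⟨by positivity, one_div_le_one_div_of_le hp0 h1, ?_⟩
  exact one_div_le_one_div_of_le (by norm_num) (hp2.trans h1)

/-- the generating function of `U` -/
theorem U_sum {c x : ℝ} (h : Summable fun k => U c k * x ^ k) :
    (∑' k, U c k * x ^ k) * (1 - 2 * c * x + x ^ 2) = 1 := by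
  have h1 : Summable fun k => U c (k + 1) * x ^ (k + 1) := (summable_nat_add_iff 1).2 h
  have h2 : Summable fun k => U c (k + 2) * x ^ (k + 2) := (summable_nat_add_iff 2).2 h
  have e1 : ∑' k, U c k * x ^ k = 1 + ∑' k, U c (k + 1) * x ^ (k + 1) := by
    rw [h.tsum_eq_zero_add]
    simp [U]
  have e2 : ∑' k, U c (k + 1) * x ^ (k + 1) = 2 * c * x + ∑' k, U c (k + 2) * x ^ (k + 2) := by
    rw [h1.tsum_eq_zero_add]
    simp [U]
  have e3 : ∑' k, U c (k + 2) * x ^ (k + 2) =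
      2 * c * x * (∑' k, U c (k + 1) * x ^ (k + 1)) - x ^ 2 * ∑' k, U c k * x ^ k := by
    rw [← tsum_mul_left, ← tsum_mul_left, ← (h1.mul_left _).tsum_sub (h.mul_left _)]
    refine tsum_congr fun k => ?_
    have : U c (k + 2) = 2 * c * U c (k + 1) - U c k := rfl
    rw [this]
    ring
  rw [e2] at e1
  have e4 : ∑' k, U c (k + 1) * x ^ (k + 1) = (∑' k, U c k * x ^ k) - 1 := by
    rw [e2, e1]
    ring
  rw [e3, e4] at e1
  linear_combination e1

theorem exp_le {c x : ℝ} (hc : |c| ≤ 1) (hx : 0 < x) (hx2 : x ≤ 1 / 2) :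
    0 < 1 - 2 * c * x + x ^ 2 ∧ Real.exp (2 * c * x - x ^ 2) ≤ 1 / (1 - 2 * c * x + x ^ 2) := by
  have h0 := abs_le.1 hc
  have h1 : 0 < 1 - 2 * c * x + x ^ 2 := by nlinarith
  refine ⟨h1, ?_⟩
  rw [le_div_iff₀ h1]
  have h2 : 1 - 2 * c * x + x ^ 2 ≤ Real.exp (-(2 * c * x - x ^ 2)) := by
    have := Real.add_one_le_exp (-(2 * c * x - x ^ 2))
    linarith
  calc Real.exp (2 * c * x - x ^ 2) * (1 - 2 * c * x + x ^ 2) ≤
      Real.exp (2 * c * x - x ^ 2) * Real.exp (-(2 * c * x - x ^ 2)) :=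
        mul_le_mul_of_nonneg_left h2 (Real.exp_pos _).le
    _ = 1 := by rw [← Real.exp_add]; simp

/-- the exponent -/
noncomputable def ex (q : ℕ) (s : ℝ) (p : ℕ) : ℝ :=
  if p % 4 = 1 then (∑ ν ∈ V p, (uE p ν ^ (4 * q)).re) / (p : ℝ) ^ s / 4 - (1 / (p : ℝ) ^ s) ^ 2
  else 0

/-- lower bounds for the local factors -/
theorem loc_ge {q : ℕ} (hq : 0 < q) {s : ℝ} (hs : 1 < s) {p : ℕ} (hp : p.Prime) :
    (if p = 2 then 1 / 2 else 1) * Real.exp (ex q s p) ≤ ∑' k, f q s (p ^ k) := by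
  have hsum : Summable fun k => f q s (p ^ k) :=
    (f_sum hq hs).of_norm.comp_injective (Nat.pow_right_injective hp.two_le)
  obtain ⟨x0, x1, x2⟩ := x_bd hp hs
  rcases hp.eq_two_or_odd with rfl | hodd
  · have h1 : ex q s 2 = 0 := by
      unfold ex
      rw [if_neg (by norm_num)]
    rw [h1, Real.exp_zero, if_pos rfl, mul_one]
    simp_rw [f_pp q s hp (fun m _ => two_W q m), ← mul_pow]
    set x : ℝ := 1 / ((2 : ℕ) : ℝ) ^ s with hx
    have h2 : |(-1) ^ q * x| = x := by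
      rw [abs_mul, abs_pow, abs_neg, abs_one, one_pow, one_mul, abs_of_pos x0]
    rw [tsum_geometric_of_abs_lt_one (by rw [h2]; linarith), ← one_div]
    have h3 := abs_le.1 h2.le
    exact one_div_le_one_div_of_le (by linarith) (by linarith)
  · have hp2 : p ≠ 2 := by
      rintro rfl
      norm_num at hodd
    rw [if_neg hp2, one_mul]
    rcases (show p % 4 = 1 ∨ p % 4 = 3 by omega) with h1 | h3
    · obtain ⟨ϖ, h⟩ := spl_exists p hp h1
      have hW := fun m hm => split_W q hp h m hm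
      simp_rw [f_pp q s hp hW] at hsum ⊢
      have hc : |(uE p ϖ ^ (4 * q)).re| ≤ 1 := by
        refine (Complex.abs_re_le_norm _).trans ?_
        rw [norm_pow, uE_norm p hp.pos ϖ (mem_V.2 h.nm), one_pow]
      obtain ⟨h4, h5⟩ := exp_le hc x0 x2
      have h6 := U_sum hsum
      rw [← eq_div_iff h4.ne'] at h6
      rw [h6]
      refine le_trans (le_of_eq ?_) h5
      unfold ex
      rw [if_pos h1, sum_V_prime h hp q]
      congr 1
      ring
    · have h1 : ex q s p = 0 := by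
        unfold ex
        rw [if_neg (by omega)]
      rw [h1, Real.exp_zero]
      have hW := fun m hm => inert_W q hp h3 m hm
      have h0 : f q s (p ^ 0) = 1 := by rw [pow_zero, f_one]
      have hnn : ∀ k, 0 ≤ f q s (p ^ k) := by
        intro k
        rw [f_pp q s hp hW]
        split_ifs
        · positivity
        · simp
      have := hsum.le_tsum 0 (fun k _ => hnn k)
      rwa [h0] at this

end EPaux

open EPaux in
theorem EP (hLB : S_LB) : S_EP := by
  classical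
  intro q hq
  obtain ⟨C, hC⟩ := hLB q hq
  obtain ⟨B, hB⟩ : ∃ B : ℝ, B = ∑' n : ℕ, 1 / (n : ℝ) ^ 2 := ⟨_, rfl⟩
  have hBs : Summable fun n : ℕ => 1 / (n : ℝ) ^ 2 := Real.summable_one_div_nat_pow.2 (by norm_num)
  refine ⟨4 * (Real.log (2 * (|C| / 4 + 1)) + B), fun s hs hs2 => ?_⟩
  -- the value of the series
  have hsum := f_sum hq hs
  have hL : ∑' n, f q s n ≤ |C| / 4 := by
    have h1 : Tendsto (fun X : ℕ => ∑ e ∈ Finset.range (X + 1), f q s e) atTop
        (𝓝 (∑' n, f q s n)) :=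
      (hsum.of_norm.hasSum.tendsto_sum_nat).comp (tendsto_add_atTop_nat 1)
    refine le_of_tendsto h1 ?_
    filter_upwards [hC s hs hs2] with X hX
    have h2 : ∑ e ∈ Finset.range (X + 1), f q s e =
        (∑ e ∈ Finset.Icc 1 X, (∑ ν ∈ V e, (uE e ν ^ (4 * q)).re) / (e : ℝ) ^ s) / 4 := by
      have h3 : Finset.range (X + 1) = insert 0 (Finset.Icc 1 X) := by
        ext e
        simp only [Finset.mem_range, Finset.mem_insert, Finset.mem_Icc]
        omega
      rw [h3, Finset.sum_insert (by simp), f_zero hq, zero_add, Finset.sum_div]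
      refine Finset.sum_congr rfl fun e _ => ?_
      unfold f F
      rw [G_eq]
      ring
    rw [h2]
    have := le_abs_self C
    linarith
  have hpr := EulerProduct.eulerProduct (f_one q s) (fun h => f_mul q s h) hsum (f_zero hq s)
  have hev : ∀ᶠ n : ℕ in atTop, ∏ p ∈ Nat.primesBelow n, ∑' e, f q s (p ^ e) < |C| / 4 + 1 :=
    hpr.eventually (gt_mem_nhds (by linarith))
  filter_upwards [(tendsto_add_atTop_nat 1).eventually hev] with P hP
  -- the product of the lower bounds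
  have h1 : (1 / 2 : ℝ) * Real.exp (∑ p ∈ Nat.primesBelow (P + 1), ex q s p) ≤
      ∏ p ∈ Nat.primesBelow (P + 1), ∑' e, f q s (p ^ e) := by
    have h2 : ∏ p ∈ Nat.primesBelow (P + 1), ((if p = 2 then 1 / 2 else 1) *
        Real.exp (ex q s p)) ≤ ∏ p ∈ Nat.primesBelow (P + 1), ∑' e, f q s (p ^ e) := by
      refine Finset.prod_le_prod (fun p _ => by positivity) fun p hp => ?_
      exact loc_ge hq hs (Nat.prime_of_mem_primesBelow hp)
    refine le_trans ?_ h2
    rw [Finset.prod_mul_distrib, ← Real.exp_sum]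
    refine mul_le_mul_of_nonneg_right ?_ (Real.exp_pos _).le
    rw [Finset.prod_ite_eq']
    split_ifs <;> norm_num
  have h2 : Real.exp (∑ p ∈ Nat.primesBelow (P + 1), ex q s p) ≤ 2 * (|C| / 4 + 1) := by
    linarith
  have h3 : ∑ p ∈ Nat.primesBelow (P + 1), ex q s p ≤ Real.log (2 * (|C| / 4 + 1)) :=
    (Real.le_log_iff_exp_le (by positivity)).2 h2
  have h4 : (Finset.Icc 1 P).filter (fun p => p.Prime ∧ p % 4 = 1) =
      (Nat.primesBelow (P + 1)).filter (fun p => p % 4 = 1) := by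
    ext p
    simp only [Finset.mem_filter, Finset.mem_Icc, Nat.mem_primesBelow]
    constructor
    · rintro ⟨⟨a, b⟩, c, d⟩
      exact ⟨⟨by omega, c⟩, d⟩
    · rintro ⟨⟨a, b⟩, c⟩
      exact ⟨⟨b.one_le, by omega⟩, b, c⟩
  have h5 : ∑ p ∈ Nat.primesBelow (P + 1), ex q s p =
      (∑ p ∈ (Nat.primesBelow (P + 1)).filter (fun p => p % 4 = 1),
        (∑ ν ∈ V p, (uE p ν ^ (4 * q)).re) / (p : ℝ) ^ s) / 4 -
      ∑ p ∈ (Nat.primesBelow (P + 1)).filter (fun p => p % 4 = 1), (1 / (p : ℝ) ^ s) ^ 2 := by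
    rw [Finset.sum_div, ← Finset.sum_sub_distrib, Finset.sum_filter]
    rfl
  have h6 : ∑ p ∈ (Nat.primesBelow (P + 1)).filter (fun p => p % 4 = 1),
      (1 / (p : ℝ) ^ s) ^ 2 ≤ B := by
    refine (Finset.sum_le_sum (g := fun p : ℕ => 1 / (p : ℝ) ^ 2) fun p hp => ?_).trans ?_
    · obtain ⟨x0, x1, -⟩ := x_bd (Nat.prime_of_mem_primesBelow (Finset.mem_filter.1 hp).1) hs
      refine (pow_le_pow_left₀ x0.le x1 2).trans (le_of_eq ?_)
      rw [one_div_pow]
    · rw [hB]
      exact hBs.sum_le_tsum _ (fun n _ => by positivity)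
  rw [h4]
  linarith

end Pool.Agent.L0h77.BW
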