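import Pool.Agent.L0h77.BW.Defs

/-! MP_6b977f_mp, project BW, module EX: almost all norms have many simple prime divisors in a
large set of primes -/

set_option autoImplicit false
open Finset Filter Topology

namespace Pool.Agent.L0h77.BW

open Pool.Agent.L0h56.BQ

namespace ExM

/-- `p` divides `n` exactly once -/
def Ex (p n : ℕ) : Prop := p ∣ n ∧ ¬ p ^ 2 ∣ n

theorem ex_congr {p n n' : ℕ} (h : n ≡ n' [MOD p ^ 2]) : Ex p n ↔ Ex p n' := by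
  unfold Ex
  have h1 : p ∣ n ↔ p ∣ n' := (h.of_dvd (dvd_pow_self p two_ne_zero)).dvd_iff dvd_rfl
  have h2 : p ^ 2 ∣ n ↔ p ^ 2 ∣ n' := h.dvd_iff dvd_rfl
  rw [h1, h2]

/-! ### From energies to lattice points -/

theorem cnt_mono {P Q : ℕ → Prop} (h : ∀ e, P e → Q e) (X : ℕ) : cnt P X ≤ cnt Q X := by
  classical
  unfold cnt
  refine Finset.sum_le_sum_of_subset ?_
  intro e he
  rw [mem_filter] at he ⊢
  exact ⟨he.1, h e he.2⟩

theorem cnt_or (P Q : ℕ → Prop) (X : ℕ) : cnt (fun e => P e ∨ Q e) X ≤ cnt P X + cnt Q X := by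
  classical
  unfold cnt
  rw [Finset.sum_filter, Finset.sum_filter, Finset.sum_filter, ← Finset.sum_add_distrib]
  refine Finset.sum_le_sum fun e _ => ?_
  by_cases h1 : P e <;> by_cases h2 : Q e <;> simp [h1, h2]

theorem cnt_le (P : ℕ → Prop) [DecidablePred P] (X : ℕ) : cnt P X ≤
    (((Finset.Icc (-(Nat.sqrt X : ℤ)) (Nat.sqrt X)) ×ˢ
      (Finset.Icc (-(Nat.sqrt X : ℤ)) (Nat.sqrt X))).filter
        fun q => P (q.1 ^ 2 + q.2 ^ 2).natAbs).card := by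
  classical
  have h1 : cnt P X = (((Finset.Icc 1 X).filter P).sigma fun e => V e).card := by
    rw [Finset.card_sigma]
    unfold cnt
    refine Finset.sum_congr ?_ fun _ _ => rfl
    ext e
    simp only [mem_filter]
  rw [h1]
  refine Finset.card_le_card_of_injOn (fun x => (x.2.re, x.2.im)) ?_ ?_
  · rintro ⟨e, ν⟩ hx
    rw [Finset.mem_coe, Finset.mem_sigma, mem_filter, Finset.mem_Icc] at hx
    obtain ⟨⟨⟨h2, h3⟩, h4⟩, h5⟩ := hx
    simp only at h2 h3 h4 h5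
    rw [mem_V, norm_eq] at h5
    have hX : ν.re ^ 2 + ν.im ^ 2 ≤ X := by
      rw [h5]
      exact_mod_cast h3
    have hb : ∀ a : ℤ, a ^ 2 ≤ X → a ∈ Finset.Icc (-(Nat.sqrt X : ℤ)) (Nat.sqrt X) := by
      intro a ha
      have h6 : a.natAbs ≤ Nat.sqrt X := by
        rw [Nat.le_sqrt']
        have h7 : ((a.natAbs ^ 2 : ℕ) : ℤ) ≤ X := by
          push_cast
          rw [sq_abs]
          exact ha
        exact_mod_cast h7
      rw [Finset.mem_Icc]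
      omega
    rw [Finset.mem_coe, mem_filter, Finset.mem_product]
    refine ⟨⟨hb _ (by nlinarith [sq_nonneg ν.im]), hb _ (by nlinarith [sq_nonneg ν.re])⟩, ?_⟩
    simp only
    rw [h5]
    simpa using h4
  · rintro ⟨e, ν⟩ hx ⟨e', ν'⟩ hx' heq
    rw [Finset.mem_coe, Finset.mem_sigma] at hx hx'
    have h2 := hx.2
    have h3 := hx'.2
    simp only at h2 h3
    rw [mem_V] at h2 h3
    simp only [Prod.mk.injEq] at heq
    have h4 : ν = ν' := Zsqrtd.ext heq.1 heq.2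
    subst h4
    have h5 : e = e' := by
      have : (e : ℤ) = e' := by rw [← h2, ← h3]
      exact_mod_cast this
    subst h5
    rfl

/-! ### Periodic sets -/

theorem class_card (s N : ℕ) (hN : 0 < N) (r : ℤ) :
    (((Finset.Icc (-(s : ℤ)) s).filter fun a => a ≡ r [ZMOD N]).card : ℝ) ≤
      (2 * s + 1) / N + 1 := by
  have hN' : (0 : ℤ) < N := by exact_mod_cast hN
  have e1 : Finset.Icc (-(s : ℤ)) s = Finset.Ioc (-(s : ℤ) - 1) s := by
    ext a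
    rw [Finset.mem_Icc, Finset.mem_Ioc]
    omega
  rw [e1]
  have h := Int.Ioc_filter_modEq_card (-(s : ℤ) - 1) (s : ℤ) hN' r
  set c : ℕ := ((Finset.Ioc (-(s : ℤ) - 1) s).filter fun a => a ≡ r [ZMOD N]).card with hc
  have hNq : (0 : ℚ) < ((N : ℤ) : ℚ) := by exact_mod_cast hN'
  have h1 : ((c : ℤ) : ℚ) ≤ (2 * s + 1) / N + 1 := by
    rw [h]
    have h2 : (((⌊(((s : ℤ) : ℚ) - (r : ℚ)) / ((N : ℤ) : ℚ)⌋ -
        ⌊((((-(s : ℤ) - 1 : ℤ)) : ℚ) - (r : ℚ)) / ((N : ℤ) : ℚ)⌋ : ℤ)) : ℚ) ≤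
        (2 * s + 1) / N + 1 := by
      have h3 := Int.floor_le ((((s : ℤ) : ℚ) - (r : ℚ)) / ((N : ℤ) : ℚ))
      have h4 := Int.lt_floor_add_one (((((-(s : ℤ) - 1 : ℤ)) : ℚ) - (r : ℚ)) / ((N : ℤ) : ℚ))
      push_cast at h3 h4 ⊢
      have e2 : ((s : ℚ) - r) / N - (-(s : ℚ) - 1 - r) / N = (2 * s + 1) / N := by
        rw [← sub_div]
        congr 1
        ring
      linarith
    have h5 : (0 : ℚ) ≤ (2 * s + 1) / N + 1 := by positivity
    rw [Int.cast_max]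
    exact max_le h2 (by simpa using h5)
  have h6 : ((c : ℕ) : ℚ) ≤ (2 * s + 1) / N + 1 := by exact_mod_cast h1
  have h7 : (((c : ℕ) : ℚ) : ℝ) ≤ (((2 * s + 1) / N + 1 : ℚ) : ℝ) := by exact_mod_cast h6
  push_cast at h7
  exact h7

theorem periodic_card (s N : ℕ) (hN : 0 < N) (R : Finset (ℕ × ℕ)) :
    ((((Finset.Icc (-(s : ℤ)) s) ×ˢ (Finset.Icc (-(s : ℤ)) s)).filter
      fun q => ((q.1 % (N : ℤ)).toNat, (q.2 % (N : ℤ)).toNat) ∈ R).card : ℝ) ≤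
      R.card * ((2 * s + 1) / N + 1) ^ 2 := by
  classical
  have hsub : (((Finset.Icc (-(s : ℤ)) s) ×ˢ (Finset.Icc (-(s : ℤ)) s)).filter
      fun q => ((q.1 % (N : ℤ)).toNat, (q.2 % (N : ℤ)).toNat) ∈ R) ⊆ R.biUnion fun r =>
        ((Finset.Icc (-(s : ℤ)) s).filter fun a => a ≡ r.1 [ZMOD N]) ×ˢ
        ((Finset.Icc (-(s : ℤ)) s).filter fun a => a ≡ r.2 [ZMOD N]) := by
    intro q hq
    rw [mem_filter, Finset.mem_product] at hq
    obtain ⟨⟨h1, h2⟩, h3⟩ := hq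
    rw [mem_biUnion]
    have hmod : ∀ a : ℤ, a ≡ ((a % (N : ℤ)).toNat : ℕ) [ZMOD N] := by
      intro a
      have h4 : 0 ≤ a % (N : ℤ) := Int.emod_nonneg _ (by exact_mod_cast hN.ne')
      rw [Int.toNat_of_nonneg h4]
      exact (Int.mod_modEq a N).symm
    refine ⟨_, h3, ?_⟩
    rw [Finset.mem_product, mem_filter, mem_filter]
    exact ⟨⟨h1, hmod _⟩, ⟨h2, hmod _⟩⟩
  have h1 := (Finset.card_le_card hsub).trans Finset.card_biUnion_le
  have h2 : ((((Finset.Icc (-(s : ℤ)) s) ×ˢ (Finset.Icc (-(s : ℤ)) s)).filter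
      fun q => ((q.1 % (N : ℤ)).toNat, (q.2 % (N : ℤ)).toNat) ∈ R).card : ℝ) ≤
      ∑ r ∈ R, ((((Finset.Icc (-(s : ℤ)) s).filter fun a => a ≡ r.1 [ZMOD N]) ×ˢ
        ((Finset.Icc (-(s : ℤ)) s).filter fun a => a ≡ r.2 [ZMOD N])).card : ℝ) := by
    exact_mod_cast h1
  refine h2.trans ?_
  rw [← nsmul_eq_mul, ← Finset.sum_const]
  refine Finset.sum_le_sum fun r _ => ?_
  rw [Finset.card_product]
  push_cast
  rw [pow_two]
  exact mul_le_mul (class_card s N hN _) (class_card s N hN _) (Nat.cast_nonneg _)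
    (by positivity)

/-! ### Residue classes -/

open Classical in
/-- the residue classes modulo `N` at which no prime of `B` divides the norm exactly once -/
noncomputable def bad (B : Finset ℕ) (N : ℕ) : Finset (ℕ × ℕ) :=
  ((Finset.range N) ×ˢ (Finset.range N)).filter fun x => ∀ p ∈ B, ¬ Ex p (x.1 ^ 2 + x.2 ^ 2)

theorem mem_bad {B : Finset ℕ} {N : ℕ} {x : ℕ × ℕ} : x ∈ bad B N ↔
    (x.1 < N ∧ x.2 < N) ∧ ∀ p ∈ B, ¬ Ex p (x.1 ^ 2 + x.2 ^ 2) := by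
  classical
  unfold bad
  rw [mem_filter, Finset.mem_product, Finset.mem_range, Finset.mem_range]

theorem sq_mod (N x y : ℕ) : (x % N) ^ 2 + (y % N) ^ 2 ≡ x ^ 2 + y ^ 2 [MOD N] :=
  ((Nat.mod_modEq x N).pow 2).add ((Nat.mod_modEq y N).pow 2)

theorem bad_mul {B : Finset ℕ} {N p : ℕ} (hN : 0 < N) (hp : 0 < p)
    (hB : ∀ q ∈ B, q ^ 2 ∣ N) (hc : N.Coprime (p ^ 2)) :
    (bad (insert p B) (N * p ^ 2)).card ≤ (bad B N).card * (bad {p} (p ^ 2)).card := by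
  classical
  rw [← Finset.card_product]
  refine Finset.card_le_card_of_injOn
    (fun x => ((x.1 % N, x.2 % N), (x.1 % p ^ 2, x.2 % p ^ 2))) ?_ ?_
  · intro x hx
    rw [Finset.mem_coe, mem_bad] at hx
    rw [Finset.mem_coe, Finset.mem_product, mem_bad, mem_bad]
    have hp2 : 0 < p ^ 2 := pow_pos hp 2
    refine ⟨⟨⟨Nat.mod_lt _ hN, Nat.mod_lt _ hN⟩, ?_⟩, ⟨⟨Nat.mod_lt _ hp2, Nat.mod_lt _ hp2⟩, ?_⟩⟩
    · intro q hq
      rw [ex_congr ((sq_mod N x.1 x.2).of_dvd (hB q hq))]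
      exact hx.2 q (mem_insert_of_mem hq)
    · intro q hq
      rw [mem_singleton] at hq
      subst hq
      rw [ex_congr (sq_mod (q ^ 2) x.1 x.2)]
      exact hx.2 q (mem_insert_self _ _)
  · intro x hx y hy hxy
    rw [Finset.mem_coe, mem_bad] at hx hy
    simp only [Prod.mk.injEq] at hxy
    obtain ⟨⟨h1, h2⟩, ⟨h3, h4⟩⟩ := hxy
    have key : ∀ a b : ℕ, a < N * p ^ 2 → b < N * p ^ 2 → a % N = b % N →
        a % p ^ 2 = b % p ^ 2 → a = b := by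
      intro a b ha hb g1 g2
      have g3 : a ≡ b [MOD N * p ^ 2] := (Nat.modEq_and_modEq_iff_modEq_mul hc).1 ⟨g1, g2⟩
      exact g3.eq_of_lt_of_lt ha hb
    exact Prod.ext (key _ _ hx.1.1 hy.1.1 h1 h3) (key _ _ hx.1.2 hy.1.2 h2 h4)

/-! ### One prime -/

theorem exists_root {p : ℕ} (hp : p.Prime) (h4 : p % 4 = 1) : ∃ i : ℕ, p ∣ i ^ 2 + 1 := by
  have := Fact.mk hp
  obtain ⟨y, hy⟩ := (ZMod.exists_sq_eq_neg_one_iff (p := p)).2 (by omega)
  refine ⟨y.val, ?_⟩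
  rw [← ZMod.natCast_eq_zero_iff]
  push_cast
  rw [ZMod.natCast_val, ZMod.cast_id, pow_two, ← hy]
  ring

theorem good_card {p : ℕ} (hp : p.Prime) (h4 : p % 4 = 1) {a : ℕ} (ha : ¬ p ∣ a) :
    ∃ T : Finset ℕ, p - 1 ≤ T.card ∧ ∀ b ∈ T, b < p ^ 2 ∧ Ex p (a ^ 2 + b ^ 2) := by
  classical
  obtain ⟨i, hi⟩ := exists_root hp h4
  have hp2 : 0 < p ^ 2 := pow_pos hp.pos 2
  have hpp : Prime (p : ℤ) := Nat.prime_iff_prime_int.1 hp
  set T := (Finset.range p).image fun t => (i * a + p * t) % p ^ 2 with hT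
  have hTc : T.card = p := by
    rw [hT, Finset.card_image_of_injOn, Finset.card_range]
    intro t ht t' ht' h
    rw [Finset.mem_coe, Finset.mem_range] at ht ht'
    have h1 : i * a + p * t ≡ i * a + p * t' [MOD p ^ 2] := h
    have h2 : p * t ≡ p * t' [MOD p ^ 2] := Nat.ModEq.add_left_cancel' _ h1
    rw [pow_two] at h2
    have h3 : t ≡ t' [MOD p] := Nat.ModEq.mul_left_cancel' hp.pos.ne' h2
    exact h3.eq_of_lt_of_lt ht ht'
  have hTm : ∀ b ∈ T, b < p ^ 2 ∧ (p : ℤ) ∣ b - i * a := by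
    intro b hb
    rw [hT, mem_image] at hb
    obtain ⟨t, -, rfl⟩ := hb
    refine ⟨Nat.mod_lt _ hp2, ?_⟩
    have h1 : ((i * a + p * t : ℕ) : ℤ) % ((p ^ 2 : ℕ) : ℤ) =
        ((i * a + p * t : ℕ) : ℤ) - ((p ^ 2 : ℕ) : ℤ) * (((i * a + p * t : ℕ) : ℤ) /
          ((p ^ 2 : ℕ) : ℤ)) := Int.emod_def _ _
    rw [Int.natCast_mod, h1]
    refine ⟨t - p * (((i * a + p * t : ℕ) : ℤ) / ((p ^ 2 : ℕ) : ℤ)), ?_⟩
    push_cast
    ring
  have hdiv : ∀ b ∈ T, p ∣ a ^ 2 + b ^ 2 := by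
    intro b hb
    obtain ⟨u, hu⟩ := (hTm b hb).2
    obtain ⟨v, hv⟩ := hi
    have hv' : (i : ℤ) ^ 2 + 1 = p * v := by exact_mod_cast hv
    have h1 : (p : ℤ) ∣ ((a ^ 2 + b ^ 2 : ℕ) : ℤ) := by
      refine ⟨v * a ^ 2 + u * (b + i * a), ?_⟩
      push_cast
      linear_combination (a : ℤ) ^ 2 * hv' + ((b : ℤ) + i * a) * hu
    exact_mod_cast h1
  have hpi : ¬ (p : ℤ) ∣ i := by
    intro h
    have h1 : (p : ℤ) ∣ (i : ℤ) ^ 2 + 1 := by exact_mod_cast hi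
    have h2 : (p : ℤ) ∣ 1 := by
      have h3 : (p : ℤ) ∣ (i : ℤ) ^ 2 := dvd_pow h two_ne_zero
      have := dvd_sub h1 h3
      simpa using this
    exact hpp.not_dvd_one h2
  have hpa : ¬ (p : ℤ) ∣ a := by exact_mod_cast ha
  have hp2' : ¬ (p : ℤ) ∣ 2 := by
    intro h
    have h1 : p ∣ 2 := by exact_mod_cast h
    have h2 := Nat.le_of_dvd (by norm_num) h1
    have h3 := hp.two_le
    have : p = 2 := by omega
    omega
  set T2 := T.filter fun b => p ^ 2 ∣ a ^ 2 + b ^ 2 with hT2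
  have hT2c : T2.card ≤ 1 := by
    rw [Finset.card_le_one]
    intro b hb b' hb'
    obtain ⟨hbT, hb2⟩ := mem_filter.1 hb
    obtain ⟨hbT', hb2'⟩ := mem_filter.1 hb'
    obtain ⟨l1, u, hu⟩ := hTm b hbT
    obtain ⟨l2, u', hu'⟩ := hTm b' hbT'
    have h1 : (p : ℤ) ^ 2 ∣ (b - b') * (b + b') := by
      have g1 : (p : ℤ) ^ 2 ∣ (a : ℤ) ^ 2 + (b : ℤ) ^ 2 := by exact_mod_cast hb2
      have g2 : (p : ℤ) ^ 2 ∣ (a : ℤ) ^ 2 + (b' : ℤ) ^ 2 := by exact_mod_cast hb2'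
      have := dvd_sub g1 g2
      have e : (a : ℤ) ^ 2 + (b : ℤ) ^ 2 - ((a : ℤ) ^ 2 + (b' : ℤ) ^ 2) = (b - b') * (b + b') := by
        ring
      rwa [e] at this
    have h2 : ¬ (p : ℤ) ∣ (b + b' : ℤ) := by
      intro h
      have h3 : (p : ℤ) ∣ 2 * (i * a) := by
        have e : 2 * ((i : ℤ) * a) = (b + b') - p * (u + u') := by
          linear_combination -hu - hu'
        rw [e]
        exact dvd_sub h (dvd_mul_right _ _)
      rcases hpp.dvd_or_dvd h3 with h4 | h4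
      · exact hp2' h4
      · rcases hpp.dvd_or_dvd h4 with h5 | h5
        · exact hpi h5
        · exact hpa h5
    have hcop : IsCoprime ((p : ℤ) ^ 2) (b + b' : ℤ) :=
      IsCoprime.pow_left ((Prime.coprime_iff_not_dvd hpp).2 h2)
    have h3 : (p : ℤ) ^ 2 ∣ (b - b' : ℤ) := hcop.dvd_of_dvd_mul_right h1
    have h4 : ((p ^ 2 : ℕ) : ℤ) ∣ ((b : ℤ) - b') := by
      push_cast
      exact h3
    have h5 : b' ≡ b [MOD p ^ 2] := (Nat.modEq_iff_dvd).2 h4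
    exact (h5.eq_of_lt_of_lt l2 l1).symm
  refine ⟨T \ T2, ?_, ?_⟩
  · have h : (T \ T2).card = T.card - T2.card :=
      Finset.card_sdiff_of_subset (Finset.filter_subset _ _)
    rw [h, hTc]
    omega
  · intro b hb
    obtain ⟨h1, h2⟩ := Finset.mem_sdiff.1 hb
    refine ⟨(hTm b h1).1, hdiv b h1, fun h => h2 (mem_filter.2 ⟨h1, h⟩)⟩

theorem bad_one {p : ℕ} (hp : p.Prime) (h4 : p % 4 = 1) :
    (bad {p} (p ^ 2)).card + p * (p - 1) * (p - 1) ≤ (p ^ 2) ^ 2 := by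
  classical
  have hp2 : 0 < p ^ 2 := pow_pos hp.pos 2
  set A := (Finset.range (p ^ 2)).filter fun a => (p ^ 2).Coprime a with hA
  have hAc : A.card = p * (p - 1) := by
    have h1 : A.card = (p ^ 2).totient := (Nat.totient_eq_card_coprime _).symm
    rw [h1, Nat.totient_prime_pow hp (by norm_num)]
    norm_num
  have hAd : ∀ a ∈ A, ¬ p ∣ a := by
    intro a ha h
    obtain ⟨-, h1⟩ := mem_filter.1 ha
    have h2 : p.Coprime a := Nat.Coprime.coprime_dvd_left (dvd_pow_self p two_ne_zero) h1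
    have h3 := Nat.Coprime.eq_one_of_dvd h2 h
    exact hp.one_lt.ne' h3
  have hex : ∀ a : ℕ, ∃ T : Finset ℕ, a ∈ A → (p - 1 ≤ T.card ∧
      ∀ b ∈ T, b < p ^ 2 ∧ Ex p (a ^ 2 + b ^ 2)) := by
    intro a
    by_cases ha : a ∈ A
    · obtain ⟨T, hT⟩ := good_card hp h4 (hAd a ha)
      exact ⟨T, fun _ => hT⟩
    · exact ⟨∅, fun h => absurd h ha⟩
  choose T hT using hex
  set Gd : Finset (ℕ × ℕ) := (A.sigma fun a => T a).image fun x => (x.1, x.2) with hGd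
  have hGc : p * (p - 1) * (p - 1) ≤ Gd.card := by
    rw [hGd, Finset.card_image_of_injOn, Finset.card_sigma, ← hAc, ← smul_eq_mul]
    · exact Finset.card_nsmul_le_sum _ _ _ fun a ha => (hT a ha).1
    · rintro ⟨a, b⟩ _ ⟨a', b'⟩ _ h
      simp only [Prod.mk.injEq] at h
      obtain ⟨rfl, rfl⟩ := h
      rfl
  have hdisj : Disjoint (bad {p} (p ^ 2)) Gd := by
    rw [Finset.disjoint_left]
    intro x hx hx'
    rw [hGd, mem_image] at hx'
    obtain ⟨⟨a, b⟩, h1, rfl⟩ := hx'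
    rw [Finset.mem_sigma] at h1
    exact (mem_bad.1 hx).2 p (mem_singleton_self p) ((hT a h1.1).2 b h1.2).2
  have hsub : (bad {p} (p ^ 2)) ∪ Gd ⊆ (Finset.range (p ^ 2)) ×ˢ (Finset.range (p ^ 2)) := by
    intro x hx
    rw [Finset.mem_product, Finset.mem_range, Finset.mem_range]
    rcases mem_union.1 hx with h | h
    · exact (mem_bad.1 h).1
    · rw [hGd, mem_image] at h
      obtain ⟨⟨a, b⟩, h1, rfl⟩ := h
      rw [Finset.mem_sigma] at h1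
      exact ⟨Finset.mem_range.1 (mem_filter.1 h1.1).1, ((hT a h1.1).2 b h1.2).1⟩
  have h5 := Finset.card_le_card hsub
  rw [Finset.card_union_of_disjoint hdisj, Finset.card_product, Finset.card_range,
    ← pow_two] at h5
  omega

theorem bad_one_real {p : ℕ} (hp : p.Prime) (h4 : p % 4 = 1) :
    ((bad {p} (p ^ 2)).card : ℝ) ≤ ((p : ℝ) ^ 2) ^ 2 * Real.exp (-(1 / 2 * (1 / (p : ℝ)))) := by
  have h5 : 5 ≤ p := by
    have := hp.two_le
    by_contra hcon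
    have h6 : p ≤ 4 := by omega
    interval_cases p <;> omega
  have h1 := bad_one hp h4
  obtain ⟨q, rfl⟩ : ∃ q, p = q + 1 := ⟨p - 1, by omega⟩
  simp only [Nat.add_sub_cancel] at h1
  have h2 : ((bad {q + 1} ((q + 1) ^ 2)).card : ℝ) + ((q : ℝ) + 1) * q * q ≤
      (((q : ℝ) + 1) ^ 2) ^ 2 := by exact_mod_cast h1
  have hq : (4 : ℝ) ≤ q := by
    have : 4 ≤ q := by omega
    exact_mod_cast this
  have h3 := Real.add_one_le_exp (-(1 / 2 * (1 / ((q : ℝ) + 1))))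
  have h6 : (((q : ℝ) + 1) ^ 2) ^ 2 * (-(1 / 2 * (1 / ((q : ℝ) + 1))) + 1) =
      (((q : ℝ) + 1) ^ 2) ^ 2 - 1 / 2 * ((q : ℝ) + 1) ^ 3 := by
    field_simp
    ring
  have h7 := mul_le_mul_of_nonneg_left h3 (by positivity : (0 : ℝ) ≤ (((q : ℝ) + 1) ^ 2) ^ 2)
  push_cast
  rw [h6] at h7
  nlinarith

/-! ### Blocks -/

theorem bad_prod (B : Finset ℕ) (hB : ∀ p ∈ B, p.Prime ∧ p % 4 = 1) :
    ((bad B (∏ p ∈ B, p ^ 2)).card : ℝ) ≤
      ((∏ p ∈ B, p ^ 2 : ℕ) : ℝ) ^ 2 * Real.exp (-(1 / 2 * ∑ p ∈ B, 1 / (p : ℝ))) := by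
  classical
  induction B using Finset.induction_on with
  | empty =>
    have : (bad ∅ 1).card ≤ 1 := by
      unfold bad
      refine (Finset.card_filter_le _ _).trans ?_
      simp
    simp only [Finset.prod_empty, Finset.sum_empty, mul_zero, neg_zero, Real.exp_zero]
    norm_num
    exact_mod_cast this
  | insert p B hp ih =>
    have ih := ih fun q hq => hB q (mem_insert_of_mem hq)
    obtain ⟨h1, h2⟩ := hB p (mem_insert_self p B)
    rw [Finset.prod_insert hp, Finset.sum_insert hp, mul_comm (p ^ 2)]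
    have hN : 0 < ∏ q ∈ B, q ^ 2 :=
      Finset.prod_pos fun q hq => pow_pos (hB q (mem_insert_of_mem hq)).1.pos 2
    have hc : (∏ q ∈ B, q ^ 2).Coprime (p ^ 2) := by
      refine Nat.Coprime.prod_left fun q hq => ?_
      refine Nat.Coprime.pow 2 2 ((Nat.coprime_primes (hB q (mem_insert_of_mem hq)).1 h1).2 ?_)
      rintro rfl
      exact hp hq
    have h3 := bad_mul (B := B) (p := p) hN h1.pos (fun q hq => Finset.dvd_prod_of_mem _ hq) hc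
    have h4 : ((bad (insert p B) ((∏ q ∈ B, q ^ 2) * p ^ 2)).card : ℝ) ≤
        (bad B (∏ q ∈ B, q ^ 2)).card * (bad {p} (p ^ 2)).card := by exact_mod_cast h3
    refine h4.trans ((mul_le_mul ih (bad_one_real h1 h2) (Nat.cast_nonneg _)
      (by positivity)).trans (le_of_eq ?_))
    have e1 : -(1 / 2 * (1 / (p : ℝ) + ∑ q ∈ B, 1 / (q : ℝ))) =
        -(1 / 2 * ∑ q ∈ B, 1 / (q : ℝ)) + -(1 / 2 * (1 / (p : ℝ))) := by ring
    rw [e1, Real.exp_add]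
    push_cast
    ring

theorem block_cnt (B : Finset ℕ) (hB : ∀ p ∈ B, p.Prime ∧ p % 4 = 1) :
    ∀ᶠ X : ℕ in atTop, (cnt (fun e => ∀ p ∈ B, ¬ Ex p e) X : ℝ) ≤
      16 * Real.exp (-(1 / 2 * ∑ p ∈ B, 1 / (p : ℝ))) * X := by
  classical
  set N := ∏ p ∈ B, p ^ 2 with hN
  have hN0 : 0 < N := Finset.prod_pos fun q hq => pow_pos (hB q hq).1.pos 2
  set β := Real.exp (-(1 / 2 * ∑ p ∈ B, 1 / (p : ℝ))) with hβ
  have hβ0 : 0 < β := Real.exp_pos _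
  have hbad := bad_prod B hB
  rw [← hN, ← hβ] at hbad
  filter_upwards [eventually_ge_atTop ((N + 1) ^ 2)] with X hX
  have h1 := cnt_le (fun e => ∀ p ∈ B, ¬ Ex p e) X
  set s := Nat.sqrt X with hs
  have hsN : N + 1 ≤ s := by
    rw [hs, Nat.le_sqrt']
    exact hX
  have hsX : s ^ 2 ≤ X := Nat.sqrt_le' X
  have hsub : (((Finset.Icc (-(s : ℤ)) s) ×ˢ (Finset.Icc (-(s : ℤ)) s)).filter
      fun q => ∀ p ∈ B, ¬ Ex p (q.1 ^ 2 + q.2 ^ 2).natAbs) ⊆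
      (((Finset.Icc (-(s : ℤ)) s) ×ˢ (Finset.Icc (-(s : ℤ)) s)).filter
      fun q => ((q.1 % (N : ℤ)).toNat, (q.2 % (N : ℤ)).toNat) ∈ bad B N) := by
    intro q hq
    rw [mem_filter] at hq ⊢
    refine ⟨hq.1, ?_⟩
    have hNz : (N : ℤ) ≠ 0 := by exact_mod_cast hN0.ne'
    have hNp : (0 : ℤ) < N := by exact_mod_cast hN0
    have g1 : 0 ≤ q.1 % (N : ℤ) := Int.emod_nonneg _ hNz
    have g2 : 0 ≤ q.2 % (N : ℤ) := Int.emod_nonneg _ hNz
    have g3 : q.1 % (N : ℤ) < N := Int.emod_lt_of_pos _ hNp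
    have g4 : q.2 % (N : ℤ) < N := Int.emod_lt_of_pos _ hNp
    rw [mem_bad]
    refine ⟨⟨by simp only; omega, by simp only; omega⟩, ?_⟩
    intro p hp
    have h2 := hq.2 p hp
    have hmod : ((q.1 % (N : ℤ)).toNat ^ 2 + (q.2 % (N : ℤ)).toNat ^ 2) ≡
        (q.1 ^ 2 + q.2 ^ 2).natAbs [MOD p ^ 2] := by
      rw [← Int.natCast_modEq_iff]
      push_cast
      rw [Int.toNat_of_nonneg g1, Int.toNat_of_nonneg g2, abs_of_nonneg (by positivity)]
      have hdiv : ((p ^ 2 : ℕ) : ℤ) ∣ (N : ℤ) := by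
        exact_mod_cast Finset.dvd_prod_of_mem (fun p => p ^ 2) hp
      push_cast at hdiv
      exact ((((Int.mod_modEq q.1 N).pow 2).add ((Int.mod_modEq q.2 N).pow 2))).of_dvd hdiv
    rw [ex_congr hmod]
    exact h2
  have h2 := periodic_card s N hN0 (bad B N)
  have h3 : (cnt (fun e => ∀ p ∈ B, ¬ Ex p e) X : ℝ) ≤
      (bad B N).card * ((2 * s + 1) / N + 1) ^ 2 := by
    refine le_trans ?_ h2
    exact_mod_cast h1.trans (Finset.card_le_card hsub)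
  have hNr : (0 : ℝ) < N := by exact_mod_cast hN0
  have hsr : (N : ℝ) + 1 ≤ s := by exact_mod_cast hsN
  have hsXr : (s : ℝ) ^ 2 ≤ X := by exact_mod_cast hsX
  have h4 : ((2 * s + 1) / N + 1 : ℝ) ≤ 4 * s / N := by
    rw [div_add_one hNr.ne']
    refine div_le_div_of_nonneg_right ?_ hNr.le
    linarith
  calc (cnt (fun e => ∀ p ∈ B, ¬ Ex p e) X : ℝ) ≤ (bad B N).card * ((2 * s + 1) / N + 1) ^ 2 := h3
    _ ≤ ((N : ℝ) ^ 2 * β) * (4 * s / N) ^ 2 :=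
        mul_le_mul hbad (pow_le_pow_left₀ (by positivity) h4 2) (by positivity) (by positivity)
    _ = 16 * β * (s : ℝ) ^ 2 := by
        field_simp
        ring
    _ ≤ 16 * β * X := mul_le_mul_of_nonneg_left hsXr (by positivity)

/-- blocks with a small density -/
theorem exists_block (G : Set ℕ) (hG : ∀ p ∈ G, p.Prime ∧ p % 4 = 1)
    (hns : ¬ Summable fun p : G => (1 : ℝ) / (p : ℕ)) (F0 : Finset ℕ) (ε : ℝ) (hε : 0 < ε) :
    ∃ B : Finset ℕ, (∀ p ∈ B, p ∈ G) ∧ Disjoint B F0 ∧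
      ∀ᶠ X : ℕ in atTop, (cnt (fun e => ∀ p ∈ B, ¬ Ex p e) X : ℝ) ≤ ε * X := by
  classical
  -- the size of the sum
  obtain ⟨L, hL⟩ : ∃ L : ℝ, 16 * Real.exp (-(1 / 2 * L)) ≤ ε := by
    refine ⟨-(2 * Real.log (ε / 16)), ?_⟩
    have e1 : -(1 / 2 * -(2 * Real.log (ε / 16))) = Real.log (ε / 16) := by ring
    rw [e1, Real.exp_log (by positivity)]
    linarith
  have h1 : ∃ u : Finset G, L + (∑ p ∈ F0, 1 / (p : ℝ)) < ∑ p ∈ u, (1 : ℝ) / ((p : ℕ) : ℝ) := by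
    by_contra hcon
    push Not at hcon
    exact hns (summable_of_sum_le (fun p => by positivity) hcon)
  obtain ⟨u, hu⟩ := h1
  set B1 : Finset ℕ := u.map ⟨Subtype.val, Subtype.val_injective⟩ with hB1
  have hsum1 : ∑ p ∈ B1, 1 / (p : ℝ) = ∑ p ∈ u, (1 : ℝ) / ((p : ℕ) : ℝ) := by
    rw [hB1, Finset.sum_map]
    rfl
  have hB1G : ∀ p ∈ B1, p ∈ G := by
    intro p hp
    rw [hB1, Finset.mem_map] at hp
    obtain ⟨q, -, rfl⟩ := hp
    exact q.2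
  refine ⟨B1 \ F0, fun p hp => hB1G p (Finset.mem_sdiff.1 hp).1, Finset.sdiff_disjoint, ?_⟩
  have hsum2 : L ≤ ∑ p ∈ B1 \ F0, 1 / (p : ℝ) := by
    have h2 : ∑ p ∈ B1, 1 / (p : ℝ) ≤ ∑ p ∈ B1 \ F0, 1 / (p : ℝ) + ∑ p ∈ F0, 1 / (p : ℝ) := by
      rw [← Finset.sum_inter_add_sum_sdiff B1 F0, add_comm]
      refine add_le_add le_rfl ?_
      exact Finset.sum_le_sum_of_subset_of_nonneg Finset.inter_subset_right
        fun p _ _ => by positivity
    rw [hsum1] at h2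
    linarith
  have h3 := block_cnt (B1 \ F0) fun p hp => hG p (hB1G p (Finset.mem_sdiff.1 hp).1)
  filter_upwards [h3] with X hX
  refine hX.trans (mul_le_mul_of_nonneg_right ?_ (Nat.cast_nonneg X))
  refine le_trans (mul_le_mul_of_nonneg_left ?_ (by norm_num)) hL
  exact Real.exp_le_exp.2 (by linarith)

theorem ex_aux (G : Set ℕ) (hG : ∀ p ∈ G, p.Prime ∧ p % 4 = 1)
    (hns : ¬ Summable fun p : G => (1 : ℝ) / (p : ℕ)) (J : ℕ) : ∀ F0 : Finset ℕ,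
    DZ fun e => ¬ ∃ F : Finset ℕ, F.card = J ∧ Disjoint F F0 ∧
      ∀ p ∈ F, p ∈ G ∧ p ∣ e ∧ ¬ p ^ 2 ∣ e := by
  classical
  induction J with
  | zero =>
    intro F0 ε hε
    filter_upwards with X
    have h1 : cnt (fun e => ¬ ∃ F : Finset ℕ, F.card = 0 ∧ Disjoint F F0 ∧
        ∀ p ∈ F, p ∈ G ∧ p ∣ e ∧ ¬ p ^ 2 ∣ e) X = 0 := by
      refine Nat.le_zero.1 ((cnt_mono (Q := fun _ => False) ?_ X).trans ?_)
      · intro e he
        exact he ⟨∅, rfl, Finset.disjoint_empty_left _, by simp⟩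
      · unfold cnt
        simp
    rw [h1, Nat.cast_zero]
    positivity
  | succ J ih =>
    intro F0 ε hε
    obtain ⟨B, hBG, hBF, hB⟩ := exists_block G hG hns F0 (ε / 2) (by positivity)
    have h1 := ih (F0 ∪ B) (ε / 2) (by positivity)
    filter_upwards [hB, h1] with X hX1 hX2
    have h2 : cnt (fun e => ¬ ∃ F : Finset ℕ, F.card = J + 1 ∧ Disjoint F F0 ∧
        ∀ p ∈ F, p ∈ G ∧ p ∣ e ∧ ¬ p ^ 2 ∣ e) X ≤
        cnt (fun e => ∀ p ∈ B, ¬ Ex p e) X +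
        cnt (fun e => ¬ ∃ F : Finset ℕ, F.card = J ∧ Disjoint F (F0 ∪ B) ∧
          ∀ p ∈ F, p ∈ G ∧ p ∣ e ∧ ¬ p ^ 2 ∣ e) X := by
      refine (cnt_mono ?_ X).trans (cnt_or _ _ X)
      intro e he
      by_contra hcon
      push Not at hcon
      obtain ⟨⟨p, hpB, hpe⟩, F, hF1, hF2, hF3⟩ := hcon
      rw [Finset.disjoint_union_right] at hF2
      have hpF : p ∉ F := fun h => Finset.disjoint_left.1 hF2.2 h hpB
      refine he ⟨insert p F, by rw [Finset.card_insert_of_notMem hpF, hF1], ?_, ?_⟩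
      · rw [Finset.disjoint_insert_left]
        exact ⟨Finset.disjoint_left.1 hBF hpB, hF2.1⟩
      · intro q hq
        rcases mem_insert.1 hq with rfl | hq
        · exact ⟨hBG _ hpB, hpe.1, hpe.2⟩
        · exact hF3 q hq
    have h3 : (cnt (fun e => ¬ ∃ F : Finset ℕ, F.card = J + 1 ∧ Disjoint F F0 ∧
        ∀ p ∈ F, p ∈ G ∧ p ∣ e ∧ ¬ p ^ 2 ∣ e) X : ℝ) ≤
        (cnt (fun e => ∀ p ∈ B, ¬ Ex p e) X : ℝ) +
        (cnt (fun e => ¬ ∃ F : Finset ℕ, F.card = J ∧ Disjoint F (F0 ∪ B) ∧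
          ∀ p ∈ F, p ∈ G ∧ p ∣ e ∧ ¬ p ^ 2 ∣ e) X : ℝ) := by exact_mod_cast h2
    linarith

end ExM

open ExM in
theorem EX : S_EX := by
  intro G hG hns J ε hε
  filter_upwards [ex_aux G hG hns J ∅ ε hε] with X hX
  refine le_trans ?_ hX
  have h := cnt_mono (P := fun e => ¬ ∃ F : Finset ℕ, F.card = J ∧
    ∀ p ∈ F, p ∈ G ∧ p ∣ e ∧ ¬ p ^ 2 ∣ e) (Q := fun e => ¬ ∃ F : Finset ℕ, F.card = J ∧
    Disjoint F ∅ ∧ ∀ p ∈ F, p ∈ G ∧ p ∣ e ∧ ¬ p ^ 2 ∣ e) (by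
      rintro e he ⟨F, h1, -, h2⟩
      exact he ⟨F, h1, h2⟩) X
  exact_mod_cast h

end Pool.Agent.L0h77.BW
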