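import Pool.Agent.L0h77.BW.Defs

/-! MP_6b977f_mp, project BW: statements of the modules of part D (existence) -/

set_option autoImplicit false
open MeasureTheory Filter Topology Complex
open scoped ContDiff

namespace Pool.Agent.L0h77.BW

open Pool.Agent.L0h56.BQ

noncomputable section

/-- the mean of `Re (ν / |ν|) ^ (2 q)` over the elements of `V e` off the axes -/
def avg (e q : ℕ) : ℝ := (∑ ν ∈ W' e, ((uE e ν) ^ (2 * q)).re) / (W' e).card

/-- CON: construction of a basis with flat coefficients -/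
def S_CON : Prop := ∃ (E : ℕ → ℕ) (u : ℕ → ℂ → ℝ) (b : ℕ → GI → ℝ), IsBasis DirE E u ∧
  (∀ n, 0 < E n) ∧ (∀ n, Rep (-1) (E n) (b n) (u n)) ∧ (∀ n, ∑ ν ∈ V (E n), b n ν ^ 2 = 1) ∧
  ∀ q e : ℕ, ∀ F : Finset ℕ, (∀ n ∈ F, E n = e) →
    ∑ n ∈ F, ((∑ ν ∈ V e, b n ν ^ 2 * ((uE e ν) ^ (2 * q)).re) - avg e q) ^ 2 ≤ 2

/-- BIG: almost all multiplicities are large -/
def S_BIG : Prop := ∀ K : ℕ, DZ fun e => (V e).card < K

/-- MEAN: the directions are equidistributed for almost all energies -/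
def S_MEAN : Prop := ∀ q : ℕ, 0 < q → ∀ δ : ℝ, 0 < δ → DZ fun e => δ < |avg e q|

/-- FEW: a bounded number of indices in each eigenspace is negligible -/
def S_FEW : Prop := ∀ (E : ℕ → ℕ) (u : ℕ → ℂ → ℝ), IsBasis DirE E u → ∀ (C : ℕ) (B : Set ℕ),
  (∀ e, (B ∩ {n | E n = e}).ncard ≤ C) → Null B

end

end Pool.Agent.L0h77.BW
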