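import Pool.Agent.L0h77.BW.FullA
import Pool.Agent.L0h77.BW.Stm2

/-! MP_6b977f_mp, project BW: existence of quantum ergodic bases of the unit square -/

set_option autoImplicit false
set_option maxHeartbeats 400000
open MeasureTheory Filter Topology Complex
open scoped ContDiff

namespace Pool.Agent.L0h77.BW

open Pool.Agent.L0h56.BQ
open Pool.Agent.N661.BR (MW lin J0 resc IsCutoff IsQuantumErgodic IsRandomWave IsLocalLimit)
open Pool.Agent.W745.RW (TF Dp)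

noncomputable section

/-- the exceptional sets of indices -/
def Bq (E : ℕ → ℕ) (b : ℕ → GI → ℝ) (q l : ℕ) : Set ℕ :=
  {n | 1 / ((l : ℝ) + 1) < |∑ ν ∈ V (E n), b n ν ^ 2 * ((uE (E n) ν) ^ (2 * q)).re|}

theorem Bq_null (hMEAN : S_MEAN) (hFEW : S_FEW) (hDEN : S_DEN) (hCNT : S_CNT) (hFR : S_FR)
    {E : ℕ → ℕ} {u : ℕ → ℂ → ℝ} {b : ℕ → GI → ℝ} (hB : IsBasis DirE E u)
    (hH : ∀ q e : ℕ, ∀ F : Finset ℕ, (∀ n ∈ F, E n = e) →
      ∑ n ∈ F, ((∑ ν ∈ V e, b n ν ^ 2 * ((uE e ν) ^ (2 * q)).re) - avg e q) ^ 2 ≤ 2)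
    (q l : ℕ) (hq : 0 < q) : Null (Bq E b q l) := by
  set δ : ℝ := 1 / ((l : ℝ) + 1) / 2 with hδ
  have hδ0 : 0 < δ := by positivity
  have h1 : Null {n | δ < |avg (E n) q|} :=
    basis_null hDEN hCNT hFR (Or.inl rfl) hB (fun e => δ < |avg e q|) (hMEAN q hq δ hδ0)
  have h2 : Null {n | δ < |(∑ ν ∈ V (E n), b n ν ^ 2 * ((uE (E n) ν) ^ (2 * q)).re) -
      avg (E n) q|} := by
    obtain ⟨C, hC⟩ := exists_nat_gt (2 / δ ^ 2)
    refine hFEW E u hB C _ fun e => ?_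
    have hfin : ({n | δ < |(∑ ν ∈ V (E n), b n ν ^ 2 * ((uE (E n) ν) ^ (2 * q)).re) -
        avg (E n) q|} ∩ {n | E n = e}).Finite :=
      (ncard_le_sum hB.top e).subset fun n hn => le_of_eq hn.2
    rw [Set.ncard_eq_toFinset_card _ hfin]
    set F := hfin.toFinset with hF
    have hmem : ∀ n ∈ F, δ < |(∑ ν ∈ V (E n), b n ν ^ 2 * ((uE (E n) ν) ^ (2 * q)).re) -
        avg (E n) q| ∧ E n = e := fun n hn => by
      have := (Set.Finite.mem_toFinset hfin).1 hn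
      exact this
    have h3 := hH q e F fun n hn => (hmem n hn).2
    have h4 : ∑ n ∈ F, δ ^ 2 ≤ ∑ n ∈ F,
        ((∑ ν ∈ V e, b n ν ^ 2 * ((uE e ν) ^ (2 * q)).re) - avg e q) ^ 2 := by
      refine Finset.sum_le_sum fun n hn => ?_
      obtain ⟨h5, h6⟩ := hmem n hn
      rw [h6] at h5
      rw [← sq_abs ((∑ ν ∈ V e, b n ν ^ 2 * ((uE e ν) ^ (2 * q)).re) - avg e q)]
      exact pow_le_pow_left₀ hδ0.le h5.le 2
    rw [Finset.sum_const, nsmul_eq_mul] at h4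
    have h5 : (F.card : ℝ) ≤ 2 / δ ^ 2 := by
      rw [le_div_iff₀ (by positivity)]
      linarith
    have h6 : (F.card : ℝ) ≤ C := h5.trans hC.le
    exact_mod_cast h6
  refine null_mono ?_ (null_union h1 h2)
  intro n hn
  have hn' : 1 / ((l : ℝ) + 1) < |∑ ν ∈ V (E n), b n ν ^ 2 * ((uE (E n) ν) ^ (2 * q)).re| := hn
  by_contra hc
  have hc1 : ¬ δ < |avg (E n) q| := fun h => hc (Or.inl h)
  have hc2 : ¬ δ < |(∑ ν ∈ V (E n), b n ν ^ 2 * ((uE (E n) ν) ^ (2 * q)).re) -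
      avg (E n) q| := fun h => hc (Or.inr h)
  have h3 : |∑ ν ∈ V (E n), b n ν ^ 2 * ((uE (E n) ν) ^ (2 * q)).re| ≤
      |(∑ ν ∈ V (E n), b n ν ^ 2 * ((uE (E n) ν) ^ (2 * q)).re) - avg (E n) q| +
        |avg (E n) q| := by
    have := abs_add_le ((∑ ν ∈ V (E n), b n ν ^ 2 * ((uE (E n) ν) ^ (2 * q)).re) - avg (E n) q)
      (avg (E n) q)
    rwa [sub_add_cancel] at this
  have h4 : δ + δ = 1 / ((l : ℝ) + 1) := by rw [hδ]; ring
  linarith [not_lt.1 hc1, not_lt.1 hc2]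

/-- all exceptional sets of indices -/
def BX (E : ℕ → ℕ) (b : ℕ → GI → ℝ) (j : ℕ) : Set ℕ :=
  if (Nat.unpair j).1 = 0 then Ba E 2 (Nat.unpair (Nat.unpair j).2).1 else
    Bq E b ((Nat.unpair (Nat.unpair j).2).1 + 1) (Nat.unpair (Nat.unpair j).2).2

theorem BX_a (E : ℕ → ℕ) (b : ℕ → GI → ℝ) (R : ℕ) :
    BX E b (Nat.pair 0 (Nat.pair R 0)) = Ba E 2 R := by
  unfold BX
  rw [Nat.unpair_pair, if_pos rfl, Nat.unpair_pair]

theorem BX_b (E : ℕ → ℕ) (b : ℕ → GI → ℝ) (q l : ℕ) :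
    BX E b (Nat.pair 1 (Nat.pair q l)) = Bq E b (q + 1) l := by
  unfold BX
  rw [Nat.unpair_pair, if_neg one_ne_zero, Nat.unpair_pair]

theorem EXI (hCON : S_CON) (hMEAN : S_MEAN) (hFEW : S_FEW) (hNB : S_NB) (hQEG : S_QEG)
    (hDEN : S_DEN) (hDIAG : S_DIAG) (hCNT : S_CNT) (hFR : S_FR) : S_EXI := by
  obtain ⟨E, u, b, hB, hE, hr, hb, hH⟩ := hCON
  refine ⟨E, u, hB, ?_⟩
  have hBa : ∀ k R, Null (Ba E k R) := fun k R =>
    basis_null hDEN hCNT hFR (Or.inl rfl) hB (fun e => ¬ NoSmall k R e) (hNB k R)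
  have hNull : ∀ j, Null (BX E b j) := by
    intro j
    unfold BX
    split_ifs
    · exact hBa _ _
    · exact Bq_null hMEAN hFEW hDEN hCNT hFR hB hH _ _ (Nat.succ_pos _)
  obtain ⟨m, hm, -, hmB⟩ := hDIAG (BX E b) hNull
  refine ⟨m, hm, ?_⟩
  refine hQEG (fun i => E (m i)) (fun i => hE _) (fun R => ?_) (-1) (fun i => b (m i))
    (fun i => u (m i)) (fun i => hr _) (fun i => hb _) ?_ Sq
  · have := hmB (Nat.pair 0 (Nat.pair R 0))
    rw [BX_a] at this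
    refine this.mono fun i hi => ?_
    by_contra h
    exact hi h
  · intro q hq
    refine ang_of_even (σ := -1) (E := fun i => E (m i)) (fun i => hE _) (b := fun i => b (m i))
      (u := fun i => u (m i)) (fun i => hr _) (fun q hq1 => ?_) (by norm_num) q hq
    obtain ⟨q', rfl⟩ := Nat.exists_eq_succ_of_ne_zero hq1
    rw [Metric.tendsto_nhds]
    intro ε hε
    obtain ⟨l, hl⟩ := exists_nat_gt (1 / ε)
    have := hmB (Nat.pair 1 (Nat.pair q' l))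
    rw [BX_b] at this
    refine this.mono fun i hi => ?_
    rw [Real.dist_eq, sub_zero]
    have h1 : ¬ 1 / ((l : ℝ) + 1) < |∑ ν ∈ V (E (m i)), b (m i) ν ^ 2 *
        ((uE (E (m i)) ν) ^ (2 * (q' + 1))).re| := hi
    refine lt_of_le_of_lt (not_lt.1 h1) ?_
    rw [div_lt_iff₀ (by positivity)]
    rw [div_lt_iff₀ hε] at hl
    nlinarith

end

end Pool.Agent.L0h77.BW
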