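import Pool.Agent.L0h77.BW.T_PB
import Pool.Agent.Helper379.Div3

/-! MP_6b977f_mp, project BW, module GD: many primes with a good direction -/

set_option autoImplicit false
open Complex Filter Topology

namespace Pool.Agent.L0h77.BW

open Pool.Agent.L0h56.BQ

open Classical in
theorem double_angle {p : ℕ} (hp : p.Prime) (h4 : p % 4 = 1) (q : ℕ) :
    4 - (if p ∈ GP q then (12 : ℝ) else 0) ≤ ∑ ν ∈ V p, (uE p ν ^ (4 * (2 * q))).re := by
  obtain ⟨ϖ, h⟩ := spl_exists p hp h4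
  have hn : ‖uE p ϖ ^ (4 * q)‖ = 1 := by
    rw [norm_pow, uE_norm p h.p_pos ϖ (mem_V.2 h.nm), one_pow]
  have h1 := sum_V_prime h hp q
  rw [sum_V_prime h hp (2 * q)]
  have h2 : uE p ϖ ^ (4 * (2 * q)) = (uE p ϖ ^ (4 * q)) ^ 2 := by rw [← pow_mul]; congr 1; ring
  rw [h2]
  set z : ℂ := uE p ϖ ^ (4 * q) with hz
  have h3 : (z ^ 2).re = 2 * z.re ^ 2 - 1 := by
    have h5 : z.re * z.re + z.im * z.im = 1 := by
      rw [← Complex.normSq_apply, Complex.normSq_eq_norm_sq, hn, one_pow]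
    rw [pow_two, Complex.mul_re]
    nlinarith
  rw [h3]
  split_ifs with hG
  · nlinarith [sq_nonneg z.re]
  · have h6 : ¬ |∑ ν ∈ V p, (uE p ν ^ (4 * q)).re| ≤ 7 := fun h7 => hG ⟨hp, h4, h7⟩
    rw [h1, not_le] at h6
    have h7 : (7 : ℝ) ^ 2 < (8 * z.re) ^ 2 := by
      rw [← sq_abs (8 * z.re)]
      exact pow_lt_pow_left₀ h6 (by norm_num) (by norm_num)
    nlinarith

theorem GD (hEP : S_EP) : S_GD := by
  classical
  intro q hq hS
  obtain ⟨C, hC⟩ := hEP (2 * q) (by omega)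
  set T : ℝ := ∑' p : GP q, (1 : ℝ) / (p : ℕ) with hT
  set Φ : ℕ → Finset ℕ := fun P => (Finset.Icc 1 P).filter (fun p => p.Prime ∧ p % 4 = 1) with hΦ
  have h1 : ∀ s : ℝ, 1 < s → s ≤ 2 → ∀ P, ∑ p ∈ Φ P, 1 / (p : ℝ) ^ s ≤ (C + 12 * T) / 4 := by
    intro s hs hs2 P
    obtain ⟨N, hN⟩ := (hC s hs hs2).exists_forall_of_atTop
    have h2 := hN (max P N) (le_max_right _ _)
    have h3 : ∑ p ∈ Φ P, 1 / (p : ℝ) ^ s ≤ ∑ p ∈ Φ (max P N), 1 / (p : ℝ) ^ s := by
      refine Finset.sum_le_sum_of_subset_of_nonneg ?_ fun p _ _ => by positivity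
      intro p hp
      simp only [hΦ, Finset.mem_filter, Finset.mem_Icc] at hp ⊢
      exact ⟨⟨hp.1.1, hp.1.2.trans (le_max_left _ _)⟩, hp.2⟩
    have h4 : ∑ p ∈ Φ (max P N), (4 * (1 / (p : ℝ) ^ s) -
        12 * (if p ∈ GP q then 1 / (p : ℝ) else 0)) ≤ C := by
      refine le_trans (Finset.sum_le_sum fun p hp => ?_) h2
      simp only [hΦ, Finset.mem_filter, Finset.mem_Icc] at hp
      have h5 := double_angle hp.2.1 hp.2.2 q
      have hp1 : (1 : ℝ) ≤ p := by exact_mod_cast hp.1.1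
      have hps : 0 < (p : ℝ) ^ s := by positivity
      have h6 : 1 / (p : ℝ) ^ s ≤ 1 / (p : ℝ) := by
        refine one_div_le_one_div_of_le (by linarith) ?_
        calc (p : ℝ) = (p : ℝ) ^ (1 : ℝ) := (Real.rpow_one _).symm
          _ ≤ (p : ℝ) ^ s := Real.rpow_le_rpow_of_exponent_le hp1 hs.le
      calc 4 * (1 / (p : ℝ) ^ s) - 12 * (if p ∈ GP q then 1 / (p : ℝ) else 0) ≤
          4 * (1 / (p : ℝ) ^ s) - (if p ∈ GP q then (12 : ℝ) else 0) * (1 / (p : ℝ) ^ s) := by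
            split_ifs <;> nlinarith
        _ = (4 - (if p ∈ GP q then (12 : ℝ) else 0)) / (p : ℝ) ^ s := by ring
        _ ≤ _ := div_le_div_of_nonneg_right h5 hps.le
    rw [Finset.sum_sub_distrib, ← Finset.mul_sum, ← Finset.mul_sum] at h4
    have h5 : ∑ p ∈ Φ (max P N), (if p ∈ GP q then 1 / (p : ℝ) else 0) ≤ T := by
      rw [← Finset.sum_filter]
      have h6 := hS.sum_le_tsum (Finset.subtype (· ∈ GP q) (Φ (max P N)))
        (fun _ _ => by positivity)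
      rw [Finset.sum_subtype_eq_sum_filter (s := Φ (max P N)) (f := fun p : ℕ => (1 : ℝ) / p)] at h6
      exact h6
    linarith
  have h2 : ∀ P, ∑ p ∈ Φ P, 1 / (p : ℝ) ≤ (C + 12 * T) / 4 := by
    intro P
    have hlim : Tendsto (fun s : ℝ => ∑ p ∈ Φ P, 1 / (p : ℝ) ^ s) (𝓝[>] 1)
        (𝓝 (∑ p ∈ Φ P, 1 / (p : ℝ) ^ (1 : ℝ))) := by
      refine tendsto_nhdsWithin_of_tendsto_nhds ?_
      refine tendsto_finsetSum _ fun p hp => ?_
      simp only [hΦ, Finset.mem_filter, Finset.mem_Icc] at hp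
      have hp0 : (p : ℝ) ≠ 0 := by
        have : (1 : ℝ) ≤ p := by exact_mod_cast hp.1.1
        positivity
      refine Tendsto.div tendsto_const_nhds ?_ ?_
      · exact (Real.continuous_const_rpow hp0).tendsto 1
      · rw [Real.rpow_one]; exact hp0
    have h3 : ∀ᶠ s : ℝ in 𝓝[>] 1, ∑ p ∈ Φ P, 1 / (p : ℝ) ^ s ≤ (C + 12 * T) / 4 := by
      filter_upwards [Ioc_mem_nhdsGT (by norm_num : (1 : ℝ) < 2)] with s hs
      exact h1 s hs.1 hs.2 P
    have h4 := le_of_tendsto hlim h3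
    simpa only [Real.rpow_one] using h4
  refine Pool.Agent.Helper379.Div3.not_summable_inv_primes_mod (q := 4) (a := 1) isUnit_one ?_
  refine summable_of_sum_range_le (c := (C + 12 * T) / 4) (fun n => by split_ifs <;> positivity)
    fun n => ?_
  refine le_trans ?_ (h2 n)
  rw [← Finset.sum_filter]
  refine Finset.sum_le_sum_of_subset_of_nonneg ?_ fun p _ _ => by positivity
  intro p hp
  simp only [hΦ, Finset.mem_filter, Finset.mem_Icc, Finset.mem_range] at hp ⊢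
  refine ⟨⟨hp.2.1.pos, hp.1.le⟩, hp.2.1, ?_⟩
  have h3 : ((p : ℕ) : ZMod 4) = ((1 : ℕ) : ZMod 4) := by rw [hp.2.2]; simp
  exact (ZMod.natCast_eq_natCast_iff' p 1 4).1 h3

end Pool.Agent.L0h77.BW
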