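import Pool.Agent.L0h77.BW.Defs

/-! Module GL of project BW (helper6). -/

set_option autoImplicit false
open MeasureTheory Filter Topology Complex

namespace Pool.Agent.L0h77.BW

open Pool.Agent.L0h56.BQ

theorem GLt (hLIM : S_LIM) (hRRB : S_RRB) (hCHAR : S_CHAR) : S_GL := by
  intro E κ hG c hc T hT hcT v hv Ω hΩ hΩb
  have hneg : ∀ n, ∀ ν ∈ V (E n), -ν ∈ V (E n) := fun n ν h => neg_mem_V h
  have hzero : ∀ n, (0 : GI) ∉ V (E n) := by
    intro n h
    rw [mem_V, Zsqrtd.norm_zero] at h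
    have := hG.pos n
    omega
  have hTκ : Tendsto (fun n => T * κ n) atTop (𝓝 0) := by
    simpa using hG.lim.const_mul T
  have hRR : ∀ b, 3 ≤ b → Tendsto (fun n => RR (V (E n)) (fun ν => ‖c n ν‖) b) atTop (𝓝 0) := by
    intro b hb
    obtain ⟨b', rfl⟩ : ∃ b', b = b' + 3 := ⟨b - 3, by omega⟩
    have hup : ∀ n, RR (V (E n)) (fun ν => ‖c n ν‖) (b' + 3) ≤
        T ^ (b' + 1) * κ n ^ b' * (κ n * rc b' (E n)) * ∑ ν ∈ V (E n), ‖c n ν‖ ^ 2 := by
      intro n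
      refine (hRRB (E n) (fun ν => ‖c n ν‖) (T * κ n) (fun ν => norm_nonneg _)
        (hcT n) b').trans (le_of_eq ?_)
      ring
    have hlo : ∀ n, 0 ≤ RR (V (E n)) (fun ν => ‖c n ν‖) (b' + 3) := fun n =>
      Finset.sum_nonneg fun τ _ => Finset.prod_nonneg fun i _ => norm_nonneg _
    have hlim : Tendsto (fun n => T ^ (b' + 1) * κ n ^ b' * (κ n * rc b' (E n)) *
        ∑ ν ∈ V (E n), ‖c n ν‖ ^ 2) atTop (𝓝 (T ^ (b' + 1) * 0 ^ b' * 0 * v)) :=
      (((hG.lim.pow b').const_mul (T ^ (b' + 1))).mul (hG.rel b')).mul hv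
    rw [mul_zero, zero_mul] at hlim
    exact squeeze_zero hlo hup hlim
  have h1 := hLIM (fun n => V (E n)) hneg hzero c hc (fun n => T * κ n) hcT hTκ hRR v hv
  have hv0 : 0 ≤ v := ge_of_tendsto' hv fun n => Finset.sum_nonneg fun ν _ => by positivity
  refine hCHAR (fun n => V (E n)) hneg c hc v hv0 (fun k => (h1 k).1) (fun k ξ hξ => ?_) Ω hΩ hΩb
  refine tendsto_const_nhds.congr' ?_
  refine (hG.small k ξ.norm.toNat).mono fun n hn => ?_
  symm
  unfold SS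
  refine Finset.sum_eq_zero fun τ hτ => ?_
  exfalso
  rw [Finset.mem_filter, Tup, Fintype.mem_piFinset] at hτ
  have h2 := hn τ hτ.1 (by rw [hτ.2]; exact hξ)
  rw [hτ.2] at h2
  have h3 : 0 ≤ ξ.norm := GaussianInt.norm_nonneg ξ
  omega

end Pool.Agent.L0h77.BW
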