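import Pool.Agent.L0h77.BW.Defs

/-! MP_6b977f_mp, project BW, module LIM -/

set_option autoImplicit false

open MeasureTheory Filter Topology Complex

namespace Pool.Agent.L0h77.BW

open Pool.Agent.L0h56.BQ

theorem lim_SS_zero (S : Finset GI) (c : GI → ℂ) : SS S c 0 0 = 1 := by
  unfold SS Tup
  rw [Finset.sum_filter]
  simp

theorem lim_SS_one (S : Finset GI) (h0 : (0 : GI) ∉ S) (c : GI → ℂ) : SS S c 1 0 = 0 := by
  unfold SS Tup
  rw [Finset.sum_eq_zero]
  intro τ hτ
  rw [Finset.mem_filter, Fintype.mem_piFinset] at hτ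
  exfalso
  apply h0
  have := hτ.2
  rw [Fin.sum_univ_one] at this
  rw [← this]
  exact hτ.1 0

theorem lim_SS_real (S : Finset GI) (d : GI → ℝ) (k : ℕ) :
    SS S (fun ν => (d ν : ℂ)) k 0 = ((SR S d k : ℝ) : ℂ) := by
  unfold SS SR
  push_cast
  rfl

theorem LIM (hREC : S_REC) : S_LIM := by
  intro S hS h0 c hc κ hκ hκ0 hRR v hv k
  have hd : ∀ n ν, (fun ν => ((‖c n ν‖ : ℝ) : ℂ)) (-ν) =
      (starRingEnd ℂ) ((fun ν => ((‖c n ν‖ : ℝ) : ℂ)) ν) := by
    intro n ν
    simp only
    rw [hc, Complex.norm_conj, Complex.conj_ofReal]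
  have hv' : Tendsto (fun n => ((∑ ν ∈ S n, ‖c n ν‖ ^ 2 : ℝ) : ℂ)) atTop (𝓝 (v : ℂ)) :=
    (Complex.continuous_ofReal.tendsto _).comp hv
  induction k using Nat.strong_induction_on with
  | _ k ih =>
    match k, ih with
    | 0, _ =>
      refine ⟨?_, ?_⟩
      · simp only [lim_SS_zero, gm, Complex.ofReal_one]
        exact tendsto_const_nhds
      · have : ∀ n, SR (S n) (fun ν => ‖c n ν‖) 0 = 1 := by
          intro n
          have := lim_SS_real (S n) (fun ν => ‖c n ν‖) 0
          rw [lim_SS_zero] at this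
          exact_mod_cast this.symm
        simp only [this, gm]
        exact tendsto_const_nhds
    | 1, _ =>
      refine ⟨?_, ?_⟩
      · simp only [lim_SS_one _ (h0 _), gm, Complex.ofReal_zero]
        exact tendsto_const_nhds
      · have : ∀ n, SR (S n) (fun ν => ‖c n ν‖) 1 = 0 := by
          intro n
          have := lim_SS_real (S n) (fun ν => ‖c n ν‖) 1
          rw [lim_SS_one _ (h0 _)] at this
          exact_mod_cast this.symm
        simp only [this, gm]
        exact tendsto_const_nhds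
    | k + 2, ih =>
      -- the error
      have herr : Tendsto (fun n => ∑ b ∈ Finset.Icc 3 (k + 2), ((k + 1).choose (b - 1) : ℝ) *
          RR (S n) (fun ν => ‖c n ν‖) b * SR (S n) (fun ν => ‖c n ν‖) (k + 2 - b) +
          ((k + 1).choose 2 : ℝ) * κ n ^ 2 * SR (S n) (fun ν => ‖c n ν‖) k) atTop (𝓝 0) := by
        have h1 : Tendsto (fun n => ∑ b ∈ Finset.Icc 3 (k + 2), ((k + 1).choose (b - 1) : ℝ) *
            RR (S n) (fun ν => ‖c n ν‖) b * SR (S n) (fun ν => ‖c n ν‖) (k + 2 - b)) atTop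
            (𝓝 (∑ b ∈ Finset.Icc 3 (k + 2), ((k + 1).choose (b - 1) : ℝ) * 0 *
              gm (k + 2 - b) v)) := by
          refine tendsto_finset_sum _ fun b hb => ?_
          rw [Finset.mem_Icc] at hb
          exact ((hRR b hb.1).const_mul _).mul (ih (k + 2 - b) (by omega)).2
        have h2 : Tendsto (fun n => ((k + 1).choose 2 : ℝ) * κ n ^ 2 *
            SR (S n) (fun ν => ‖c n ν‖) k) atTop (𝓝 (((k + 1).choose 2 : ℝ) * 0 ^ 2 * gm k v)) :=
          ((hκ0.pow 2).const_mul _).mul (ih k (by omega)).2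
        have h3 := h1.add h2
        simpa using h3
      have hmain : ∀ c' : ℕ → GI → ℂ,
          (∀ n ν, c' n (-ν) = (starRingEnd ℂ) (c' n ν)) → (∀ n ν, ‖c' n ν‖ = ‖c n ν‖) →
          Tendsto (fun n => SS (S n) (c' n) k 0) atTop (𝓝 (gm k v : ℂ)) →
          Tendsto (fun n => SS (S n) (c' n) (k + 2) 0) atTop (𝓝 (gm (k + 2) v : ℂ)) := by
        intro c' hc' hn hk
        have h1 : Tendsto (fun n => SS (S n) (c' n) (k + 2) 0 -
            (k + 1) * ((∑ ν ∈ S n, ‖c' n ν‖ ^ 2 : ℝ) : ℂ) * SS (S n) (c' n) k 0) atTop (𝓝 0) := by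
          refine squeeze_zero_norm (fun n => ?_) herr
          have := hREC (S n) (hS n) (h0 n) (c' n) (hc' n) (κ n) (fun ν hν => by
            rw [hn]; exact hκ n ν hν) k
          simp only [hn] at this ⊢
          exact this
        have h2 : Tendsto (fun n => (k + 1) * ((∑ ν ∈ S n, ‖c' n ν‖ ^ 2 : ℝ) : ℂ) *
            SS (S n) (c' n) k 0) atTop (𝓝 ((k + 1) * (v : ℂ) * (gm k v : ℂ))) := by
          simp only [hn]
          exact (hv'.const_mul _).mul hk
        have h3 := h1.add h2
        have h4 : (gm (k + 2) v : ℂ) = 0 + (k + 1) * (v : ℂ) * (gm k v : ℂ) := by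
          simp only [gm]
          push_cast
          ring
        rw [h4]
        refine h3.congr fun n => ?_
        ring
      refine ⟨hmain c hc (fun _ _ => rfl) (ih k (by omega)).1, ?_⟩
      have h5 := hmain (fun n ν => ((‖c n ν‖ : ℝ) : ℂ)) hd (fun n ν => by simp) (by
        simp only [lim_SS_real]
        exact (Complex.continuous_ofReal.tendsto _).comp (ih k (by omega)).2)
      simp only [lim_SS_real] at h5
      have h6 := (Complex.continuous_re.tendsto _).comp h5
      simpa only [Function.comp_def, Complex.ofReal_re] using h6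

end Pool.Agent.L0h77.BW
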