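import Pool.Agent.L0h77.BW.Defs

/-! BW: the module MOM -/

set_option autoImplicit false
open MeasureTheory Filter Topology Complex

namespace Pool.Agent.L0h77.BW

open Pool.Agent.L0h56.BQ

theorem ch_sum {k : ℕ} (τ : Fin k → GI) (z : ℂ) : ∏ i, ch (τ i) z = ch (∑ i, τ i) z := by
  induction k with
  | zero => simp [ch_zero]
  | succ k ih => rw [Fin.prod_univ_succ, Fin.sum_univ_succ, ch_add, ih]

theorem MOM : S_MOM := by
  classical
  intro S c k ξ
  have e1 : ∀ z : ℂ, (∑ ν ∈ S, c ν * ch ν z) ^ k * ch (-ξ) z =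
      ∑ τ ∈ Tup S k, (∏ i, c (τ i)) * ch (∑ i, τ i + -ξ) z := by
    intro z
    have h1 : (∑ ν ∈ S, c ν * ch ν z) ^ k = ∏ _i : Fin k, ∑ ν ∈ S, c ν * ch ν z := by
      rw [Finset.prod_const, Finset.card_univ, Fintype.card_fin]
    rw [h1, Finset.prod_univ_sum, Finset.sum_mul]
    apply Finset.sum_congr rfl
    intro τ _
    rw [Finset.prod_mul_distrib, ch_sum, ch_add, mul_assoc]
  simp_rw [e1]
  rw [csum (Tup S k) (fun τ z => (∏ i, c (τ i)) * ch (∑ i, τ i + -ξ) z)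
    (fun τ _ => continuous_const.mul (ch_cont _))]
  have e2 : ∀ τ : Fin k → GI, ∫ z in cell 2, (∏ i, c (τ i)) * ch (∑ i, τ i + -ξ) z =
      if ∑ i, τ i = ξ then 4 * ∏ i, c (τ i) else 0 := by
    intro τ
    rw [integral_const_mul, int_ch]
    by_cases h : ∑ i, τ i = ξ
    · rw [if_pos h, if_pos (by rw [h, add_neg_cancel]), mul_comm]
    · rw [if_neg h, if_neg (by rwa [add_neg_eq_zero]), mul_zero]
  rw [Finset.sum_congr rfl fun τ _ => e2 τ, ← Finset.sum_filter, ← Finset.mul_sum]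
  rfl

end Pool.Agent.L0h77.BW
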