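import Pool.Agent.L0h77.BW.T_NC
import Pool.Agent.N852.Div

/-! Module NB of project BW (helper6). -/

set_option autoImplicit false
open MeasureTheory Filter Topology Complex

namespace Pool.Agent.L0h77.BW

open Pool.Agent.L0h56.BQ

theorem NB (hSM : S_SM) (hSQ : S_SQ) (hNB1 : S_NB1) (hR2 : S_R2) : S_NB := by
  classical
  intro k R ε hε
  have hε3 : 0 < ε / 3 := by positivity
  obtain ⟨δ, hδ0, hδ1, hsm⟩ := hSM (ε / 3) hε3
  obtain ⟨C, hC⟩ := hNB1 k R (δ / 8) (by positivity)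
  obtain ⟨C', hC'0, hC'⟩ := Pool.Agent.N852.divisor_bound (δ / 8) (by positivity)
  have htop : Tendsto (fun X : ℕ => (X : ℝ) ^ δ) atTop atTop :=
    (tendsto_rpow_atTop hδ0).comp tendsto_natCast_atTop_atTop
  have htop4 : Tendsto (fun X : ℕ => (X : ℝ) ^ (δ / 4)) atTop atTop :=
    (tendsto_rpow_atTop (by positivity)).comp tendsto_natCast_atTop_atTop
  filter_upwards [hsm, eventually_ge_atTop 1, htop.eventually_ge_atTop (72 / ε + R + 3),
    htop4.eventually_ge_atTop (24 * |C| * C' / ε)] with X hX1 hX hXδ hX4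
  have hX0 : (0 : ℝ) < X := by exact_mod_cast hX
  set Y := ⌊(X : ℝ) ^ δ⌋₊ with hY
  have h72 : 0 < 72 / ε := by positivity
  have hYle : (Y : ℝ) ≤ (X : ℝ) ^ δ := Nat.floor_le (by positivity)
  have hYlt : (X : ℝ) ^ δ < Y + 1 := Nat.lt_floor_add_one _
  have hYR : (72 / ε + R + 2 : ℝ) < Y := by linarith
  have hRY : R < Y := by
    have : (R : ℝ) < Y := by linarith
    exact_mod_cast this
  have hY0 : 0 < Y := by omega
  have hY0' : (0 : ℝ) < Y := by exact_mod_cast hY0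
  have hkey : ∀ e, 0 < e → ¬ NoSmall k R e →
      (∀ p : ℕ, p.Prime → p ∣ e → (p : ℝ) ≤ (X : ℝ) ^ δ) ∨
      ((∃ p : ℕ, p.Prime ∧ Y < p ∧ p ^ 2 ∣ e) ∨
      ((∃ p : ℕ, p.Prime ∧ Y < p ∧ p ∣ e ∧ ¬ p ^ 2 ∣ e) ∧ ¬ NoSmall k R e)) := by
    intro e _ h
    by_cases h1 : ∀ p : ℕ, p.Prime → p ∣ e → (p : ℝ) ≤ (X : ℝ) ^ δ
    · exact Or.inl h1
    · push Not at h1
      obtain ⟨p, hp, hpe, hpX⟩ := h1
      have hYp : Y < p := by
        have : (Y : ℝ) < p := lt_of_le_of_lt hYle hpX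
        exact_mod_cast this
      by_cases h2 : p ^ 2 ∣ e
      · exact Or.inr (Or.inl ⟨p, hp, hYp, h2⟩)
      · exact Or.inr (Or.inr ⟨⟨p, hp, hYp, hpe, h2⟩, h⟩)
  have h1 := cnt_or_le hkey X
  have h2 := cnt_or_le (P := fun e => (∃ p : ℕ, p.Prime ∧ Y < p ∧ p ^ 2 ∣ e) ∨
      ((∃ p : ℕ, p.Prime ∧ Y < p ∧ p ∣ e ∧ ¬ p ^ 2 ∣ e) ∧ ¬ NoSmall k R e))
      (Q := fun e => ∃ p : ℕ, p.Prime ∧ Y < p ∧ p ^ 2 ∣ e)
      (R := fun e => (∃ p : ℕ, p.Prime ∧ Y < p ∧ p ∣ e ∧ ¬ p ^ 2 ∣ e) ∧ ¬ NoSmall k R e)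
      (fun e _ h => h) X
  have h3 := hSQ X Y hY0
  have h3' : (24 : ℝ) * X / Y ≤ ε / 3 * X := by
    rw [div_le_iff₀ hY0']
    have h4 : 72 ≤ ε * Y := by
      have h5 : 72 / ε ≤ Y := by
        have : (0 : ℝ) ≤ R := Nat.cast_nonneg _
        linarith
      rw [div_le_iff₀ hε] at h5
      linarith
    nlinarith
  -- the case of NB1
  have h4 : (cnt (fun e => (∃ p : ℕ, p.Prime ∧ Y < p ∧ p ∣ e ∧ ¬ p ^ 2 ∣ e) ∧ ¬ NoSmall k R e) X : ℝ)
      ≤ ε / 3 * X := by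
    set S := (Finset.Icc 1 X).filter fun e => (∃ p : ℕ, p.Prime ∧ Y < p ∧ p ∣ e ∧ ¬ p ^ 2 ∣ e) ∧
      ¬ NoSmall k R e with hS
    have h5 : (S.card : ℝ) ≤ C * (X : ℝ) ^ (1 + δ / 8) / √Y := by
      refine le_trans (le_of_eq ?_) (hC X Y hX hY0 hRY)
      rw [hS]
    have h6 : ∀ e ∈ S, ((V e).card : ℝ) ≤ 4 * C' * (X : ℝ) ^ (δ / 8) := by
      intro e he
      rw [hS, Finset.mem_filter, Finset.mem_Icc] at he
      have h7 : ((V e).card : ℝ) ≤ 4 * (e.divisors.card : ℝ) := by exact_mod_cast hR2 e he.1.1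
      have h8 := hC' e (by omega)
      have h9 : (e : ℝ) ^ (δ / 8) ≤ (X : ℝ) ^ (δ / 8) :=
        Real.rpow_le_rpow (Nat.cast_nonneg _) (by exact_mod_cast he.1.2) (by positivity)
      have h10 := mul_le_mul_of_nonneg_left h9 hC'0.le
      linarith
    have h7 : (cnt (fun e => (∃ p : ℕ, p.Prime ∧ Y < p ∧ p ∣ e ∧ ¬ p ^ 2 ∣ e) ∧
        ¬ NoSmall k R e) X : ℝ) = ∑ e ∈ S, ((V e).card : ℝ) := by
      unfold cnt
      push_cast
      refine Finset.sum_congr ?_ fun _ _ => rfl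
      rw [hS]
      ext e
      simp only [Finset.mem_filter]
    rw [h7]
    have h8 : ∑ e ∈ S, ((V e).card : ℝ) ≤ S.card * (4 * C' * (X : ℝ) ^ (δ / 8)) := by
      refine (Finset.sum_le_sum h6).trans (le_of_eq ?_)
      rw [Finset.sum_const, nsmul_eq_mul]
    refine h8.trans ?_
    have hsq : (X : ℝ) ^ (δ / 2) ≤ 2 * √Y := by
      have h9 : (X : ℝ) ^ (δ / 2) = √((X : ℝ) ^ δ) := by
        rw [Real.sqrt_eq_rpow, ← Real.rpow_mul hX0.le]
        congr 1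
        ring
      rw [h9]
      have h10 : (2 : ℝ) * √Y = √(4 * Y) := by
        rw [Real.sqrt_mul (by norm_num), show (4 : ℝ) = 2 ^ 2 by norm_num,
          Real.sqrt_sq (by norm_num)]
      rw [h10]
      refine Real.sqrt_le_sqrt ?_
      have : (0 : ℝ) ≤ R := Nat.cast_nonneg _
      linarith
    have hsqY : 0 < √(Y : ℝ) := Real.sqrt_pos.mpr hY0'
    have h9 : (S.card : ℝ) * √Y ≤ |C| * (X : ℝ) ^ (1 + δ / 8) := by
      have h10 := mul_le_mul_of_nonneg_right h5 hsqY.le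
      rw [div_mul_cancel₀ _ hsqY.ne'] at h10
      refine h10.trans (mul_le_mul_of_nonneg_right (le_abs_self C) (by positivity))
    have h10 : (S.card : ℝ) * (X : ℝ) ^ (δ / 2) ≤ 2 * |C| * (X : ℝ) ^ (1 + δ / 8) := by
      calc (S.card : ℝ) * (X : ℝ) ^ (δ / 2) ≤ S.card * (2 * √Y) :=
            mul_le_mul_of_nonneg_left hsq (Nat.cast_nonneg _)
        _ = 2 * (S.card * √Y) := by ring
        _ ≤ 2 * (|C| * (X : ℝ) ^ (1 + δ / 8)) := by linarith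
        _ = _ := by ring
    -- multiply by the rest
    have hXp : ∀ a b : ℝ, (X : ℝ) ^ a * (X : ℝ) ^ b = (X : ℝ) ^ (a + b) := fun a b =>
      (Real.rpow_add hX0 a b).symm
    have h11 : (S.card : ℝ) * (4 * C' * (X : ℝ) ^ (δ / 8)) * (X : ℝ) ^ (δ / 2) ≤
        ε / 3 * X * (X : ℝ) ^ (δ / 2) := by
      calc (S.card : ℝ) * (4 * C' * (X : ℝ) ^ (δ / 8)) * (X : ℝ) ^ (δ / 2)
          = (S.card : ℝ) * (X : ℝ) ^ (δ / 2) * (4 * C' * (X : ℝ) ^ (δ / 8)) := by ring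
        _ ≤ 2 * |C| * (X : ℝ) ^ (1 + δ / 8) * (4 * C' * (X : ℝ) ^ (δ / 8)) :=
            mul_le_mul_of_nonneg_right h10 (by positivity)
        _ = 8 * |C| * C' * ((X : ℝ) ^ (1 + δ / 8) * (X : ℝ) ^ (δ / 8)) := by ring
        _ = 8 * |C| * C' * ((X : ℝ) * (X : ℝ) ^ (δ / 4)) := by
            have h13 : (X : ℝ) * (X : ℝ) ^ (δ / 4) = (X : ℝ) ^ (1 + δ / 4) := by
              rw [Real.rpow_add hX0, Real.rpow_one]
            rw [hXp, h13]
            congr 2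
            ring
        _ = (8 * |C| * C') * X * (X : ℝ) ^ (δ / 4) := by ring
        _ ≤ (ε / 3 * (X : ℝ) ^ (δ / 4)) * X * (X : ℝ) ^ (δ / 4) := by
            have h12 : 8 * |C| * C' ≤ ε / 3 * (X : ℝ) ^ (δ / 4) := by
              rw [div_le_iff₀ hε] at hX4
              linarith
            exact mul_le_mul_of_nonneg_right (mul_le_mul_of_nonneg_right h12 hX0.le)
              (by positivity)
        _ = ε / 3 * X * ((X : ℝ) ^ (δ / 4) * (X : ℝ) ^ (δ / 4)) := by ring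
        _ = ε / 3 * X * (X : ℝ) ^ (δ / 2) := by
            rw [hXp]
            congr 2
            ring
    exact le_of_mul_le_mul_right h11 (by positivity)
  have h1' := (Nat.cast_le (α := ℝ)).mpr h1
  have h2' := (Nat.cast_le (α := ℝ)).mpr h2
  push_cast at h1' h2'
  linarith

end Pool.Agent.L0h77.BW
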