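import Pool.Agent.L0h77.BW.Defs

/-! MP_6b977f_mp, project BW, module LN: Gaussian integers on a line -/

set_option autoImplicit false

namespace Pool.Agent.L0h77.BW

open Pool.Agent.L0h56.BQ

theorem abs_le_natSqrt {x : ℤ} {Z : ℕ} (h : x ^ 2 ≤ Z) :
    x ∈ Finset.Icc (-(Nat.sqrt Z : ℤ)) (Nat.sqrt Z) := by
  have h1 : x.natAbs ≤ Nat.sqrt Z := by
    rw [Nat.le_sqrt']
    have h2 : ((x.natAbs ^ 2 : ℕ) : ℤ) ≤ Z := by
      push_cast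
      rw [sq_abs]
      exact h
    exact_mod_cast h2
  rw [Finset.mem_Icc]
  omega

theorem LN : S_LN := by
  classical
  intro A B ξ Z F hξ hF
  have key : ∀ f : GI → ℤ, (∀ ϖ ∈ F, f ϖ ^ 2 ≤ Z) → Set.InjOn f F →
      (F.card : ℝ) ≤ 2 * √Z + 1 := by
    intro f hf hinj
    have h1 : F.card ≤ (Finset.Icc (-(Nat.sqrt Z : ℤ)) (Nat.sqrt Z)).card := by
      refine Finset.card_le_card_of_injOn f ?_ hinj
      intro ϖ hϖ
      exact abs_le_natSqrt (hf ϖ hϖ)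
    rw [Int.card_Icc] at h1
    have h2 : F.card ≤ 2 * Nat.sqrt Z + 1 := by omega
    have h3 : (Nat.sqrt Z : ℝ) ≤ √Z := Real.nat_sqrt_le_real_sqrt
    have h4 : (F.card : ℝ) ≤ 2 * (Nat.sqrt Z : ℝ) + 1 := by exact_mod_cast h2
    linarith
  have hnorm : ∀ ϖ ∈ F, ϖ.re ^ 2 ≤ Z ∧ ϖ.im ^ 2 ≤ Z := by
    intro ϖ hϖ
    have h1 := (hF ϖ hϖ).1
    rw [norm_eq] at h1
    constructor <;> nlinarith [sq_nonneg ϖ.re, sq_nonneg ϖ.im]
  have hsplit : ∀ ϖ : GI, ϖ * A + star ϖ * B =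
      ((ϖ.re : ℤ) : GI) * (A + B) + ((ϖ.im : ℤ) : GI) * (⟨0, 1⟩ * (A - B)) := by
    intro ϖ
    refine Zsqrtd.ext ?_ ?_ <;> simp <;> ring
  rcases F.eq_empty_or_nonempty with h | ⟨ϖ₀, hϖ₀⟩
  · rw [h, Finset.card_empty]
    have : 0 ≤ √(Z : ℝ) := Real.sqrt_nonneg _
    push_cast
    linarith
  have hcan : ∀ (x y : ℤ) (D : GI), D ≠ 0 → (x : GI) * D = (y : GI) * D → x = y := by
    intro x y D hD h
    have h1 := congrArg Zsqrtd.re (mul_right_cancel₀ hD h)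
    simpa using h1
  by_cases hAB : (⟨0, 1⟩ : GI) * (A - B) = 0
  · have hAB' : A + B ≠ 0 := by
      intro h0
      have h1 := (hF ϖ₀ hϖ₀).2
      rw [hsplit, h0, hAB, mul_zero, mul_zero, add_zero] at h1
      exact hξ h1.symm
    refine key (fun ϖ => ϖ.im) (fun ϖ hϖ => (hnorm ϖ hϖ).2) ?_
    intro ϖ hϖ ϖ' hϖ' him
    have h1 := (hF ϖ hϖ).2.trans (hF ϖ' hϖ').2.symm
    rw [hsplit, hsplit, hAB, mul_zero, mul_zero, add_zero, add_zero] at h1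
    exact Zsqrtd.ext (hcan _ _ _ hAB' h1) him
  · refine key (fun ϖ => ϖ.re) (fun ϖ hϖ => (hnorm ϖ hϖ).1) ?_
    intro ϖ hϖ ϖ' hϖ' hre
    have hre' : ϖ.re = ϖ'.re := hre
    have h1 := (hF ϖ hϖ).2.trans (hF ϖ' hϖ').2.symm
    rw [hsplit, hsplit, hre'] at h1
    exact Zsqrtd.ext hre' (hcan _ _ _ hAB (add_left_cancel h1))

end Pool.Agent.L0h77.BW
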