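import Pool.Agent.L0h77.BW.Defs

/-! MP_6b977f_mp, project BW, module SP: the splitting of a tuple at a prime -/

set_option autoImplicit false

namespace Pool.Agent.L0h77.BW

open Pool.Agent.L0h56.BQ

theorem spl_not_dvd {p : ℕ} {ϖ : GI} (h : Spl p ϖ) {m : ℕ} (hpm : ¬ p ∣ m) {a : GI}
    (ha : a ∈ V m) : ¬ ϖ ∣ a := by
  rintro ⟨x, rfl⟩
  apply hpm
  have h1 := mem_V.1 ha
  rw [Zsqrtd.norm_mul, h.nm] at h1
  have h2 : (p : ℤ) ∣ m := ⟨_, h1.symm⟩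
  exact_mod_cast h2

theorem spl_not_dvd_mul {p : ℕ} {ϖ : GI} (h : Spl p ϖ) (hp : p.Prime) {m : ℕ} (hpm : ¬ p ∣ m)
    {a : GI} (ha : a ∈ V m) : ¬ star ϖ ∣ ϖ * a := by
  intro hd
  have h' := h.star_spl hp
  rcases h'.pr.dvd_or_dvd hd with h1 | h1
  · apply h'.nd
    rwa [star_star]
  · exact spl_not_dvd h' hpm ha h1

theorem SP : S_SP := by
  intro p ϖ h hp m _ hpm ν hν
  have h' := h.star_spl hp
  rw [h.V_succ m, Finset.mem_union, Finset.mem_image, Finset.mem_image] at hν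
  rcases hν with ⟨a, ha, rfl⟩ | ⟨a, ha, rfl⟩
  · exact ⟨a, ha, Or.inl ⟨rfl, spl_not_dvd_mul h hp hpm ha⟩⟩
  · refine ⟨a, ha, Or.inr ⟨rfl, ?_⟩⟩
    have h1 := spl_not_dvd_mul h' hp hpm ha
    rwa [star_star] at h1

end Pool.Agent.L0h77.BW
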