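import Pool.Agent.L0h77.BW.T_R2
import Pool.Agent.L0h77.BW.T_SP
import Pool.Agent.L0h77.BW.T_LN
import Pool.Agent.L0h77.BW.T_BD
import Pool.Agent.Helper112.Arith

/-! MP_6b977f_mp, project BW, module NB1: few energies with a large simple prime divisor and a small
nonzero sum -/

set_option autoImplicit false
open Finset Filter Topology

namespace Pool.Agent.L0h77.BW

open Pool.Agent.L0h56.BQ

namespace NB1aux

theorem sum_inv_sqrt (M : ℕ) : ∑ m ∈ Finset.Icc 1 M, 1 / √(m : ℝ) ≤ 2 * √(M : ℝ) := by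
  induction M with
  | zero => simp
  | succ M ih =>
    rw [Finset.sum_Icc_succ_top (by omega)]
    have h1 : (0 : ℝ) < √((M + 1 : ℕ) : ℝ) := Real.sqrt_pos.2 (by positivity)
    have h2 : (0 : ℝ) ≤ √(M : ℝ) := Real.sqrt_nonneg _
    have h3 : √((M + 1 : ℕ) : ℝ) ^ 2 = M + 1 := by
      rw [Real.sq_sqrt (by positivity)]
      push_cast
      ring
    have h4 : √(M : ℝ) ^ 2 = M := Real.sq_sqrt (Nat.cast_nonneg M)
    have h5 : 1 / √((M + 1 : ℕ) : ℝ) ≤ 2 * √((M + 1 : ℕ) : ℝ) - 2 * √(M : ℝ) := by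
      rw [div_le_iff₀ h1]
      nlinarith [sq_nonneg (√((M + 1 : ℕ) : ℝ) - √(M : ℝ))]
    linarith

/-- the splitting of a small sum -/
theorem split_sum {k R Y m p : ℕ} (hp : p.Prime) (hY : 0 < Y) (hRY : R < Y) (hYp : Y < p)
    (hm : 0 < m) (hpm : ¬ p ∣ m) {τ : Fin k → GI} (hτ : ∀ i, τ i ∈ V (m * p))
    (h0 : ∑ i, τ i ≠ 0) (hR : ¬ (R : ℤ) < (∑ i, τ i).norm) :
    ∃ (ϖ : GI) (a : Fin k → GI) (s : Fin k → Bool), ϖ.norm = p ∧ (∀ i, a i ∈ V m) ∧
      ϖ * (∑ i, if s i then a i else 0) + star ϖ * (∑ i, if s i then 0 else a i) =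
        ∑ i, τ i := by
  have hk : Nonempty (Fin k) := by
    by_contra hcon
    rw [not_nonempty_iff] at hcon
    exact h0 (by simp)
  obtain ⟨i0⟩ := hk
  have hν := hτ i0
  rw [mem_V] at hν
  have h2 : p ≠ 2 := by
    intro h
    have h3 : R = 0 := by omega
    subst h3
    have h4 : (∑ i, τ i).norm ≤ 0 := by
      push Not at hR
      exact_mod_cast hR
    have h5 := GaussianInt.norm_nonneg (∑ i, τ i)
    exact h0 (GaussianInt.norm_eq_zero.1 (le_antisymm h4 h5))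
  have h3 : p % 4 ≠ 3 := by
    intro h3
    have h4 : (p : ℤ) ∣ (τ i0).norm := by
      rw [hν]
      push_cast
      exact dvd_mul_left _ _
    obtain ⟨c, hc⟩ := BDaux.inert_one p hp h3 (τ i0) h4
    have h5 := congrArg Zsqrtd.norm hc
    rw [Zsqrtd.norm_mul, hν] at h5
    have h6 : (p : GI).norm = (p : ℤ) ^ 2 := by
      rw [norm_eq]
      simp
    rw [h6] at h5
    push_cast at h5
    have hp0 : (p : ℤ) ≠ 0 := by exact_mod_cast hp.pos.ne'
    have h7 : (m : ℤ) = p * c.norm := by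
      apply mul_right_cancel₀ hp0
      rw [h5]
      ring
    have h8 : (p : ℤ) ∣ m := ⟨_, h7⟩
    exact hpm (by exact_mod_cast h8)
  have h4 : p % 4 = 1 := by
    rcases hp.eq_two_or_odd with h | h
    · exact absurd h h2
    · omega
  obtain ⟨ϖ, hϖ⟩ := spl_exists p hp h4
  have hsp : ∀ i, ∃ (a : GI) (s : Bool), a ∈ V m ∧
      τ i = ϖ * (if s then a else 0) + star ϖ * (if s then 0 else a) := by
    intro i
    obtain ⟨a, ha, h | h⟩ := SP p ϖ hϖ hp m hm hpm (τ i) (hτ i)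
    · exact ⟨a, true, ha, by simpa using h.1⟩
    · exact ⟨a, false, ha, by simpa using h.1⟩
  choose a s ha hs using hsp
  refine ⟨ϖ, a, s, hϖ.nm, ha, ?_⟩
  rw [Finset.mul_sum, Finset.mul_sum, ← Finset.sum_add_distrib]
  exact Finset.sum_congr rfl fun i _ => (hs i).symm

end NB1aux

open NB1aux in
theorem NB1 : S_NB1 := by
  classical
  intro k R η hη
  obtain ⟨C1, hC1, hdiv⟩ := Pool.Agent.Helper112.divisor_bound (η / (k + 1)) (by positivity)
  set Ξ : Finset GI := (Finset.range (R + 1)).biUnion V with hΞ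
  refine ⟨(4 * C1) ^ k * 2 ^ k * Ξ.card * 6, ?_⟩
  intro X Y hX hY hRY
  set Bad := (Finset.Icc 1 X).filter fun e => (∃ p : ℕ, p.Prime ∧ Y < p ∧ p ∣ e ∧ ¬ p ^ 2 ∣ e) ∧
    ¬ NoSmall k R e with hBad
  -- the sets of the primes
  set W : ℕ → Finset GI := fun m => (Finset.range (X / m + 1)).biUnion V with hW
  have hWm : ∀ m ϖ, ϖ ∈ W m ↔ ϖ.norm ≤ (X / m : ℕ) := by
    intro m ϖ
    rw [hW]
    simp only [mem_biUnion, Finset.mem_range]
    constructor
    · rintro ⟨n, hn, h⟩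
      rw [mem_V] at h
      rw [h]
      exact_mod_cast Nat.lt_succ_iff.1 hn
    · intro h
      have h1 := GaussianInt.norm_nonneg ϖ
      refine ⟨ϖ.norm.toNat, ?_, ?_⟩
      · omega
      · rw [mem_V]
        omega
  set F : ℕ → (Fin k → GI) → (Fin k → Bool) → GI → Finset GI := fun m a s ξ =>
    (W m).filter fun ϖ => ξ ≠ 0 ∧ ϖ * (∑ i, if s i then a i else 0) +
      star ϖ * (∑ i, if s i then 0 else a i) = ξ with hF
  have hFc : ∀ m a s ξ, ((F m a s ξ).card : ℝ) ≤ 2 * √((X / m : ℕ) : ℝ) + 1 := by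
    intro m a s ξ
    by_cases hξ : ξ = 0
    · have : F m a s ξ = ∅ := by
        rw [hF]
        simp only
        rw [Finset.filter_eq_empty_iff]
        intro ϖ _ h
        exact h.1 hξ
      rw [this]
      simp
      positivity
    · refine LN (∑ i, if s i then a i else 0) (∑ i, if s i then 0 else a i) ξ (X / m) _ hξ ?_
      intro ϖ hϖ
      obtain ⟨h1, h2, h3⟩ := mem_filter.1 hϖ
      exact ⟨(hWm m ϖ).1 h1, h3⟩
  have hsub : Bad ⊆ (Finset.Icc 1 (X / Y)).biUnion fun m => (Tup (V m) k).biUnion fun a =>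
      (Finset.univ : Finset (Fin k → Bool)).biUnion fun s => Ξ.biUnion fun ξ =>
        (F m a s ξ).image fun ϖ => m * ϖ.norm.toNat := by
    intro e he
    obtain ⟨h1, ⟨p, hp, hYp, hpe, hp2⟩, hns⟩ := mem_filter.1 he
    obtain ⟨h1, h2⟩ := Finset.mem_Icc.1 h1
    obtain ⟨m, hm⟩ := hpe
    rw [mul_comm] at hm
    have hm0 : 0 < m := by
      rcases Nat.eq_zero_or_pos m with h | h
      · rw [h, zero_mul] at hm
        omega
      · exact h
    have hpm : ¬ p ∣ m := by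
      rintro ⟨c, hc⟩
      exact hp2 ⟨c, by rw [hm, hc]; ring⟩
    unfold NoSmall at hns
    push Not at hns
    obtain ⟨τ, hτ, h0, hR⟩ := hns
    rw [hm] at hτ
    obtain ⟨ϖ, a, s, g1, g2, g3⟩ := split_sum hp hY hRY hYp hm0 hpm hτ h0 (not_lt.2 hR)
    have hnn := GaussianInt.norm_nonneg (∑ i, τ i)
    rw [mem_biUnion]
    refine ⟨m, ?_, ?_⟩
    · rw [Finset.mem_Icc]
      refine ⟨hm0, ?_⟩
      rw [Nat.le_div_iff_mul_le hY]
      calc m * Y ≤ m * p := Nat.mul_le_mul_left m hYp.le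
        _ = e := hm.symm
        _ ≤ X := h2
    rw [mem_biUnion]
    refine ⟨a, Fintype.mem_piFinset.2 g2, ?_⟩
    rw [mem_biUnion]
    refine ⟨s, Finset.mem_univ s, ?_⟩
    rw [mem_biUnion]
    refine ⟨∑ i, τ i, ?_, ?_⟩
    · rw [hΞ, mem_biUnion]
      refine ⟨(∑ i, τ i).norm.toNat, ?_, ?_⟩
      · rw [Finset.mem_range]
        omega
      · rw [mem_V]
        omega
    · rw [mem_image]
      refine ⟨ϖ, ?_, ?_⟩
      · rw [hF]
        simp only
        rw [mem_filter, hWm]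
        refine ⟨?_, h0, g3⟩
        rw [g1]
        have h5 : p ≤ X / m := by
          rw [Nat.le_div_iff_mul_le hm0, mul_comm]
          omega
        exact_mod_cast h5
      · rw [g1, hm]
        simp
  have hcard1 : (Bad.card : ℝ) ≤ ∑ m ∈ Finset.Icc 1 (X / Y), ∑ _a ∈ Tup (V m) k,
      ∑ _s : Fin k → Bool, ∑ _ξ ∈ Ξ, (2 * √((X / m : ℕ) : ℝ) + 1) := by
    have h1 : Bad.card ≤ ∑ m ∈ Finset.Icc 1 (X / Y), ∑ a ∈ Tup (V m) k,
        ∑ s : Fin k → Bool, ∑ ξ ∈ Ξ, (F m a s ξ).card := by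
      refine (Finset.card_le_card hsub).trans (Finset.card_biUnion_le.trans ?_)
      refine Finset.sum_le_sum fun m _ => Finset.card_biUnion_le.trans ?_
      refine Finset.sum_le_sum fun a _ => Finset.card_biUnion_le.trans ?_
      refine Finset.sum_le_sum fun s _ => Finset.card_biUnion_le.trans ?_
      exact Finset.sum_le_sum fun ξ _ => Finset.card_image_le
    have h2 : (Bad.card : ℝ) ≤ ∑ m ∈ Finset.Icc 1 (X / Y), ∑ a ∈ Tup (V m) k,
        ∑ s : Fin k → Bool, ∑ ξ ∈ Ξ, ((F m a s ξ).card : ℝ) := by exact_mod_cast h1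
    refine h2.trans ?_
    refine Finset.sum_le_sum fun m _ => ?_
    refine Finset.sum_le_sum fun a _ => ?_
    refine Finset.sum_le_sum fun s _ => ?_
    exact Finset.sum_le_sum fun ξ _ => hFc m a s ξ
  have hXr : (1 : ℝ) ≤ X := by exact_mod_cast hX
  have hX0 : (0 : ℝ) < X := by linarith
  have hYr : (0 : ℝ) < Y := by exact_mod_cast hY
  have hterm : ∀ m ∈ Finset.Icc 1 (X / Y), (∑ _a ∈ Tup (V m) k,
      ∑ _s : Fin k → Bool, ∑ _ξ ∈ Ξ, (2 * √((X / m : ℕ) : ℝ) + 1)) ≤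
      ((4 * C1) ^ k * 2 ^ k * Ξ.card * 3 * ((X : ℝ) ^ η * √X)) * (1 / √(m : ℝ)) := by
    intro m hm
    obtain ⟨hm1, hm2⟩ := Finset.mem_Icc.1 hm
    have hmX : m ≤ X := hm2.trans (Nat.div_le_self X Y)
    have hmr : (1 : ℝ) ≤ m := by exact_mod_cast hm1
    have hm0 : (0 : ℝ) < m := by linarith
    have hmXr : (m : ℝ) ≤ X := by exact_mod_cast hmX
    rw [Finset.sum_const, Finset.sum_const, Finset.sum_const]
    have hT : (Tup (V m) k).card = (V m).card ^ k := by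
      unfold Tup
      rw [Fintype.card_piFinset]
      simp
    have hB : (Finset.univ : Finset (Fin k → Bool)).card = 2 ^ k := by
      rw [Finset.card_univ]
      simp
    rw [hT, hB]
    simp only [nsmul_eq_mul]
    push_cast
    have hV : ((V m).card : ℝ) ≤ 4 * C1 * (m : ℝ) ^ (η / (k + 1)) := by
      have h1 : ((V m).card : ℝ) ≤ 4 * m.divisors.card := by exact_mod_cast R2 m hm1
      have h2 := hdiv m hm1
      linarith
    have hVk : ((V m).card : ℝ) ^ k ≤ (4 * C1) ^ k * (X : ℝ) ^ η := by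
      refine (pow_le_pow_left₀ (Nat.cast_nonneg _) hV k).trans ?_
      rw [mul_pow]
      refine mul_le_mul_of_nonneg_left ?_ (by positivity)
      rw [← Real.rpow_natCast, ← Real.rpow_mul hm0.le]
      have h1 : η / (k + 1) * k ≤ η := by
        rw [div_mul_eq_mul_div, div_le_iff₀ (by positivity)]
        nlinarith
      calc (m : ℝ) ^ (η / (k + 1) * k) ≤ (m : ℝ) ^ η := Real.rpow_le_rpow_of_exponent_le hmr h1
        _ ≤ (X : ℝ) ^ η := Real.rpow_le_rpow hm0.le hmXr hη.le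
    have hsq : 2 * √((X / m : ℕ) : ℝ) + 1 ≤ 3 * (√X * (1 / √(m : ℝ))) := by
      have h1 : ((X / m : ℕ) : ℝ) ≤ X / m := Nat.cast_div_le
      have h2 : √((X / m : ℕ) : ℝ) ≤ √((X : ℝ) / m) := Real.sqrt_le_sqrt h1
      have h3 : √((X : ℝ) / m) = √X * (1 / √(m : ℝ)) := by
        rw [Real.sqrt_div hX0.le]
        ring
      have h4 : 1 ≤ √((X : ℝ) / m) := by
        rw [Real.one_le_sqrt]
        rwa [le_div_iff₀ hm0, one_mul]
      rw [← h3]
      linarith
    have h5 : (0 : ℝ) ≤ 2 * √((X / m : ℕ) : ℝ) + 1 := by positivity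
    calc ((V m).card : ℝ) ^ k * (2 ^ k * (Ξ.card * (2 * √((X / m : ℕ) : ℝ) + 1)))
        ≤ ((4 * C1) ^ k * (X : ℝ) ^ η) *
          (2 ^ k * (Ξ.card * (3 * (√X * (1 / √(m : ℝ)))))) := by
          refine mul_le_mul hVk ?_ (by positivity) (by positivity)
          refine mul_le_mul_of_nonneg_left ?_ (by positivity)
          exact mul_le_mul_of_nonneg_left hsq (Nat.cast_nonneg _)
      _ = _ := by ring
  refine (hcard1.trans (Finset.sum_le_sum hterm)).trans ?_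
  rw [← Finset.mul_sum]
  have hs := sum_inv_sqrt (X / Y)
  have h1 : √((X / Y : ℕ) : ℝ) ≤ √X / √Y := by
    rw [← Real.sqrt_div hX0.le]
    exact Real.sqrt_le_sqrt Nat.cast_div_le
  have hA : 0 ≤ (4 * C1) ^ k * 2 ^ k * Ξ.card * 3 * ((X : ℝ) ^ η * √X) := by positivity
  calc ((4 * C1) ^ k * 2 ^ k * Ξ.card * 3 * ((X : ℝ) ^ η * √X)) *
        ∑ m ∈ Finset.Icc 1 (X / Y), 1 / √(m : ℝ)
      ≤ ((4 * C1) ^ k * 2 ^ k * Ξ.card * 3 * ((X : ℝ) ^ η * √X)) * (2 * (√X / √Y)) :=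
        mul_le_mul_of_nonneg_left (by linarith) hA
    _ = (4 * C1) ^ k * 2 ^ k * Ξ.card * 6 * ((X : ℝ) ^ η * (√X * √X)) / √Y := by ring
    _ = _ := by
        rw [Real.mul_self_sqrt hX0.le, Real.rpow_add hX0, Real.rpow_one]
        ring

end Pool.Agent.L0h77.BW
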