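import Pool.Agent.L0h77.BW.Defs

/-! BW: the module NC1 -/

set_option autoImplicit false
open MeasureTheory Filter Topology Complex

namespace Pool.Agent.L0h77.BW

open Pool.Agent.L0h56.BQ

/-- division by the greatest common divisor -/
theorem nc1_red {k : ℕ} (τ : Fin (k + 1) → GI) (h0 : τ 0 ≠ 0) :
    ∃ (g : GI) (a : Fin (k + 1) → GI), g ≠ 0 ∧ (∀ i, τ i = g * a i) ∧
      ∀ δ : GI, (∀ i, δ ∣ a i) → IsUnit δ := by
  obtain ⟨g, hg⟩ := (IsPrincipalIdealRing.principal (Ideal.span (Set.range τ))).1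
  have hg' : Ideal.span (Set.range τ) = Ideal.span {g} := hg
  have hd : ∀ i, g ∣ τ i := by
    intro i
    rw [← Ideal.mem_span_singleton, ← hg']
    exact Ideal.subset_span ⟨i, rfl⟩
  have hg0 : g ≠ 0 := by
    rintro rfl
    exact h0 (zero_dvd_iff.1 (hd 0))
  choose a ha using hd
  refine ⟨g, a, hg0, ha, ?_⟩
  intro δ hδ
  have h1 : g ∈ Ideal.span {δ * g} := by
    have h2 : Ideal.span (Set.range τ) ≤ Ideal.span {δ * g} := by
      rw [Ideal.span_le]
      rintro _ ⟨i, rfl⟩
      rw [SetLike.mem_coe, Ideal.mem_span_singleton]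
      obtain ⟨c, hc⟩ := hδ i
      exact ⟨c, by rw [ha i, hc]; ring⟩
    apply h2
    rw [hg']
    exact Ideal.mem_span_singleton_self g
  rw [Ideal.mem_span_singleton] at h1
  obtain ⟨c, hc⟩ := h1
  have h3 : δ * c = 1 := by
    have : g * (δ * c) = g * 1 := by
      rw [mul_one]
      calc g * (δ * c) = δ * g * c := by ring
        _ = g := hc.symm
    exact mul_left_cancel₀ hg0 this
  exact IsUnit.of_mul_eq_one _ h3

theorem nc1_two (a : GI) (h : (2 : ℤ) ∣ a.norm) : (⟨1, 1⟩ : GI) ∣ a := by
  rw [norm_eq] at h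
  have h2 : (2 : ℤ) ∣ a.re + a.im := by
    have h3 : (2 : ℤ) ∣ (a.re + a.im) ^ 2 := by
      have : (a.re + a.im) ^ 2 = a.re ^ 2 + a.im ^ 2 + 2 * (a.re * a.im) := by ring
      rw [this]
      exact dvd_add h (Dvd.intro _ rfl)
    exact Int.prime_two.dvd_of_dvd_pow h3
  obtain ⟨c, hc⟩ := h2
  refine ⟨⟨c, c - a.re⟩, ?_⟩
  refine Zsqrtd.ext ?_ ?_
  · simp only [Zsqrtd.re_mul]
    ring
  · simp only [Zsqrtd.im_mul]
    linear_combination hc

theorem norm_dvd {a b : GI} (h : a ∣ b) : a.norm ∣ b.norm := by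
  obtain ⟨c, rfl⟩ := h
  rw [Zsqrtd.norm_mul]
  exact Dvd.intro _ rfl

/-- the number of nonzero Gaussian integers of norm at most `M` -/
theorem nc1_card (M : ℕ) : ((Finset.Icc 1 M).biUnion V).card ≤ 8 * M := by
  classical
  rcases Nat.eq_zero_or_pos M with rfl | hM
  · simp
  obtain ⟨s, hs⟩ : ∃ s, s = Nat.sqrt M := ⟨_, rfl⟩
  have hs1 : 1 ≤ s := by
    rw [hs]
    exact Nat.sqrt_pos.2 hM
  have hsM : s * s ≤ M := by rw [hs]; exact Nat.sqrt_le M
  have hsub : (Finset.Icc 1 M).biUnion V ⊆ (((Finset.Icc (-(s : ℤ)) s) ×ˢ (Finset.Icc (-(s : ℤ)) s)).image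
      (fun q => (⟨q.1, q.2⟩ : GI))).erase 0 := by
    intro ν hν
    rw [Finset.mem_biUnion] at hν
    obtain ⟨e, he, hν⟩ := hν
    rw [mem_V, norm_eq] at hν
    rw [Finset.mem_Icc] at he
    have hb : ∀ x : ℤ, x ^ 2 ≤ M → -(s : ℤ) ≤ x ∧ x ≤ s := by
      intro x hx
      rw [← abs_le]
      have h1 : x.natAbs * x.natAbs ≤ M := by
        zify
        rw [← pow_two, sq_abs]
        exact hx
      have h2 : x.natAbs ≤ s := by
        rw [hs]
        exact Nat.le_sqrt.2 h1
      have : |x| = x.natAbs := by simp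
      rw [this]
      exact_mod_cast h2
    have he' : (e : ℤ) ≤ M := by exact_mod_cast he.2
    rw [Finset.mem_erase]
    constructor
    · rintro rfl
      have : (1 : ℤ) ≤ e := by exact_mod_cast he.1
      simp at hν
      omega
    · rw [Finset.mem_image]
      refine ⟨(ν.re, ν.im), ?_, rfl⟩
      rw [Finset.mem_product, Finset.mem_Icc, Finset.mem_Icc]
      exact ⟨hb _ (by nlinarith [sq_nonneg ν.im]), hb _ (by nlinarith [sq_nonneg ν.re])⟩
  refine (Finset.card_le_card hsub).trans ?_
  rw [Finset.card_erase_of_mem]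
  · have h1 : (((Finset.Icc (-(s : ℤ)) s) ×ˢ (Finset.Icc (-(s : ℤ)) s)).image
        (fun q => (⟨q.1, q.2⟩ : GI))).card ≤ (2 * s + 1) * (2 * s + 1) := by
      refine Finset.card_image_le.trans ?_
      rw [Finset.card_product, Int.card_Icc]
      have : ((s : ℤ) + 1 - -(s : ℤ)).toNat = 2 * s + 1 := by omega
      rw [this]
    have h2 : (2 * s + 1) * (2 * s + 1) = 4 * (s * s) + 4 * s + 1 := by ring
    have h3 : s ≤ s * s := Nat.le_mul_of_pos_left s hs1
    omega
  · rw [Finset.mem_image]
    refine ⟨(0, 0), ?_, rfl⟩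
    rw [Finset.mem_product, Finset.mem_Icc]
    simp

theorem NC1 : S_NC1 := by
  classical
  intro b e y M he hsq hM hns
  have key : ∀ τ : Fin (b + 3) → GI, (∀ i, τ i ∈ V e) → MinRel τ →
      ∃ a : Fin (b + 3) → GI, (∀ i, a i ∈ (Finset.Icc 1 M).biUnion V) ∧ a 0 ≠ 0 ∧
        ∀ i, τ i * a 0 = τ 0 * a i := by
    intro τ hτ hmin
    have hne : ∀ i, τ i ≠ 0 := by
      intro i h
      have := mem_V.1 (hτ i)
      rw [h] at this
      simp at this
      omega
    obtain ⟨g, a, hg, ha, hu⟩ := nc1_red τ (hne 0)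
    have hn : ∀ i, g.norm * (a i).norm = e := by
      intro i
      rw [← Zsqrtd.norm_mul, ← ha i]
      exact mem_V.1 (hτ i)
    have hg0 : g.norm ≠ 0 := by
      intro h
      have := hn 0
      rw [h, zero_mul] at this
      have : (0 : ℤ) < e := by exact_mod_cast he
      omega
    have hgn : 0 ≤ g.norm := GaussianInt.norm_nonneg g
    have hnn : ∀ i, (a i).norm = (a 0).norm := fun i => mul_left_cancel₀ hg0 ((hn i).trans (hn 0).symm)
    have ha0 : ∀ i, a i ≠ 0 := by
      intro i h
      apply hne i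
      rw [ha i, h, mul_zero]
    obtain ⟨m, hm⟩ : ∃ m : ℕ, (m : ℤ) = (a 0).norm :=
      ⟨(a 0).norm.natAbs, Int.natAbs_of_nonneg (GaussianInt.norm_nonneg _)⟩
    have hm0 : 0 < m := by
      have h1 : 0 < (a 0).norm := GaussianInt.norm_pos.2 (ha0 0)
      rw [← hm] at h1
      exact_mod_cast h1
    have hme : m ∣ e := by
      have h1 : (m : ℤ) ∣ e := ⟨g.norm, by rw [hm, mul_comm]; exact (hn 0).symm⟩
      exact_mod_cast h1
    have hsmooth : ∀ p : ℕ, p.Prime → p ∣ m → p ≤ y := by
      intro p hp hpm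
      by_contra hpy
      push Not at hpy
      have hpe := hsq p hp hpy
      have hpa : (p : ℤ) ∣ (a 0).norm := by rw [← hm]; exact_mod_cast hpm
      have hpg : ¬ (p : ℤ) ∣ g.norm := by
        intro h
        apply hpe
        have h1 : (p : ℤ) * p ∣ e := by
          rw [← hn 0]
          exact mul_dvd_mul h hpa
        rw [pow_two]
        exact_mod_cast h1
      have hpe' : ¬ (p : ℤ) ^ 2 ∣ (a 0).norm := by
        intro h
        apply hpe
        have h1 : (p : ℤ) ^ 2 ∣ e := by
          rw [← hn 0]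
          exact Dvd.dvd.mul_left h _
        exact_mod_cast h1
      have hprod : ∀ x : GI, (x.norm : GI) = x * star x := fun x => by
        rw [Zsqrtd.norm_eq_mul_conj]
      rcases hp.eq_two_or_odd with h2 | hodd
      · subst h2
        have h3 : ∀ i, (⟨1, 1⟩ : GI) ∣ a i := by
          intro i
          apply nc1_two
          rw [hnn i]
          exact hpa
        have h4 := Zsqrtd.norm_eq_one_iff.2 (hu _ h3)
        rw [norm_eq] at h4
        simp at h4
      · have h4 : p % 4 = 1 ∨ p % 4 = 3 := by omega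
        rcases h4 with h4 | h4
        · obtain ⟨ϖ, hϖ⟩ := spl_exists p hp h4
          have hno : ∀ ϖ' : GI, Spl p ϖ' → ¬ ϖ' ∣ a 0 := by
            intro ϖ' hs hd
            have hall : ∀ j, ϖ' ∣ τ j := by
              by_contra hcon
              push Not at hcon
              obtain ⟨j, hj⟩ := hcon
              exact hns τ hτ hmin p hp hpy ⟨ϖ', hs, ⟨0, by rw [ha 0]; exact Dvd.dvd.mul_left hd _⟩, j, hj⟩
            have hall' : ∀ j, ϖ' ∣ a j := by
              intro j
              have h5 := hall j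
              rw [ha j] at h5
              rcases hs.pr.dvd_or_dvd h5 with h6 | h6
              · exfalso
                apply hpg
                have := norm_dvd h6
                rwa [hs.nm] at this
              · exact h6
            exact hs.pr.not_isUnit (hu _ hall')
          have h5 : ϖ ∣ a 0 * star (a 0) := by
            rw [← hprod]
            have h6 : ((p : ℤ) : GI) ∣ (((a 0).norm : ℤ) : GI) := by
              obtain ⟨c, hc⟩ := hpa
              exact ⟨(c : GI), by rw [hc]; push_cast; ring⟩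
            refine dvd_trans ?_ h6
            have h7 := hϖ.mul_star
            exact ⟨star ϖ, by rw [h7]; push_cast; rfl⟩
          rcases hϖ.pr.dvd_or_dvd h5 with h6 | h6
          · exact hno ϖ hϖ h6
          · apply hno (star ϖ) (hϖ.star_spl hp)
            obtain ⟨c, hc⟩ := h6
            refine ⟨star c, ?_⟩
            rw [← star_star (a 0), hc, star_mul, mul_comm]
        · have := Fact.mk hp
          have hpr := GaussianInt.prime_of_nat_prime_of_mod_four_eq_three p h4
          have h5 : (p : GI) ∣ a 0 * star (a 0) := by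
            rw [← hprod]
            obtain ⟨c, hc⟩ := hpa
            exact ⟨(c : GI), by rw [hc]; push_cast; ring⟩
          have h6 : (p : GI) ∣ a 0 := by
            rcases hpr.dvd_or_dvd h5 with h6 | h6
            · exact h6
            · obtain ⟨c, hc⟩ := h6
              refine ⟨star c, ?_⟩
              rw [← star_star (a 0), hc, star_mul, mul_comm]
              simp
          apply hpe'
          have h7 := norm_dvd h6
          have h8 : ((p : GI)).norm = (p : ℤ) ^ 2 := by
            rw [Zsqrtd.norm_natCast, pow_two]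
          rwa [h8] at h7
    have hmM := hM m hme hsmooth
    refine ⟨a, ?_, ha0 0, ?_⟩
    · intro i
      rw [Finset.mem_biUnion]
      refine ⟨m, Finset.mem_Icc.2 ⟨hm0, hmM⟩, ?_⟩
      rw [mem_V, hnn i, hm]
    · intro i
      rw [ha i, ha 0]
      ring
  choose! a ha ha0 ha1 using key
  unfold rc
  apply Finset.sup_le
  intro ν hν
  have hcard : ((Tup (V e) (b + 3)).filter fun τ => MinRel τ ∧ τ 0 = ν).card ≤
      (Tup ((Finset.Icc 1 M).biUnion V) (b + 3)).card := by
    have hmem : ∀ τ ∈ (Tup (V e) (b + 3)).filter (fun τ => MinRel τ ∧ τ 0 = ν),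
        (∀ i, τ i ∈ V e) ∧ MinRel τ ∧ τ 0 = ν := by
      intro τ hτ
      rw [Finset.mem_filter] at hτ
      unfold Tup at hτ
      rw [Fintype.mem_piFinset] at hτ
      exact hτ
    refine Finset.card_le_card_of_injOn a ?_ ?_
    · intro τ hτ
      obtain ⟨h1, h2, h3⟩ := hmem τ (Finset.mem_coe.1 hτ)
      rw [Finset.mem_coe]
      unfold Tup
      rw [Fintype.mem_piFinset]
      exact ha τ h1 h2
    · intro τ hτ τ' hτ' haa
      obtain ⟨h1, h2, h3⟩ := hmem τ (Finset.mem_coe.1 hτ)
      obtain ⟨h1', h2', h3'⟩ := hmem τ' (Finset.mem_coe.1 hτ')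
      funext i
      have e1 := ha1 τ h1 h2 i
      have e2 := ha1 τ' h1' h2' i
      rw [← haa, h3'] at e2
      rw [h3] at e1
      exact mul_right_cancel₀ (ha0 τ h1 h2) (e1.trans e2.symm)
  refine hcard.trans ?_
  unfold Tup
  rw [Fintype.card_piFinset, Finset.prod_const, Finset.card_univ, Fintype.card_fin]
  exact Nat.pow_le_pow_left (nc1_card M) _

end Pool.Agent.L0h77.BW
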