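import Pool.Agent.L0h77.BW.Defs

/-! MP_6b977f_mp, project BW, module NC3 -/

set_option autoImplicit false

namespace Pool.Agent.L0h77.BW

open Pool.Agent.L0h56.BQ

theorem NC3 : S_NC3 := by
  intro k a s p p' ϖ ϖ' hp hp' h h' h1 h2 hA
  have split : ∀ π : GI, (∑ i, (if s i then π else star π) * a i) =
      π * (∑ i, if s i then a i else 0) + star π * (∑ i, if s i then 0 else a i) := by
    intro π
    rw [Finset.mul_sum, Finset.mul_sum, ← Finset.sum_add_distrib]
    refine Finset.sum_congr rfl fun i _ => ?_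
    split_ifs <;> simp
  rw [split] at h1 h2
  have h3 : (∑ i, if s i then a i else 0) * (ϖ * star ϖ' - star ϖ * ϖ') = 0 := by
    linear_combination (star ϖ') * h1 - star ϖ * h2
  have h4 : ϖ * star ϖ' = star ϖ * ϖ' := by
    rcases mul_eq_zero.1 h3 with h | h
    · exact absurd h hA
    · exact sub_eq_zero.1 h
  have h5 : ϖ ∣ star ϖ * ϖ' := ⟨star ϖ', h4.symm⟩
  rcases h.pr.dvd_or_dvd h5 with h6 | h6
  · exact absurd h6 h.nd
  · obtain ⟨c, hc⟩ := h6
    have h7 : (p' : ℤ) = p * c.norm := by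
      rw [← h'.nm, ← h.nm, hc, Zsqrtd.norm_mul]
    have h8 : (p : ℤ) ∣ p' := ⟨_, h7⟩
    exact (Nat.prime_dvd_prime_iff_eq hp hp').1 (by exact_mod_cast h8)

end Pool.Agent.L0h77.BW
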