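import Pool.Agent.L0h77.BW.Defs
import Pool.Agent.L0h37.BW.Sm

/-! MP_6b977f_mp, project BW, module NC4 -/

set_option autoImplicit false

open Filter Topology

namespace Pool.Agent.L0h77.BW

open Pool.Agent.L0h37.BW

theorem nc4_lpf_pos (m : ℕ) : 1 ≤ lpf m := le_max_left _ _

theorem nc4_le_lpf {m p : ℕ} (hm : 0 < m) (hp : p.Prime) (h : p ∣ m) : p ≤ lpf m := by
  unfold lpf
  refine le_trans ?_ (le_max_right _ _)
  exact Finset.le_sup (f := id) (Nat.mem_primeFactors.2 ⟨hp, h, hm.ne'⟩)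

theorem nc4_lpf_eq (m : ℕ) : lpf m = 1 ∨ ((lpf m).Prime ∧ lpf m ∣ m) := by
  unfold lpf
  rcases Finset.eq_empty_or_nonempty m.primeFactors with h | h
  · left
    rw [h]
    simp
  · right
    obtain ⟨p, hp, hp'⟩ := Finset.exists_mem_eq_sup m.primeFactors h id
    rw [hp', id]
    rw [Nat.mem_primeFactors] at hp
    rw [max_eq_right hp.1.one_lt.le]
    exact ⟨hp.1, hp.2.1⟩

theorem nc4_lpf_dvd (m : ℕ) : lpf m ∣ m := by
  rcases nc4_lpf_eq m with h | h
  · rw [h]
    exact one_dvd m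
  · exact h.2

theorem nc4_lpf_card (m : ℕ) : (lpf m).divisors.card ≤ 2 := by
  rcases nc4_lpf_eq m with h | h
  · rw [h]
    simp
  · rw [h.1.divisors, Finset.card_pair h.1.one_lt.ne]

theorem NC4 : S_NC4 := by
  intro K
  obtain ⟨C, hC, hexp⟩ := exp_le (CK K) (CK_nonneg K)
  have hsum : Summable fun q : ℕ => (1 : ℝ) / (q : ℝ) ^ (5 / 4 : ℝ) :=
    Real.summable_one_div_nat_rpow.2 (by norm_num)
  refine ⟨2 ^ K * C * ∑' q : ℕ, (1 : ℝ) / (q : ℝ) ^ (5 / 4 : ℝ), fun F hF => ?_⟩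
  have hfib : ∑ m ∈ F, (m.divisors.card : ℝ) ^ K / (m * √(lpf m)) =
      ∑ q ∈ F.image lpf, ∑ m ∈ F with lpf m = q,
        (m.divisors.card : ℝ) ^ K / (m * √(lpf m)) :=
    (Finset.sum_fiberwise_of_maps_to (fun m hm => Finset.mem_image_of_mem _ hm) _).symm
  rw [hfib]
  have hq : ∀ q ∈ F.image lpf, ∑ m ∈ F with lpf m = q,
      (m.divisors.card : ℝ) ^ K / (m * √(lpf m)) ≤
        2 ^ K * C * ((1 : ℝ) / (q : ℝ) ^ (5 / 4 : ℝ)) := by
    intro q hq
    have hq1 : 1 ≤ q := by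
      obtain ⟨m, -, rfl⟩ := Finset.mem_image.1 hq
      exact nc4_lpf_pos m
    have hq0 : (0 : ℝ) < q := by exact_mod_cast hq1
    have h1 : ∑ m ∈ F with lpf m = q, (m.divisors.card : ℝ) ^ K / (m * √(lpf m)) ≤
        ∑ m ∈ F with lpf m = q, 2 ^ K / (q * √q) * fK K (m / q) := by
      refine Finset.sum_le_sum fun m hm => ?_
      rw [Finset.mem_filter] at hm
      obtain ⟨hmF, hmq⟩ := hm
      have hm0 := hF m hmF
      have hdvd : q ∣ m := hmq ▸ nc4_lpf_dvd m
      obtain ⟨m', rfl⟩ := hdvd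
      have hm'0 : 0 < m' := Nat.pos_of_mul_pos_left hm0
      rw [hmq, Nat.mul_div_cancel_left _ hq1]
      have hd : ((q * m').divisors.card : ℝ) ≤ 2 * m'.divisors.card := by
        have h2 : (q * m').divisors.card ≤ q.divisors.card * m'.divisors.card := by
          rw [Nat.divisors_mul]
          exact Finset.card_mul_le
        have h3 : q.divisors.card ≤ 2 := hmq ▸ nc4_lpf_card (q * m')
        have h4 : (q * m').divisors.card ≤ 2 * m'.divisors.card :=
          h2.trans (Nat.mul_le_mul_right _ h3)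
        exact_mod_cast h4
      unfold fK
      push_cast
      have hm'r : (0 : ℝ) < m' := by exact_mod_cast hm'0
      calc (((q * m').divisors.card : ℝ)) ^ K / ((q : ℝ) * m' * √q)
          ≤ (2 * m'.divisors.card : ℝ) ^ K / ((q : ℝ) * m' * √q) := by
            gcongr
        _ = 2 ^ K / (q * √q) * ((m'.divisors.card : ℝ) ^ K / m') := by
            rw [mul_pow]
            field_simp
    refine h1.trans ?_
    rw [← Finset.mul_sum]
    have h2 : ∑ m ∈ F with lpf m = q, fK K (m / q) ≤ C * (q : ℝ) ^ (1 / 4 : ℝ) := by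
      refine le_trans ?_ (hexp q hq1)
      have h3 : ∑ m ∈ F with lpf m = q, fK K (m / q) =
          ∑ m' ∈ (F.filter fun m => lpf m = q).image (fun m => m / q), fK K m' := by
        rw [Finset.sum_image]
        intro m hm m' hm' h
        have hm2 := Finset.mem_filter.1 hm
        have hm2' := Finset.mem_filter.1 hm'
        have h4 : q ∣ m := hm2.2 ▸ nc4_lpf_dvd m
        have h5 : q ∣ m' := hm2'.2 ▸ nc4_lpf_dvd m'
        simp only at h
        rw [← Nat.mul_div_cancel' h4, ← Nat.mul_div_cancel' h5, h]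
      rw [h3]
      refine smooth_sum_le K (q + 1) _ fun m' hm' => ?_
      obtain ⟨m, hm, rfl⟩ := Finset.mem_image.1 hm'
      obtain ⟨hmF, hmq⟩ := Finset.mem_filter.1 hm
      rw [Nat.mem_smoothNumbers']
      intro p hp hpm
      have h4 : q ∣ m := hmq ▸ nc4_lpf_dvd m
      have h5 : p ∣ m := hpm.trans (Nat.div_dvd_of_dvd h4)
      have h6 := nc4_le_lpf (hF m hmF) hp h5
      omega
    calc 2 ^ K / (q * √q) * ∑ m ∈ F with lpf m = q, fK K (m / q)
        ≤ 2 ^ K / (q * √q) * (C * (q : ℝ) ^ (1 / 4 : ℝ)) := by gcongr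
      _ = 2 ^ K * C * ((1 : ℝ) / (q : ℝ) ^ (5 / 4 : ℝ)) := by
          have h3 : (q : ℝ) * √q = (q : ℝ) ^ (5 / 4 : ℝ) * (q : ℝ) ^ (1 / 4 : ℝ) := by
            rw [← Real.rpow_add hq0, Real.sqrt_eq_rpow]
            nth_rewrite 1 [← Real.rpow_one (q : ℝ)]
            rw [← Real.rpow_add hq0]
            norm_num
          rw [h3]
          have h4 : (0 : ℝ) < (q : ℝ) ^ (1 / 4 : ℝ) := by positivity
          have h5 : (0 : ℝ) < (q : ℝ) ^ (5 / 4 : ℝ) := by positivity
          field_simp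
  refine (Finset.sum_le_sum hq).trans ?_
  rw [← Finset.mul_sum]
  gcongr
  exact hsum.sum_le_tsum _ fun q _ => by positivity

end Pool.Agent.L0h77.BW
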