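import Pool.Agent.L0h77.BW.Defs
import Pool.Agent.L0h37.BW.Sm

/-! MP_6b977f_mp, project BW, module NC6 -/

set_option autoImplicit false

open Filter Topology

namespace Pool.Agent.L0h77.BW

open Pool.Agent.L0h37.BW Pool.Agent.L0h56.BQ

/-- union bound for `cnt` -/
theorem nc6_cnt_le_sum {ι : Type*} (T : Finset ι) (P : ℕ → Prop) (Q : ι → ℕ → Prop) (X : ℕ)
    (h : ∀ e ∈ Finset.Icc 1 X, P e → ∃ i ∈ T, Q i e) : cnt P X ≤ ∑ i ∈ T, cnt (Q i) X := by
  classical
  unfold cnt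
  calc ∑ e ∈ (Finset.Icc 1 X).filter P, (V e).card
      ≤ ∑ e ∈ (Finset.Icc 1 X).filter P, ∑ i ∈ T, if Q i e then (V e).card else 0 := by
        refine Finset.sum_le_sum fun e he => ?_
        rw [Finset.mem_filter] at he
        obtain ⟨i, hi, hq⟩ := h e he.1 he.2
        refine le_trans ?_ (Finset.single_le_sum (f := fun i => if Q i e then (V e).card else 0)
          (fun j _ => Nat.zero_le _) hi)
        simp only [hq, if_true, le_refl]
    _ = ∑ i ∈ T, ∑ e ∈ (Finset.Icc 1 X).filter P, (if Q i e then (V e).card else 0) :=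
        Finset.sum_comm
    _ ≤ ∑ i ∈ T, ∑ e ∈ (Finset.Icc 1 X).filter (Q i), (V e).card := by
        refine Finset.sum_le_sum fun i _ => ?_
        rw [← Finset.sum_filter, Finset.filter_filter]
        refine Finset.sum_le_sum_of_subset fun e he => ?_
        rw [Finset.mem_filter] at he ⊢
        exact ⟨he.1, he.2.2⟩

theorem NC6 (hDV : S_DV) : S_NC6 := by
  intro y ε hε
  obtain ⟨hs, -⟩ := smooth_summable 1 (y + 1)
  rw [summable_iff_vanishing_norm] at hs
  obtain ⟨s, hs⟩ := hs (ε / 8) (by positivity)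
  refine ⟨s.sup id, fun X => ?_⟩
  classical
  set T : Finset ℕ := (Finset.Icc 1 X).filter fun m =>
    (∀ p : ℕ, p.Prime → p ∣ m → p ≤ y) ∧ s.sup id < m with hT
  have h1 : cnt (fun e => ∃ m : ℕ, m ∣ e ∧ (∀ p : ℕ, p.Prime → p ∣ m → p ≤ y) ∧ s.sup id < m) X ≤
      ∑ m ∈ T, cnt (fun e => m ∣ e) X := by
    refine nc6_cnt_le_sum T _ _ X fun e he hP => ?_
    obtain ⟨m, hme, hmp, hm⟩ := hP
    rw [Finset.mem_Icc] at he
    refine ⟨m, ?_, hme⟩
    rw [hT, Finset.mem_filter, Finset.mem_Icc]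
    have hm0 : 0 < m := Nat.pos_of_dvd_of_pos hme he.1
    exact ⟨⟨hm0, (Nat.le_of_dvd he.1 hme).trans he.2⟩, hmp, hm⟩
  have h2 : ((∑ m ∈ T, cnt (fun e => m ∣ e) X : ℕ) : ℝ) ≤
      ∑ m ∈ T, 8 * X * (Nat.smoothNumbers (y + 1)).indicator (fK 1) m := by
    push_cast
    refine Finset.sum_le_sum fun m hm => ?_
    rw [hT, Finset.mem_filter, Finset.mem_Icc] at hm
    have hmem : m ∈ Nat.smoothNumbers (y + 1) := by
      rw [Nat.mem_smoothNumbers']
      intro p hp hpm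
      have := hm.2.1 p hp hpm
      omega
    rw [Set.indicator_of_mem hmem]
    refine (hDV m X (by omega)).trans (le_of_eq ?_)
    unfold fK
    rw [pow_one]
    ring
  have h3 : Disjoint T s := by
    rw [Finset.disjoint_left]
    intro m hm hms
    rw [hT, Finset.mem_filter] at hm
    have : m ≤ s.sup id := Finset.le_sup (f := id) hms
    omega
  have h4 := hs T h3
  have h5 : ∑ m ∈ T, (Nat.smoothNumbers (y + 1)).indicator (fK 1) m ≤ ε / 8 :=
    (le_abs_self _).trans h4.le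
  calc (cnt (fun e => ∃ m : ℕ, m ∣ e ∧ (∀ p : ℕ, p.Prime → p ∣ m → p ≤ y) ∧ s.sup id < m) X : ℝ)
      ≤ ((∑ m ∈ T, cnt (fun e => m ∣ e) X : ℕ) : ℝ) := by exact_mod_cast h1
    _ ≤ ∑ m ∈ T, 8 * X * (Nat.smoothNumbers (y + 1)).indicator (fK 1) m := h2
    _ = 8 * X * ∑ m ∈ T, (Nat.smoothNumbers (y + 1)).indicator (fK 1) m := by
        rw [Finset.mul_sum]
    _ ≤ 8 * X * (ε / 8) := by gcongr
    _ = ε * X := by ring

end Pool.Agent.L0h77.BW
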