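import Pool.Agent.L0h77.BW.Defs

/-! Module NE of project BW (helper6). -/

set_option autoImplicit false
open MeasureTheory Filter Topology Complex

namespace Pool.Agent.L0h77.BW

open Pool.Agent.L0h56.BQ

theorem cnt_mono {P Q : ℕ → Prop} (h : ∀ e, 0 < e → P e → Q e) (X : ℕ) : cnt P X ≤ cnt Q X := by
  classical
  unfold cnt
  refine Finset.sum_le_sum_of_subset fun e he => ?_
  rw [Finset.mem_filter, Finset.mem_Icc] at *
  exact ⟨he.1, h e he.1.1 he.2⟩

theorem DZ.mono {P Q : ℕ → Prop} (hQ : DZ Q) (h : ∀ e, 0 < e → P e → Q e) : DZ P := by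
  intro ε hε
  refine (hQ ε hε).mono fun X hX => le_trans ?_ hX
  exact_mod_cast cnt_mono h X

theorem NE (hEX : S_EX) (hGD : S_GD) (hPB : S_PB) : S_NE := by
  intro q hq δ hδ
  obtain ⟨J, hJ⟩ := exists_pow_lt_of_lt_one hδ (show (7 / 8 : ℝ) < 1 by norm_num)
  refine (hEX (GP q) (fun p hp => ⟨hp.1, hp.2.1⟩) (hGD q hq) J).mono fun e he h => ?_
  rintro ⟨F, hF, hF'⟩
  have h1 := hPB q e hq he F hF'
  rw [hF] at h1
  have h2 : (7 / 8 : ℝ) ^ J * (V e).card ≤ δ * (V e).card :=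
    mul_le_mul_of_nonneg_right hJ.le (Nat.cast_nonneg _)
  linarith

end Pool.Agent.L0h77.BW
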