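import Pool.Agent.L0h77.BW.T_SP

/-! MP_6b977f_mp, project BW, module PB: the bound by a product -/

set_option autoImplicit false
open Complex

namespace Pool.Agent.L0h77.BW

open Pool.Agent.L0h56.BQ

/-- the sums over the elements of norm `m p` -/
theorem spl_sum {p : ℕ} {ϖ : GI} (h : Spl p ϖ) (hp : p.Prime) {m : ℕ} (hpm : ¬ p ∣ m)
    (f : GI → ℂ) : ∑ ν ∈ V (m * p), f ν = ∑ ν ∈ V m, f (ϖ * ν) + ∑ ν ∈ V m, f (star ϖ * ν) := by
  classical
  have hϖ0 : ϖ ≠ 0 := h.pr.ne_zero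
  have hs0 : star ϖ ≠ 0 := (h.star_spl hp).pr.ne_zero
  rw [h.V_succ m, Finset.sum_union, Finset.sum_image (fun x _ y _ hxy => mul_left_cancel₀ hϖ0 hxy),
    Finset.sum_image (fun x _ y _ hxy => mul_left_cancel₀ hs0 hxy)]
  rw [Finset.disjoint_left]
  intro ν h1 h2
  rw [Finset.mem_image] at h1 h2
  obtain ⟨μ, hμ, rfl⟩ := h1
  obtain ⟨μ', _, h2⟩ := h2
  exact spl_not_dvd_mul h hp hpm hμ ⟨μ', h2.symm⟩

/-- the sums of powers over the elements of norm `m p` -/
theorem spl_GQ {p : ℕ} {ϖ : GI} (h : Spl p ϖ) (hp : p.Prime) {m : ℕ} (hpm : ¬ p ∣ m) (Q : ℕ) :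
    ∑ ν ∈ V (m * p), uE (m * p) ν ^ Q =
      ((2 * (uE p ϖ ^ Q).re : ℝ) : ℂ) * ∑ ν ∈ V m, uE m ν ^ Q := by
  rw [spl_sum h hp hpm]
  simp_rw [h.uE_mul, (h.star_spl hp).uE_mul, uE_star, mul_pow, ← Finset.mul_sum]
  rw [← add_mul, ← map_pow, Complex.add_conj]

theorem V_one_pow {ν : GI} (hν : ν ∈ V 1) (q : ℕ) : uE 1 ν ^ (4 * q) = 1 := by
  have h1 := mem_V.1 hν
  have h2 : ν ^ 4 = 1 := by
    rw [norm_eq] at h1
    have h3 : ν.re ^ 2 ≤ 1 := by push_cast at h1; nlinarith [sq_nonneg ν.im]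
    have h4 : ν.im ^ 2 ≤ 1 := by push_cast at h1; nlinarith [sq_nonneg ν.re]
    have h5 := abs_le_one_iff_mul_self_le_one.2 (by nlinarith : ν.re * ν.re ≤ 1)
    have h6 := abs_le_one_iff_mul_self_le_one.2 (by nlinarith : ν.im * ν.im ≤ 1)
    rw [abs_le] at h5 h6
    obtain ⟨x, y⟩ := ν
    simp only at h1 h5 h6
    obtain ⟨h5, h5'⟩ := h5
    obtain ⟨h6, h6'⟩ := h6
    interval_cases x <;> interval_cases y <;> first | rfl | (exfalso; revert h1; norm_num)
  unfold uE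
  rw [pow_mul, div_pow, ← map_pow, h2]
  simp

theorem card_V_one : (V 1).card = 4 := by
  have h : V 1 = {⟨1, 0⟩, ⟨-1, 0⟩, ⟨0, 1⟩, ⟨0, -1⟩} := by
    ext ν
    rw [mem_V, norm_eq]
    simp only [Finset.mem_insert, Finset.mem_singleton]
    constructor
    · intro h1
      have h3 : ν.re ^ 2 ≤ 1 := by push_cast at h1; nlinarith [sq_nonneg ν.im]
      have h4 : ν.im ^ 2 ≤ 1 := by push_cast at h1; nlinarith [sq_nonneg ν.re]
      have h5 := abs_le_one_iff_mul_self_le_one.2 (by nlinarith : ν.re * ν.re ≤ 1)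
      have h6 := abs_le_one_iff_mul_self_le_one.2 (by nlinarith : ν.im * ν.im ≤ 1)
      rw [abs_le] at h5 h6
      obtain ⟨x, y⟩ := ν
      simp only at h1 h5 h6
      obtain ⟨h5, h5'⟩ := h5
      obtain ⟨h6, h6'⟩ := h6
      interval_cases x <;> interval_cases y <;> first | (exfalso; revert h1; norm_num; done) | simp
    · rintro (rfl | rfl | rfl | rfl) <;> norm_num
  rw [h]
  rfl

/-- the sum over the elements of norm `p` -/
theorem sum_V_prime {p : ℕ} {ϖ : GI} (h : Spl p ϖ) (hp : p.Prime) (q : ℕ) :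
    ∑ ν ∈ V p, (uE p ν ^ (4 * q)).re = 8 * (uE p ϖ ^ (4 * q)).re := by
  have h1 := spl_GQ h hp (m := 1) (fun hd => hp.one_lt.ne' (Nat.dvd_one.1 hd)) (4 * q)
  rw [Finset.sum_congr rfl (fun ν hν => V_one_pow hν q), Finset.sum_const, card_V_one,
    one_mul] at h1
  have h2 := congrArg Complex.re h1
  rw [Complex.re_sum, Complex.re_ofReal_mul] at h2
  rw [h2]
  simp
  ring

theorem PB : S_PB := by
  classical
  intro q e hq he F
  induction F using Finset.induction_on generalizing e with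
  | empty =>
    intro _
    rw [Finset.card_empty, pow_zero, one_mul]
    refine (norm_sum_le _ _).trans ?_
    rw [Finset.sum_congr rfl fun ν hν => by rw [norm_pow, uE_norm e he ν hν, one_pow]]
    simp
  | insert p F hpF ih =>
    intro hF
    obtain ⟨⟨hp, h4, h7⟩, ⟨m, rfl⟩, hsq⟩ := hF p (Finset.mem_insert_self _ _)
    have hm : 0 < m := by
      rcases Nat.eq_zero_or_pos m with h0 | h0
      · rw [h0, mul_zero] at he; exact absurd he (lt_irrefl 0)
      · exact h0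
    have hpm : ¬ p ∣ m := by
      rintro ⟨x, rfl⟩
      exact hsq ⟨x, by ring⟩
    obtain ⟨ϖ, h⟩ := spl_exists p hp h4
    have ihm := ih m hm (by
      intro p' hp'
      obtain ⟨hG, hd, hs⟩ := hF p' (Finset.mem_insert_of_mem hp')
      refine ⟨hG, ?_, fun hd' => hs (hd'.mul_left p)⟩
      have hne : p' ≠ p := fun h => hpF (h ▸ hp')
      rcases (hG.1.dvd_mul).1 hd with h1 | h1
      · exact absurd ((Nat.prime_dvd_prime_iff_eq hG.1 hp).1 h1) hne
      · exact h1)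
    have h1 := sum_V_prime h hp q
    rw [h1] at h7
    rw [mul_comm p m, spl_GQ h hp hpm, h.card_one m hpm, Finset.card_insert_of_notMem hpF, norm_mul,
      Complex.norm_real, Real.norm_eq_abs, pow_succ]
    have h2 : |2 * (uE p ϖ ^ (4 * q)).re| ≤ 2 * (7 / 8) := by
      rw [abs_le] at h7 ⊢
      constructor <;> linarith [h7.1, h7.2]
    calc _ ≤ 2 * (7 / 8) * ((7 / 8 : ℝ) ^ F.card * (V m).card) :=
          mul_le_mul h2 ihm (norm_nonneg _) (by norm_num)
      _ = _ := by push_cast; ring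

end Pool.Agent.L0h77.BW
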