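import Pool.Agent.L0h77.BW.Defs

/-! Module QSM of project BW (helper6). -/

set_option autoImplicit false
open MeasureTheory Filter Topology Complex

namespace Pool.Agent.L0h77.BW

open Pool.Agent.L0h56.BQ
open Pool.Agent.N661.BR (MW lin J0 resc IsCutoff IsQuantumErgodic IsRandomWave IsLocalLimit)

theorem QSM : S_QSM := by
  intro E hE σ hσ b u hr Ω hΩ hne hn hq ε hε
  have hA : ∀ q : ℤ, q ≠ 0 → Tendsto (fun n => ∑ ν ∈ V (E n), ((‖(b n ν : ℂ)‖ ^ 2 : ℝ) : ℂ) *
      Complex.exp (I * (q * dirn ν : ℝ))) atTop (𝓝 0) := fun q hq0 =>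
    ang_of_even hE hr (fun q hq1 => qe_even hσ hE hr hΩ hne hn hq q hq1) hσ q hq0
  have h1 := weyl_small (fun n => V (E n)) (fun n ν => ‖(b n ν : ℂ)‖ ^ 2)
    (fun n ν _ => by positivity) (fun n => by
      rw [← norm_one' hσ hr hΩ hne hn n]
      refine Finset.sum_congr rfl fun ν _ => ?_
      rw [Complex.norm_real, Real.norm_eq_abs, sq_abs]) hA (ε ^ 2) (by positivity)
  refine h1.mono fun n hn ν hν => ?_
  have h2 := hn ν hν
  have h3 : ‖(b n ν : ℂ)‖ ≤ ε := le_of_sq_le_sq h2 hε.le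
  rwa [Complex.norm_real, Real.norm_eq_abs] at h3

end Pool.Agent.L0h77.BW
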