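import Pool.Agent.L0h77.BW.RecA

/-! MP_6b977f_mp, project BW: the recursion for the moments -/

set_option autoImplicit false
set_option maxHeartbeats 400000

namespace Pool.Agent.L0h77.BW

open Pool.Agent.L0h56.BQ

noncomputable section

open Classical

theorem sum_cons_ins {k : ℕ} (i : Fin (k + 1)) (ν : GI) (ρ : Fin k → GI) :
    ∑ j, (Fin.cons ν (i.insertNth (-ν) ρ : Fin (k + 1) → GI) : Fin (k + 2) → GI) j =
      ∑ j, ρ j := by
  rw [Fin.sum_univ_succ]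
  simp only [Fin.cons_zero, Fin.cons_succ]
  rw [Fin.sum_univ_succAbove _ i]
  simp

theorem prod_cons_ins {R : Type} [CommMonoid R] {k : ℕ} (c : GI → R) (i : Fin (k + 1)) (ν : GI)
    (ρ : Fin k → GI) :
    ∏ j, c ((Fin.cons ν (i.insertNth (-ν) ρ : Fin (k + 1) → GI) : Fin (k + 2) → GI) j) =
      c ν * (c (-ν) * ∏ j, c (ρ j)) := by
  rw [Fin.prod_univ_succ]
  simp only [Fin.cons_zero, Fin.cons_succ]
  rw [Fin.prod_univ_succAbove _ i]
  simp

theorem pair_sum {R : Type} [AddCommMonoid R] (S : Finset GI) (hS : ∀ ν ∈ S, -ν ∈ S) (k : ℕ)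
    (i : Fin (k + 1)) (g : (Fin (k + 2) → GI) → R) :
    ∑ τ ∈ (Tup S (k + 2)).filter (fun τ => ∑ j, τ j = 0 ∧ τ i.succ = - τ 0), g τ =
      ∑ ν ∈ S, ∑ ρ ∈ (Tup S k).filter (fun ρ => ∑ j, ρ j = 0),
        g (Fin.cons ν (i.insertNth (-ν) ρ : Fin (k + 1) → GI)) := by
  rw [← Finset.sum_product']
  refine Finset.sum_bij' (fun τ _ => (τ 0, fun j => τ (i.succAbove j).succ))
    (fun q _ => Fin.cons q.1 (i.insertNth (-q.1) q.2 : Fin (k + 1) → GI)) ?_ ?_ ?_ ?_ ?_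
  · intro τ hτ
    rw [Finset.mem_filter, mem_Tup] at hτ
    rw [Finset.mem_product, Finset.mem_filter, mem_Tup]
    refine ⟨hτ.1 0, fun j => hτ.1 _, ?_⟩
    have h1 := hτ.2.1
    rw [Fin.sum_univ_succ, Fin.sum_univ_succAbove _ i, hτ.2.2] at h1
    have h2 : τ 0 + (-τ 0 + ∑ j, τ (i.succAbove j).succ) = ∑ j, τ (i.succAbove j).succ := by ring
    rw [h2] at h1
    exact h1
  · intro q hq
    rw [Finset.mem_product, Finset.mem_filter, mem_Tup] at hq
    rw [Finset.mem_filter, mem_Tup]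
    refine ⟨fun j => ?_, ?_, by simp⟩
    · refine Fin.cases ?_ (fun j => ?_) j
      · simpa using hq.1
      · rw [Fin.cons_succ]
        refine Fin.succAboveCases i ?_ (fun j => ?_) j
        · simpa using hS _ hq.1
        · simpa using hq.2.1 j
    · rw [sum_cons_ins]
      exact hq.2.2
  · intro τ hτ
    rw [Finset.mem_filter] at hτ
    have h1 : (i.insertNth (-τ 0) (fun j => τ (i.succAbove j).succ) : Fin (k + 1) → GI) =
        fun j => τ j.succ := by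
      rw [Fin.insertNth_eq_iff]
      refine ⟨hτ.2.2.symm, ?_⟩
      funext j
      rfl
    show Fin.cons (τ 0) (i.insertNth (-τ 0) (fun j => τ (i.succAbove j).succ) :
      Fin (k + 1) → GI) = τ
    rw [h1]
    exact Fin.cons_self_tail τ
  · intro q hq
    refine Prod.ext ?_ ?_
    · simp
    · funext j
      simp
  · intro τ hτ
    rw [Finset.mem_filter] at hτ
    have h1 : (i.insertNth (-τ 0) (fun j => τ (i.succAbove j).succ) : Fin (k + 1) → GI) =
        fun j => τ j.succ := by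
      rw [Fin.insertNth_eq_iff]
      refine ⟨hτ.2.2.symm, ?_⟩
      funext j
      rfl
    show g τ = g (Fin.cons (τ 0) (i.insertNth (-τ 0) (fun j => τ (i.succAbove j).succ) :
      Fin (k + 1) → GI))
    rw [h1]
    exact congrArg g (Fin.cons_self_tail τ).symm

/-- the number of terms opposite to the first one -/
def NN {k : ℕ} (τ : Fin (k + 2) → GI) : Finset (Fin (k + 1)) :=
  Finset.univ.filter fun i => τ i.succ = - τ 0

theorem first_moment (S : Finset GI) (hS : ∀ ν ∈ S, -ν ∈ S) (c : GI → ℂ)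
    (hc : ∀ ν, c (-ν) = (starRingEnd ℂ) (c ν)) (k : ℕ) :
    ∑ τ ∈ (Tup S (k + 2)).filter (fun τ => ∑ j, τ j = 0), ((NN τ).card : ℂ) * ∏ j, c (τ j) =
      (k + 1) * ((∑ ν ∈ S, ‖c ν‖ ^ 2 : ℝ) : ℂ) * SS S c k 0 := by
  have h1 : ∀ τ : Fin (k + 2) → GI, ((NN τ).card : ℂ) * ∏ j, c (τ j) =
      ∑ i : Fin (k + 1), if τ i.succ = - τ 0 then ∏ j, c (τ j) else 0 := by
    intro τ
    rw [← Finset.sum_filter, Finset.sum_const, nsmul_eq_mul]
    rfl
  rw [Finset.sum_congr rfl fun τ _ => h1 τ, Finset.sum_comm]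
  have h2 : ∀ i : Fin (k + 1), (∑ τ ∈ (Tup S (k + 2)).filter (fun τ => ∑ j, τ j = 0),
      if τ i.succ = - τ 0 then ∏ j, c (τ j) else 0) =
      ((∑ ν ∈ S, ‖c ν‖ ^ 2 : ℝ) : ℂ) * SS S c k 0 := by
    intro i
    rw [← Finset.sum_filter, Finset.filter_filter]
    have h3 := pair_sum S hS k i (fun τ => ∏ j, c (τ j))
    rw [h3]
    unfold SS
    push_cast
    rw [Finset.sum_mul_sum]
    refine Finset.sum_congr rfl fun ν _ => Finset.sum_congr rfl fun ρ _ => ?_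
    rw [prod_cons_ins, hc, ← mul_assoc, Complex.mul_conj, Complex.normSq_eq_norm_sq]
    push_cast
    ring
  rw [Finset.sum_congr rfl fun i _ => h2 i, Finset.sum_const, Finset.card_univ, Fintype.card_fin,
    nsmul_eq_mul]
  push_cast
  ring

theorem SR_nonneg (S : Finset GI) (d : GI → ℝ) (hd : ∀ ν, 0 ≤ d ν) (k : ℕ) : 0 ≤ SR S d k :=
  Finset.sum_nonneg fun τ _ => Finset.prod_nonneg fun i _ => hd _

theorem pair_bound (S : Finset GI) (hS : ∀ ν ∈ S, -ν ∈ S) (d : GI → ℝ) (hd : ∀ ν, 0 ≤ d ν)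
    (hs : ∀ ν, d (-ν) = d ν) (κ : ℝ) (hκ : ∀ ν ∈ S, d ν ≤ κ) (k : ℕ) (i i' : Fin (k + 1))
    (hi : i ≠ i') :
    (∑ τ ∈ (Tup S (k + 2)).filter (fun τ => ∑ j, τ j = 0),
      if τ i.succ = - τ 0 ∧ τ i'.succ = - τ 0 then ∏ j, d (τ j) else 0) ≤ κ ^ 2 * SR S d k := by
  obtain ⟨l, hl⟩ := Fin.exists_succAbove_eq (Ne.symm hi)
  have h1 : (∑ τ ∈ (Tup S (k + 2)).filter (fun τ => ∑ j, τ j = 0),
      if τ i.succ = - τ 0 ∧ τ i'.succ = - τ 0 then ∏ j, d (τ j) else 0) =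
      ∑ τ ∈ (Tup S (k + 2)).filter (fun τ => ∑ j, τ j = 0 ∧ τ i.succ = - τ 0),
        if τ i'.succ = - τ 0 then ∏ j, d (τ j) else 0 := by
    rw [← Finset.filter_filter, Finset.sum_filter (fun τ : Fin (k + 2) → GI => τ i.succ = - τ 0)]
    refine Finset.sum_congr rfl fun τ _ => ?_
    by_cases ha : τ i.succ = - τ 0 <;> by_cases hb : τ i'.succ = - τ 0 <;> simp [ha, hb]
  rw [h1, pair_sum S hS k i (fun τ => if τ i'.succ = - τ 0 then ∏ j, d (τ j) else 0)]
  unfold SR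
  rw [Finset.sum_comm, Finset.mul_sum]
  refine Finset.sum_le_sum fun ρ hρ => ?_
  rw [Finset.mem_filter, mem_Tup] at hρ
  have h2 : ∀ ν ∈ S, (if (Fin.cons ν (i.insertNth (-ν) ρ : Fin (k + 1) → GI) :
      Fin (k + 2) → GI) i'.succ = -(Fin.cons ν (i.insertNth (-ν) ρ : Fin (k + 1) → GI) :
      Fin (k + 2) → GI) 0 then ∏ j, d ((Fin.cons ν (i.insertNth (-ν) ρ : Fin (k + 1) → GI) :
      Fin (k + 2) → GI) j) else 0) =
      if ν = - ρ l then d ν * (d (-ν) * ∏ j, d (ρ j)) else 0 := by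
    intro ν _
    rw [prod_cons_ins]
    have h3 : ((Fin.cons ν (i.insertNth (-ν) ρ : Fin (k + 1) → GI) :
      Fin (k + 2) → GI) i'.succ = -(Fin.cons ν (i.insertNth (-ν) ρ : Fin (k + 1) → GI) :
      Fin (k + 2) → GI) 0) ↔ ν = - ρ l := by
      rw [Fin.cons_succ, Fin.cons_zero, ← hl, Fin.insertNth_apply_succAbove]
      constructor
      · intro h; rw [h, neg_neg]
      · intro h; rw [h, neg_neg]
    simp only [h3]
  rw [Finset.sum_congr rfl h2, Finset.sum_ite_eq' S (-ρ l), if_pos (hS _ (hρ.1 l)), neg_neg, hs]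
  have h4 : 0 ≤ ∏ j, d (ρ j) := Finset.prod_nonneg fun j _ => hd _
  have h5 : d (ρ l) ≤ κ := hκ _ (hρ.1 l)
  have h6 : d (ρ l) * d (ρ l) ≤ κ ^ 2 := by
    rw [pow_two]
    exact mul_le_mul h5 h5 (hd _) ((hd _).trans h5)
  calc d (ρ l) * (d (ρ l) * ∏ j, d (ρ j)) = (d (ρ l) * d (ρ l)) * ∏ j, d (ρ j) := by ring
    _ ≤ κ ^ 2 * ∏ j, d (ρ j) := mul_le_mul_of_nonneg_right h6 h4

theorem second_bound (S : Finset GI) (hS : ∀ ν ∈ S, -ν ∈ S) (d : GI → ℝ) (hd : ∀ ν, 0 ≤ d ν)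
    (hs : ∀ ν, d (-ν) = d ν) (κ : ℝ) (hκ : ∀ ν ∈ S, d ν ≤ κ) (k : ℕ) :
    ∑ τ ∈ (Tup S (k + 2)).filter (fun τ => ∑ j, τ j = 0),
      (((NN τ).card : ℝ) * ((NN τ).card : ℝ) - (NN τ).card) / 2 * ∏ j, d (τ j) ≤
      ((k + 1).choose 2 : ℝ) * κ ^ 2 * SR S d k := by
  have h1 : ∀ τ : Fin (k + 2) → GI, (((NN τ).card : ℝ) * ((NN τ).card : ℝ) - (NN τ).card) / 2 *
      ∏ j, d (τ j) = (1 / 2) * ∑ q ∈ (Finset.univ : Finset (Fin (k + 1))).offDiag,
        if τ q.1.succ = - τ 0 ∧ τ q.2.succ = - τ 0 then ∏ j, d (τ j) else 0 := by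
    intro τ
    have h2 : (NN τ).offDiag = (Finset.univ : Finset (Fin (k + 1))).offDiag.filter
        fun q => τ q.1.succ = - τ 0 ∧ τ q.2.succ = - τ 0 := by
      ext q
      simp only [Finset.mem_offDiag, Finset.mem_filter, NN, Finset.mem_univ, true_and]
      tauto
    have h3 : (((NN τ).offDiag.card : ℕ) : ℝ) =
        ((NN τ).card : ℝ) * ((NN τ).card : ℝ) - (NN τ).card := by
      rw [Finset.offDiag_card, Nat.cast_sub]
      · push_cast
        rfl
      · rcases Nat.eq_zero_or_pos (NN τ).card with h | h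
        · rw [h]
        · exact Nat.le_mul_of_pos_left _ h
    rw [← Finset.sum_filter, Finset.sum_const, nsmul_eq_mul, ← h2, h3]
    ring
  rw [Finset.sum_congr rfl fun τ _ => h1 τ, ← Finset.mul_sum, Finset.sum_comm]
  have h4 : ∑ q ∈ (Finset.univ : Finset (Fin (k + 1))).offDiag,
      (∑ τ ∈ (Tup S (k + 2)).filter (fun τ => ∑ j, τ j = 0),
        if τ q.1.succ = - τ 0 ∧ τ q.2.succ = - τ 0 then ∏ j, d (τ j) else 0) ≤
      ∑ q ∈ (Finset.univ : Finset (Fin (k + 1))).offDiag, κ ^ 2 * SR S d k := by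
    refine Finset.sum_le_sum fun q hq => ?_
    rw [Finset.mem_offDiag] at hq
    exact pair_bound S hS d hd hs κ hκ k q.1 q.2 hq.2.2
  rw [Finset.sum_const, nsmul_eq_mul, Finset.offDiag_card, Finset.card_univ, Fintype.card_fin] at h4
  have h5 : (((k + 1) * (k + 1) - (k + 1) : ℕ) : ℝ) = 2 * ((k + 1).choose 2 : ℝ) := by
    have h6 : (k + 1) * (k + 1) - (k + 1) = (k + 1) * k := by
      rw [Nat.mul_succ, Nat.add_sub_cancel]
    have h7 := Nat.choose_two_right (k + 1)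
    rw [Nat.add_sub_cancel] at h7
    have h8 : 2 * ((k + 1) * k / 2) = (k + 1) * k :=
      Nat.mul_div_cancel' (by rw [mul_comm]; exact (Nat.even_mul_succ_self k).two_dvd)
    rw [h6, h7, ← h8]
    push_cast
    simp
  rw [h5] at h4
  linarith

theorem abs_one_sub (N : ℕ) : |(1:ℝ) - N| ≤ (if N = 0 then 1 else 0) + ((N:ℝ) * N - N) / 2 := by
  rcases N with _ | _ | N
  · simp
  · simp
  · rw [if_neg (by omega)]
    push_cast
    rw [abs_le]
    have : (0:ℝ) ≤ N := Nat.cast_nonneg N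
    constructor <;> nlinarith

theorem REC : S_REC := by
  intro S hS h0 c hc κ hκ k
  have hn : ∀ ν, ‖c (-ν)‖ = ‖c ν‖ := fun ν => by rw [hc, RCLike.norm_conj]
  rw [← first_moment S hS c hc k]
  unfold SS
  rw [← Finset.sum_sub_distrib]
  refine (norm_sum_le _ _).trans ?_
  have h1 : ∀ τ : Fin (k + 2) → GI, ‖∏ j, c (τ j) - ((NN τ).card : ℂ) * ∏ j, c (τ j)‖ ≤
      (if (NN τ).card = 0 then ∏ j, ‖c (τ j)‖ else 0) +
      (((NN τ).card : ℝ) * ((NN τ).card : ℝ) - (NN τ).card) / 2 * ∏ j, ‖c (τ j)‖ := by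
    intro τ
    have h2 : ∏ j, c (τ j) - ((NN τ).card : ℂ) * ∏ j, c (τ j) =
        (((1:ℝ) - (NN τ).card : ℝ) : ℂ) * ∏ j, c (τ j) := by
      push_cast; ring
    rw [h2, norm_mul, Complex.norm_real, Real.norm_eq_abs, norm_prod]
    have h3 : 0 ≤ ∏ j, ‖c (τ j)‖ := Finset.prod_nonneg fun j _ => norm_nonneg _
    have h4 := mul_le_mul_of_nonneg_right (abs_one_sub (NN τ).card) h3
    refine h4.trans (le_of_eq ?_)
    split_ifs <;> ring
  refine (Finset.sum_le_sum fun τ _ => h1 τ).trans ?_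
  rw [Finset.sum_add_distrib]
  refine add_le_add ?_ ?_
  · have h2 := none_bound k S h0 (fun ν => ‖c ν‖) fun ν => norm_nonneg _
    rw [← Finset.sum_filter, Finset.filter_filter]
    have h3 : (Tup S (k + 2)).filter (fun τ => ∑ j, τ j = 0 ∧ (NN τ).card = 0) =
        (Tup S (k + 2)).filter (fun τ => Nn τ) := by
      refine filt_congr _ _ _ _ _ fun τ => ?_
      unfold Nn
      refine and_congr_right fun _ => ?_
      rw [Finset.card_eq_zero]
      unfold NN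
      rw [Finset.filter_eq_empty_iff]
      simp
    rw [h3]
    refine h2.trans (le_of_eq ?_)
    exact Finset.sum_congr rfl fun b _ => by ring
  · exact second_bound S hS (fun ν => ‖c ν‖) (fun ν => norm_nonneg _) hn κ hκ k

end

end Pool.Agent.L0h77.BW
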