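import Pool.Agent.L0h77.BW.Defs

/-! BW: the module RRB -/

set_option autoImplicit false
open MeasureTheory Filter Topology Complex

namespace Pool.Agent.L0h77.BW

open Pool.Agent.L0h56.BQ

theorem minRel_perm {k : ℕ} (π : Equiv.Perm (Fin k)) {τ : Fin k → GI} (h : MinRel τ) :
    MinRel (fun i => τ (π i)) := by
  classical
  refine ⟨?_, ?_⟩
  · rw [Equiv.sum_comp π τ]
    exact h.1
  · intro s hs hs'
    have e : ∑ i ∈ s, τ (π i) = ∑ i ∈ s.map π.toEmbedding, τ i := by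
      rw [Finset.sum_map]
      rfl
    rw [e]
    apply h.2
    · exact hs.map
    · intro h2
      apply hs'
      rw [← Finset.map_univ_equiv π] at h2
      exact Finset.map_injective _ h2

theorem RRB : S_RRB := by
  classical
  intro E d κ hd hκ b
  obtain ⟨F, hF⟩ : ∃ F : Finset (Fin (b + 3) → GI), F = (Tup (V E) (b + 3)).filter MinRel := ⟨_, rfl⟩
  have memF : ∀ τ, τ ∈ F ↔ (∀ i, τ i ∈ V E) ∧ MinRel τ := by
    intro τ
    rw [hF, Finset.mem_filter]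
    unfold Tup
    rw [Fintype.mem_piFinset]
  -- the product is small
  have h01 : (0 : Fin (b + 3)) ≠ 1 := by
    intro h
    have := congrArg Fin.val h
    simp at this
  have hprod : ∀ τ ∈ F, ∏ i, d (τ i) ≤ κ ^ (b + 1) * ((d (τ 0) ^ 2 + d (τ 1) ^ 2) / 2) := by
    intro τ hτ
    have hV := ((memF τ).1 hτ).1
    have hκ0 : 0 ≤ κ := (hd _).trans (hκ _ (hV 0))
    rw [← Finset.mul_prod_erase _ _ (Finset.mem_univ (0 : Fin (b + 3))),
      ← Finset.mul_prod_erase _ _ (Finset.mem_erase.2 ⟨h01.symm, Finset.mem_univ (1 : Fin (b + 3))⟩)]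
    have h1 : ∏ x ∈ (Finset.univ.erase (0 : Fin (b + 3))).erase 1, d (τ x) ≤ κ ^ (b + 1) := by
      have hc : ((Finset.univ.erase (0 : Fin (b + 3))).erase 1).card = b + 1 := by
        rw [Finset.card_erase_of_mem (Finset.mem_erase.2 ⟨h01.symm, Finset.mem_univ _⟩),
          Finset.card_erase_of_mem (Finset.mem_univ _), Finset.card_univ, Fintype.card_fin]
        omega
      rw [← hc, ← Finset.prod_const]
      exact Finset.prod_le_prod (fun i _ => hd _) (fun i _ => hκ _ (hV i))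
    have h2 : d (τ 0) * d (τ 1) ≤ (d (τ 0) ^ 2 + d (τ 1) ^ 2) / 2 := by
      nlinarith [sq_nonneg (d (τ 0) - d (τ 1))]
    have h3 : 0 ≤ d (τ 0) * d (τ 1) := mul_nonneg (hd _) (hd _)
    have h4 : 0 ≤ ∏ x ∈ (Finset.univ.erase (0 : Fin (b + 3))).erase 1, d (τ x) :=
      Finset.prod_nonneg fun i _ => hd _
    calc d (τ 0) * (d (τ 1) * ∏ x ∈ (Finset.univ.erase (0 : Fin (b + 3))).erase 1, d (τ x))
        = (∏ x ∈ (Finset.univ.erase (0 : Fin (b + 3))).erase 1, d (τ x)) * (d (τ 0) * d (τ 1)) := by ring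
      _ ≤ κ ^ (b + 1) * ((d (τ 0) ^ 2 + d (τ 1) ^ 2) / 2) :=
        mul_le_mul h1 h2 h3 (pow_nonneg hκ0 _)
  -- counting by the first and by the second term
  have hcount : ∀ ν ∈ V E, (F.filter fun τ => τ 0 = ν).card ≤ rc b E := by
    intro ν hν
    have h1 : F.filter (fun τ => τ 0 = ν) = (Tup (V E) (b + 3)).filter fun τ => MinRel τ ∧ τ 0 = ν := by
      rw [hF, Finset.filter_filter]
    rw [h1]
    unfold rc
    exact Finset.le_sup (f := fun ν => ((Tup (V E) (b + 3)).filter fun τ => MinRel τ ∧ τ 0 = ν).card) hν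
  have hsum0 : ∑ τ ∈ F, d (τ 0) ^ 2 ≤ rc b E * ∑ ν ∈ V E, d ν ^ 2 := by
    rw [← Finset.sum_fiberwise_of_maps_to (g := fun τ : Fin (b + 3) → GI => τ 0) (t := V E)
      (fun τ hτ => ((memF τ).1 hτ).1 0), Finset.mul_sum]
    apply Finset.sum_le_sum
    intro ν hν
    have h1 : ∀ τ ∈ F.filter (fun τ => τ 0 = ν), d (τ 0) ^ 2 = d ν ^ 2 := by
      intro τ hτ
      rw [(Finset.mem_filter.1 hτ).2]
    rw [Finset.sum_congr rfl h1, Finset.sum_const, nsmul_eq_mul]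
    exact mul_le_mul_of_nonneg_right (by exact_mod_cast hcount ν hν) (sq_nonneg _)
  have hsum1 : ∑ τ ∈ F, d (τ 1) ^ 2 = ∑ τ ∈ F, d (τ 0) ^ 2 := by
    refine Finset.sum_bij' (fun τ _ => fun i => τ (Equiv.swap 0 1 i)) (fun τ _ => fun i => τ (Equiv.swap 0 1 i))
      ?_ ?_ ?_ ?_ ?_
    · intro τ hτ
      rw [memF] at hτ ⊢
      exact ⟨fun i => hτ.1 _, minRel_perm _ hτ.2⟩
    · intro τ hτ
      rw [memF] at hτ ⊢
      exact ⟨fun i => hτ.1 _, minRel_perm _ hτ.2⟩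
    · intro τ _
      funext i
      simp
    · intro τ _
      funext i
      simp
    · intro τ _
      simp
  unfold RR
  rw [← hF]
  by_cases hne : F.Nonempty
  · obtain ⟨τ0, hτ0⟩ := hne
    have hκ0 : 0 ≤ κ := (hd _).trans (hκ _ (((memF τ0).1 hτ0).1 0))
    calc ∑ τ ∈ F, ∏ i, d (τ i) ≤ ∑ τ ∈ F, κ ^ (b + 1) * ((d (τ 0) ^ 2 + d (τ 1) ^ 2) / 2) :=
          Finset.sum_le_sum hprod
      _ = κ ^ (b + 1) * ((∑ τ ∈ F, d (τ 0) ^ 2 + ∑ τ ∈ F, d (τ 1) ^ 2) / 2) := by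
        rw [← Finset.mul_sum, ← Finset.sum_div, Finset.sum_add_distrib]
      _ = κ ^ (b + 1) * ∑ τ ∈ F, d (τ 0) ^ 2 := by rw [hsum1]; ring
      _ ≤ κ ^ (b + 1) * (rc b E * ∑ ν ∈ V E, d ν ^ 2) :=
        mul_le_mul_of_nonneg_left hsum0 (pow_nonneg hκ0 _)
      _ = _ := by ring
  · rw [Finset.not_nonempty_iff_eq_empty] at hne
    rw [hne, Finset.sum_empty]
    by_cases hV : (V E).Nonempty
    · obtain ⟨ν, hν⟩ := hV
      have hκ0 : 0 ≤ κ := (hd _).trans (hκ _ hν)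
      exact mul_nonneg (mul_nonneg (pow_nonneg hκ0 _) (Nat.cast_nonneg _))
        (Finset.sum_nonneg fun _ _ => sq_nonneg _)
    · rw [Finset.not_nonempty_iff_eq_empty] at hV
      rw [hV, Finset.sum_empty, mul_zero]

end Pool.Agent.L0h77.BW
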