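import Pool.Agent.L0h77.BW.T_NC
import Pool.Agent.Helper112.Lp.MertensLog

/-! Module SM of project BW (helper6). -/

set_option autoImplicit false
open MeasureTheory Filter Topology Complex

namespace Pool.Agent.L0h77.BW

open Pool.Agent.L0h56.BQ

theorem sm_geom (r : ℝ) (h0 : 0 ≤ r) (h1 : r ≤ 1 / 2) (N : ℕ) :
    ∑ a ∈ Finset.Icc 1 N, ((a : ℝ) + 1) * r ^ a ≤ 6 * r := by
  have key : ∀ N : ℕ, ∑ a ∈ Finset.Icc 1 N, ((a : ℝ) + 1) * r ^ a ≤
      r * (6 - 2 * (N + 3) * (1 / 2) ^ N) := by
    intro N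
    induction N with
    | zero => simp; norm_num
    | succ n ih =>
      rw [Finset.sum_Icc_succ_top (by omega)]
      have h2 : r ^ (n + 1) ≤ r * (1 / 2) ^ n := by
        rw [pow_succ']
        exact mul_le_mul_of_nonneg_left (pow_le_pow_left₀ h0 h1 n) h0
      have h3 : ((n + 1 : ℕ) + 1 : ℝ) * r ^ (n + 1) ≤ ((n + 1 : ℕ) + 1 : ℝ) * (r * (1 / 2) ^ n) :=
        mul_le_mul_of_nonneg_left h2 (by positivity)
      refine (add_le_add ih h3).trans (le_of_eq ?_)
      push_cast
      rw [pow_succ]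
      ring
  refine (key N).trans ?_
  have : 0 ≤ r * (2 * ((N : ℝ) + 3) * (1 / 2) ^ N) := by positivity
  linarith

/-- the logarithm of a smooth number -/
theorem sm_log (e Z X : ℕ) (heX : e ≤ X) (h : ∀ p : ℕ, p.Prime → p ∣ e → p ≤ Z) :
    Real.log e ≤ ∑ p ∈ (Finset.Icc 1 Z).filter Nat.Prime, ∑ a ∈ Finset.Icc 1 X,
      (if p ^ a ∣ e then Real.log p else 0) := by
  rw [Real.log_nat_eq_sum_factorization, Finsupp.sum]
  have hsub : e.factorization.support ⊆ (Finset.Icc 1 Z).filter Nat.Prime := by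
    intro p hp
    rw [Nat.support_factorization, Nat.mem_primeFactors] at hp
    rw [Finset.mem_filter, Finset.mem_Icc]
    exact ⟨⟨hp.1.one_lt.le, h p hp.1 hp.2.1⟩, hp.1⟩
  refine le_trans (Finset.sum_le_sum_of_subset_of_nonneg hsub fun p _ _ => ?_)
    (Finset.sum_le_sum fun p hp => ?_)
  · have := Real.log_natCast_nonneg p
    positivity
  · rw [Finset.mem_filter] at hp
    rw [Nat.factorization_eq_card_pow_dvd e hp.2, ← Finset.sum_filter, Finset.sum_const,
      nsmul_eq_mul]
    refine mul_le_mul_of_nonneg_right ?_ (Real.log_natCast_nonneg p)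
    refine Nat.cast_le.mpr (Finset.card_le_card fun a ha => ?_)
    rw [Finset.mem_filter, Finset.mem_Ico] at ha
    rw [Finset.mem_filter, Finset.mem_Icc]
    exact ⟨⟨ha.1.1, by omega⟩, ha.2⟩

theorem cnt_cast (P : ℕ → Prop) [DecidablePred P] (X : ℕ) :
    (cnt P X : ℝ) = ∑ e ∈ Finset.Icc 1 X, ((V e).card : ℝ) * (if P e then 1 else 0) := by
  unfold cnt
  push_cast
  rw [Finset.sum_filter]
  refine Finset.sum_congr rfl fun e _ => ?_
  by_cases h : P e <;> simp [h]

theorem SM (hDV : S_DV) : S_SM := by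
  intro ε hε
  obtain ⟨C, hC0, hC⟩ := Pool.Agent.Helper112.LP.mertens_log
  refine ⟨min (1 / 2) (ε / 384), by positivity, lt_of_le_of_lt (min_le_left _ _) (by norm_num), ?_⟩
  set δ := min (1 / 2) (ε / 384) with hδ
  have hδ0 : 0 < δ := by rw [hδ]; positivity
  have hδε : 96 * δ ≤ ε / 4 := by
    have : δ ≤ ε / 384 := min_le_right _ _
    linarith
  have hlogtop : Tendsto (fun X : ℕ => Real.log (X : ℝ)) atTop atTop :=
    Real.tendsto_log_atTop.comp tendsto_natCast_atTop_atTop
  have hsqtop : Tendsto (fun X : ℕ => √(X : ℝ)) atTop atTop :=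
    Real.tendsto_sqrt_atTop.comp tendsto_natCast_atTop_atTop
  filter_upwards [eventually_ge_atTop 2, hlogtop.eventually_ge_atTop (384 * C / ε + 1),
    hsqtop.eventually_ge_atTop (16 / ε)] with X hX2 hXlog hXsq
  have hX0 : (0 : ℝ) < X := by exact_mod_cast (by omega : 0 < X)
  have hX1 : (1 : ℝ) ≤ X := by exact_mod_cast (by omega : 1 ≤ X)
  have hL0 : 0 < Real.log X := by
    have : 0 ≤ 384 * C / ε := by positivity
    linarith
  set Z := ⌊(X : ℝ) ^ δ⌋₊ with hZ
  have hXδ1 : 1 ≤ (X : ℝ) ^ δ := Real.one_le_rpow hX1 hδ0.le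
  have hZ1 : 1 ≤ Z := Nat.le_floor (by simpa using hXδ1)
  have hZle : (Z : ℝ) ≤ (X : ℝ) ^ δ := Nat.floor_le (by positivity)
  have hlogZ : Real.log Z ≤ δ * Real.log X := by
    rw [← Real.log_rpow hX0]
    exact Real.log_le_log (by exact_mod_cast hZ1) hZle
  -- splitting
  have hsplit := cnt_or_le (P := fun e => ∀ p : ℕ, p.Prime → p ∣ e → (p : ℝ) ≤ (X : ℝ) ^ δ)
    (Q := fun e => (∀ p : ℕ, p.Prime → p ∣ e → p ≤ Z) ∧ X < e ^ 2)
    (R := fun e => e ^ 2 ≤ X) (fun e he h => by
      by_cases h2 : e ^ 2 ≤ X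
      · exact Or.inr h2
      · exact Or.inl ⟨fun p hp hpe => Nat.le_floor (h p hp hpe), by omega⟩) X
  -- small energies
  have hsmall : (cnt (fun e => e ^ 2 ≤ X) X : ℝ) ≤ ε / 2 * X := by
    have h1 : cnt (fun e => e ^ 2 ≤ X) X ≤ cnt (fun e => 1 ∣ e) (Nat.sqrt X) := by
      unfold cnt
      refine Finset.sum_le_sum_of_subset fun e he => ?_
      simp only [Finset.mem_filter, Finset.mem_Icc] at *
      exact ⟨⟨he.1.1, Nat.le_sqrt'.mpr he.2⟩, one_dvd _⟩
    have h2 := hDV 1 (Nat.sqrt X) one_pos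
    have h3 : ((Nat.sqrt X : ℕ) : ℝ) ≤ √(X : ℝ) := Real.nat_sqrt_le_real_sqrt
    have h4 : √(X : ℝ) * √(X : ℝ) = X := Real.mul_self_sqrt hX0.le
    have h5 : 16 ≤ ε * √(X : ℝ) := by
      rw [div_le_iff₀ hε] at hXsq
      linarith
    have h6 : (0 : ℝ) ≤ √(X : ℝ) := Real.sqrt_nonneg _
    have h7 : 16 * √(X : ℝ) ≤ ε * X := by
      calc 16 * √(X : ℝ) ≤ ε * √(X : ℝ) * √(X : ℝ) := mul_le_mul_of_nonneg_right h5 h6
        _ = ε * X := by rw [mul_assoc, h4]
    have h8 : (cnt (fun e => e ^ 2 ≤ X) X : ℝ) ≤ (cnt (fun e => 1 ∣ e) (Nat.sqrt X) : ℝ) := by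
      exact_mod_cast h1
    simp only [Nat.divisors_one, Finset.card_singleton, Nat.cast_one, mul_one, div_one] at h2
    linarith
  -- large energies
  have hlarge : Real.log X / 2 *
      (cnt (fun e => (∀ p : ℕ, p.Prime → p ∣ e → p ≤ Z) ∧ X < e ^ 2) X : ℝ) ≤
      48 * X * (δ * Real.log X + C) := by
    classical
    rw [cnt_cast, Finset.mul_sum]
    calc ∑ e ∈ Finset.Icc 1 X, Real.log X / 2 * (((V e).card : ℝ) *
          (if (∀ p : ℕ, p.Prime → p ∣ e → p ≤ Z) ∧ X < e ^ 2 then 1 else 0))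
        ≤ ∑ e ∈ Finset.Icc 1 X, ((V e).card : ℝ) *
          ∑ p ∈ (Finset.Icc 1 Z).filter Nat.Prime, ∑ a ∈ Finset.Icc 1 X,
            (if p ^ a ∣ e then Real.log p else 0) := by
          refine Finset.sum_le_sum fun e he => ?_
          rw [Finset.mem_Icc] at he
          have hnn : 0 ≤ ∑ p ∈ (Finset.Icc 1 Z).filter Nat.Prime, ∑ a ∈ Finset.Icc 1 X,
              (if p ^ a ∣ e then Real.log p else 0) :=
            Finset.sum_nonneg fun p _ => Finset.sum_nonneg fun a _ => by
              split_ifs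
              · exact Real.log_natCast_nonneg p
              · exact le_rfl
          by_cases hP : (∀ p : ℕ, p.Prime → p ∣ e → p ≤ Z) ∧ X < e ^ 2
          · rw [if_pos hP, mul_one, mul_comm]
            refine mul_le_mul_of_nonneg_left ?_ (Nat.cast_nonneg _)
            refine le_trans ?_ (sm_log e Z X he.2 hP.1)
            have h1 : Real.log X ≤ Real.log ((e : ℝ) ^ 2) :=
              Real.log_le_log hX0 (by exact_mod_cast hP.2.le)
            rw [Real.log_pow] at h1
            push_cast at h1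
            linarith
          · rw [if_neg hP, mul_zero, mul_zero]
            exact mul_nonneg (Nat.cast_nonneg _) hnn
      _ = ∑ p ∈ (Finset.Icc 1 Z).filter Nat.Prime, ∑ a ∈ Finset.Icc 1 X,
            Real.log p * (cnt (fun e => p ^ a ∣ e) X : ℝ) := by
          simp_rw [Finset.mul_sum]
          rw [Finset.sum_comm]
          refine Finset.sum_congr rfl fun p _ => ?_
          rw [Finset.sum_comm]
          refine Finset.sum_congr rfl fun a _ => ?_
          rw [cnt_cast, Finset.mul_sum]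
          refine Finset.sum_congr rfl fun e _ => ?_
          by_cases h : p ^ a ∣ e
          · rw [if_pos h, if_pos h]; ring
          · rw [if_neg h, if_neg h]; ring
      _ ≤ ∑ p ∈ (Finset.Icc 1 Z).filter Nat.Prime, 48 * X * (Real.log p / p) := by
          refine Finset.sum_le_sum fun p hp => ?_
          rw [Finset.mem_filter] at hp
          have hp0 : (0 : ℝ) < p := by exact_mod_cast hp.2.pos
          have hp2 : (2 : ℝ) ≤ p := by exact_mod_cast hp.2.two_le
          have hr : (1 : ℝ) / p ≤ 1 / 2 := one_div_le_one_div_of_le (by norm_num) hp2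
          have hg := sm_geom (1 / p) (by positivity) hr X
          have hlp : 0 ≤ Real.log p := Real.log_natCast_nonneg p
          calc ∑ a ∈ Finset.Icc 1 X, Real.log p * (cnt (fun e => p ^ a ∣ e) X : ℝ)
              ≤ ∑ a ∈ Finset.Icc 1 X, Real.log p * (8 * X * (((a : ℝ) + 1) * (1 / p) ^ a)) := by
                refine Finset.sum_le_sum fun a _ => ?_
                refine mul_le_mul_of_nonneg_left ?_ hlp
                have h1 := hDV (p ^ a) X (pow_pos hp.2.pos a)
                rw [Nat.divisors_prime_pow hp.2, Finset.card_map, Finset.card_range] at h1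
                refine h1.trans (le_of_eq ?_)
                push_cast
                rw [one_div, inv_pow]
                ring
            _ = Real.log p * (8 * X) * ∑ a ∈ Finset.Icc 1 X, ((a : ℝ) + 1) * (1 / p) ^ a := by
                rw [Finset.mul_sum]
                refine Finset.sum_congr rfl fun a _ => by ring
            _ ≤ Real.log p * (8 * X) * (6 * (1 / p)) :=
                mul_le_mul_of_nonneg_left hg (by positivity)
            _ = 48 * X * (Real.log p / p) := by ring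
      _ = 48 * X * ∑ p ∈ (Finset.Icc 1 Z).filter Nat.Prime, Real.log p / p := by
          rw [Finset.mul_sum]
      _ ≤ 48 * X * (δ * Real.log X + C) := by
          refine mul_le_mul_of_nonneg_left ?_ (by positivity)
          have h1 := (abs_le.mp (hC Z hZ1)).2
          linarith
  -- end
  have hCL : 384 * C ≤ ε * Real.log X := by
    have h1 : 384 * C / ε ≤ Real.log X := by linarith
    rw [div_le_iff₀ hε] at h1
    linarith
  have hfin : (cnt (fun e => (∀ p : ℕ, p.Prime → p ∣ e → p ≤ Z) ∧ X < e ^ 2) X : ℝ) ≤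
      ε / 2 * X := by
    have h1 : Real.log X / 2 *
        (cnt (fun e => (∀ p : ℕ, p.Prime → p ∣ e → p ≤ Z) ∧ X < e ^ 2) X : ℝ) ≤
        Real.log X / 2 * (ε / 2 * X) := by
      refine hlarge.trans ?_
      have h2 : 48 * (δ * Real.log X + C) ≤ Real.log X / 2 * (ε / 2) := by
        have h3 : 96 * δ * Real.log X ≤ ε / 4 * Real.log X :=
          mul_le_mul_of_nonneg_right hδε hL0.le
        linarith
      have h4 := mul_le_mul_of_nonneg_right h2 hX0.le
      calc 48 * (X : ℝ) * (δ * Real.log X + C) = 48 * (δ * Real.log X + C) * X := by ring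
        _ ≤ Real.log X / 2 * (ε / 2) * X := h4
        _ = _ := by ring
    exact le_of_mul_le_mul_left h1 (by positivity)
  have hsplit' := (Nat.cast_le (α := ℝ)).mpr hsplit
  push_cast at hsplit'
  linarith

end Pool.Agent.L0h77.BW
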