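import Pool.Agent.L0h77.BW.T_DV

/-! MP_6b977f_mp, project BW, module SQ -/

set_option autoImplicit false

namespace Pool.Agent.L0h77.BW

open Pool.Agent.L0h56.BQ
open Finset

open Classical in
theorem BDaux.cnt_eq (P : ℕ → Prop) (X : ℕ) :
    cnt P X = ∑ e ∈ Icc 1 X, if P e then (V e).card else 0 := by
  unfold cnt
  rw [sum_filter]

theorem SQ : S_SQ := by
  classical
  intro X y hy
  have h1 : cnt (fun e => ∃ p : ℕ, p.Prime ∧ y < p ∧ p ^ 2 ∣ e) X ≤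
      ∑ p ∈ (Ioc y X).filter Nat.Prime, cnt (fun e => p ^ 2 ∣ e) X := by
    simp_rw [BDaux.cnt_eq]
    rw [sum_comm]
    refine sum_le_sum fun e he => ?_
    by_cases h : ∃ p : ℕ, p.Prime ∧ y < p ∧ p ^ 2 ∣ e
    · rw [if_pos h]
      obtain ⟨p, hp, hyp, hpe⟩ := h
      have hpX : p ≤ X := by
        rw [mem_Icc] at he
        have h2 := Nat.le_of_dvd (by omega) hpe
        have h3 : p ≤ p ^ 2 := Nat.le_self_pow (by norm_num) p
        omega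
      refine le_trans (le_of_eq ?_) (single_le_sum
        (f := fun p => @ite ℕ (p ^ 2 ∣ e) (Classical.propDecidable (p ^ 2 ∣ e)) (V e).card 0)
        (fun _ _ => Nat.zero_le _) (mem_filter.2 ⟨mem_Ioc.2 ⟨hyp, hpX⟩, hp⟩))
      exact (if_pos hpe).symm
    · rw [if_neg h]
      exact Nat.zero_le _
  have h2 : ∀ p ∈ (Ioc y X).filter Nat.Prime, (cnt (fun e => p ^ 2 ∣ e) X : ℝ) ≤
      24 * X * ((p : ℝ) ^ 2)⁻¹ := by
    intro p hp
    have hpp := (mem_filter.1 hp).2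
    have h3 := DV (p ^ 2) X (pow_pos hpp.pos 2)
    have h4 : (p ^ 2).divisors.card = 3 := by
      rw [Nat.divisors_prime_pow hpp, card_map, card_range]
    rw [h4] at h3
    refine h3.trans (le_of_eq ?_)
    push_cast
    rw [div_eq_mul_inv]
    ring
  have h5 : ∑ p ∈ (Ioc y X).filter Nat.Prime, ((p : ℝ) ^ 2)⁻¹ ≤ (y : ℝ)⁻¹ := by
    have h6 : ∑ p ∈ (Ioc y X).filter Nat.Prime, ((p : ℝ) ^ 2)⁻¹ ≤
        ∑ p ∈ Ioc y X, ((p : ℝ) ^ 2)⁻¹ :=
      sum_le_sum_of_subset_of_nonneg (filter_subset _ _) fun _ _ _ => by positivity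
    refine h6.trans ?_
    rcases Nat.lt_or_ge X y with h | h
    · rw [Ioc_eq_empty (by omega), sum_empty]
      positivity
    · refine (sum_Ioc_inv_sq_le_sub (α := ℝ) hy.ne' h).trans ?_
      have : (0 : ℝ) ≤ (X : ℝ)⁻¹ := by positivity
      linarith
  calc (cnt (fun e => ∃ p : ℕ, p.Prime ∧ y < p ∧ p ^ 2 ∣ e) X : ℝ)
      ≤ ∑ p ∈ (Ioc y X).filter Nat.Prime, (cnt (fun e => p ^ 2 ∣ e) X : ℝ) := by
        exact_mod_cast h1
    _ ≤ ∑ p ∈ (Ioc y X).filter Nat.Prime, 24 * X * ((p : ℝ) ^ 2)⁻¹ := sum_le_sum h2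
    _ = 24 * X * ∑ p ∈ (Ioc y X).filter Nat.Prime, ((p : ℝ) ^ 2)⁻¹ := by rw [mul_sum]
    _ ≤ 24 * X * (y : ℝ)⁻¹ := mul_le_mul_of_nonneg_left h5 (by positivity)
    _ = 24 * X / y := by rw [div_eq_mul_inv]

end Pool.Agent.L0h77.BW
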