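import Pool.Agent.L0h77.BW.Defs

/-! MP_6b977f_mp, project BW, module UNI -/

set_option autoImplicit false

open MeasureTheory Filter Topology Complex

namespace Pool.Agent.L0h77.BW

open Pool.Agent.L0h56.BQ

theorem UNI : S_UNI := by
  intro f hf hper ε hε
  let π : (Fin 2 → ℝ) → UnitAddTorus (Fin 2) := fun x i => (x i : AddCircle (1 : ℝ))
  have hπ : IsOpenQuotientMap π :=
    IsOpenQuotientMap.piMap fun _ => QuotientAddGroup.isOpenQuotientMap_mk
  let L : (Fin 2 → ℝ) → ℂ := fun x => ((2 * x 0 : ℝ) : ℂ) + ((2 * x 1 : ℝ) : ℂ) * I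
  have hL : Continuous fun x => f (L x) := by
    refine hf.comp ?_
    exact (Complex.continuous_ofReal.comp ((continuous_apply 0).const_mul 2)).add
      ((Complex.continuous_ofReal.comp ((continuous_apply 1).const_mul 2)).mul continuous_const)
  have hp1 : Function.Periodic f ((2 : ℝ) : ℂ) := hper.1
  have hp2 : Function.Periodic f (((2 : ℝ) : ℂ) * I) := hper.2
  have hcong : ∀ x y, π x = π y → f (L x) = f (L y) := by
    intro x y hxy
    have h1 : ∀ i, ∃ n : ℤ, x i = y i + n := by
      intro i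
      have h2 := congrFun hxy i
      change (x i : AddCircle (1 : ℝ)) = y i at h2
      rw [← sub_eq_zero, ← AddCircle.coe_sub, AddCircle.coe_eq_zero_iff] at h2
      obtain ⟨n, hn⟩ := h2
      refine ⟨n, ?_⟩
      rw [zsmul_eq_mul, mul_one] at hn
      linarith
    obtain ⟨n0, h0⟩ := h1 0
    obtain ⟨n1, h1⟩ := h1 1
    have h2 : L x = (L y + n0 * ((2 : ℝ) : ℂ)) + n1 * (((2 : ℝ) : ℂ) * I) := by
      simp only [L, h0, h1]
      push_cast
      ring
    rw [h2, hp2.int_mul n1, hp1.int_mul n0]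
  let g : C(UnitAddTorus (Fin 2), ℂ) := ⟨fun t => f (L (Function.surjInv hπ.surjective t)), by
    rw [hπ.isQuotientMap.continuous_iff]
    convert hL using 1
    ext x
    exact hcong _ _ (Function.surjInv_eq hπ.surjective (π x))⟩
  have hg : ∀ x, g (π x) = f (L x) := fun x =>
    hcong _ _ (Function.surjInv_eq hπ.surjective (π x))
  have hmem : g ∈ (Submodule.span ℂ (Set.range (UnitAddTorus.mFourier (d := Fin 2)))).topologicalClosure := by
    rw [UnitAddTorus.span_mFourier_closure_eq_top]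
    trivial
  rw [← SetLike.mem_coe, Submodule.topologicalClosure_coe, Metric.mem_closure_iff] at hmem
  obtain ⟨h, hh, hdist⟩ := hmem ε hε
  rw [SetLike.mem_coe, Finsupp.mem_span_range_iff_exists_finsupp] at hh
  obtain ⟨c, rfl⟩ := hh
  let e : (Fin 2 → ℤ) ↪ GI := ⟨fun n => ⟨n 0, n 1⟩, fun n m hnm => by
    rw [Zsqrtd.mk.injEq] at hnm
    funext i
    fin_cases i
    · exact hnm.1
    · exact hnm.2⟩
  refine ⟨c.support.map e, fun ξ => c ![ξ.re, ξ.im], fun z => ?_⟩
  have hz : f z = g (π ![z.re / 2, z.im / 2]) := by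
    rw [hg]
    congr 1
    simp only [L, Matrix.cons_val_zero, Matrix.cons_val_one]
    rw [mul_div_cancel₀ _ (two_ne_zero), mul_div_cancel₀ _ (two_ne_zero)]
    exact (Complex.re_add_im z).symm
  have hsum : ∑ ξ ∈ c.support.map e, c ![ξ.re, ξ.im] * ch ξ z =
      (c.sum fun i a => a • UnitAddTorus.mFourier i) (π ![z.re / 2, z.im / 2]) := by
    rw [Finset.sum_map, Finsupp.sum, ContinuousMap.coe_sum, Finset.sum_apply]
    refine Finset.sum_congr rfl fun n _ => ?_
    have h1 : ![(e n).re, (e n).im] = n := by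
      funext i
      fin_cases i <;> rfl
    rw [h1, ContinuousMap.smul_apply, smul_eq_mul]
    congr 1
    change ch ⟨n 0, n 1⟩ z = ∏ i, fourier (n i) (π ![z.re / 2, z.im / 2] i)
    rw [Fin.prod_univ_two]
    change _ = fourier (n 0) ((z.re / 2 : ℝ) : AddCircle (1 : ℝ)) *
      fourier (n 1) ((z.im / 2 : ℝ) : AddCircle (1 : ℝ))
    rw [fourier_coe_apply, fourier_coe_apply, ← Complex.exp_add, ch]
    congr 1
    push_cast
    ring
  rw [hz, hsum, ← ContinuousMap.sub_apply]
  refine (ContinuousMap.norm_coe_le_norm _ _).trans ?_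
  rw [← dist_eq_norm]
  exact hdist.le

end Pool.Agent.L0h77.BW
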