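import Pool.Agent.L0h77.BW.FullA
import Pool.Agent.L0h77.BW.T_EXI
import Pool.Agent.L0h77.BW.Nc5s
import Pool.Agent.L0h77.BW.T_REC
import Pool.Agent.L0h77.BW.T_LIM
import Pool.Agent.L0h77.BW.T_RRB
import Pool.Agent.L0h77.BW.T_UNI
import Pool.Agent.L0h77.BW.T_APX
import Pool.Agent.L0h77.BW.T_MOM
import Pool.Agent.L0h28.BW.T_CHAR
import Pool.Agent.L0h77.BW.T_GL
import Pool.Agent.L0h28.BW.T_POLY
import Pool.Agent.L0h77.BW.T_QSM
import Pool.Agent.L0h28.BW.T_QEG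
import Pool.Agent.L0h77.BW.T_BD
import Pool.Agent.L0h77.BW.T_R2
import Pool.Agent.L0h77.BW.T_DV
import Pool.Agent.L0h77.BW.T_SM
import Pool.Agent.L0h77.BW.T_SQ
import Pool.Agent.L0h77.BW.T_NB1
import Pool.Agent.L0h77.BW.T_NB
import Pool.Agent.L0h77.BW.T_NC1
import Pool.Agent.L0h77.BW.T_NC3
import Pool.Agent.L0h77.BW.T_NC4
import Pool.Agent.L0h77.BW.T_NC6
import Pool.Agent.L0h77.BW.T_NC
import Pool.Agent.L0h77.BW.T_CLS
import Pool.Agent.L0h77.BW.T_LB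
import Pool.Agent.L0h77.BW.T_EP
import Pool.Agent.L0h77.BW.T_GD
import Pool.Agent.L0h77.BW.T_EX
import Pool.Agent.L0h77.BW.T_PB
import Pool.Agent.L0h77.BW.T_NE
import Pool.Agent.L0h28.BW.T_FR
import Pool.Agent.L0h77.BW.T_CNT
import Pool.Agent.L0h77.BW.T_DEN
import Pool.Agent.L0h77.BW.T_DIAG
import Pool.Agent.L0h77.BW.T_HART
import Pool.Agent.L0h77.BW.T_ENU

/-! MP_6b977f_mp, project BW: the unconditional statements -/

set_option autoImplicit false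

namespace Pool.Agent.L0h77.BW

theorem gl : S_GL := GLt (LIM REC) RRB (CHAR (APX UNI) MOM)

theorem poly : S_POLY := POLY gl

theorem nb : S_NB := NB (SM DV) SQ NB1 R2

theorem nc : S_NC := NC NC1 (nc5s NC3 NC4 DV R2) (NC6 DV) SQ

theorem cls : S_CLS := CLS nb nc

theorem fulls : S_FULL := full poly QSM nb nc DEN DIAG CNT FR

theorem ne : S_NE := NE EX (GD (EP LB)) PB

theorem qeg : S_QEG := QEG UNI

end Pool.Agent.L0h77.BW
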