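import Pool.Agent.L0h56.BQ.Pr

/-! MP_6b977f_mp, project BW: definitions and statements of the modules

`GI` are the Gaussian integers, `V e` the finite set of those of norm `e`, `ch ν z = exp (iπ ν·z)`. -/

set_option autoImplicit false
open MeasureTheory Filter Topology Complex
open scoped ContDiff

namespace Pool.Agent.L0h77.BW

open Pool.Agent.L0h56.BQ
open Pool.Agent.N661.BR (MW lin J0 resc IsCutoff IsQuantumErgodic IsRandomWave IsLocalLimit)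
open Pool.Agent.W745.RW (TF Dp)

noncomputable section

abbrev GI := GaussianInt

/-- a minimal relation: the sum is zero and no proper nonempty subsum is zero -/
def MinRel {k : ℕ} (τ : Fin k → GI) : Prop :=
  ∑ i, τ i = 0 ∧ ∀ s : Finset (Fin k), s.Nonempty → s ≠ Finset.univ → ∑ i ∈ s, τ i ≠ 0

/-- tuples with entries in `S` -/
def Tup (S : Finset GI) (k : ℕ) : Finset (Fin k → GI) := Fintype.piFinset fun _ => S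

/-- `∑ ∏ c (τ i)` over the tuples of length `k` with sum `ξ` -/
def SS (S : Finset GI) (c : GI → ℂ) (k : ℕ) (ξ : GI) : ℂ :=
  ∑ τ ∈ (Tup S k).filter (fun τ => ∑ i, τ i = ξ), ∏ i, c (τ i)

/-- `∑ ∏ d (τ i)` over the tuples of length `k` with sum `0` -/
def SR (S : Finset GI) (d : GI → ℝ) (k : ℕ) : ℝ :=
  ∑ τ ∈ (Tup S k).filter (fun τ => ∑ i, τ i = 0), ∏ i, d (τ i)

open Classical in
/-- `∑ ∏ d (τ i)` over the minimal relations of length `b` -/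
def RR (S : Finset GI) (d : GI → ℝ) (b : ℕ) : ℝ :=
  ∑ τ ∈ (Tup S b).filter MinRel, ∏ i, d (τ i)

open Classical in
/-- the largest number of minimal relations of length `b + 3` in `V e` with a given first term -/
def rc (b e : ℕ) : ℕ :=
  (V e).sup fun ν => ((Tup (V e) (b + 3)).filter fun τ => MinRel τ ∧ τ 0 = ν).card

/-- no sum of `k` elements of `V e` is nonzero and of norm at most `R` -/
def NoSmall (k R e : ℕ) : Prop :=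
  ∀ τ : Fin k → GI, (∀ i, τ i ∈ V e) → ∑ i, τ i ≠ 0 → (R : ℤ) < (∑ i, τ i).norm

/-- the moments of the normal law with variance `v` -/
def gm : ℕ → ℝ → ℝ
  | 0, _ => 1
  | 1, _ => 0
  | k + 2, v => (k + 1) * v * gm k v

/-- energies with few relations, in comparison with the size `κ` of the coefficients -/
structure Good (E : ℕ → ℕ) (κ : ℕ → ℝ) : Prop where
  pos : ∀ n, 0 < E n
  top : Tendsto E atTop atTop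
  lim : Tendsto κ atTop (𝓝 0)
  nn : ∀ n, 0 ≤ κ n
  small : ∀ k R : ℕ, ∀ᶠ n in atTop, NoSmall k R (E n)
  rel : ∀ b : ℕ, Tendsto (fun n => κ n * rc b (E n)) atTop (𝓝 0)

open Classical in
/-- the number of Gaussian integers `ν ≠ 0` with `|ν|² ≤ X` and `P (|ν|²)` -/
def cnt (P : ℕ → Prop) (X : ℕ) : ℕ := ∑ e ∈ (Finset.Icc 1 X).filter P, (V e).card

/-- `P` has density zero (as a property of `|ν|²`) -/
def DZ (P : ℕ → Prop) : Prop := ∀ ε : ℝ, 0 < ε → ∀ᶠ X : ℕ in atTop, (cnt P X : ℝ) ≤ ε * X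

/-! ### A. From relations to local limits -/

/-- REC: the recursion for the moments -/
def S_REC : Prop := ∀ S : Finset GI, (∀ ν ∈ S, -ν ∈ S) → (0 : GI) ∉ S → ∀ c : GI → ℂ,
  (∀ ν, c (-ν) = (starRingEnd ℂ) (c ν)) → ∀ κ : ℝ, (∀ ν ∈ S, ‖c ν‖ ≤ κ) → ∀ k : ℕ,
  ‖SS S c (k + 2) 0 - (k + 1) * ((∑ ν ∈ S, ‖c ν‖ ^ 2 : ℝ) : ℂ) * SS S c k 0‖ ≤
    ∑ b ∈ Finset.Icc 3 (k + 2), ((k + 1).choose (b - 1) : ℝ) * RR S (fun ν => ‖c ν‖) b *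
      SR S (fun ν => ‖c ν‖) (k + 2 - b) +
    ((k + 1).choose 2 : ℝ) * κ ^ 2 * SR S (fun ν => ‖c ν‖) k

/-- LIM: limits of the moments -/
def S_LIM : Prop := ∀ S : ℕ → Finset GI, (∀ n, ∀ ν ∈ S n, -ν ∈ S n) → (∀ n, (0 : GI) ∉ S n) →
  ∀ c : ℕ → GI → ℂ, (∀ n ν, c n (-ν) = (starRingEnd ℂ) (c n ν)) → ∀ κ : ℕ → ℝ,
  (∀ n, ∀ ν ∈ S n, ‖c n ν‖ ≤ κ n) → Tendsto κ atTop (𝓝 0) →
  (∀ b, 3 ≤ b → Tendsto (fun n => RR (S n) (fun ν => ‖c n ν‖) b) atTop (𝓝 0)) →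
  ∀ v : ℝ, Tendsto (fun n => ∑ ν ∈ S n, ‖c n ν‖ ^ 2) atTop (𝓝 v) →
  ∀ k : ℕ, Tendsto (fun n => SS (S n) (c n) k 0) atTop (𝓝 (gm k v : ℂ)) ∧
    Tendsto (fun n => SR (S n) (fun ν => ‖c n ν‖) k) atTop (𝓝 (gm k v))

/-- RRB: bounded number of relations through each frequency -/
def S_RRB : Prop := ∀ (E : ℕ) (d : GI → ℝ) (κ : ℝ), (∀ ν, 0 ≤ d ν) → (∀ ν ∈ V E, d ν ≤ κ) →
  ∀ b : ℕ, RR (V E) d (b + 3) ≤ κ ^ (b + 1) * rc b E * ∑ ν ∈ V E, d ν ^ 2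

/-- UNI: trigonometric polynomials are dense in the continuous functions with period `2` -/
def S_UNI : Prop := ∀ f : ℂ → ℂ, Continuous f → Per 2 f → ∀ ε : ℝ, 0 < ε →
  ∃ (T : Finset GI) (a : GI → ℂ), ∀ z, ‖f z - ∑ ξ ∈ T, a ξ * ch ξ z‖ ≤ ε

/-- APX: approximation of the indicator function of a bounded open set -/
def S_APX : Prop := ∀ Ω : Set ℂ, IsOpen Ω → Bornology.IsBounded Ω → ∀ ε : ℝ, 0 < ε →
  ∃ (T : Finset GI) (a : GI → ℂ), ∀ G : ℂ → ℂ, Continuous G → Per 2 G →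
    ‖(∫ z in Ω, G z) - ∫ z in cell 2, (∑ ξ ∈ T, a ξ * ch (-ξ) z) * G z‖ ≤
      ε * √(∫ z in cell 2, ‖G z‖ ^ 2)

/-- MOM: the moments are sums over tuples -/
def S_MOM : Prop := ∀ (S : Finset GI) (c : GI → ℂ) (k : ℕ) (ξ : GI),
  ∫ z in cell 2, (∑ ν ∈ S, c ν * ch ν z) ^ k * ch (-ξ) z = 4 * SS S c k ξ

/-- CHAR: from moments to characteristic functions on open sets -/
def S_CHAR : Prop := ∀ S : ℕ → Finset GI, (∀ n, ∀ ν ∈ S n, -ν ∈ S n) →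
  ∀ c : ℕ → GI → ℂ, (∀ n ν, c n (-ν) = (starRingEnd ℂ) (c n ν)) → ∀ v : ℝ, 0 ≤ v →
  (∀ k, Tendsto (fun n => SS (S n) (c n) k 0) atTop (𝓝 (gm k v : ℂ))) →
  (∀ k ξ, ξ ≠ 0 → Tendsto (fun n => SS (S n) (c n) k ξ) atTop (𝓝 0)) →
  ∀ Ω : Set ℂ, IsOpen Ω → Bornology.IsBounded Ω →
  Tendsto (fun n => ∫ z in Ω, Complex.exp (I * ∑ ν ∈ S n, c n ν * ch ν z)) atTop
    (𝓝 ((volume.real Ω : ℂ) * Complex.exp ((-v / 2 : ℝ))))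

/-- GL: Gaussian limits for good energies -/
def S_GL : Prop := ∀ (E : ℕ → ℕ) (κ : ℕ → ℝ), Good E κ → ∀ c : ℕ → GI → ℂ,
  (∀ n ν, c n (-ν) = (starRingEnd ℂ) (c n ν)) → ∀ T : ℝ, 0 ≤ T →
  (∀ n, ∀ ν ∈ V (E n), ‖c n ν‖ ≤ T * κ n) →
  ∀ v : ℝ, Tendsto (fun n => ∑ ν ∈ V (E n), ‖c n ν‖ ^ 2) atTop (𝓝 v) →
  ∀ Ω : Set ℂ, IsOpen Ω → Bornology.IsBounded Ω →
  Tendsto (fun n => ∫ z in Ω, Complex.exp (I * ∑ ν ∈ V (E n), c n ν * ch ν z)) atTop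
    (𝓝 ((volume.real Ω : ℂ) * Complex.exp ((-v / 2 : ℝ))))

/-- POLY: quantum ergodic sequences with good energies have the random wave limit -/
def S_POLY : Prop := ∀ (E : ℕ → ℕ) (κ : ℕ → ℝ), Good E κ → ∀ σ : ℝ, σ * σ = 1 →
  ∀ (b : ℕ → GI → ℝ) (u : ℕ → ℂ → ℝ), (∀ n, Rep σ (E n) (b n) (u n)) →
  (∀ n, ∀ ν ∈ V (E n), |b n ν| ≤ κ n) →
  ∀ Ω : Set ℂ, IsPoly Ω → Ω.Nonempty → (∀ n, ∫ z in Ω, u n z ^ 2 = volume.real Ω) →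
  IsQuantumErgodic Ω (fun n => lamE (E n)) u →
  ∀ Ω' : Set ℂ, IsOpen Ω' → Ω'.Nonempty → Ω' ⊆ Ω → ∀ χ : ℝ → ℝ, IsCutoff χ →
  ∀ (K : ℕ) (w : Fin K → ℂ) (t : Fin K → ℝ),
  Tendsto (fun n => (1 / volume.real Ω' : ℝ) * ∫ z in Ω',
    Complex.exp (I * ((∑ j, t j * resc χ Ω (lamE (E n)) (u n) z (w j) : ℝ) : ℂ))) atTop
    (𝓝 (Complex.exp ((-(∑ i, ∑ j, t i * t j * J0 ‖w i - w j‖) / 2 : ℝ))))

/-- QSM: the coefficients of a quantum ergodic sequence tend to zero -/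
def S_QSM : Prop := ∀ E : ℕ → ℕ, (∀ n, 0 < E n) → ∀ σ : ℝ, σ * σ = 1 →
  ∀ (b : ℕ → GI → ℝ) (u : ℕ → ℂ → ℝ), (∀ n, Rep σ (E n) (b n) (u n)) →
  ∀ Ω : Set ℂ, IsPoly Ω → Ω.Nonempty → (∀ n, ∫ z in Ω, u n z ^ 2 = volume.real Ω) →
  IsQuantumErgodic Ω (fun n => lamE (E n)) u →
  ∀ ε : ℝ, 0 < ε → ∀ᶠ n in atTop, ∀ ν ∈ V (E n), |b n ν| ≤ ε

/-- QEG: equidistributed directions imply quantum ergodicity -/
def S_QEG : Prop := ∀ E : ℕ → ℕ, (∀ n, 0 < E n) → (∀ R : ℕ, ∀ᶠ n in atTop, NoSmall 2 R (E n)) →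
  ∀ (σ : ℝ) (b : ℕ → GI → ℝ) (u : ℕ → ℂ → ℝ), (∀ n, Rep σ (E n) (b n) (u n)) →
  (∀ n, ∑ ν ∈ V (E n), b n ν ^ 2 = 1) →
  (∀ q : ℤ, q ≠ 0 → Tendsto (fun n => ∑ ν ∈ V (E n), ((‖(b n ν : ℂ)‖ ^ 2 : ℝ) : ℂ) *
    Complex.exp (I * (q * dirn ν : ℝ))) atTop (𝓝 0)) →
  ∀ Ω : Set ℂ, IsQuantumErgodic Ω (fun n => lamE (E n)) u

/-! ### B. Counting -/

/-- BD: divisors -/
def S_BD : Prop := ∀ D : ℕ, 0 < D → ∃ B : Finset GI, B.card ≤ D.divisors.card ∧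
  (∀ β ∈ B, (D : ℤ) ≤ β.norm) ∧ ∀ ν : GI, (D : ℤ) ∣ ν.norm → ∃ β ∈ B, β ∣ ν

/-- R2: the number of Gaussian integers of norm `e` -/
def S_R2 : Prop := ∀ e : ℕ, 0 < e → (V e).card ≤ 4 * e.divisors.card

/-- DV: the number of `ν` with `D ∣ |ν|²` -/
def S_DV : Prop := ∀ D X : ℕ, 0 < D → (cnt (fun e => D ∣ e) X : ℝ) ≤ 8 * D.divisors.card * X / D

/-- SM: few smooth norms -/
def S_SM : Prop := ∀ ε : ℝ, 0 < ε → ∃ δ : ℝ, 0 < δ ∧ δ < 1 ∧ ∀ᶠ X : ℕ in atTop,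
  (cnt (fun e => ∀ p : ℕ, p.Prime → p ∣ e → (p : ℝ) ≤ (X : ℝ) ^ δ) X : ℝ) ≤ ε * X

/-- SQ: few norms with a large square divisor -/
def S_SQ : Prop := ∀ X y : ℕ, 0 < y →
  (cnt (fun e => ∃ p : ℕ, p.Prime ∧ y < p ∧ p ^ 2 ∣ e) X : ℝ) ≤ 24 * X / y

/-- SP: the splitting of a tuple at a prime -/
def S_SP : Prop := ∀ (p : ℕ) (ϖ : GI), Spl p ϖ → p.Prime → ∀ m : ℕ, 0 < m → ¬ p ∣ m →
  ∀ ν ∈ V (m * p), ∃ a ∈ V m, (ν = ϖ * a ∧ ¬ star ϖ ∣ ν) ∨ (ν = star ϖ * a ∧ ¬ ϖ ∣ ν)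

/-- LN: Gaussian integers on a line -/
def S_LN : Prop := ∀ (A B ξ : GI) (Z : ℕ) (F : Finset GI), ξ ≠ 0 →
  (∀ ϖ ∈ F, ϖ.norm ≤ Z ∧ ϖ * A + star ϖ * B = ξ) → (F.card : ℝ) ≤ 2 * √Z + 1

open Classical in
/-- NB1: few energies with a large simple prime divisor and a small nonzero sum -/
def S_NB1 : Prop := ∀ (k R : ℕ) (η : ℝ), 0 < η → ∃ C : ℝ, ∀ X Y : ℕ, 0 < X → 0 < Y → R < Y →
  (((Finset.Icc 1 X).filter fun e => (∃ p : ℕ, p.Prime ∧ Y < p ∧ p ∣ e ∧ ¬ p ^ 2 ∣ e) ∧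
    ¬ NoSmall k R e).card : ℝ) ≤ C * (X : ℝ) ^ (1 + η) / √Y

/-- NB -/
def S_NB : Prop := ∀ k R : ℕ, DZ fun e => ¬ NoSmall k R e

/-- `p` splits the tuple `τ` -/
def Splits {k : ℕ} (p : ℕ) (τ : Fin k → GI) : Prop :=
  ∃ ϖ : GI, Spl p ϖ ∧ (∃ i, ϖ ∣ τ i) ∧ ∃ j, ¬ ϖ ∣ τ j

/-- NC1: if no large prime splits a minimal relation, then there are few of them -/
def S_NC1 : Prop := ∀ (b e y M : ℕ), 0 < e → (∀ p : ℕ, p.Prime → y < p → ¬ p ^ 2 ∣ e) →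
  (∀ m : ℕ, m ∣ e → (∀ p : ℕ, p.Prime → p ∣ m → p ≤ y) → m ≤ M) →
  (∀ τ : Fin (b + 3) → GI, (∀ i, τ i ∈ V e) → MinRel τ → ∀ p : ℕ, p.Prime → y < p →
    ¬ Splits p τ) →
  rc b e ≤ (8 * M) ^ (b + 3)

/-- NC2: reduction of a split minimal relation -/
def S_NC2 : Prop := ∀ (k e y : ℕ), 0 < e → (∀ p : ℕ, p.Prime → y < p → ¬ p ^ 2 ∣ e) →
  ∀ τ : Fin k → GI, (∀ i, τ i ∈ V e) → MinRel τ → (∃ p : ℕ, p.Prime ∧ y < p ∧ Splits p τ) →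
  ∃ (m p : ℕ) (ϖ : GI) (a : Fin k → GI) (s : Fin k → Bool), 0 < m ∧ p.Prime ∧ Spl p ϖ ∧ y < p ∧
    m * p ∣ e ∧ (∀ q : ℕ, q.Prime → q ∣ m → q < p) ∧ (∀ i, a i ∈ V m) ∧
    (∑ i, (if s i then ϖ else star ϖ) * a i = 0) ∧ (∑ i, if s i then a i else 0) ≠ 0

/-- NC3: the prime is determined -/
def S_NC3 : Prop := ∀ (k : ℕ) (a : Fin k → GI) (s : Fin k → Bool) (p p' : ℕ) (ϖ ϖ' : GI),
  p.Prime → p'.Prime → Spl p ϖ → Spl p' ϖ' →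
  (∑ i, (if s i then ϖ else star ϖ) * a i = 0) → (∑ i, (if s i then ϖ' else star ϖ') * a i = 0) →
  (∑ i, if s i then a i else 0) ≠ 0 → p = p'

/-- the largest prime divisor (`1` if there is none) -/
def lpf (m : ℕ) : ℕ := max 1 (m.primeFactors.sup id)

/-- NC4: a convergent series -/
def S_NC4 : Prop := ∀ K : ℕ, ∃ C : ℝ, ∀ F : Finset ℕ, (∀ m ∈ F, 0 < m) →
  ∑ m ∈ F, (m.divisors.card : ℝ) ^ K / (m * √(lpf m)) ≤ C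

/-- NC5: few energies have a minimal relation which is split by a large prime -/
def S_NC5 : Prop := ∀ (k : ℕ) (ε : ℝ), 0 < ε → ∃ y : ℕ, 0 < y ∧ ∀ X : ℕ,
  (cnt (fun e => (∀ p : ℕ, p.Prime → y < p → ¬ p ^ 2 ∣ e) ∧ ∃ τ : Fin k → GI,
    (∀ i, τ i ∈ V e) ∧ MinRel τ ∧ ∃ p : ℕ, p.Prime ∧ y < p ∧ Splits p τ) X : ℝ) ≤ ε * X

/-- NC6: few norms with a large smooth part -/
def S_NC6 : Prop := ∀ (y : ℕ) (ε : ℝ), 0 < ε → ∃ M : ℕ, ∀ X : ℕ,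
  (cnt (fun e => ∃ m : ℕ, m ∣ e ∧ (∀ p : ℕ, p.Prime → p ∣ m → p ≤ y) ∧ M < m) X : ℝ) ≤ ε * X

/-- NC -/
def S_NC : Prop := ∀ (b : ℕ) (ε : ℝ), 0 < ε → ∃ M : ℕ, ∀ᶠ X : ℕ in atTop,
  (cnt (fun e => M < rc b e) X : ℝ) ≤ ε * X

/-! ### C. Equidistribution of the directions for almost all energies -/

/-- LB: the sum of `Re (ν/|ν|)^{4q} |ν|^{-2s}` is bounded near `s = 1` -/
def S_LB : Prop := ∀ q : ℕ, 0 < q → ∃ C : ℝ, ∀ s : ℝ, 1 < s → s ≤ 2 → ∀ᶠ X : ℕ in atTop,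
  ∑ e ∈ Finset.Icc 1 X, (∑ ν ∈ V e, (uE e ν ^ (4 * q)).re) / (e : ℝ) ^ s ≤ C

/-- EP: consequence for the primes -/
def S_EP : Prop := ∀ q : ℕ, 0 < q → ∃ C : ℝ, ∀ s : ℝ, 1 < s → s ≤ 2 → ∀ᶠ P : ℕ in atTop,
  ∑ p ∈ (Finset.Icc 1 P).filter (fun p => p.Prime ∧ p % 4 = 1),
    (∑ ν ∈ V p, (uE p ν ^ (4 * q)).re) / (p : ℝ) ^ s ≤ C

/-- the primes `p ≡ 1 mod 4` whose direction is not near a multiple of `π / (4 q)` -/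
def GP (q : ℕ) : Set ℕ := {p | p.Prime ∧ p % 4 = 1 ∧ |∑ ν ∈ V p, (uE p ν ^ (4 * q)).re| ≤ 7}

/-- GD: there are many such primes -/
def S_GD : Prop := ∀ q : ℕ, 0 < q → ¬ Summable fun p : GP q => (1 : ℝ) / (p : ℕ)

/-- EX: almost all norms have many simple prime divisors in a large set of primes -/
def S_EX : Prop := ∀ G : Set ℕ, (∀ p ∈ G, p.Prime ∧ p % 4 = 1) →
  (¬ Summable fun p : G => (1 : ℝ) / (p : ℕ)) → ∀ J : ℕ,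
  DZ fun e => ¬ ∃ F : Finset ℕ, F.card = J ∧ ∀ p ∈ F, p ∈ G ∧ p ∣ e ∧ ¬ p ^ 2 ∣ e

/-- PB: the bound by a product -/
def S_PB : Prop := ∀ (q e : ℕ), 0 < q → 0 < e → ∀ F : Finset ℕ,
  (∀ p ∈ F, p ∈ GP q ∧ p ∣ e ∧ ¬ p ^ 2 ∣ e) →
  ‖∑ ν ∈ V e, uE e ν ^ (4 * q)‖ ≤ (7 / 8 : ℝ) ^ F.card * (V e).card

/-- NE -/
def S_NE : Prop := ∀ q : ℕ, 0 < q → ∀ δ : ℝ, 0 < δ →
  DZ fun e => δ * (V e).card < ‖∑ ν ∈ V e, uE e ν ^ (4 * q)‖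

/-! ### D. Bases of the unit square -/

/-- the open unit square -/
def Sq : Set ℂ := Q 0 0

/-- `u` is an orthonormal basis of real eigenfunctions of the unit square, where `F e` is the
eigenspace of the eigenvalue `π² e`, and `π² E n`, the eigenvalue of `u n`, is nondecreasing -/
structure IsBasis (F : ℕ → Submodule ℝ (ℂ → ℝ)) (E : ℕ → ℕ) (u : ℕ → ℂ → ℝ) : Prop where
  mono : Monotone E
  top : Tendsto E atTop atTop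
  mem : ∀ n, u n ∈ F (E n)
  orth : ∀ m n, ∫ z in Sq, u m z * u n z = if m = n then 1 else 0
  full : ∀ e, {n | E n = e}.ncard = Module.finrank ℝ (F e)

/-- an increasing sequence of full density -/
def FullDensity (n : ℕ → ℕ) : Prop :=
  StrictMono n ∧ Tendsto (fun N : ℕ => ({j | n j ≤ N}.ncard : ℝ) / N) atTop (𝓝 1)

/-- a set of density zero -/
def Null (B : Set ℕ) : Prop :=
  Tendsto (fun N : ℕ => ((B ∩ Set.Iio N).ncard : ℝ) / N) atTop (𝓝 0)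

/-- the number of `a, b ≥ 1` with `a² + b² = e` -/
def dirM (e : ℕ) : ℕ := ((Finset.range (e + 1) ×ˢ Finset.range (e + 1)).filter
  fun p : ℕ × ℕ => 0 < p.1 ∧ 0 < p.2 ∧ p.1 ^ 2 + p.2 ^ 2 = e).card

/-- the number of `a, b ≥ 0` with `a² + b² = e` -/
def neuM (e : ℕ) : ℕ := ((Finset.range (e + 1) ×ˢ Finset.range (e + 1)).filter
  fun p : ℕ × ℕ => p.1 ^ 2 + p.2 ^ 2 = e).card

/-- FR: the dimensions of the eigenspaces -/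
def S_FR : Prop := ∀ e : ℕ, Module.finrank ℝ (DirE e) = dirM e ∧ Module.finrank ℝ (NeuE e) = neuM e

/-- CNT: lower bound for the number of eigenvalues -/
def S_CNT : Prop := (∀ e : ℕ, 0 < e → dirM e ≤ neuM e ∧ neuM e ≤ (V e).card) ∧
  ∀ᶠ X : ℕ in atTop, X ≤ 16 * ∑ e ∈ Finset.Icc 1 X, dirM e

/-- DEN: from energies to indices -/
def S_DEN : Prop := ∀ E : ℕ → ℕ, Monotone E → Tendsto E atTop atTop →
  (∀ e, 0 < e → {n | E n = e}.ncard ≤ (V e).card) →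
  (∀ᶠ X : ℕ in atTop, X ≤ 16 * {n | E n ≤ X}.ncard) →
  ∀ (P : ℕ → Prop) (ε : ℝ), 0 < ε → (∀ᶠ X : ℕ in atTop, (cnt P X : ℝ) ≤ ε * X) →
  ∀ᶠ N : ℕ in atTop, ((({n | P (E n)} ∩ Set.Iio N).ncard : ℕ) : ℝ) ≤ 40 * ε * N

/-- DIAG: selection of a subsequence of full density -/
def S_DIAG : Prop := ∀ B : ℕ → Set ℕ, (∀ j, Null (B j)) →
  ∃ n : ℕ → ℕ, FullDensity n ∧ (∀ i, n i ∉ B 0) ∧ ∀ j, ∀ᶠ i in atTop, n i ∉ B j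

/-- CLS: most energies are good -/
def S_CLS : Prop := ∀ ε : ℝ, 0 < ε → ∃ S : Set ℕ,
  (∀ X : ℕ, (cnt (fun e => e ∉ S) X : ℝ) ≤ ε * X) ∧
  ∀ E : ℕ → ℕ, (∀ n, E n ∈ S) → (∀ n, 0 < E n) → Tendsto E atTop atTop →
  ∀ κ : ℕ → ℝ, (∀ n, 0 ≤ κ n) → Tendsto κ atTop (𝓝 0) → Good E κ

/-- FULL: every quantum ergodic basis of the square has the random wave limit along a subsequence
of full density -/
def S_FULL : Prop := ∀ F : ℕ → Submodule ℝ (ℂ → ℝ), F = DirE ∨ F = NeuE →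
  ∀ (E : ℕ → ℕ) (u : ℕ → ℂ → ℝ), IsBasis F E u → ∀ n : ℕ → ℕ, FullDensity n →
  IsQuantumErgodic Sq (fun i => lamE (E (n i))) (fun i => u (n i)) →
  ∃ m : ℕ → ℕ, FullDensity m ∧ Set.range m ⊆ Set.range n ∧ ∀ χ : ℝ → ℝ, IsCutoff χ →
    (∀ Ω' : Set ℂ, IsOpen Ω' → Ω'.Nonempty → Ω' ⊆ Sq →
      ∀ (K : ℕ) (w : Fin K → ℂ) (t : Fin K → ℝ),
      Tendsto (fun i => (1 / volume.real Ω' : ℝ) * ∫ z in Ω',
        Complex.exp (I * ((∑ j, t j * resc χ Sq (lamE (E (m i))) (u (m i)) z (w j) : ℝ) : ℂ)))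
        atTop (𝓝 (Complex.exp ((-(∑ i, ∑ j, t i * t j * J0 ‖w i - w j‖) / 2 : ℝ))))) ∧
    ∀ μ : Measure MW, IsProbabilityMeasure μ →
      (IsLocalLimit χ Sq (fun i => lamE (E (m i))) (fun i => u (m i)) μ ↔ IsRandomWave μ)

/-- HART: flat orthogonal matrices -/
def S_HART : Prop := ∀ M : ℕ, 0 < M → ∃ H : Matrix (Fin M) (Fin M) ℝ, H * H.transpose = 1 ∧
  ∀ f : Fin M → ℝ, (∀ k, |f k| ≤ 1) →
    ∑ j, (∑ k, H j k ^ 2 * f k - (∑ k, f k) / M) ^ 2 ≤ 2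

/-- ENU: enumeration of the pairs `(e, i)`, `i < m e`, with increasing `e` -/
def S_ENU : Prop := ∀ m : ℕ → ℕ, (∀ N, ∃ e, N ≤ e ∧ 0 < m e) →
  ∃ E j : ℕ → ℕ, Monotone E ∧ Tendsto E atTop atTop ∧ (∀ n, j n < m (E n)) ∧
  ∀ e i, i < m e → ∃! n, E n = e ∧ j n = i

/-- EXI: quantum ergodic bases exist -/
def S_EXI : Prop := ∃ (E : ℕ → ℕ) (u : ℕ → ℂ → ℝ), IsBasis DirE E u ∧ ∃ n : ℕ → ℕ,
  FullDensity n ∧ IsQuantumErgodic Sq (fun i => lamE (E (n i))) (fun i => u (n i))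

end

end Pool.Agent.L0h77.BW
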