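import Pool.Agent.L0h77.BW.Stm2
import Pool.Agent.L0h77.BW.T_PB
import Pool.Agent.Helper379.Div3

/-! MP_6b977f_mp, project BW, module BIG: almost all multiplicities are large -/

set_option autoImplicit false
open Filter Topology

namespace Pool.Agent.L0h77.BW

open Pool.Agent.L0h56.BQ

/-- many simple prime divisors `1` modulo `4` give many elements -/
theorem two_pow_le_card (F : Finset ℕ) : ∀ e : ℕ, 0 < e → (V e).Nonempty →
    (∀ p ∈ F, (p.Prime ∧ p % 4 = 1) ∧ p ∣ e ∧ ¬ p ^ 2 ∣ e) → 2 ^ F.card ≤ (V e).card := by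
  classical
  induction F using Finset.induction_on with
  | empty =>
    intro e _ hne _
    rw [Finset.card_empty, pow_zero]
    exact hne.card_pos
  | insert p F hpF ih =>
    intro e he hne hF
    obtain ⟨⟨hp, h4⟩, ⟨m, rfl⟩, hsq⟩ := hF p (Finset.mem_insert_self _ _)
    have hm : 0 < m := by
      rcases Nat.eq_zero_or_pos m with h0 | h0
      · rw [h0, mul_zero] at he; exact absurd he (lt_irrefl 0)
      · exact h0
    have hpm : ¬ p ∣ m := by
      rintro ⟨x, rfl⟩
      exact hsq ⟨x, by ring⟩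
    obtain ⟨ϖ, h⟩ := spl_exists p hp h4
    have hc : (V (p * m)).card = 2 * (V m).card := by
      rw [mul_comm p m]
      exact h.card_one m hpm
    have hne' : (V m).Nonempty := by
      rw [← Finset.card_pos]
      have := hne.card_pos
      omega
    have ihm := ih m hm hne' (by
      intro p' hp'
      obtain ⟨hG, hd, hs⟩ := hF p' (Finset.mem_insert_of_mem hp')
      refine ⟨hG, ?_, fun hd' => hs (hd'.mul_left p)⟩
      have hne : p' ≠ p := fun h => hpF (h ▸ hp')
      rcases (hG.1.dvd_mul).1 hd with h1 | h1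
      · exact absurd ((Nat.prime_dvd_prime_iff_eq hG.1 hp).1 h1) hne
      · exact h1)
    rw [Finset.card_insert_of_notMem hpF, hc, pow_succ]
    omega

theorem not_summable_G : ¬ Summable fun p : {p : ℕ | p.Prime ∧ p % 4 = 1} =>
    (1 : ℝ) / (p : ℕ) := by
  intro h
  refine Pool.Agent.Helper379.Div3.not_summable_inv_primes_mod (q := 4) (a := 1) isUnit_one ?_
  have h1 : Summable ({p : ℕ | p.Prime ∧ p % 4 = 1}.indicator fun p : ℕ => (1 : ℝ) / p) :=
    (summable_subtype_iff_indicator).1 h
  refine h1.congr fun n => ?_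
  have h3 : ((n : ℕ) : ZMod 4) = 1 ↔ n % 4 = 1 := by
    have h4 := ZMod.natCast_eq_natCast_iff' n 1 4
    rw [Nat.cast_one] at h4
    exact h4
  by_cases hn : n.Prime ∧ n % 4 = 1
  · rw [Set.indicator_of_mem (show n ∈ {p : ℕ | p.Prime ∧ p % 4 = 1} from hn),
      if_pos ⟨hn.1, h3.2 hn.2⟩]
  · rw [Set.indicator_of_notMem (show n ∉ {p : ℕ | p.Prime ∧ p % 4 = 1} from hn),
      if_neg fun h5 => hn ⟨h5.1, h3.1 h5.2⟩]

theorem BIG (hEX : S_EX) : S_BIG := by
  classical
  intro K ε hε
  have h1 := hEX {p : ℕ | p.Prime ∧ p % 4 = 1} (fun p hp => hp) not_summable_G K ε hε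
  filter_upwards [h1] with X hX
  refine le_trans ?_ hX
  unfold cnt
  rw [Nat.cast_le, Finset.sum_filter, Finset.sum_filter]
  refine Finset.sum_le_sum fun e he => ?_
  rw [Finset.mem_Icc] at he
  rcases (V e).eq_empty_or_nonempty with h0 | h0
  · have h2 : (V e).card = 0 := by rw [h0, Finset.card_empty]
    split_ifs <;> omega
  · by_cases hK : (V e).card < K
    · rw [if_pos hK, if_pos]
      rintro ⟨F, hF, hF2⟩
      have h2 := two_pow_le_card F e he.1 h0 fun p hp => hF2 p hp
      have h3 : K < 2 ^ K := Nat.lt_two_pow_self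
      rw [hF] at h2
      omega
    · rw [if_neg hK]
      exact Nat.zero_le _

end Pool.Agent.L0h77.BW
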