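import Pool.Agent.L0h77.BW.FullT

/-! MP_6b977f_mp, project BW: every quantum ergodic basis of the unit square has the random wave
limit along a subsequence of full density -/

set_option autoImplicit false
set_option maxHeartbeats 400000
open MeasureTheory Filter Topology Complex
open scoped ContDiff

namespace Pool.Agent.L0h77.BW

open Pool.Agent.L0h56.BQ
open Pool.Agent.N661.BR (MW lin J0 resc IsCutoff IsQuantumErgodic IsRandomWave IsLocalLimit)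
open Pool.Agent.W745.RW (TF Dp)

noncomputable section

/-- the largest coefficient -/
def kap (e : ℕ) (b : GI → ℝ) : ℝ := (((V e).sup fun ν => ‖b ν‖₊ : NNReal) : ℝ)

theorem kap_nn (e : ℕ) (b : GI → ℝ) : 0 ≤ kap e b := NNReal.coe_nonneg _

theorem le_kap (e : ℕ) (b : GI → ℝ) (ν : GI) (h : ν ∈ V e) : |b ν| ≤ kap e b := by
  have h1 := Finset.le_sup (f := fun ν => ‖b ν‖₊) h
  have h2 := NNReal.coe_le_coe.2 h1
  rwa [coe_nnnorm, Real.norm_eq_abs] at h2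

theorem kap_le (e : ℕ) (b : GI → ℝ) (ε : ℝ) (hε : 0 ≤ ε) (h : ∀ ν ∈ V e, |b ν| ≤ ε) :
    kap e b ≤ ε := by
  have h1 : ((V e).sup fun ν => ‖b ν‖₊) ≤ Real.toNNReal ε := by
    refine Finset.sup_le fun ν hν => ?_
    rw [← NNReal.coe_le_coe, Real.coe_toNNReal _ hε]
    simpa using h ν hν
  have := NNReal.coe_le_coe.2 h1
  rwa [Real.coe_toNNReal _ hε] at this

theorem qsm_kap (hQ : S_QSM) (E : ℕ → ℕ) (hE : ∀ n, 0 < E n) (σ : ℝ) (hσ : σ * σ = 1)
    (b : ℕ → GI → ℝ) (u : ℕ → ℂ → ℝ) (hr : ∀ n, Rep σ (E n) (b n) (u n))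
    (Ω : Set ℂ) (hΩ : IsPoly Ω) (hne : Ω.Nonempty) (hn : ∀ n, ∫ z in Ω, u n z ^ 2 = volume.real Ω)
    (hq : IsQuantumErgodic Ω (fun n => lamE (E n)) u) :
    Tendsto (fun n => kap (E n) (b n)) atTop (𝓝 0) := by
  rw [Metric.tendsto_nhds]
  intro ε hε
  refine (hQ E hE σ hσ b u hr Ω hΩ hne hn hq (ε / 2) (by positivity)).mono fun n h => ?_
  rw [Real.dist_eq, sub_zero, abs_of_nonneg (kap_nn _ _)]
  have := kap_le (E n) (b n) (ε / 2) (by positivity) h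
  linarith

/-- the eigenspaces are Dirichlet or Neumann -/
theorem rep_of {F : ℕ → Submodule ℝ (ℂ → ℝ)} (hF : F = DirE ∨ F = NeuE) : ∃ σ : ℝ, σ * σ = 1 ∧
    ∀ e, ∀ u ∈ F e, ∃ b, Rep σ e b u := by
  rcases hF with rfl | rfl
  · exact ⟨-1, by norm_num, fun e u hu => DirE_rep hu⟩
  · exact ⟨1, by norm_num, fun e u hu => NeuE_rep hu⟩

theorem ncard_le_sum {E : ℕ → ℕ} (hE : Tendsto E atTop atTop) (X : ℕ) :
    {n | E n ≤ X}.Finite := by
  obtain ⟨N, hN⟩ := (hE.eventually_gt_atTop X).exists_forall_of_atTop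
  refine (Set.finite_Iio N).subset fun n (hn : E n ≤ X) => ?_
  by_contra h
  have := hN n (not_lt.1 h)
  omega

theorem ncard_sum {E : ℕ → ℕ} (hE : Tendsto E atTop atTop) (X : ℕ) :
    ∑ e ∈ Finset.Icc 1 X, {n | E n = e}.ncard ≤ {n | E n ≤ X}.ncard := by
  classical
  have h1 : ∀ e ∈ Finset.Icc 1 X, {n | E n = e}.ncard =
      ((ncard_le_sum hE X).toFinset.filter fun n => E n = e).card := by
    intro e he
    rw [Finset.mem_Icc] at he
    rw [← Set.ncard_coe_finset]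
    congr 1
    ext n
    simp only [Set.mem_setOf_eq, Finset.coe_filter, Set.Finite.mem_toFinset]
    omega
  rw [Finset.sum_congr rfl h1, Set.ncard_eq_toFinset_card _ (ncard_le_sum hE X)]
  rw [← Finset.card_biUnion]
  · exact Finset.card_le_card (Finset.biUnion_subset.2 fun e _ => Finset.filter_subset _ _)
  · intro e _ e' _ hne
    simp only [Function.onFun]
    rw [Finset.disjoint_left]
    intro n hn hn'
    rw [Finset.mem_filter] at hn hn'
    exact hne (hn.2.symm.trans hn'.2)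

/-- from energies to indices, for a basis -/
theorem basis_den (hDEN : S_DEN) (hCNT : S_CNT) (hFR : S_FR)
    {F : ℕ → Submodule ℝ (ℂ → ℝ)} (hF : F = DirE ∨ F = NeuE) {E : ℕ → ℕ} {u : ℕ → ℂ → ℝ}
    (hB : IsBasis F E u) (P : ℕ → Prop) (ε : ℝ) (hε : 0 < ε)
    (hP : ∀ᶠ X : ℕ in atTop, (cnt P X : ℝ) ≤ ε * X) :
    ∀ᶠ N : ℕ in atTop, ((({n | P (E n)} ∩ Set.Iio N).ncard : ℕ) : ℝ) ≤ 40 * ε * N := by
  have hm : ∀ e, 0 < e → dirM e ≤ {n | E n = e}.ncard ∧ {n | E n = e}.ncard ≤ (V e).card := by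
    intro e he
    rw [hB.full]
    have h1 := hCNT.1 e he
    rcases hF with rfl | rfl
    · rw [(hFR e).1]; exact ⟨le_rfl, h1.1.trans h1.2⟩
    · rw [(hFR e).2]; exact h1
  refine hDEN E hB.mono hB.top (fun e he => (hm e he).2) ?_ P ε hε hP
  refine hCNT.2.mono fun X hX => hX.trans ?_
  refine Nat.mul_le_mul_left 16 (le_trans ?_ (ncard_sum hB.top X))
  exact Finset.sum_le_sum fun e he => (hm e (Finset.mem_Icc.1 he).1).1

theorem basis_null (hDEN : S_DEN) (hCNT : S_CNT) (hFR : S_FR)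
    {F : ℕ → Submodule ℝ (ℂ → ℝ)} (hF : F = DirE ∨ F = NeuE) {E : ℕ → ℕ} {u : ℕ → ℂ → ℝ}
    (hB : IsBasis F E u) (P : ℕ → Prop) (hP : DZ P) : Null {n | P (E n)} := by
  rw [null_iff]
  intro ε hε
  refine (basis_den hDEN hCNT hFR hF hB P (ε / 40) (by positivity) (hP _ (by positivity))).mono
    fun N hN => hN.trans (le_of_eq (by ring))

/-- the exceptional sets of indices -/
def Ba (E : ℕ → ℕ) (k R : ℕ) : Set ℕ := {i | ¬ NoSmall k R (E i)}

/-- the exceptional sets of indices -/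
def Bb (n E : ℕ → ℕ) (κ : ℕ → ℝ) (β l : ℕ) : Set ℕ :=
  {k | k ∈ Set.range n ∧ 1 / ((l : ℝ) + 1) < κ k * (rc β (E k) : ℝ)}

/-- the exceptional sets of indices -/
def B0 (n E : ℕ → ℕ) : Set ℕ := {k | E k = 0} ∪ (Set.range n)ᶜ

/-- all exceptional sets of indices -/
def BB (n E : ℕ → ℕ) (κ : ℕ → ℝ) (j : ℕ) : Set ℕ :=
  if j = 0 then B0 n E else if (Nat.unpair (j - 1)).1 = 0 then
    Ba E (Nat.unpair (Nat.unpair (j - 1)).2).1 (Nat.unpair (Nat.unpair (j - 1)).2).2 else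
    Bb n E κ (Nat.unpair (Nat.unpair (j - 1)).2).1 (Nat.unpair (Nat.unpair (j - 1)).2).2

theorem BB_zero (n E : ℕ → ℕ) (κ : ℕ → ℝ) : BB n E κ 0 = B0 n E := by
  unfold BB
  rw [if_pos rfl]

theorem BB_a (n E : ℕ → ℕ) (κ : ℕ → ℝ) (k R : ℕ) :
    BB n E κ (Nat.pair 0 (Nat.pair k R) + 1) = Ba E k R := by
  unfold BB
  rw [if_neg (Nat.succ_ne_zero _), Nat.add_sub_cancel, Nat.unpair_pair, if_pos rfl,
    Nat.unpair_pair]

theorem BB_b (n E : ℕ → ℕ) (κ : ℕ → ℝ) (β l : ℕ) :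
    BB n E κ (Nat.pair 1 (Nat.pair β l) + 1) = Bb n E κ β l := by
  unfold BB
  rw [if_neg (Nat.succ_ne_zero _), Nat.add_sub_cancel, Nat.unpair_pair, if_neg one_ne_zero,
    Nat.unpair_pair]

theorem BB_null (n E : ℕ → ℕ) (κ : ℕ → ℝ) (h0 : Null (B0 n E)) (ha : ∀ k R, Null (Ba E k R))
    (hb : ∀ β l, Null (Bb n E κ β l)) (j : ℕ) : Null (BB n E κ j) := by
  unfold BB
  split_ifs
  · exact h0
  · exact ha _ _
  · exact hb _ _

theorem Bb_null (hDEN : S_DEN) (hCNT : S_CNT) (hFR : S_FR) (hNC : S_NC)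
    {F : ℕ → Submodule ℝ (ℂ → ℝ)} (hF : F = DirE ∨ F = NeuE) {E : ℕ → ℕ} {u : ℕ → ℂ → ℝ}
    (hB : IsBasis F E u) (n : ℕ → ℕ) (κ : ℕ → ℝ) (hκ : ∀ k, 0 ≤ κ k)
    (hlim : Tendsto (fun i => κ (n i)) atTop (𝓝 0)) (β l : ℕ) : Null (Bb n E κ β l) := by
  rw [null_iff]
  intro ε hε
  obtain ⟨M, hM⟩ := hNC β (ε / 80) (by positivity)
  have h1 := basis_den hDEN hCNT hFR hF hB (fun e => M < rc β e) (ε / 80) (by positivity) hM
  have hl : (0:ℝ) < 1 / ((l:ℝ) + 1) / (M + 1) := by positivity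
  obtain ⟨J, hJ⟩ := (hlim.eventually (gt_mem_nhds hl)).exists_forall_of_atTop
  have h2 : Null (n '' Set.Iio J) := null_finite ((Set.finite_Iio J).image n)
  rw [null_iff] at h2
  filter_upwards [h1, h2 (ε / 2) (by positivity)] with N h3 h4
  have hsub : Bb n E κ β l ⊆ {k | M < rc β (E k)} ∪ (n '' Set.Iio J) := by
    rintro k ⟨⟨i, rfl⟩, hk⟩
    by_cases hi : i < J
    · exact Or.inr ⟨i, hi, rfl⟩
    · left
      by_contra hM'
      have h5 : rc β (E (n i)) ≤ M := not_lt.1 hM'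
      have h6 := hJ i (not_lt.1 hi)
      have h5' : (rc β (E (n i)) : ℝ) ≤ (M : ℝ) + 1 := by exact_mod_cast h5.trans (Nat.le_succ M)
      have h7 : κ (n i) * (rc β (E (n i)) : ℝ) ≤ 1 / ((l:ℝ) + 1) := by
        calc κ (n i) * (rc β (E (n i)) : ℝ) ≤ 1 / ((l:ℝ) + 1) / (M + 1) * (M + 1) :=
              mul_le_mul h6.le h5' (Nat.cast_nonneg _) (by positivity)
          _ = 1 / ((l:ℝ) + 1) := by field_simp
      exact absurd hk (not_lt.2 h7)
  have h5 : (Bb n E κ β l ∩ Set.Iio N).ncard ≤ ({k | M < rc β (E k)} ∩ Set.Iio N).ncard +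
        ((n '' Set.Iio J) ∩ Set.Iio N).ncard := by
    refine (Set.ncard_le_ncard (Set.inter_subset_inter_left _ hsub) (fin_inter _ N)).trans ?_
    rw [Set.union_inter_distrib_right]
    exact Set.ncard_union_le _ _
  have h6 : ((Bb n E κ β l ∩ Set.Iio N).ncard : ℝ) ≤
      ({k | M < rc β (E k)} ∩ Set.Iio N).ncard + ((n '' Set.Iio J) ∩ Set.Iio N).ncard := by
    exact_mod_cast h5
  linarith

theorem good_sub {n m E : ℕ → ℕ} {κ : ℕ → ℝ} (hE : Tendsto E atTop atTop)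
    (hκ : ∀ k, 0 ≤ κ k) (hlim : Tendsto (fun i => κ (n i)) atTop (𝓝 0))
    (hm : StrictMono m) (hmr : ∀ i, m i ∈ Set.range n) (hmE : ∀ i, 0 < E (m i))
    {j : ℕ → ℕ} (hj : StrictMono j) (hmj : ∀ i, m i = n (j i))
    (ha : ∀ k R, ∀ᶠ i in atTop, m i ∉ Ba E k R) (hb : ∀ β l, ∀ᶠ i in atTop, m i ∉ Bb n E κ β l) :
    Good (fun i => E (m i)) (fun i => κ (m i)) := by
  refine ⟨hmE, hE.comp hm.tendsto_atTop, ?_, fun i => hκ _, ?_, ?_⟩
  · refine (hlim.comp hj.tendsto_atTop).congr fun i => ?_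
    rw [Function.comp_apply, hmj]
  · intro k R
    refine (ha k R).mono fun i hi => ?_
    by_contra h
    exact hi h
  · intro β
    rw [Metric.tendsto_nhds]
    intro ε hε
    obtain ⟨l, hl⟩ := exists_nat_gt (1 / ε)
    refine (hb β l).mono fun i hi => ?_
    rw [Real.dist_eq, sub_zero, abs_of_nonneg (mul_nonneg (hκ _) (Nat.cast_nonneg _))]
    by_contra h
    apply hi
    refine ⟨hmr i, lt_of_lt_of_le ?_ (not_lt.1 h)⟩
    rw [div_lt_iff₀ (by positivity)]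
    rw [div_lt_iff₀ hε] at hl
    nlinarith

theorem full_core (hQSM : S_QSM) (hNB : S_NB) (hNC : S_NC) (hDEN : S_DEN)
    (hDIAG : S_DIAG) (hCNT : S_CNT) (hFR : S_FR) (F : ℕ → Submodule ℝ (ℂ → ℝ))
    (hF : F = DirE ∨ F = NeuE) (E : ℕ → ℕ) (u : ℕ → ℂ → ℝ) (hB : IsBasis F E u) (n : ℕ → ℕ)
    (hn : FullDensity n)
    (hq : IsQuantumErgodic Sq (fun i => lamE (E (n i))) (fun i => u (n i))) :
    ∃ m : ℕ → ℕ, FullDensity m ∧ Set.range m ⊆ Set.range n ∧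
      IsQuantumErgodic Sq (fun i => lamE (E (m i))) (fun i => u (m i)) ∧
      (∀ i, ∫ z in Sq, u (m i) z ^ 2 = volume.real Sq) ∧
      ∃ (σ : ℝ) (b : ℕ → GI → ℝ) (κ : ℕ → ℝ), σ * σ = 1 ∧
        (∀ i, Rep σ (E (m i)) (b i) (u (m i))) ∧ Good (fun i => E (m i)) κ ∧
        ∀ i, ∀ ν ∈ V (E (m i)), |b i ν| ≤ κ i := by
  obtain ⟨σ, hσ, hrep⟩ := rep_of hF
  choose b hb using fun k => hrep (E k) (u k) (hB.mem k)
  have hnorm : ∀ k, ∫ z in Sq, u k z ^ 2 = volume.real Sq := by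
    intro k
    have h1 := hB.orth k k
    rw [if_pos rfl] at h1
    rw [Sq_vol, ← h1]
    exact integral_congr_ae (Eventually.of_forall fun z => pow_two _)
  obtain ⟨κ, hκ⟩ : ∃ κ : ℕ → ℝ, ∀ k, κ k = kap (E k) (b k) := ⟨_, fun k => rfl⟩
  have hκ0 : ∀ k, 0 ≤ κ k := fun k => by rw [hκ]; exact kap_nn _ _
  -- the coefficients tend to zero along `n`
  have hlim : Tendsto (fun i => κ (n i)) atTop (𝓝 0) := by
    have hEn : Tendsto (fun i => E (n i)) atTop atTop := hB.top.comp hn.1.tendsto_atTop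
    obtain ⟨j0, hj0⟩ := (hEn.eventually_gt_atTop 0).exists_forall_of_atTop
    have h1 := qsm_kap hQSM (fun i => E (n (i + j0))) (fun i => hj0 _ (Nat.le_add_left _ _)) σ hσ
      (fun i => b (n (i + j0))) (fun i => u (n (i + j0))) (fun i => hb _) Sq Sq_poly Sq_ne
      (fun i => hnorm _) (qe_sub hq (tendsto_add_atTop_nat j0))
    have h2 : Tendsto (fun i => κ (n (i + j0))) atTop (𝓝 0) :=
      h1.congr fun i => (hκ _).symm
    exact (tendsto_add_atTop_iff_nat (f := fun i => κ (n i)) j0).1 h2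
  have hB0 : Null (B0 n E) := by
    unfold B0
    refine null_union (null_finite ?_) (full_null hn)
    exact (ncard_le_sum hB.top 0).subset fun k hk => le_of_eq hk
  have hBa : ∀ k R, Null (Ba E k R) := fun k R =>
    basis_null hDEN hCNT hFR hF hB (fun e => ¬ NoSmall k R e) (hNB k R)
  have hNull := BB_null n E κ hB0 hBa (Bb_null hDEN hCNT hFR hNC hF hB n κ hκ0 hlim)
  obtain ⟨m, hm, hm0, hmB⟩ := hDIAG (BB n E κ) hNull
  have hm0' : ∀ i, m i ∉ B0 n E := fun i => by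
    have := hm0 i
    rwa [BB_zero] at this
  have hmr : ∀ i, m i ∈ Set.range n := by
    intro i
    by_contra h
    exact hm0' i (Or.inr h)
  have hmE : ∀ i, 0 < E (m i) := by
    intro i
    by_contra h
    exact hm0' i (Or.inl (Nat.eq_zero_of_not_pos h))
  obtain ⟨j, hj, hmj⟩ := choose_sub hn.1 hm.1 hmr
  have hG : Good (fun i => E (m i)) (fun i => κ (m i)) := by
    refine good_sub hB.top hκ0 hlim hm.1 hmr hmE hj hmj (fun k R => ?_) fun β l => ?_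
    · have := hmB (Nat.pair 0 (Nat.pair k R) + 1)
      rwa [BB_a] at this
    · have := hmB (Nat.pair 1 (Nat.pair β l) + 1)
      rwa [BB_b] at this
  have hqm : IsQuantumErgodic Sq (fun i => lamE (E (m i))) (fun i => u (m i)) := by
    have h1 := qe_sub hq hj.tendsto_atTop
    simp only [← hmj] at h1
    exact h1
  exact ⟨m, hm, fun x ⟨i, hi⟩ => hi ▸ hmr i, hqm, fun i => hnorm _, σ, fun i => b (m i),
    fun i => κ (m i), hσ, fun i => hb _, hG, fun i ν hν => by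
      show |b (m i) ν| ≤ κ (m i)
      rw [hκ]; exact le_kap _ _ ν hν⟩

theorem full (hPOLY : S_POLY) (hQSM : S_QSM) (hNB : S_NB) (hNC : S_NC) (hDEN : S_DEN)
    (hDIAG : S_DIAG) (hCNT : S_CNT) (hFR : S_FR) : S_FULL := by
  intro F hF E u hB n hn hq
  obtain ⟨m, hm, hmr, hqm, hnorm, σ, b, κ, hσ, hb, hG, hκ⟩ :=
    full_core hQSM hNB hNC hDEN hDIAG hCNT hFR F hF E u hB n hn hq
  refine ⟨m, hm, hmr, fun χ hχ => ?_⟩
  have key : ∀ Ω' : Set ℂ, IsOpen Ω' → Ω'.Nonempty → Ω' ⊆ Sq →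
      ∀ (K : ℕ) (w : Fin K → ℂ) (t : Fin K → ℝ),
      Tendsto (fun i => (1 / volume.real Ω' : ℝ) * ∫ z in Ω',
        Complex.exp (I * ((∑ j, t j * resc χ Sq (lamE (E (m i))) (u (m i)) z (w j) : ℝ) : ℂ)))
        atTop (𝓝 (Complex.exp ((-(∑ i, ∑ j, t i * t j * J0 ‖w i - w j‖) / 2 : ℝ)))) := by
    intro Ω' h1 h2 h3 K w t
    exact hPOLY _ _ hG σ hσ b (fun i => u (m i)) hb hκ Sq Sq_poly Sq_ne hnorm hqm
      Ω' h1 h2 h3 χ hχ K w t
  refine ⟨key, fun μ hμ => ?_⟩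
  exact limit_iff χ Sq _ _ (fun K w t => key Sq Sq_poly.op Sq_ne subset_rfl K w t) μ

end

end Pool.Agent.L0h77.BW
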