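import Pool.Agent.L0h77.BW.Stm2
import Pool.Agent.L0h77.BW.FullA

/-! BW, module FEW (helper6): a bounded number of indices in each eigenspace is negligible -/

set_option autoImplicit false
open MeasureTheory Filter Topology Complex
open scoped ContDiff

namespace Pool.Agent.L0h77.BW

open Pool.Agent.L0h56.BQ

theorem W'_dirM (e : ℕ) : (W' e).card ≤ 4 * dirM e := by
  classical
  let f : GI → ℕ × ℕ := fun ν => (ν.re.natAbs, ν.im.natAbs)
  have h1 : (W' e).card ≤ 4 * ((W' e).image f).card := by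
    refine Finset.card_le_mul_card_image (W' e) 4 fun a _ => ?_
    have hsub : (W' e).filter (fun x => f x = a) ⊆
        {(⟨a.1, a.2⟩ : GI), ⟨a.1, -a.2⟩, ⟨-a.1, a.2⟩, ⟨-a.1, -a.2⟩} := by
      intro ν hν
      rw [Finset.mem_filter] at hν
      have h2 : ν.re.natAbs = a.1 := congrArg Prod.fst hν.2
      have h3 : ν.im.natAbs = a.2 := congrArg Prod.snd hν.2
      simp only [Finset.mem_insert, Finset.mem_singleton, Zsqrtd.ext_iff]
      omega
    exact (Finset.card_le_card hsub).trans Finset.card_le_four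
  refine h1.trans (Nat.mul_le_mul_left 4 ?_)
  unfold dirM
  refine Finset.card_le_card ?_
  intro p hp
  rw [Finset.mem_image] at hp
  obtain ⟨ν, hν, rfl⟩ := hp
  unfold W' at hν
  rw [Finset.mem_filter, mem_V] at hν
  obtain ⟨h2, h3, h4⟩ := hν
  have h5 : ν.re.natAbs ^ 2 + ν.im.natAbs ^ 2 = e := by
    have : ν.re * ν.re + ν.im * ν.im = (e : ℤ) := by
      rw [← h2, Zsqrtd.norm_def]
      ring
    zify
    rw [sq_abs, sq_abs]
    linarith [this, pow_two ν.re, pow_two ν.im]
  rw [Finset.mem_filter, Finset.mem_product, Finset.mem_range, Finset.mem_range]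
  refine ⟨⟨?_, ?_⟩, Int.natAbs_pos.2 h3, Int.natAbs_pos.2 h4, h5⟩
  · show ν.re.natAbs < e + 1
    nlinarith [Nat.zero_le (ν.re.natAbs), Nat.zero_le (ν.im.natAbs), h5]
  · show ν.im.natAbs < e + 1
    nlinarith [Nat.zero_le (ν.re.natAbs), Nat.zero_le (ν.im.natAbs), h5]

open Classical in
theorem FEW (hBIG : S_BIG) (hDEN : S_DEN) (hCNT : S_CNT) (hFR : S_FR) (hDV : S_DV) : S_FEW := by
  intro E u hB C B hC
  rw [null_iff]
  intro ε hε
  obtain ⟨K, hK⟩ := exists_nat_gt (8 * 17 * 2 * (C : ℝ) / ε)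
  have hK0 : (0 : ℝ) < K := lt_of_le_of_lt (by positivity) hK
  have hK' : 8 * 17 * 2 * (C : ℝ) ≤ ε * K := by
    rw [div_lt_iff₀ hε] at hK
    linarith
  have hT : ∀ e, {n | E n = e}.ncard = dirM e := fun e => by rw [hB.full, (hFR e).1]
  have hfin := ncard_le_sum hB.top
  have h1 := basis_null hDEN hCNT hFR (Or.inl rfl) hB (fun e => (V e).card < 4 * K + 5)
    (hBIG (4 * K + 5))
  rw [null_iff] at h1
  have h2 := hB.top.eventually ((tendsto_sub_atTop_nat 1).eventually hCNT.2)
  have h3 := hB.top.eventually_ge_atTop 1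
  filter_upwards [h1 (ε / 2) (by positivity), h2, h3, eventually_ge_atTop 1] with N k1 k2 k3 k4
  -- the bound for the energy
  have k6 : {n | E n ≤ E N - 1}.ncard ≤ N := by
    have h6 : {n | E n ≤ E N - 1} ⊆ (Finset.range N : Set ℕ) := by
      intro n hn
      rw [Finset.coe_range, Set.mem_Iio]
      by_contra h
      push Not at h
      have h8 := hB.mono h
      have h9 : E n ≤ E N - 1 := hn
      omega
    have h7 := Set.ncard_le_ncard h6 (Finset.finite_toSet _)
    rwa [Set.ncard_coe_finset, Finset.card_range] at h7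
  have k7 : E N ≤ 16 * N + 1 := by
    have h8 : ∑ e ∈ Finset.Icc 1 (E N - 1), dirM e ≤ {n | E n ≤ E N - 1}.ncard := by
      rw [← Finset.sum_congr rfl fun e _ => hT e]
      exact ncard_sum hB.top (E N - 1)
    omega
  -- the indices with large multiplicity
  have k8 : B ∩ Set.Iio N ⊆ ({n | (V (E n)).card < 4 * K + 5} ∩ Set.Iio N) ∪
      ⋃ e ∈ (Finset.Icc 1 (E N)).filter (fun e => K ≤ dirM e), (B ∩ {n | E n = e}) := by
    rintro n ⟨hn1, hn2⟩
    by_cases hP : (V (E n)).card < 4 * K + 5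
    · exact Or.inl ⟨hP, hn2⟩
    · right
      have h4 := W'_card (E n)
      have h5 := W'_dirM (E n)
      have h6 : 0 < dirM (E n) := by omega
      have h7 : E n ≠ 0 := by
        intro h0
        rw [h0] at h6
        unfold dirM at h6
        rw [Finset.card_pos] at h6
        obtain ⟨p, hp⟩ := h6
        rw [Finset.mem_filter] at hp
        have := hp.2.1
        have h9 := hp.2.2.2
        have h10 : p.1 = 0 := by
          by_contra h11
          have : 0 < p.1 ^ 2 := by positivity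
          omega
        omega
      simp only [Set.mem_iUnion]
      refine ⟨E n, Finset.mem_filter.2 ⟨Finset.mem_Icc.2 ⟨Nat.pos_of_ne_zero h7,
        hB.mono (le_of_lt hn2)⟩, by omega⟩, hn1, rfl⟩
  have hf1 : (⋃ e ∈ (Finset.Icc 1 (E N)).filter (fun e => K ≤ dirM e),
      (B ∩ {n | E n = e})).Finite := by
    refine (hfin (E N)).subset fun n hn => ?_
    simp only [Set.mem_iUnion] at hn
    obtain ⟨e, he, hne⟩ := hn
    rw [Finset.mem_filter, Finset.mem_Icc] at he
    have h : E n = e := hne.2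
    show E n ≤ E N
    omega
  have k9 := Set.ncard_le_ncard k8 ((fin_inter _ N).union hf1)
  have k10 := Set.ncard_union_le ({n | (V (E n)).card < 4 * K + 5} ∩ Set.Iio N)
    (⋃ e ∈ (Finset.Icc 1 (E N)).filter (fun e => K ≤ dirM e), (B ∩ {n | E n = e}))
  have k11 := Finset.set_ncard_biUnion_le ((Finset.Icc 1 (E N)).filter fun e => K ≤ dirM e)
    fun e => B ∩ {n | E n = e}
  have k12 : ∑ e ∈ (Finset.Icc 1 (E N)).filter (fun e => K ≤ dirM e), (B ∩ {n | E n = e}).ncard ≤
      ((Finset.Icc 1 (E N)).filter (fun e => K ≤ dirM e)).card * C := by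
    refine (Finset.sum_le_card_nsmul _ _ C fun e _ => hC e).trans (le_of_eq ?_)
    rw [smul_eq_mul]
  have k13 : ((Finset.Icc 1 (E N)).filter (fun e => K ≤ dirM e)).card * K ≤
      cnt (fun e => 1 ∣ e) (E N) := by
    have h4 : ((Finset.Icc 1 (E N)).filter (fun e => K ≤ dirM e)).card * K ≤
        ∑ e ∈ (Finset.Icc 1 (E N)).filter (fun e => K ≤ dirM e), dirM e := by
      have := Finset.card_nsmul_le_sum ((Finset.Icc 1 (E N)).filter (fun e => K ≤ dirM e))
        dirM K fun e he => (Finset.mem_filter.1 he).2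
      rwa [smul_eq_mul] at this
    refine h4.trans ?_
    unfold cnt
    refine (Finset.sum_le_sum fun e he => ?_).trans (Finset.sum_le_sum_of_subset ?_)
    rotate_left
    · intro e he
      rw [Finset.mem_filter] at he
      exact (@Finset.mem_filter ℕ (fun e => 1 ∣ e) (fun a => Classical.propDecidable _) _ _).2
        ⟨he.1, one_dvd _⟩
    have h6 := (Finset.mem_Icc.1 (Finset.mem_filter.1 he).1).1
    exact (hCNT.1 e h6).1.trans (hCNT.1 e h6).2
  have k14 := hDV 1 (E N) one_pos
  set A : ℕ := ((Finset.Icc 1 (E N)).filter (fun e => K ≤ dirM e)).card with hA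
  have k15 : (A : ℝ) * K ≤ 8 * (17 * N) := by
    have h4 : ((A * K : ℕ) : ℝ) ≤ (cnt (fun e => 1 ∣ e) (E N) : ℝ) := by exact_mod_cast k13
    have h5 : (E N : ℝ) ≤ 17 * N := by
      have : E N ≤ 17 * N := by omega
      exact_mod_cast this
    rw [Nat.divisors_one, Finset.card_singleton] at k14
    push_cast at h4 k14
    linarith
  have k16 : ((B ∩ Set.Iio N).ncard : ℝ) ≤
      ((({n | (V (E n)).card < 4 * K + 5} ∩ Set.Iio N).ncard : ℕ) : ℝ) + A * C := by
    exact_mod_cast k9.trans (k10.trans (Nat.add_le_add_left (k11.trans k12) _))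
  have k17 : (A : ℝ) * C ≤ ε / 2 * N := by
    have hC0 : (0 : ℝ) ≤ C := Nat.cast_nonneg _
    have h4 : (A : ℝ) * C * K ≤ ε / 2 * N * K := by
      have h5 : (A : ℝ) * K * C ≤ 8 * (17 * N) * C := mul_le_mul_of_nonneg_right k15 hC0
      have h6 : (N : ℝ) * (8 * 17 * 2 * (C : ℝ)) ≤ N * (ε * K) :=
        mul_le_mul_of_nonneg_left hK' (Nat.cast_nonneg _)
      nlinarith
    exact le_of_mul_le_mul_right h4 hK0
  linarith

end Pool.Agent.L0h77.BW
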