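import Pool.Agent.L0h77.BW.Stm2

/-! BW: the module MEAN -/

set_option autoImplicit false
open MeasureTheory Filter Topology Complex

namespace Pool.Agent.L0h77.BW

open Pool.Agent.L0h56.BQ

theorem mean_cnt_le {P Q R : ℕ → Prop} (h : ∀ e, 0 < e → P e → Q e ∨ R e) (X : ℕ) :
    cnt P X ≤ cnt Q X + cnt R X := by
  classical
  unfold cnt
  have h1 : (Finset.Icc 1 X).filter P ⊆
      (Finset.Icc 1 X).filter Q ∪ (Finset.Icc 1 X).filter R := by
    intro e he
    rw [Finset.mem_filter] at he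
    rw [Finset.mem_union, Finset.mem_filter, Finset.mem_filter]
    rcases h e (Finset.mem_Icc.1 he.1).1 he.2 with h2 | h2
    · exact Or.inl ⟨he.1, h2⟩
    · exact Or.inr ⟨he.1, h2⟩
  have h2 := Finset.sum_le_sum_of_subset (f := fun e => (V e).card) h1
  refine h2.trans ?_
  have h3 := Finset.sum_union_inter (s₁ := (Finset.Icc 1 X).filter Q)
    (s₂ := (Finset.Icc 1 X).filter R) (f := fun e => (V e).card)
  omega

theorem mean_dz {P Q R : ℕ → Prop} (h : ∀ e, 0 < e → P e → Q e ∨ R e) (hQ : DZ Q) (hR : DZ R) :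
    DZ P := by
  intro ε hε
  filter_upwards [hQ (ε / 2) (by positivity), hR (ε / 2) (by positivity)] with X h1 h2
  have h3 : (cnt P X : ℝ) ≤ cnt Q X + cnt R X := by exact_mod_cast mean_cnt_le h X
  linarith

/-- multiplication by `i` -/
theorem mean_I_mem {e : ℕ} {ν : GI} (h : ν ∈ V e) : (⟨0, 1⟩ : GI) * ν ∈ V e := by
  rw [mem_V] at *
  rw [Zsqrtd.norm_mul, h]
  simp [Zsqrtd.norm_def]

theorem mean_uE_I (e : ℕ) (ν : GI) : uE e ((⟨0, 1⟩ : GI) * ν) = I * uE e ν := by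
  unfold uE
  rw [map_mul]
  have : GaussianInt.toComplex (⟨0, 1⟩ : GI) = I := by
    rw [GaussianInt.toComplex_def]
    simp
  rw [this, mul_div_assoc]

theorem mean_odd (e q : ℕ) (hq : q % 2 = 1) : ∑ ν ∈ V e, uE e ν ^ (2 * q) = 0 := by
  have h1 : ∑ ν ∈ V e, uE e ν ^ (2 * q) =
      ∑ ν ∈ V e, uE e ((⟨0, 1⟩ : GI) * ν) ^ (2 * q) := by
    symm
    refine Finset.sum_bij' (fun ν _ => (⟨0, 1⟩ : GI) * ν) (fun ν _ => (⟨0, -1⟩ : GI) * ν)
      (fun ν h => mean_I_mem h) ?_ ?_ ?_ (fun ν _ => rfl)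
    · intro ν h
      have h2 : (⟨0, -1⟩ : GI) * ν = -((⟨0, 1⟩ : GI) * ν) := by
        ext <;> simp
      rw [h2]
      exact neg_mem_V (mean_I_mem h)
    · intro ν _
      ext <;> simp
    · intro ν _
      ext <;> simp
  have h2 : ∑ ν ∈ V e, uE e ((⟨0, 1⟩ : GI) * ν) ^ (2 * q) = -∑ ν ∈ V e, uE e ν ^ (2 * q) := by
    rw [← Finset.sum_neg_distrib]
    refine Finset.sum_congr rfl fun ν _ => ?_
    have h3 : (I : ℂ) ^ (2 * q) = -1 := by
      rw [pow_mul, I_sq]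
      exact Odd.neg_one_pow (Nat.odd_iff.2 hq)
    rw [mean_uE_I, mul_pow, h3]
    ring
  have h3 := h1.trans h2
  linear_combination h3 / 2

theorem mean_split (e q : ℕ) (he : 0 < e) :
    |∑ ν ∈ W' e, ((uE e ν) ^ (2 * q)).re| ≤ ‖∑ ν ∈ V e, uE e ν ^ (2 * q)‖ + 4 := by
  classical
  have h1 : ∑ ν ∈ W' e, ((uE e ν) ^ (2 * q)).re =
      (∑ ν ∈ V e, uE e ν ^ (2 * q)).re -
        ∑ ν ∈ (V e).filter (fun ν => ¬ (ν.re ≠ 0 ∧ ν.im ≠ 0)), ((uE e ν) ^ (2 * q)).re := by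
    rw [Complex.re_sum]
    have := Finset.sum_filter_add_sum_filter_not (V e) (fun ν : GI => ν.re ≠ 0 ∧ ν.im ≠ 0)
      (fun ν => ((uE e ν) ^ (2 * q)).re)
    unfold W'
    linarith
  rw [h1]
  refine (abs_sub _ _).trans ?_
  refine add_le_add (Complex.abs_re_le_norm _) ?_
  refine (Finset.abs_sum_le_sum_abs _ _).trans ?_
  have h2 : ∀ ν ∈ (V e).filter (fun ν => ¬ (ν.re ≠ 0 ∧ ν.im ≠ 0)),
      |((uE e ν) ^ (2 * q)).re| ≤ 1 := by
    intro ν hν
    refine (Complex.abs_re_le_norm _).trans ?_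
    rw [norm_pow, uE_norm e he ν (Finset.mem_filter.1 hν).1, one_pow]
  refine (Finset.sum_le_card_nsmul _ _ _ h2).trans ?_
  have h3 := axis_card e
  rw [nsmul_eq_mul, mul_one]
  exact_mod_cast h3

theorem MEAN (hBIG : S_BIG) (hNE : S_NE) : S_MEAN := by
  intro q hq δ hδ
  obtain ⟨K, hK⟩ := exists_nat_gt (8 / δ + 8)
  have hS : DZ fun e => δ / 2 * (V e).card < ‖∑ ν ∈ V e, uE e ν ^ (2 * q)‖ := by
    rcases Nat.even_or_odd' q with ⟨r, hr | hr⟩
    · have h1 := hNE r (by omega) (δ / 2) (by positivity)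
      have h2 : 2 * q = 4 * r := by omega
      rw [h2]
      exact h1
    · have h1 : ∀ e, ∑ ν ∈ V e, uE e ν ^ (2 * q) = 0 := fun e => mean_odd e q (by omega)
      intro ε hε
      filter_upwards with X
      have h2 : cnt (fun e => δ / 2 * (V e).card < ‖∑ ν ∈ V e, uE e ν ^ (2 * q)‖) X = 0 := by
        unfold cnt
        rw [Finset.filter_false_of_mem, Finset.sum_empty]
        intro e _
        rw [h1 e, norm_zero, not_lt]
        positivity
      rw [h2, Nat.cast_zero]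
      positivity
  refine mean_dz ?_ (hBIG K) hS
  intro e he h
  by_contra hcon
  push Not at hcon
  obtain ⟨h1, h2⟩ := hcon
  have h3 : (K : ℝ) ≤ (V e).card := by exact_mod_cast h1
  have h4 : 8 + 8 * δ < δ * (V e).card := by
    have h5 : 8 / δ + 8 < (V e).card := hK.trans_le h3
    have h6 := mul_lt_mul_of_pos_left h5 hδ
    have h7 : δ * (8 / δ + 8) = 8 + 8 * δ := by field_simp
    linarith
  have h5 : ((V e).card : ℝ) ≤ (W' e).card + 4 := by exact_mod_cast W'_card e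
  have h6 := mean_split e q he
  have h7 : 0 < ((W' e).card : ℝ) := by
    have h8 : 0 < δ * ((W' e).card : ℝ) := by nlinarith
    exact pos_of_mul_pos_right h8 hδ.le
  have h8 : δ * (W' e).card < |∑ ν ∈ W' e, ((uE e ν) ^ (2 * q)).re| := by
    unfold avg at h
    rw [abs_div, abs_of_pos h7, lt_div_iff₀ h7] at h
    exact h
  have h9 : δ * (V e).card ≤ δ * ((W' e).card + 4) := mul_le_mul_of_nonneg_left h5 hδ.le
  linarith

end Pool.Agent.L0h77.BW
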