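import Pool.Agent.L0h77.BW.Main
import Pool.Agent.L0h77.BW.T_EXI
import Pool.Agent.L0h77.BW.T_BIG
import Pool.Agent.L0h77.BW.T_FEW
import Pool.Agent.L0h77.BW.T_MEAN
import Pool.Agent.L0h56.BW.T_CON

/-! MP_6b977f_mp, project BW: existence, unconditional -/

set_option autoImplicit false

namespace Pool.Agent.L0h77.BW

theorem big : S_BIG := BIG EX

theorem exi : S_EXI := EXI CON (MEAN big ne) (FEW big DEN CNT FR DV) nb qeg DEN DIAG CNT FR

end Pool.Agent.L0h77.BW
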