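import Pool.Agent.L0h77.BW.Defs

/-! MP_6b977f_mp, project BW: quantum ergodic bases of the unit square -/

set_option autoImplicit false
open MeasureTheory Filter Topology Complex
open scoped ContDiff

namespace Pool.Agent.L0h77.BW

open Pool.Agent.L0h56.BQ
open Pool.Agent.N661.BR (MW lin J0 resc IsCutoff IsQuantumErgodic IsRandomWave IsLocalLimit)
open Pool.Agent.W745.RW (TF Dp)

noncomputable section

theorem Sq_eq : Sq = (Set.Ioo (0:ℝ) 1) ×ℂ (Set.Ioo (0:ℝ) 1) := by
  unfold Sq Q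
  norm_num

theorem Sq_poly : IsPoly Sq where
  op := Q_open 0 0
  bd := by
    rw [Sq_eq]
    exact (Metric.isBounded_Ioo 0 1).reProdIm (Metric.isBounded_Ioo 0 1)
  fr := by
    intro z hz
    rw [Sq_eq] at hz
    rw [Complex.frontier_reProdIm] at hz
    rcases hz with h | h
    · have h2 := h.2
      rw [frontier_Ioo (by norm_num)] at h2
      rcases h2 with h2 | h2
      · exact Or.inr ⟨0, by simpa using h2⟩
      · exact Or.inr ⟨1, by simpa using h2⟩
    · have h2 := h.1
      rw [frontier_Ioo (by norm_num)] at h2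
      rcases h2 with h2 | h2
      · exact Or.inl ⟨0, by simpa using h2⟩
      · exact Or.inl ⟨1, by simpa using h2⟩

theorem Sq_ne : Sq.Nonempty := by
  rw [Sq_eq]
  exact ⟨⟨1/2, 1/2⟩, ⟨by norm_num, by norm_num⟩, ⟨by norm_num, by norm_num⟩⟩

theorem Sq_vol : volume.real Sq = 1 := by
  rw [Sq_eq]
  have h1 : (Set.Ioo (0:ℝ) 1 ×ℂ Set.Ioo (0:ℝ) 1) =
      Complex.measurableEquivRealProd ⁻¹' (Set.Ioo (0:ℝ) 1 ×ˢ Set.Ioo (0:ℝ) 1) := by
    ext z
    simp [Complex.mem_reProdIm, Complex.measurableEquivRealProd_apply]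
  rw [measureReal_def, h1, Complex.volume_preserving_equiv_real_prod.measure_preimage
    ((measurableSet_Ioo.prod measurableSet_Ioo).nullMeasurableSet),
    Measure.volume_eq_prod, Measure.prod_prod, Real.volume_Ioo]
  norm_num

theorem null_iff (B : Set ℕ) : Null B ↔ ∀ ε : ℝ, 0 < ε → ∀ᶠ N : ℕ in atTop,
    ((B ∩ Set.Iio N).ncard : ℝ) ≤ ε * N := by
  unfold Null
  rw [Metric.tendsto_nhds]
  have hd : ∀ N : ℕ, dist (((B ∩ Set.Iio N).ncard : ℝ) / N) 0 = ((B ∩ Set.Iio N).ncard : ℝ) / N := by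
    intro N
    rw [Real.dist_eq, sub_zero, abs_of_nonneg (by positivity)]
  constructor
  · intro h ε hε
    filter_upwards [h ε hε, eventually_gt_atTop 0] with N hN hN0
    rw [hd, div_lt_iff₀ (by exact_mod_cast hN0)] at hN
    exact hN.le
  · intro h ε hε
    filter_upwards [h (ε / 2) (by positivity), eventually_gt_atTop 0] with N hN hN0
    rw [hd, div_lt_iff₀ (by exact_mod_cast hN0)]
    have : (0:ℝ) < N := by exact_mod_cast hN0
    nlinarith

theorem fin_inter (B : Set ℕ) (N : ℕ) : (B ∩ Set.Iio N).Finite := (Set.finite_Iio N).inter_of_right _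

theorem null_mono {A B : Set ℕ} (h : A ⊆ B) (hB : Null B) : Null A := by
  rw [null_iff] at *
  intro ε hε
  refine (hB ε hε).mono fun N hN => le_trans ?_ hN
  exact_mod_cast Set.ncard_le_ncard (Set.inter_subset_inter_left _ h) (fin_inter B N)

theorem null_union {A B : Set ℕ} (hA : Null A) (hB : Null B) : Null (A ∪ B) := by
  rw [null_iff] at *
  intro ε hε
  filter_upwards [hA (ε / 2) (by positivity), hB (ε / 2) (by positivity)] with N h1 h2
  have h3 : ((A ∪ B) ∩ Set.Iio N).ncard ≤ (A ∩ Set.Iio N).ncard + (B ∩ Set.Iio N).ncard := by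
    rw [Set.union_inter_distrib_right]
    exact Set.ncard_union_le _ _
  have h4 : (((A ∪ B) ∩ Set.Iio N).ncard : ℝ) ≤
      (A ∩ Set.Iio N).ncard + (B ∩ Set.Iio N).ncard := by exact_mod_cast h3
  linarith

theorem null_finite {A : Set ℕ} (hA : A.Finite) : Null A := by
  rw [null_iff]
  intro ε hε
  have h1 : Tendsto (fun N : ℕ => ε * (N : ℝ)) atTop atTop :=
    tendsto_natCast_atTop_atTop.const_mul_atTop hε
  filter_upwards [h1.eventually_ge_atTop (A.ncard : ℝ)] with N hN
  refine le_trans ?_ hN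
  exact_mod_cast Set.ncard_le_ncard Set.inter_subset_left hA

theorem full_null {n : ℕ → ℕ} (h : FullDensity n) : Null (Set.range n)ᶜ := by
  rw [null_iff]
  intro ε hε
  have h1 := h.2
  rw [Metric.tendsto_nhds] at h1
  have h2 : Tendsto (fun N : ℕ => (ε / 2) * (N : ℝ)) atTop atTop :=
    tendsto_natCast_atTop_atTop.const_mul_atTop (by positivity)
  filter_upwards [h1 (ε / 2) (by positivity), h2.eventually_ge_atTop 1,
    eventually_gt_atTop 0] with N hN hN1 hN0
  have hN0' : (0:ℝ) < N := by exact_mod_cast hN0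
  have hfin : {j | n j ≤ N}.Finite :=
    (Set.finite_Iic N).subset fun j (hj : n j ≤ N) => (h.1.id_le j).trans hj
  have h3 : {j | n j ≤ N}.ncard = (Set.range n ∩ Set.Iic N).ncard := by
    have : Set.range n ∩ Set.Iic N = n '' {j | n j ≤ N} := by
      ext x
      constructor
      · rintro ⟨⟨j, rfl⟩, hx⟩
        exact ⟨j, hx, rfl⟩
      · rintro ⟨j, hj, rfl⟩
        exact ⟨⟨j, rfl⟩, hj⟩
    rw [this, Set.ncard_image_of_injective _ h.1.injective]
  have h4 : (Set.range n ∩ Set.Iic N).ncard ≤ (Set.range n ∩ Set.Iio N).ncard + 1 := by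
    have h5 : Set.range n ∩ Set.Iic N ⊆ (Set.range n ∩ Set.Iio N) ∪ {N} := by
      rintro x ⟨hx, hxN⟩
      rcases (Set.mem_Iic.1 hxN).lt_or_eq with h6 | h6
      · exact Or.inl ⟨hx, h6⟩
      · exact Or.inr h6
    refine (Set.ncard_le_ncard h5 ((fin_inter _ N).union (Set.finite_singleton N))).trans ?_
    refine (Set.ncard_union_le _ _).trans ?_
    rw [Set.ncard_singleton]
  have h5 : ((Set.range n)ᶜ ∩ Set.Iio N).ncard + (Set.range n ∩ Set.Iio N).ncard = N := by
    rw [← Set.ncard_union_eq ?_ (fin_inter _ N) (fin_inter _ N)]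
    · rw [← Set.union_inter_distrib_right, Set.compl_union_self, Set.univ_inter]
      simp [Set.ncard_eq_toFinset_card']
    · rw [Set.disjoint_left]
      rintro x ⟨h6, _⟩ ⟨h7, _⟩
      exact h6 h7
  rw [Real.dist_eq, h3, abs_lt] at hN
  have h6 := hN.1
  have h7 : (1 - ε / 2) * N < ((Set.range n ∩ Set.Iic N).ncard : ℝ) := by
    have : 1 - ε / 2 < ((Set.range n ∩ Set.Iic N).ncard : ℝ) / N := by linarith
    rwa [lt_div_iff₀ hN0'] at this
  have h8 : ((Set.range n ∩ Set.Iic N).ncard : ℝ) ≤ (Set.range n ∩ Set.Iio N).ncard + 1 := by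
    exact_mod_cast h4
  have h9 : (((Set.range n)ᶜ ∩ Set.Iio N).ncard : ℝ) + (Set.range n ∩ Set.Iio N).ncard = N := by
    exact_mod_cast h5
  nlinarith

/-- a subsequence of a quantum ergodic sequence -/
theorem qe_sub {Ω : Set ℂ} {lam : ℕ → ℝ} {u : ℕ → ℂ → ℝ} (h : IsQuantumErgodic Ω lam u)
    {j : ℕ → ℕ} (hj : Tendsto j atTop atTop) :
    IsQuantumErgodic Ω (fun i => lam (j i)) (fun i => u (j i)) := fun φ hφ k =>
  (h φ hφ k).comp hj

/-- choice of indices -/
theorem choose_sub {n m : ℕ → ℕ} (hn : StrictMono n) (hm : StrictMono m)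
    (h : ∀ i, m i ∈ Set.range n) : ∃ j : ℕ → ℕ, StrictMono j ∧ ∀ i, m i = n (j i) := by
  choose j hj using h
  refine ⟨j, fun a b hab => ?_, fun i => (hj i).symm⟩
  have := hm hab
  rw [← hj a, ← hj b] at this
  exact hn.lt_iff_lt.1 this

end

end Pool.Agent.L0h77.BW
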