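import Pool.Agent.L0h77.BW.Exi

/-! MP_6b977f_mp, project BW: all eigenfunctions of the torus and all open sets, 1 -/

set_option autoImplicit false
set_option maxHeartbeats 400000
open MeasureTheory Filter Topology Complex
open scoped ContDiff

namespace Pool.Agent.L0h77.BW

open Pool.Agent.L0h56.BQ
open Pool.Agent.N661.BR (MW lin J0 resc IsCutoff IsQuantumErgodic IsRandomWave IsLocalLimit)
open Pool.Agent.W745.RW (TF Dp)

noncomputable section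

theorem weyl_aux (S : ℕ → Finset GI) (w : ℕ → GI → ℝ)
    (hw : ∀ n, ∀ ν ∈ S n, 0 ≤ w n ν) (h1 : Tendsto (fun n => ∑ ν ∈ S n, w n ν) atTop (𝓝 1))
    (hA : ∀ q : ℤ, q ≠ 0 → Tendsto (fun n => ∑ ν ∈ S n, (w n ν : ℂ) *
      Complex.exp (I * (q * dirn ν : ℝ))) atTop (𝓝 0)) :
    ∃ (n0 : ℕ) (s : ℕ → ℝ), (∀ n, 1 / 2 < s n) ∧ Tendsto s atTop (𝓝 1) ∧
      (∀ n, ∑ ν ∈ S (n + n0), w (n + n0) ν = s n) ∧
      (∀ n, ∀ ν ∈ S (n + n0), 0 ≤ w (n + n0) ν / s n) ∧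
      (∀ n, ∑ ν ∈ S (n + n0), w (n + n0) ν / s n = 1) ∧
      ∀ q : ℤ, q ≠ 0 → Tendsto (fun n => ∑ ν ∈ S (n + n0), ((w (n + n0) ν / s n : ℝ) : ℂ) *
        Complex.exp (I * (q * dirn ν : ℝ))) atTop (𝓝 0) := by
  obtain ⟨n0, hn0⟩ := eventually_atTop.1
    (h1.eventually (lt_mem_nhds (show (1 / 2 : ℝ) < 1 by norm_num)))
  set s : ℕ → ℝ := fun n => ∑ ν ∈ S (n + n0), w (n + n0) ν with hs
  have hs0 : ∀ n, 1 / 2 < s n := fun n => hn0 _ (Nat.le_add_left _ _)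
  have hs1 : Tendsto s atTop (𝓝 1) := (tendsto_add_atTop_iff_nat n0).2 h1
  refine ⟨n0, s, hs0, hs1, fun n => rfl, fun n ν hν => div_nonneg (hw _ ν hν) ?_, fun n => ?_,
    fun q hq => ?_⟩
  · linarith [hs0 n]
  · rw [← Finset.sum_div]
    exact div_self (ne_of_gt (lt_trans (by norm_num) (hs0 n)))
  · have h2 : Tendsto (fun n => ((s n : ℝ) : ℂ)⁻¹) atTop (𝓝 1) := by
      have h3 := ((Complex.continuous_ofReal.tendsto _).comp hs1).inv₀ (by simp)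
      simpa using h3
    have h3 := h2.mul ((tendsto_add_atTop_iff_nat n0).2 (hA q hq))
    rw [mul_zero] at h3
    refine h3.congr fun n => ?_
    rw [Finset.mul_sum]
    refine Finset.sum_congr rfl fun ν _ => ?_
    push_cast
    ring

theorem weyl_cov' (S : ℕ → Finset GI) (w : ℕ → GI → ℝ)
    (hw : ∀ n, ∀ ν ∈ S n, 0 ≤ w n ν) (h1 : Tendsto (fun n => ∑ ν ∈ S n, w n ν) atTop (𝓝 1))
    (hA : ∀ q : ℤ, q ≠ 0 → Tendsto (fun n => ∑ ν ∈ S n, (w n ν : ℂ) *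
      Complex.exp (I * (q * dirn ν : ℝ))) atTop (𝓝 0)) (x : ℂ) :
    Tendsto (fun n => ∑ ν ∈ S n, w n ν *
      Real.cos (x.re * Real.cos (dirn ν) + x.im * Real.sin (dirn ν))) atTop (𝓝 (J0 ‖x‖)) := by
  obtain ⟨n0, s, hs0, hs1, -, hp, hm, hA'⟩ := weyl_aux S w hw h1 hA
  rw [← tendsto_add_atTop_iff_nat n0]
  have h2 := weyl_cov (fun n => S (n + n0)) (fun n ν => w (n + n0) ν / s n) hp hm hA' x
  have h3 := hs1.mul h2
  rw [one_mul] at h3
  refine h3.congr fun n => ?_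
  have h4 : s n ≠ 0 := ne_of_gt (lt_trans (by norm_num) (hs0 n))
  rw [Finset.mul_sum]
  refine Finset.sum_congr rfl fun ν _ => ?_
  rw [← mul_assoc, mul_div_cancel₀ _ h4]

theorem weyl_small' (S : ℕ → Finset GI) (w : ℕ → GI → ℝ)
    (hw : ∀ n, ∀ ν ∈ S n, 0 ≤ w n ν) (h1 : Tendsto (fun n => ∑ ν ∈ S n, w n ν) atTop (𝓝 1))
    (hA : ∀ q : ℤ, q ≠ 0 → Tendsto (fun n => ∑ ν ∈ S n, (w n ν : ℂ) *
      Complex.exp (I * (q * dirn ν : ℝ))) atTop (𝓝 0)) (ε : ℝ) (hε : 0 < ε) :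
    ∀ᶠ n in atTop, ∀ ν ∈ S n, w n ν ≤ ε := by
  obtain ⟨n0, s, hs0, hs1, -, hp, hm, hA'⟩ := weyl_aux S w hw h1 hA
  have h2 := weyl_small (fun n => S (n + n0)) (fun n ν => w (n + n0) ν / s n) hp hm hA' (ε / 2)
    (by positivity)
  have h3 := hs1.eventually (gt_mem_nhds (show (1 : ℝ) < 2 by norm_num))
  have h4 : ∀ᶠ n in atTop, ∀ ν ∈ S (n + n0), w (n + n0) ν ≤ ε := by
    filter_upwards [h2, h3] with n hn hn3 ν hν
    have h5 := hn ν hν
    have h6 : 0 < s n := lt_trans (by norm_num) (hs0 n)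
    rw [div_le_iff₀ h6] at h5
    nlinarith
  obtain ⟨n1, hn1⟩ := eventually_atTop.1 h4
  refine eventually_atTop.2 ⟨n1 + n0, fun n hn => ?_⟩
  have := hn1 (n - n0) (by omega)
  rwa [Nat.sub_add_cancel (by omega)] at this

/-- local limits -/
theorem torus_lim' (hGL : S_GL) (E : ℕ → ℕ) (κ : ℕ → ℝ) (hG : Good E κ)
    (b : ℕ → GI → ℂ)
    (hb : ∀ n ν, b n (-ν) = (starRingEnd ℂ) (b n ν))
    (hb1 : Tendsto (fun n => ∑ ν ∈ V (E n), ‖b n ν‖ ^ 2) atTop (𝓝 1))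
    (hbκ : ∀ n, ∀ ν ∈ V (E n), ‖b n ν‖ ≤ κ n)
    (hA : ∀ q : ℤ, q ≠ 0 → Tendsto (fun n => ∑ ν ∈ V (E n), ((‖b n ν‖ ^ 2 : ℝ) : ℂ) *
      Complex.exp (I * (q * dirn ν : ℝ))) atTop (𝓝 0))
    (u : ℕ → ℂ → ℝ) (hu : ∀ n z, (u n z : ℂ) = ∑ ν ∈ V (E n), b n ν * ch ν z)
    (Ω₀ : Set ℂ) (ho₀ : IsOpen Ω₀)
    (Ω : Set ℂ) (ho : IsOpen Ω) (hbd : Bornology.IsBounded Ω) (hne : Ω.Nonempty) (hsub : Ω ⊆ Ω₀)
    (χ : ℝ → ℝ) (hχ : IsCutoff χ) (K : ℕ) (w : Fin K → ℂ) (t : Fin K → ℝ) :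
    Tendsto (fun n => (1 / volume.real Ω : ℝ) * ∫ z in Ω,
      Complex.exp (I * ((∑ j, t j * resc χ Ω₀ (lamE (E n)) (u n) z (w j) : ℝ) : ℂ))) atTop
      (𝓝 (Complex.exp ((-(∑ i, ∑ j, t i * t j * J0 ‖w i - w j‖) / 2 : ℝ)))) := by
  have hvol : volume Ω ≠ ⊤ := hbd.measure_lt_top.ne
  have hvr : volume.real Ω ≠ 0 := by
    rw [measureReal_def]
    exact (ENNReal.toReal_pos (ho.measure_pos volume hne).ne' hvol).ne'
  have hE : ∀ n, 0 < E n := hG.pos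
  have huc : ∀ n, Continuous (u n) := by
    intro n
    have h1 : Continuous fun z => (u n z : ℂ) := by
      simp_rw [hu n]
      exact continuous_finsetSum _ fun ν _ => continuous_const.mul (ch_cont ν)
    have h2 := Complex.continuous_re.comp h1
    refine h2.congr fun z => ?_
    simp
  have hlam : Tendsto (fun n => lamE (E n)) atTop atTop := by
    unfold lamE
    refine Tendsto.const_mul_atTop (by positivity) ?_
    exact tendsto_natCast_atTop_atTop.comp hG.top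
  set c : ℕ → GaussianInt → ℂ := fun n ν => b n ν * TT (E n) w t ν with hc
  have hcs : ∀ n ν, c n (-ν) = (starRingEnd ℂ) (c n ν) := fun n ν => by
    simp only [hc]
    rw [hb, TT_neg, map_mul]
  set T0 : ℝ := ∑ j, |t j| with hT0
  have hT00 : 0 ≤ T0 := Finset.sum_nonneg fun _ _ => abs_nonneg _
  have hcκ : ∀ n, ∀ ν ∈ V (E n), ‖c n ν‖ ≤ T0 * κ n := by
    intro n ν hν
    simp only [hc]
    rw [norm_mul, mul_comm]
    exact mul_le_mul (TT_norm _ w t ν) (hbκ n ν hν) (norm_nonneg _) hT00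
  have hv : Tendsto (fun n => ∑ ν ∈ V (E n), ‖c n ν‖ ^ 2) atTop
      (𝓝 (∑ i, ∑ j, t i * t j * J0 ‖w i - w j‖)) := by
    have h1 : ∀ n, ∑ ν ∈ V (E n), ‖c n ν‖ ^ 2 = ∑ i, ∑ j, t i * t j *
        ∑ ν ∈ V (E n), ‖b n ν‖ ^ 2 * Real.cos ((w i - w j).re * Real.cos (dirn ν) +
          (w i - w j).im * Real.sin (dirn ν)) := by
      intro n
      have h2 : ∀ ν ∈ V (E n), ‖c n ν‖ ^ 2 = ∑ i, ∑ j, t i * t j *
          (‖b n ν‖ ^ 2 * Real.cos ((w i - w j).re * Real.cos (dirn ν) +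
          (w i - w j).im * Real.sin (dirn ν))) := by
        intro ν hν
        simp only [hc]
        rw [norm_mul, mul_pow, TT_sq _ (hE n) w t ν hν, Finset.mul_sum]
        refine Finset.sum_congr rfl fun i _ => ?_
        rw [Finset.mul_sum]
        refine Finset.sum_congr rfl fun j _ => ?_
        ring
      rw [Finset.sum_congr rfl h2, Finset.sum_comm]
      refine Finset.sum_congr rfl fun i _ => ?_
      rw [Finset.sum_comm]
      refine Finset.sum_congr rfl fun j _ => ?_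
      rw [Finset.mul_sum]
    simp_rw [h1]
    refine tendsto_finsetSum _ fun i _ => tendsto_finsetSum _ fun j _ => ?_
    exact (weyl_cov' (fun n => V (E n)) (fun n ν => ‖b n ν‖ ^ 2)
      (fun n ν _ => by positivity) hb1 hA (w i - w j)).const_mul _
  have hg := hGL E κ hG c hcs T0 hT00 hcκ _ hv Ω ho hbd
  have hlin : ∀ n z, ((∑ j, t j * u n (z + w j / (√(lamE (E n)) : ℝ)) : ℝ) : ℂ) =
      ∑ ν ∈ V (E n), c n ν * ch ν z := by
    intro n z
    push_cast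
    simp_rw [hu, ch_shift]
    have h1 : ∀ j : Fin K, (t j : ℂ) * ∑ ν ∈ V (E n),
        b n ν * (ch ν z * Complex.exp (I * (ph (E n) (w j) ν : ℝ))) =
        ∑ ν ∈ V (E n), b n ν * ((t j : ℂ) *
          Complex.exp (I * (ph (E n) (w j) ν : ℝ))) * ch ν z := by
      intro j
      rw [Finset.mul_sum]
      exact Finset.sum_congr rfl fun ν _ => by ring
    rw [Finset.sum_congr rfl fun j _ => h1 j, Finset.sum_comm]
    refine Finset.sum_congr rfl fun ν _ => ?_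
    simp only [hc]
    unfold TT
    rw [Finset.mul_sum, Finset.sum_mul]
  have hg2 := cutoff Ω₀ ho₀ Ω ho hbd hsub χ hχ (fun n => lamE (E n)) hlam u huc K w t _
    (hg.congr fun n => by simp_rw [hlin])
  have hg3 := hg2.const_mul ((1 / volume.real Ω : ℝ) : ℂ)
  convert hg3 using 2
  have : (volume.real Ω : ℂ) ≠ 0 := by exact_mod_cast hvr
  push_cast
  field_simp

/-- moments -/
theorem torus_mom' (E : ℕ → ℕ) (κ : ℕ → ℝ) (hG : Good E κ)
    (b : ℕ → GI → ℂ)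
    (hb : ∀ n ν, b n (-ν) = (starRingEnd ℂ) (b n ν))
    (hb1 : Tendsto (fun n => ∑ ν ∈ V (E n), ‖b n ν‖ ^ 2) atTop (𝓝 1))
    (hbκ : ∀ n, ∀ ν ∈ V (E n), ‖b n ν‖ ≤ κ n)
    (hA : ∀ q : ℤ, q ≠ 0 → Tendsto (fun n => ∑ ν ∈ V (E n), ((‖b n ν‖ ^ 2 : ℝ) : ℂ) *
      Complex.exp (I * (q * dirn ν : ℝ))) atTop (𝓝 0))
    (u : ℕ → ℂ → ℝ) (hu : ∀ n z, (u n z : ℂ) = ∑ ν ∈ V (E n), b n ν * ch ν z)
    (Ω : Set ℂ) (ho : IsOpen Ω) (hbd : Bornology.IsBounded Ω) (hne : Ω.Nonempty)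
    (K : ℕ) (w : Fin K → ℂ) (t : Fin K → ℝ) (k : ℕ) :
    Tendsto (fun n => (1 / volume.real Ω : ℝ) * ∫ z in Ω,
      (∑ j, t j * u n (z + w j / (√(lamE (E n)) : ℝ))) ^ k) atTop
      (𝓝 (gm k (∑ i, ∑ j, t i * t j * J0 ‖w i - w j‖))) := by
  have hvol : volume Ω ≠ ⊤ := hbd.measure_lt_top.ne
  have hvr : volume.real Ω ≠ 0 := by
    rw [measureReal_def]
    exact (ENNReal.toReal_pos (ho.measure_pos volume hne).ne' hvol).ne'
  have hE : ∀ n, 0 < E n := hG.pos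
  set c : ℕ → GaussianInt → ℂ := fun n ν => b n ν * TT (E n) w t ν with hc
  have hcs : ∀ n ν, c n (-ν) = (starRingEnd ℂ) (c n ν) := fun n ν => by
    simp only [hc]
    rw [hb, TT_neg, map_mul]
  set T0 : ℝ := ∑ j, |t j| with hT0
  have hT00 : 0 ≤ T0 := Finset.sum_nonneg fun _ _ => abs_nonneg _
  have hcκ : ∀ n, ∀ ν ∈ V (E n), ‖c n ν‖ ≤ T0 * κ n := by
    intro n ν hν
    simp only [hc]
    rw [norm_mul, mul_comm]
    exact mul_le_mul (TT_norm _ w t ν) (hbκ n ν hν) (norm_nonneg _) hT00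
  have hv : Tendsto (fun n => ∑ ν ∈ V (E n), ‖c n ν‖ ^ 2) atTop
      (𝓝 (∑ i, ∑ j, t i * t j * J0 ‖w i - w j‖)) := by
    have h1 : ∀ n, ∑ ν ∈ V (E n), ‖c n ν‖ ^ 2 = ∑ i, ∑ j, t i * t j *
        ∑ ν ∈ V (E n), ‖b n ν‖ ^ 2 * Real.cos ((w i - w j).re * Real.cos (dirn ν) +
          (w i - w j).im * Real.sin (dirn ν)) := by
      intro n
      have h2 : ∀ ν ∈ V (E n), ‖c n ν‖ ^ 2 = ∑ i, ∑ j, t i * t j *
          (‖b n ν‖ ^ 2 * Real.cos ((w i - w j).re * Real.cos (dirn ν) +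
          (w i - w j).im * Real.sin (dirn ν))) := by
        intro ν hν
        simp only [hc]
        rw [norm_mul, mul_pow, TT_sq _ (hE n) w t ν hν, Finset.mul_sum]
        refine Finset.sum_congr rfl fun i _ => ?_
        rw [Finset.mul_sum]
        refine Finset.sum_congr rfl fun j _ => ?_
        ring
      rw [Finset.sum_congr rfl h2, Finset.sum_comm]
      refine Finset.sum_congr rfl fun i _ => ?_
      rw [Finset.sum_comm]
      refine Finset.sum_congr rfl fun j _ => ?_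
      rw [Finset.mul_sum]
    simp_rw [h1]
    refine tendsto_finsetSum _ fun i _ => tendsto_finsetSum _ fun j _ => ?_
    exact (weyl_cov' (fun n => V (E n)) (fun n ν => ‖b n ν‖ ^ 2)
      (fun n ν _ => by positivity) hb1 hA (w i - w j)).const_mul _
  have hg := momGL E κ hG c hcs T0 hcκ _ hv Ω ho hbd k
  have hlin : ∀ n z, ((∑ j, t j * u n (z + w j / (√(lamE (E n)) : ℝ)) : ℝ) : ℂ) =
      ∑ ν ∈ V (E n), c n ν * ch ν z := by
    intro n z
    push_cast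
    simp_rw [hu, ch_shift]
    have h1 : ∀ j : Fin K, (t j : ℂ) * ∑ ν ∈ V (E n),
        b n ν * (ch ν z * Complex.exp (I * (ph (E n) (w j) ν : ℝ))) =
        ∑ ν ∈ V (E n), b n ν * ((t j : ℂ) *
          Complex.exp (I * (ph (E n) (w j) ν : ℝ))) * ch ν z := by
      intro j
      rw [Finset.mul_sum]
      exact Finset.sum_congr rfl fun ν _ => by ring
    rw [Finset.sum_congr rfl fun j _ => h1 j, Finset.sum_comm]
    refine Finset.sum_congr rfl fun ν _ => ?_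
    simp only [hc]
    unfold TT
    rw [Finset.mul_sum, Finset.sum_mul]
  have h3 : ∀ n, ∫ z in Ω, (∑ ν ∈ V (E n), c n ν * ch ν z) ^ k =
      ((∫ z in Ω, (∑ j, t j * u n (z + w j / (√(lamE (E n)) : ℝ))) ^ k : ℝ) : ℂ) := by
    intro n
    rw [← integral_complex_ofReal]
    congr 1
    funext z
    rw [← hlin]
    push_cast
    rfl
  simp_rw [h3] at hg
  have h4 := (Complex.continuous_re.tendsto _).comp hg
  rw [← Complex.ofReal_mul, Complex.ofReal_re] at h4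
  have h5 : Tendsto (fun n => ∫ z in Ω, (∑ j, t j * u n (z + w j / (√(lamE (E n)) : ℝ))) ^ k) atTop
      (𝓝 (volume.real Ω * gm k (∑ i, ∑ j, t i * t j * J0 ‖w i - w j‖))) :=
    h4.congr fun n => by rw [Function.comp_apply, Complex.ofReal_re]
  have h6 := h5.const_mul (1 / volume.real Ω)
  rwa [← mul_assoc, one_div_mul_cancel hvr, one_mul] at h6

end

end Pool.Agent.L0h77.BW
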