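import Pool.Agent.L0h77.BW.Gen1

/-! MP_6b977f_mp, project BW: all eigenfunctions of the torus and all open sets, 2 -/

set_option autoImplicit false
set_option maxHeartbeats 400000
open MeasureTheory Filter Topology Complex
open scoped ContDiff

namespace Pool.Agent.L0h77.BW

open Pool.Agent.L0h56.BQ
open Pool.Agent.N661.BR (MW lin J0 resc IsCutoff IsQuantumErgodic IsRandomWave IsLocalLimit)
open Pool.Agent.W745.RW (TF Dp)

noncomputable section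

/-- the bilinear sums are bounded -/
theorem bil_bd (e : ℕ) (b a : GI → ℂ) (hb : ∑ ν ∈ V e, ‖b ν‖ ^ 2 ≤ 1)
    (ha : ∑ ν ∈ V e, ‖a ν‖ ^ 2 ≤ 1) : ‖∑ ν ∈ V e, b ν * a (-ν)‖ ≤ 1 := by
  have h1 : ∑ ν ∈ V e, ‖a (-ν)‖ ^ 2 = ∑ ν ∈ V e, ‖a ν‖ ^ 2 :=
    Finset.sum_bij' (fun ν _ => -ν) (fun ν _ => -ν) (fun ν hν => neg_mem_V hν)
      (fun ν hν => neg_mem_V hν) (fun ν _ => neg_neg ν) (fun ν _ => neg_neg ν) fun ν _ => rfl
  have h2 : ∀ ν ∈ V e, ‖b ν * a (-ν)‖ ≤ (‖b ν‖ ^ 2 + ‖a (-ν)‖ ^ 2) / 2 := by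
    intro ν _
    rw [norm_mul]
    nlinarith [sq_nonneg (‖b ν‖ - ‖a (-ν)‖)]
  have h3 := (norm_sum_le _ _).trans (Finset.sum_le_sum h2)
  rw [← Finset.sum_div, Finset.sum_add_distrib, h1] at h3
  linarith

/-- the converse of `QEG.bil` -/
theorem bil_inv (E : ℕ → ℕ) (hns : ∀ R : ℕ, ∀ᶠ n in atTop, NoSmall 2 R (E n))
    (b a : ℕ → GI → ℂ) (hb : ∀ n, ∑ ν ∈ V (E n), ‖b n ν‖ ^ 2 ≤ 1)
    (ha : ∀ n, ∑ ν ∈ V (E n), ‖a n ν‖ ^ 2 ≤ 1)
    (φ : ℂ → ℝ) (hφ : Continuous φ) (hc : HasCompactSupport φ) (hI : (∫ z, φ z) ≠ 0)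
    (h0 : Tendsto (fun n => ∫ z, (φ z : ℂ) * (TP (V (E n)) (b n) z * TP (V (E n)) (a n) z))
      atTop (𝓝 0)) :
    Tendsto (fun n => ∑ ν ∈ V (E n), b n ν * a n (-ν)) atTop (𝓝 0) := by
  refine tendsto_of_subseq_tendsto fun ns hns' => ?_
  obtain ⟨L, -, ms, hms, hL⟩ := tendsto_subseq_of_bounded (x := fun n =>
    ∑ ν ∈ V (E (ns n)), b (ns n) ν * a (ns n) (-ν)) (Metric.isBounded_closedBall (x := (0 : ℂ))
    (r := 1)) (fun n => by
      rw [mem_closedBall_zero_iff]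
      exact bil_bd _ _ _ (hb _) (ha _))
  refine ⟨ms, ?_⟩
  have hlim : Tendsto (fun n => ns (ms n)) atTop atTop := hns'.comp hms.tendsto_atTop
  have h1 := QEG.bil UNI (fun n => E (ns (ms n))) (fun R => hlim.eventually (hns R))
    (fun n => b (ns (ms n))) (fun n => a (ns (ms n))) (fun n => hb _) (fun n => ha _) L hL φ hφ hc
  have h2 := tendsto_nhds_unique h1 (h0.comp hlim)
  have h3 : L = 0 := by
    rcases mul_eq_zero.1 h2 with h | h
    · exact absurd (by exact_mod_cast h) hI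
    · exact h
  rw [h3] at hL
  exact hL

/-- the multiplied coefficients -/
def aK (e : ℕ) (K : ℕ) (c : GI → ℂ) (ν : GI) : ℂ := c ν * (I * (starRingEnd ℂ) (uE e ν)) ^ K

theorem aK_norm {e : ℕ} (he : 0 < e) (K : ℕ) (c : GI → ℂ) {ν : GI} (hν : ν ∈ V e) :
    ‖aK e K c ν‖ = ‖c ν‖ := by
  unfold aK
  rw [norm_mul, norm_pow, norm_mul, Complex.norm_I, RCLike.norm_conj,
    uE_norm _ he ν hν, mul_one, one_pow, mul_one]

theorem aK_sum {e : ℕ} (he : 0 < e) (K : ℕ) {c : GI → ℂ}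
    (hc : ∀ ν, c (-ν) = (starRingEnd ℂ) (c ν)) :
    ∑ ν ∈ V e, c ν * aK e K c (-ν) = (-I) ^ K * (starRingEnd ℂ) (∑ ν ∈ V e,
      ((‖c ν‖ ^ 2 : ℝ) : ℂ) * Complex.exp (I * ((K : ℤ) * dirn ν : ℝ))) := by
  rw [map_sum, Finset.mul_sum]
  refine Finset.sum_congr rfl fun ν hν => ?_
  unfold aK
  rw [exp_int_mul', uE_exp _ he ν hν, zpow_natCast, map_mul, Complex.conj_ofReal, map_pow,
    hc, uE_neg, map_neg]
  have h2 : I * -(starRingEnd ℂ) (uE e ν) = -I * (starRingEnd ℂ) (uE e ν) := by ring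
  have h3 : c ν * (starRingEnd ℂ) (c ν) = ((‖c ν‖ ^ 2 : ℝ) : ℂ) := by
    rw [Complex.mul_conj, Complex.normSq_eq_norm_sq]
  rw [h2, mul_pow, ← h3]
  ring

theorem aK_Dp {e : ℕ} (K : ℕ) {c : GI → ℂ} {u : ℂ → ℝ}
    (hu : ∀ z, (u z : ℂ) = ∑ ν ∈ V e, c ν * ch ν z) :
    (Dp (1 / √(lamE e)))^[K] (fun w => (u w : ℂ)) = TP (V e) (aK e K c) := by
  have h1 : (fun w => (u w : ℂ)) = fun z => ∑ ν ∈ V e, c ν * ch ν z := funext hu
  rw [h1, Dp_trig_iter]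
  funext z
  unfold TP aK
  refine Finset.sum_congr rfl fun ν _ => ?_
  rw [factor]

theorem aK_int {e : ℕ} (K : ℕ) {c : GI → ℂ} {u : ℂ → ℝ}
    (hu : ∀ z, (u z : ℂ) = ∑ ν ∈ V e, c ν * ch ν z) (φ : ℂ → ℝ) :
    ∫ z, (φ z : ℂ) * ((u z : ℂ) * (Dp (1 / √(lamE e)))^[K] (fun w => (u w : ℂ)) z) =
      ∫ z, (φ z : ℂ) * (TP (V e) c z * TP (V e) (aK e K c) z) := by
  rw [aK_Dp K hu]
  refine integral_congr_ae (Eventually.of_forall fun z => ?_)
  show (φ z : ℂ) * ((u z : ℂ) * _) = _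
  rw [hu]
  rfl

theorem TP_smul (S : Finset GI) (r : ℂ) (c : GI → ℂ) (z : ℂ) :
    TP S (fun ν => r * c ν) z = r * TP S c z := by
  unfold TP
  rw [Finset.mul_sum]
  exact Finset.sum_congr rfl fun ν _ => by ring

theorem aK_smul (e K : ℕ) (r : ℂ) (c : GI → ℂ) :
    aK e K (fun ν => r * c ν) = fun ν => r * aK e K c ν := by
  funext ν
  unfold aK
  ring

/-- negative exponents -/
theorem neg_exp {E : ℕ → ℕ} {c : ℕ → GI → ℂ}
    (h : ∀ K : ℕ, K ≠ 0 → Tendsto (fun n => ∑ ν ∈ V (E n), ((‖c n ν‖ ^ 2 : ℝ) : ℂ) *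
      Complex.exp (I * ((K : ℤ) * dirn ν : ℝ))) atTop (𝓝 0)) (q : ℤ) (hq : q ≠ 0) :
    Tendsto (fun n => ∑ ν ∈ V (E n), ((‖c n ν‖ ^ 2 : ℝ) : ℂ) *
      Complex.exp (I * (q * dirn ν : ℝ))) atTop (𝓝 0) := by
  rcases Int.eq_nat_or_neg q with ⟨l, rfl | rfl⟩
  · have hl : l ≠ 0 := by rintro rfl; simp at hq
    exact h l hl
  · have hl : l ≠ 0 := by rintro rfl; simp at hq
    have h3 : ∀ n, ∑ ν ∈ V (E n), ((‖c n ν‖ ^ 2 : ℝ) : ℂ) *
        Complex.exp (I * (((-(l : ℤ) : ℤ) : ℝ) * dirn ν : ℝ)) =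
        (starRingEnd ℂ) (∑ ν ∈ V (E n), ((‖c n ν‖ ^ 2 : ℝ) : ℂ) *
          Complex.exp (I * ((l : ℤ) * dirn ν : ℝ))) := by
      intro n
      rw [map_sum]
      refine Finset.sum_congr rfl fun ν _ => ?_
      rw [map_mul, Complex.conj_ofReal, ← Complex.exp_conj, map_mul, Complex.conj_I,
        Complex.conj_ofReal]
      congr 2
      push_cast
      ring
    simp_rw [h3]
    have := (Complex.continuous_conj.tendsto _).comp (h l hl)
    rwa [map_zero] at this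

/-- equidistributed directions imply quantum ergodicity -/
theorem qeg' (E : ℕ → ℕ) (hE : ∀ n, 0 < E n) (hns : ∀ R : ℕ, ∀ᶠ n in atTop, NoSmall 2 R (E n))
    (c : ℕ → GI → ℂ) (hc : ∀ n ν, c n (-ν) = (starRingEnd ℂ) (c n ν))
    (u : ℕ → ℂ → ℝ) (hu : ∀ n z, (u n z : ℂ) = ∑ ν ∈ V (E n), c n ν * ch ν z)
    (h1 : Tendsto (fun n => ∑ ν ∈ V (E n), ‖c n ν‖ ^ 2) atTop (𝓝 1))
    (hA : ∀ q : ℤ, q ≠ 0 → Tendsto (fun n => ∑ ν ∈ V (E n), ((‖c n ν‖ ^ 2 : ℝ) : ℂ) *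
      Complex.exp (I * (q * dirn ν : ℝ))) atTop (𝓝 0)) (Ω : Set ℂ) :
    IsQuantumErgodic Ω (fun n => lamE (E n)) u := by
  intro φ hφ K
  obtain ⟨n0, hn0⟩ := eventually_atTop.1
    (h1.eventually (gt_mem_nhds (show (1 : ℝ) < 4 by norm_num)))
  rw [← tendsto_add_atTop_iff_nat n0]
  have hL : Tendsto (fun n => ∑ ν ∈ V (E n), c n ν * aK (E n) K (c n) (-ν)) atTop
      (𝓝 (if K = 0 then 1 else 0)) := by
    have h2 : ∀ n, ∑ ν ∈ V (E n), c n ν * aK (E n) K (c n) (-ν) = (-I) ^ K * (starRingEnd ℂ)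
        (∑ ν ∈ V (E n), ((‖c n ν‖ ^ 2 : ℝ) : ℂ) * Complex.exp (I * ((K : ℤ) * dirn ν : ℝ))) :=
      fun n => aK_sum (hE n) K (hc n)
    simp_rw [h2]
    by_cases hK : K = 0
    · subst hK
      have h3 : ∀ n, ∑ ν ∈ V (E n), ((‖c n ν‖ ^ 2 : ℝ) : ℂ) *
          Complex.exp (I * (((0 : ℕ) : ℤ) * dirn ν : ℝ)) =
            ((∑ ν ∈ V (E n), ‖c n ν‖ ^ 2 : ℝ) : ℂ) := by
        intro n
        simp only [Nat.cast_zero, Int.cast_zero, zero_mul, Complex.ofReal_zero, mul_zero,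
          Complex.exp_zero, mul_one]
        rw [← Complex.ofReal_sum]
      simp_rw [h3]
      simp only [pow_zero, one_mul, if_true, Complex.conj_ofReal]
      have h4 := (Complex.continuous_ofReal.tendsto _).comp h1
      rw [Complex.ofReal_one] at h4
      exact h4
    · rw [if_neg hK]
      have h2 := ((Complex.continuous_conj.tendsto _).comp (hA K (by exact_mod_cast hK))).const_mul
        ((-I) ^ K)
      rw [map_zero, mul_zero] at h2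
      exact h2
  have hL' : Tendsto (fun n => ∑ ν ∈ V (E (n + n0)), (1 / 2 * c (n + n0) ν) *
      (1 / 2 * aK (E (n + n0)) K (c (n + n0)) (-ν))) atTop
      (𝓝 (1 / 4 * (if K = 0 then 1 else 0))) := by
    have h2 := ((tendsto_add_atTop_iff_nat n0).2 hL).const_mul (1 / 4 : ℂ)
    refine h2.congr fun n => ?_
    rw [Finset.mul_sum]
    exact Finset.sum_congr rfl fun ν _ => by ring
  have hs : ∀ n, ∑ ν ∈ V (E (n + n0)), ‖(1 / 2 : ℂ) * c (n + n0) ν‖ ^ 2 ≤ 1 := by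
    intro n
    have h2 := hn0 (n + n0) (Nat.le_add_left _ _)
    have h3 : ∀ ν, ‖(1 / 2 : ℂ) * c (n + n0) ν‖ ^ 2 = 1 / 4 * ‖c (n + n0) ν‖ ^ 2 := by
      intro ν
      rw [norm_mul, mul_pow]
      norm_num
    simp_rw [h3]
    rw [← Finset.mul_sum]
    linarith
  have hmain := QEG.bil UNI (fun n => E (n + n0))
    (fun R => (tendsto_add_atTop_nat n0).eventually (hns R))
    (fun n ν => 1 / 2 * c (n + n0) ν) (fun n ν => 1 / 2 * aK (E (n + n0)) K (c (n + n0)) ν) hs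
    (fun n => by
      refine le_of_eq_of_le (Finset.sum_congr rfl fun ν hν => ?_) (hs n)
      rw [norm_mul, norm_mul, aK_norm (hE _) K _ hν]) _ hL' φ hφ.1.continuous hφ.2.1
  have h5 := hmain.const_mul (4 : ℂ)
  have h6 : ∀ n, 4 * ∫ z, (φ z : ℂ) * (TP (V (E (n + n0))) (fun ν => 1 / 2 * c (n + n0) ν) z *
      TP (V (E (n + n0))) (fun ν => 1 / 2 * aK (E (n + n0)) K (c (n + n0)) ν) z) =
      ∫ z, (φ z : ℂ) * ((u (n + n0) z : ℂ) * (Dp (1 / √(lamE (E (n + n0)))))^[K]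
        (fun w => (u (n + n0) w : ℂ)) z) := by
    intro n
    rw [aK_int K (hu (n + n0)) φ, ← integral_const_mul]
    refine integral_congr_ae (Eventually.of_forall fun z => ?_)
    show 4 * ((φ z : ℂ) * (TP _ (fun ν => 1 / 2 * c (n + n0) ν) z *
      TP _ (fun ν => 1 / 2 * aK (E (n + n0)) K (c (n + n0)) ν) z)) = _
    rw [TP_smul, TP_smul]
    ring
  refine (h5.congr h6).trans (le_of_eq ?_)
  congr 1
  split_ifs <;> push_cast <;> ring

/-- quantum ergodicity on an open set implies equidistributed directions; nonzero functions -/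
theorem qe_coef0 (E : ℕ → ℕ) (hE : ∀ n, 0 < E n) (hns : ∀ R : ℕ, ∀ᶠ n in atTop, NoSmall 2 R (E n))
    (c : ℕ → GI → ℂ) (hc : ∀ n ν, c n (-ν) = (starRingEnd ℂ) (c n ν))
    (u : ℕ → ℂ → ℝ) (hu : ∀ n z, (u n z : ℂ) = ∑ ν ∈ V (E n), c n ν * ch ν z)
    (hs : ∀ n, 0 < ∑ ν ∈ V (E n), ‖c n ν‖ ^ 2) (φ : ℂ → ℝ) (hφ : Continuous φ)
    (hcs : HasCompactSupport φ) (hI : (∫ z, φ z) ≠ 0)
    (hq : ∀ k : ℕ, Tendsto (fun n => ∫ z, (φ z : ℂ) *
      ((u n z : ℂ) * (Dp (1 / √(lamE (E n))))^[k] (fun w => (u n w : ℂ)) z)) atTop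
      (𝓝 (if k = 0 then ((∫ z, φ z : ℝ) : ℂ) else 0))) :
    Tendsto (fun n => ∑ ν ∈ V (E n), ‖c n ν‖ ^ 2) atTop (𝓝 1) ∧
    ∀ q : ℤ, q ≠ 0 → Tendsto (fun n => ∑ ν ∈ V (E n), ((‖c n ν‖ ^ 2 : ℝ) : ℂ) *
      Complex.exp (I * (q * dirn ν : ℝ))) atTop (𝓝 0) := by
  obtain ⟨s, hsd⟩ : ∃ s : ℕ → ℝ, ∀ n, s n = ∑ ν ∈ V (E n), ‖c n ν‖ ^ 2 := ⟨_, fun _ => rfl⟩
  have hs0 : ∀ n, 0 < s n := fun n => by rw [hsd]; exact hs n
  have hIc : ((∫ z, φ z : ℝ) : ℂ) ≠ 0 := by exact_mod_cast hI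
  obtain ⟨r, hr⟩ : ∃ r : ℕ → ℂ, ∀ n, r n = ((1 / √(s n) : ℝ) : ℂ) := ⟨_, fun _ => rfl⟩
  have hr2 : ∀ n, (s n : ℂ) * (r n * r n) = 1 := by
    intro n
    rw [hr, ← Complex.ofReal_mul, ← Complex.ofReal_mul]
    have h1 : s n * (1 / √(s n) * (1 / √(s n))) = 1 := by
      rw [div_mul_div_comm, one_mul, Real.mul_self_sqrt (hs0 n).le]
      exact mul_one_div_cancel (hs0 n).ne'
    rw [h1, Complex.ofReal_one]
  have hrn : ∀ n, ‖r n‖ ^ 2 = 1 / s n := by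
    intro n
    rw [hr, Complex.norm_real, Real.norm_eq_abs, sq_abs, div_pow, one_pow,
      Real.sq_sqrt (hs0 n).le]
  have hrc : ∀ n, (starRingEnd ℂ) (r n) = r n := fun n => by rw [hr, Complex.conj_ofReal]
  have hb1 : ∀ n, ∑ ν ∈ V (E n), ‖r n * c n ν‖ ^ 2 = 1 := by
    intro n
    have h1 : ∀ ν, ‖r n * c n ν‖ ^ 2 = 1 / s n * ‖c n ν‖ ^ 2 := fun ν => by
      rw [norm_mul, mul_pow, hrn]
    simp_rw [h1]
    rw [← Finset.mul_sum, ← hsd]
    exact one_div_mul_cancel (hs0 n).ne'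
  have hbc : ∀ n ν, r n * c n (-ν) = (starRingEnd ℂ) (r n * c n ν) := fun n ν => by
    rw [map_mul, hrc, hc]
  -- the integrals
  have hint : ∀ K n, ∫ z, (φ z : ℂ) * ((u n z : ℂ) * (Dp (1 / √(lamE (E n))))^[K]
      (fun w => (u n w : ℂ)) z) = (s n : ℂ) * ∫ z, (φ z : ℂ) *
        (TP (V (E n)) (fun ν => r n * c n ν) z * TP (V (E n)) (aK (E n) K
          (fun ν => r n * c n ν)) z) := by
    intro K n
    rw [aK_int K (hu n) φ, ← integral_const_mul]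
    refine integral_congr_ae (Eventually.of_forall fun z => ?_)
    show (φ z : ℂ) * (TP _ (c n) z * TP _ (aK (E n) K (c n)) z) = (s n : ℂ) * ((φ z : ℂ) *
      (TP _ (fun ν => r n * c n ν) z * TP _ (aK (E n) K (fun ν => r n * c n ν)) z))
    rw [aK_smul, TP_smul, TP_smul]
    linear_combination (-((φ z : ℂ) * (TP (V (E n)) (c n) z *
      TP (V (E n)) (aK (E n) K (c n)) z))) * hr2 n
  -- total mass
  have hmass : Tendsto s atTop (𝓝 1) := by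
    have h1 : Tendsto (fun n => ∑ ν ∈ V (E n), (r n * c n ν) *
        aK (E n) 0 (fun ν => r n * c n ν) (-ν)) atTop (𝓝 1) := by
      refine tendsto_const_nhds.congr fun n => ?_
      have h2 : ∀ ν ∈ V (E n), (r n * c n ν) * aK (E n) 0 (fun ν => r n * c n ν) (-ν) =
          ((‖r n * c n ν‖ ^ 2 : ℝ) : ℂ) := by
        intro ν _
        unfold aK
        rw [pow_zero, mul_one]
        show (r n * c n ν) * (r n * c n (-ν)) = _
        rw [hbc, Complex.mul_conj, Complex.normSq_eq_norm_sq]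
      rw [Finset.sum_congr rfl h2, ← Complex.ofReal_sum, hb1, Complex.ofReal_one]
    have h2 := QEG.bil UNI E hns (fun n ν => r n * c n ν)
      (fun n => aK (E n) 0 (fun ν => r n * c n ν)) (fun n => (hb1 n).le) (fun n => by
        rw [Finset.sum_congr rfl fun ν hν => by rw [aK_norm (hE n) 0 _ hν]]
        exact (hb1 n).le) 1 h1 φ hφ hcs
    have h3 := hq 0
    rw [if_pos rfl] at h3
    simp_rw [hint 0] at h3
    rw [mul_one] at h2
    have h4 := h3.div h2 hIc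
    rw [div_self hIc] at h4
    have h5 : ∀ᶠ n in atTop, (∫ z, (φ z : ℂ) * (TP (V (E n)) (fun ν => r n * c n ν) z *
        TP (V (E n)) (aK (E n) 0 (fun ν => r n * c n ν)) z)) ≠ 0 :=
      h2.eventually_ne hIc
    have h6 : Tendsto (fun n => (s n : ℂ)) atTop (𝓝 1) := by
      refine h4.congr' ?_
      filter_upwards [h5] with n hn
      exact mul_div_cancel_right₀ _ hn
    have h7 := (Complex.continuous_re.tendsto _).comp h6
    rw [Complex.one_re] at h7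
    exact h7
  refine ⟨hmass.congr hsd, neg_exp fun K hK => ?_⟩
  have h1 := hq K
  rw [if_neg hK] at h1
  simp_rw [hint K] at h1
  have hsc : Tendsto (fun n => (s n : ℂ)) atTop (𝓝 1) := by
    have h2 := (Complex.continuous_ofReal.tendsto _).comp hmass
    rwa [Complex.ofReal_one] at h2
  have h2 := h1.div hsc one_ne_zero
  rw [zero_div] at h2
  have h3 := bil_inv E hns (fun n ν => r n * c n ν)
    (fun n => aK (E n) K (fun ν => r n * c n ν)) (fun n => (hb1 n).le) (fun n => by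
      rw [Finset.sum_congr rfl fun ν hν => by rw [aK_norm (hE n) K _ hν]]
      exact (hb1 n).le) φ hφ hcs hI (h2.congr fun n => by
        have h4 : (s n : ℂ) ≠ 0 := by exact_mod_cast (hs0 n).ne'
        exact mul_div_cancel_left₀ _ h4)
  have h4 : ∀ n, ‖∑ ν ∈ V (E n), (r n * c n ν) * aK (E n) K (fun ν => r n * c n ν) (-ν)‖ =
      ‖∑ ν ∈ V (E n), ((‖r n * c n ν‖ ^ 2 : ℝ) : ℂ) *
        Complex.exp (I * ((K : ℤ) * dirn ν : ℝ))‖ := by
    intro n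
    rw [aK_sum (c := fun ν => r n * c n ν) (hE n) K (hbc n), norm_mul, norm_pow, norm_neg,
      Complex.norm_I, one_pow, one_mul, RCLike.norm_conj]
  have h5 : Tendsto (fun n => ∑ ν ∈ V (E n), ((‖r n * c n ν‖ ^ 2 : ℝ) : ℂ) *
      Complex.exp (I * ((K : ℤ) * dirn ν : ℝ))) atTop (𝓝 0) := by
    rw [tendsto_zero_iff_norm_tendsto_zero] at h3 ⊢
    exact h3.congr h4
  have h6 := hsc.mul h5
  rw [mul_zero] at h6
  refine h6.congr fun n => ?_
  rw [Finset.mul_sum]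
  refine Finset.sum_congr rfl fun ν _ => ?_
  rw [← mul_assoc, ← Complex.ofReal_mul, norm_mul, mul_pow, hrn, ← mul_assoc,
    mul_one_div_cancel (hs0 n).ne', one_mul]

theorem qe_coef (E : ℕ → ℕ) (hE : ∀ n, 0 < E n) (hns : ∀ R : ℕ, ∀ᶠ n in atTop, NoSmall 2 R (E n))
    (c : ℕ → GI → ℂ) (hc : ∀ n ν, c n (-ν) = (starRingEnd ℂ) (c n ν))
    (u : ℕ → ℂ → ℝ) (hu : ∀ n z, (u n z : ℂ) = ∑ ν ∈ V (E n), c n ν * ch ν z)
    (U : Set ℂ) (hU : IsOpen U) (hne : U.Nonempty)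
    (hq : IsQuantumErgodic U (fun n => lamE (E n)) u) :
    Tendsto (fun n => ∑ ν ∈ V (E n), ‖c n ν‖ ^ 2) atTop (𝓝 1) ∧
    ∀ q : ℤ, q ≠ 0 → Tendsto (fun n => ∑ ν ∈ V (E n), ((‖c n ν‖ ^ 2 : ℝ) : ℂ) *
      Complex.exp (I * (q * dirn ν : ℝ))) atTop (𝓝 0) := by
  obtain ⟨φ, hφ, hI⟩ : ∃ φ : ℂ → ℝ, TF U φ ∧ (∫ z, φ z) ≠ 0 := by
    obtain ⟨x, hx⟩ := hne
    obtain ⟨δ, hδ, hball⟩ := Metric.isOpen_iff.1 hU x hx
    have hpos : 0 < volume.real (Metric.ball x δ) := by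
      rw [measureReal_def]
      exact ENNReal.toReal_pos (Metric.measure_ball_pos volume x hδ).ne'
        measure_ball_lt_top.ne
    obtain ⟨φ, h1, -, h3⟩ := exists_tf (Metric.ball x δ) Metric.isOpen_ball
      measure_ball_lt_top.ne (volume.real (Metric.ball x δ) / 2) (by positivity)
    exact ⟨φ, ⟨h1.1, h1.2.1, h1.2.2.trans hball⟩, by linarith⟩
  have hIc : ((∫ z, φ z : ℝ) : ℂ) ≠ 0 := by exact_mod_cast hI
  have h0 := hq φ hφ 0
  rw [if_pos rfl] at h0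
  have h1 : ∀ᶠ n in atTop, 0 < ∑ ν ∈ V (E n), ‖c n ν‖ ^ 2 := by
    filter_upwards [h0.eventually_ne hIc] with n hn
    by_contra hcon
    have h2 : ∑ ν ∈ V (E n), ‖c n ν‖ ^ 2 = 0 :=
      le_antisymm (not_lt.1 hcon) (Finset.sum_nonneg fun ν _ => by positivity)
    have h3 : ∀ ν ∈ V (E n), c n ν = 0 := by
      intro ν hν
      have h4 := (Finset.sum_eq_zero_iff_of_nonneg (fun ν _ => by positivity)).1 h2 ν hν
      exact norm_eq_zero.1 (pow_eq_zero_iff (two_ne_zero) |>.1 h4)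
    apply hn
    have h5 : ∀ z, (u n z : ℂ) = 0 := by
      intro z
      rw [hu]
      exact Finset.sum_eq_zero fun ν hν => by rw [h3 ν hν, zero_mul]
    simp_rw [h5]
    simp
  obtain ⟨n0, hn0⟩ := eventually_atTop.1 h1
  obtain ⟨h2, h3⟩ := qe_coef0 (fun n => E (n + n0)) (fun n => hE _)
    (fun R => (tendsto_add_atTop_nat n0).eventually (hns R)) (fun n => c (n + n0))
    (fun n => hc _) (fun n => u (n + n0)) (fun n => hu _) (fun n => hn0 _ (Nat.le_add_left _ _))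
    φ hφ.1.continuous hφ.2.1 hI (fun k => (tendsto_add_atTop_iff_nat n0).2 (hq φ hφ k))
  refine ⟨(tendsto_add_atTop_iff_nat n0).1 h2, fun q hq0 => ?_⟩
  exact (tendsto_add_atTop_iff_nat n0).1 (h3 q hq0)

end

end Pool.Agent.L0h77.BW
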