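import Pool.Agent.L0h77.BW.Gen2

/-! MP_6b977f_mp, project BW: all eigenfunctions of the torus and all open sets, 3 -/

set_option autoImplicit false
set_option maxHeartbeats 400000
open MeasureTheory Filter Topology Complex
open scoped ContDiff

namespace Pool.Agent.L0h77.BW

open Pool.Agent.L0h56.BQ
open Pool.Agent.N661.BR (MW lin J0 resc IsCutoff IsQuantumErgodic IsRandomWave IsLocalLimit)
open Pool.Agent.W745.RW (TF Dp)

noncomputable section

/-- all real linear combinations of the functions `cos (π (a x + b y))` and `sin (π (a x + b y))`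
with integers `a`, `b` such that `a² + b² = e`: the real eigenfunctions of the flat torus `ℝ² / 2 ℤ²`
for the eigenvalue `π² e` -/
def TorE (e : ℕ) : Submodule ℝ (ℂ → ℝ) :=
  Submodule.span ℝ {f | ∃ a b : ℤ, a ^ 2 + b ^ 2 = e ∧
    ((f = fun z => Real.cos (Real.pi * (a * z.re + b * z.im))) ∨
      f = fun z => Real.sin (Real.pi * (a * z.re + b * z.im)))}

theorem DirE_le (e : ℕ) : DirE e ≤ TorE e := by
  refine Submodule.span_le.2 ?_
  rintro f ⟨a, b, hab, rfl⟩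
  have h1 : (fun z : ℂ => Real.cos (Real.pi * (((a : ℤ) : ℝ) * z.re + ((b : ℤ) : ℝ) * z.im))) ∈
      TorE e := Submodule.subset_span ⟨a, b, by exact_mod_cast hab, Or.inl rfl⟩
  have h2 : (fun z : ℂ => Real.cos (Real.pi * (((a : ℤ) : ℝ) * z.re + ((-(b : ℤ) : ℤ) : ℝ) * z.im))) ∈
      TorE e := Submodule.subset_span ⟨a, -b, by rw [neg_sq]; exact_mod_cast hab, Or.inl rfl⟩
  have h3 := Submodule.sub_mem _ (Submodule.smul_mem _ (1 / 2 : ℝ) h2)
    (Submodule.smul_mem _ (1 / 2 : ℝ) h1)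
  refine (congrArg (· ∈ TorE e) (funext fun z => ?_)).mp h3
  show 1 / 2 * Real.cos (Real.pi * (((a : ℤ) : ℝ) * z.re + ((-(b : ℤ) : ℤ) : ℝ) * z.im)) -
    1 / 2 * Real.cos (Real.pi * (((a : ℤ) : ℝ) * z.re + ((b : ℤ) : ℝ) * z.im)) =
    Real.sin (Real.pi * a * z.re) * Real.sin (Real.pi * b * z.im)
  have e1 : Real.pi * (((a : ℤ) : ℝ) * z.re + ((-(b : ℤ) : ℤ) : ℝ) * z.im) =
      Real.pi * a * z.re - Real.pi * b * z.im := by push_cast; ring
  have e2 : Real.pi * (((a : ℤ) : ℝ) * z.re + ((b : ℤ) : ℝ) * z.im) =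
      Real.pi * a * z.re + Real.pi * b * z.im := by push_cast; ring
  rw [e1, e2, Real.cos_sub, Real.cos_add]
  ring

theorem NeuE_le (e : ℕ) : NeuE e ≤ TorE e := by
  refine Submodule.span_le.2 ?_
  rintro f ⟨a, b, hab, rfl⟩
  have h1 : (fun z : ℂ => Real.cos (Real.pi * (((a : ℤ) : ℝ) * z.re + ((b : ℤ) : ℝ) * z.im))) ∈
      TorE e := Submodule.subset_span ⟨a, b, by exact_mod_cast hab, Or.inl rfl⟩
  have h2 : (fun z : ℂ => Real.cos (Real.pi * (((a : ℤ) : ℝ) * z.re + ((-(b : ℤ) : ℤ) : ℝ) * z.im))) ∈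
      TorE e := Submodule.subset_span ⟨a, -b, by rw [neg_sq]; exact_mod_cast hab, Or.inl rfl⟩
  have h3 := Submodule.add_mem _ (Submodule.smul_mem _ (1 / 2 : ℝ) h2)
    (Submodule.smul_mem _ (1 / 2 : ℝ) h1)
  refine (congrArg (· ∈ TorE e) (funext fun z => ?_)).mp h3
  show 1 / 2 * Real.cos (Real.pi * (((a : ℤ) : ℝ) * z.re + ((-(b : ℤ) : ℤ) : ℝ) * z.im)) +
    1 / 2 * Real.cos (Real.pi * (((a : ℤ) : ℝ) * z.re + ((b : ℤ) : ℝ) * z.im)) =
    Real.cos (Real.pi * a * z.re) * Real.cos (Real.pi * b * z.im)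
  have e1 : Real.pi * (((a : ℤ) : ℝ) * z.re + ((-(b : ℤ) : ℤ) : ℝ) * z.im) =
      Real.pi * a * z.re - Real.pi * b * z.im := by push_cast; ring
  have e2 : Real.pi * (((a : ℤ) : ℝ) * z.re + ((b : ℤ) : ℝ) * z.im) =
      Real.pi * a * z.re + Real.pi * b * z.im := by push_cast; ring
  rw [e1, e2, Real.cos_sub, Real.cos_add]
  ring

/-- hermitian coefficients -/
structure CRep (e : ℕ) (c : GI → ℂ) (u : ℂ → ℝ) : Prop where
  neg : ∀ ν, c (-ν) = (starRingEnd ℂ) (c ν)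
  eq : ∀ z, (u z : ℂ) = ∑ ν ∈ V e, c ν * ch ν z

theorem CRep.congr {e : ℕ} {c : GI → ℂ} {u u' : ℂ → ℝ} (h : CRep e c u) (hu : u = u') :
    CRep e c u' := hu ▸ h

theorem CRep.gen {e : ℕ} {g : GI} (hg : g ∈ V e) (α : ℂ) :
    CRep e (fun ν => α * (if ν = g then 1 else 0) + (starRingEnd ℂ) α * (if ν = -g then 1 else 0))
      (fun z => 2 * (α * ch g z).re) where
  neg := fun ν => by
    have h1 : ∀ x : GI, (-ν = x) = (ν = -x) := fun x => by rw [neg_eq_iff_eq_neg]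
    simp only [h1, neg_neg]
    by_cases h2 : ν = g
    · by_cases h3 : ν = -g
      · rw [if_pos h2, if_pos h3]
        simp
        ring
      · rw [if_pos h2, if_neg h3]
        simp
    · by_cases h3 : ν = -g
      · rw [if_neg h2, if_pos h3]
        simp
      · rw [if_neg h2, if_neg h3]
        simp
  eq := fun z => by
    simp only [add_mul]
    rw [Finset.sum_add_distrib]
    have h1 : ∀ (x : GI) (β : ℂ), x ∈ V e →
        ∑ ν ∈ V e, β * (if ν = x then 1 else 0) * ch ν z = β * ch x z := by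
      intro x β hx
      rw [Finset.sum_eq_single x]
      · rw [if_pos rfl, mul_one]
      · intro ν _ hν
        rw [if_neg hν, mul_zero, zero_mul]
      · intro h
        exact absurd hx h
    rw [h1 g α hg, h1 (-g) _ (neg_mem_V hg), ch_neg, ← map_mul, Complex.add_conj]

theorem CRep.zero (e : ℕ) : CRep e (fun _ => 0) (fun _ => 0) :=
  ⟨fun _ => by simp, fun z => by simp⟩

theorem CRep.add {e : ℕ} {c c' : GI → ℂ} {u u' : ℂ → ℝ} (h : CRep e c u) (h' : CRep e c' u') :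
    CRep e (fun ν => c ν + c' ν) (fun z => u z + u' z) :=
  ⟨fun ν => by rw [h.neg, h'.neg, map_add], fun z => by
    push_cast
    rw [h.eq, h'.eq, ← Finset.sum_add_distrib]
    exact Finset.sum_congr rfl fun ν _ => by ring⟩

theorem CRep.smul {e : ℕ} {c : GI → ℂ} {u : ℂ → ℝ} (h : CRep e c u) (r : ℝ) :
    CRep e (fun ν => (r : ℂ) * c ν) (fun z => r * u z) :=
  ⟨fun ν => by rw [h.neg, map_mul, Complex.conj_ofReal], fun z => by
    push_cast
    rw [h.eq, Finset.mul_sum]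
    exact Finset.sum_congr rfl fun ν _ => by ring⟩

theorem re_half (θ : ℝ) : 2 * (1 / 2 * Complex.exp ((θ : ℝ) * I)).re = Real.cos θ := by
  have h1 : (1 / 2 * Complex.exp ((θ : ℝ) * I)) =
      ((Real.cos θ / 2 : ℝ) : ℂ) + ((Real.sin θ / 2 : ℝ) : ℂ) * I := by
    rw [Complex.exp_mul_I, ← Complex.ofReal_cos, ← Complex.ofReal_sin]
    push_cast
    ring
  rw [h1, Complex.add_re, Complex.ofReal_re, Complex.re_ofReal_mul, Complex.I_re]
  ring

theorem re_halfI (θ : ℝ) : 2 * (-I / 2 * Complex.exp ((θ : ℝ) * I)).re = Real.sin θ := by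
  have h1 : (-I / 2 * Complex.exp ((θ : ℝ) * I)) =
      ((Real.sin θ / 2 : ℝ) : ℂ) + ((-(Real.cos θ / 2) : ℝ) : ℂ) * I := by
    rw [Complex.exp_mul_I, ← Complex.ofReal_cos, ← Complex.ofReal_sin]
    push_cast
    linear_combination (-(Complex.sin (θ : ℂ)) / 2) * Complex.I_mul_I
  rw [h1, Complex.add_re, Complex.ofReal_re, Complex.re_ofReal_mul, Complex.I_re]
  ring

theorem TorE_rep {e : ℕ} {u : ℂ → ℝ} (hu : u ∈ TorE e) : ∃ c, CRep e c u := by
  refine Submodule.span_induction (p := fun (f : ℂ → ℝ) _ => ∃ c, CRep e c f) ?_ ?_ ?_ ?_ hu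
  · rintro f ⟨a, b, hab, hf⟩
    have hg : (⟨a, b⟩ : GI) ∈ V e := by
      rw [mem_V, norm_eq]
      exact hab
    rcases hf with rfl | rfl
    · refine ⟨_, (CRep.gen hg (1 / 2)).congr (funext fun z => ?_)⟩
      exact re_half _
    · refine ⟨_, (CRep.gen hg (-I / 2)).congr (funext fun z => ?_)⟩
      exact re_halfI _
  · exact ⟨_, CRep.zero e⟩
  · rintro f g _ _ ⟨c, hc⟩ ⟨c', hc'⟩
    exact ⟨_, hc.add hc'⟩
  · rintro r f _ ⟨c, hc⟩
    exact ⟨_, hc.smul r⟩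

/-- for typical energies, quantum ergodicity on one open set implies everything -/
theorem gen_one {S : Set ℕ} (hG : ∀ E : ℕ → ℕ, (∀ n, E n ∈ S) → (∀ n, 0 < E n) →
      Tendsto E atTop atTop → ∀ κ : ℕ → ℝ, (∀ n, 0 ≤ κ n) → Tendsto κ atTop (𝓝 0) → Good E κ)
    (E : ℕ → ℕ) (hE : ∀ n, 0 < E n ∧ E n ∈ S) (hEt : Tendsto E atTop atTop)
    (u : ℕ → ℂ → ℝ) (hu : ∀ n, u n ∈ TorE (E n)) (U : Set ℂ) (hU : IsOpen U) (hne : U.Nonempty)
    (hq : IsQuantumErgodic U (fun n => lamE (E n)) u) :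
    (∀ Ω : Set ℂ, IsQuantumErgodic Ω (fun n => lamE (E n)) u) ∧
    ∀ Ω : Set ℂ, IsOpen Ω → Bornology.IsBounded Ω → Ω.Nonempty →
      HasRandomWaveLimit Ω (fun n => lamE (E n)) u := by
  have hE0 : ∀ n, 0 < E n := fun n => (hE n).1
  choose c hc using fun n => TorE_rep (hu n)
  have hns : ∀ R : ℕ, ∀ᶠ n in atTop, NoSmall 2 R (E n) := fun R =>
    (hG E (fun n => (hE n).2) hE0 hEt (fun _ => 0) (fun _ => le_rfl) tendsto_const_nhds).small 2 R
  obtain ⟨hmass, hA⟩ := qe_coef E hE0 hns c (fun n => (hc n).neg) u (fun n => (hc n).eq) U hU hne hq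
  have hκ : Tendsto (fun n => kap (E n) (fun ν => ‖c n ν‖)) atTop (𝓝 0) := by
    rw [Metric.tendsto_nhds]
    intro ε hε
    refine (weyl_small' (fun n => V (E n)) (fun n ν => ‖c n ν‖ ^ 2) (fun n ν _ => by positivity)
      hmass hA ((ε / 2) ^ 2) (by positivity)).mono fun n h => ?_
    rw [Real.dist_eq, sub_zero, abs_of_nonneg (kap_nn _ _)]
    have := kap_le (E n) (fun ν => ‖c n ν‖) (ε / 2) (by positivity) fun ν hν => by
      rw [abs_of_nonneg (norm_nonneg _)]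
      exact le_of_sq_le_sq (h ν hν) (by positivity)
    linarith
  have hgood := hG E (fun n => (hE n).2) hE0 hEt (fun n => kap (E n) (fun ν => ‖c n ν‖))
    (fun n => kap_nn _ _) hκ
  have hle : ∀ n, ∀ ν ∈ V (E n), ‖c n ν‖ ≤ kap (E n) (fun ν => ‖c n ν‖) := fun n ν hν =>
    (le_abs_self _).trans (le_kap (E n) (fun ν => ‖c n ν‖) ν hν)
  refine ⟨fun Ω => qeg' E hE0 hns c (fun n => (hc n).neg) u (fun n => (hc n).eq) hmass hA Ω,
    fun Ω ho hbd hne' => ⟨fun χ hχ μ hμ => ?_, fun Ω' hsub ho' hne'' K w t =>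
      ⟨fun χ hχ => ?_, fun k => ?_⟩⟩⟩
  · exact limit_iff χ Ω _ u (fun K w t => torus_lim' gl E _ hgood c (fun n => (hc n).neg) hmass hle
      hA u (fun n => (hc n).eq) Ω ho Ω ho hbd hne' subset_rfl χ hχ K w t) μ
  · exact torus_lim' gl E _ hgood c (fun n => (hc n).neg) hmass hle
      hA u (fun n => (hc n).eq) Ω ho Ω' ho' (hbd.subset hsub) hne'' hsub χ hχ K w t
  · exact torus_mom' E _ hgood c (fun n => (hc n).neg) hmass hle
      hA u (fun n => (hc n).eq) Ω' ho' (hbd.subset hsub) hne'' K w t k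

/-- removal of countably many sets of density zero, up to finitely many elements -/
theorem cnt_diag (P : ℕ → ℕ → Prop) (hP : ∀ j, DZ (P j)) (ε : ℝ) (hε : 0 < ε) :
    ∃ T : ℕ → ℕ, ∀ X : ℕ, (cnt (fun e => ∃ j, T j < e ∧ P j e) X : ℝ) ≤ ε * X := by
  classical
  have hεj : ∀ j : ℕ, 0 < ε / 2 ^ (j + 1) := fun j => by positivity
  have hA : ∀ j : ℕ, ∃ T : ℕ, j ≤ T ∧ ∀ X : ℕ,
      (cnt (fun e => T < e ∧ P j e) X : ℝ) ≤ ε / 2 ^ (j + 1) * X :=
    fun j => cnt_tail (hεj j) (hP j _ (hεj j)) j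
  choose T hT hA using hA
  refine ⟨T, fun X => ?_⟩
  have h1 : cnt (fun e => ∃ j, T j < e ∧ P j e) X ≤ cnt (fun e => ∃ j < X, T j < e ∧ P j e) X := by
    apply cls_cnt_mono
    rintro e _ heX ⟨j, hj1, hj2⟩
    have := hT j
    exact ⟨j, by omega, hj1, hj2⟩
  have h2 := h1.trans (cnt_exists (fun j e => T j < e ∧ P j e) X X)
  have h4 : (cnt (fun e => ∃ j, T j < e ∧ P j e) X : ℝ) ≤ ∑ j ∈ Finset.range X,
      (ε / 2 ^ (j + 1) * X) := by
    have h6 : (cnt (fun e => ∃ j, T j < e ∧ P j e) X : ℝ) ≤ ∑ j ∈ Finset.range X,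
        (cnt (fun e => T j < e ∧ P j e) X : ℝ) := by exact_mod_cast h2
    exact h6.trans (Finset.sum_le_sum fun j _ => hA j X)
  refine h4.trans ?_
  have h7 : ∀ J : ℕ, ∑ j ∈ Finset.range J, (1 / (2 : ℝ) ^ (j + 1)) ≤ 1 := by
    intro J
    have h8 : ∑ j ∈ Finset.range J, (1 / (2 : ℝ) ^ (j + 1)) = 1 - 1 / 2 ^ J := by
      induction J with
      | zero => norm_num
      | succ J ih =>
        rw [Finset.sum_range_succ, ih, pow_succ]
        field_simp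
        ring
    rw [h8]
    have : (0 : ℝ) < 1 / 2 ^ J := by positivity
    linarith
  have h9 : ∑ j ∈ Finset.range X, (ε / 2 ^ (j + 1) * X) =
      ε * X * ∑ j ∈ Finset.range X, (1 / (2 : ℝ) ^ (j + 1)) := by
    rw [Finset.mul_sum]
    refine Finset.sum_congr rfl fun j _ => ?_
    ring
  rw [h9]
  have h10 : (0 : ℝ) ≤ ε * X := by positivity
  exact mul_le_of_le_one_right h10 (h7 X)

/-- the exceptional sets for existence -/
def Pj (j : ℕ) (e : ℕ) : Prop :=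
  1 / (((Nat.unpair j).2 : ℝ) + 1) < |avg e ((Nat.unpair j).1 + 1)|

theorem Pj_dz (j : ℕ) : DZ (Pj j) := MEAN big ne _ (Nat.succ_pos _) _ (by positivity)

/-- the main theorem for typical energies -/
theorem gen_main (ε : ℝ) (hε : 0 < ε) : ∃ S : Set ℕ,
    (∀ X : ℕ, (cnt (fun e => e ∉ S) X : ℝ) ≤ ε * X) ∧
    ∀ E : ℕ → ℕ, (∀ n, 0 < E n ∧ E n ∈ S) → Tendsto E atTop atTop →
      (∀ u : ℕ → ℂ → ℝ, (∀ n, u n ∈ TorE (E n)) → ∀ U : Set ℂ, IsOpen U → U.Nonempty →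
        IsQuantumErgodic U (fun n => lamE (E n)) u →
        (∀ Ω : Set ℂ, IsQuantumErgodic Ω (fun n => lamE (E n)) u) ∧
        ∀ Ω : Set ℂ, IsOpen Ω → Bornology.IsBounded Ω → Ω.Nonempty →
          HasRandomWaveLimit Ω (fun n => lamE (E n)) u) ∧
      ((∀ n, ∃ a b : ℕ, 0 < a ∧ 0 < b ∧ a ^ 2 + b ^ 2 = E n) →
        ∃ u : ℕ → ℂ → ℝ, (∀ n, u n ∈ DirE (E n)) ∧
          (∀ Ω : Set ℂ, IsPoly Ω → ∀ n, ∫ z in Ω, u n z ^ 2 = volume.real Ω) ∧
          ∀ Ω : Set ℂ, IsQuantumErgodic Ω (fun n => lamE (E n)) u) := by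
  obtain ⟨S0, hS0, hG⟩ := cls (ε / 2) (by positivity)
  obtain ⟨T, hT⟩ := cnt_diag Pj Pj_dz (ε / 2) (by positivity)
  have hsub : ∀ {E : ℕ → ℕ}, (∀ n, 0 < E n ∧ E n ∈ S0 ∩ {e | ¬ ∃ j, T j < e ∧ Pj j e}) →
      ∀ n, 0 < E n ∧ E n ∈ S0 := fun h n => ⟨(h n).1, (h n).2.1⟩
  refine ⟨S0 ∩ {e | ¬ ∃ j, T j < e ∧ Pj j e}, fun X => ?_, fun E hE hEt =>
    ⟨fun u hu U hU hne hq => gen_one hG E (hsub hE) hEt u hu U hU hne hq, fun hab => ?_⟩⟩
  · have h1 : cnt (fun e => e ∉ S0 ∩ {e | ¬ ∃ j, T j < e ∧ Pj j e}) X ≤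
        cnt (fun e => e ∉ S0 ∨ ∃ j, T j < e ∧ Pj j e) X := by
      apply cls_cnt_mono
      intro e _ _ he
      by_contra hcon
      rw [not_or, not_not] at hcon
      exact he ⟨hcon.1, hcon.2⟩
    have h2 := h1.trans (cnt_or _ _ X)
    have h3 : (cnt (fun e => e ∉ S0 ∩ {e | ¬ ∃ j, T j < e ∧ Pj j e}) X : ℝ) ≤
        (cnt (fun e => e ∉ S0) X : ℝ) + (cnt (fun e => ∃ j, T j < e ∧ Pj j e) X : ℝ) := by
      exact_mod_cast h2
    have h4 := hS0 X
    have h5 := hT X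
    linarith
  · have hE0 : ∀ n, 0 < E n := fun n => (hE n).1
    have hW : ∀ n, 0 < (W' (E n)).card := by
      intro n
      obtain ⟨a, b, ha, hb, h⟩ := hab n
      refine Finset.card_pos.2 ⟨(⟨a, b⟩ : GI), ?_⟩
      unfold W'
      rw [Finset.mem_filter, mem_V, norm_eq]
      refine ⟨?_, ?_, ?_⟩
      · show (a : ℤ) ^ 2 + (b : ℤ) ^ 2 = (E n : ℤ)
        exact_mod_cast h
      · show (a : ℤ) ≠ 0
        omega
      · show (b : ℤ) ≠ 0
        omega
    have hr : ∀ n, Rep (-1) (E n) (be (E n)) (ue (E n)) := fun n => be_rep _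
    have hb1 : ∀ n, ∑ ν ∈ V (E n), be (E n) ν ^ 2 = 1 := fun n => be_norm _ (hW n)
    have hns : ∀ R : ℕ, ∀ᶠ n in atTop, NoSmall 2 R (E n) := fun R =>
      (hG E (fun n => (hE n).2.1) hE0 hEt (fun _ => 0) (fun _ => le_rfl)
        tendsto_const_nhds).small 2 R
    refine ⟨fun n => ue (E n), fun n => ue_mem _, fun Ω hΩ n => ?_, fun Ω => ?_⟩
    · have h1 := sq_int (σ := -1) (by norm_num) hr hΩ n
      rw [hb1 n, mul_one] at h1
      exact h1
    · refine qeg E hE0 hns (-1) (fun n => be (E n)) (fun n => ue (E n)) hr hb1 ?_ Ω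
      intro q hq
      refine ang_of_even hE0 hr (fun q hq1 => ?_) (by norm_num) q hq
      obtain ⟨q', rfl⟩ := Nat.exists_eq_succ_of_ne_zero hq1
      have h2 : ∀ n, ∑ ν ∈ V (E n), be (E n) ν ^ 2 * ((uE (E n) ν) ^ (2 * (q' + 1))).re =
          avg (E n) (q' + 1) := by
        intro n
        rw [be_sq]
        unfold avg
        ring
      simp_rw [Nat.succ_eq_add_one, h2]
      rw [Metric.tendsto_nhds]
      intro δ hδ
      obtain ⟨l, hl⟩ := exists_nat_gt (1 / δ)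
      filter_upwards [hEt.eventually_gt_atTop (T (Nat.pair q' l))] with n hn
      rw [Real.dist_eq, sub_zero]
      have h3 : ¬ Pj (Nat.pair q' l) (E n) := fun h => (hE n).2.2 ⟨_, hn, h⟩
      unfold Pj at h3
      rw [Nat.unpair_pair] at h3
      refine lt_of_le_of_lt (not_lt.1 h3) ?_
      rw [div_lt_iff₀ (by positivity)]
      rw [div_lt_iff₀ hδ] at hl
      nlinarith

end

end Pool.Agent.L0h77.BW
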