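import Pool.Agent.L0h77.BW.T_ONB1
import Pool.Agent.L0h77.BW.T_UNI
import Pool.Agent.L0h28.BW.T_QEG

/-! BW/ONB2: Dirichlet bases are complete -/

set_option autoImplicit false
open MeasureTheory Filter Topology Complex
open scoped ContDiff

namespace Pool.Agent.L0h77.BW

open Pool.Agent.L0h56.BQ

noncomputable section

theorem onb2_mem {z : ℂ} : z ∈ Sq ↔ (0 < z.re ∧ z.re < 1) ∧ 0 < z.im ∧ z.im < 1 := by
  constructor
  · rintro ⟨h1, h2⟩
    exact ⟨by simpa using h1, by simpa using h2⟩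
  · rintro ⟨h1, h2⟩
    exact ⟨by simpa using h1, by simpa using h2⟩

theorem onb2_norm {z : ℂ} (hz : z ∈ Sq) : ‖z‖ ≤ 2 := by
  obtain ⟨h1, h2⟩ := onb2_mem.1 hz
  refine (Complex.norm_le_abs_re_add_abs_im z).trans ?_
  rw [abs_of_pos h1.1, abs_of_pos h2.1]
  linarith [h1.2, h2.2]

theorem onb2_open : IsOpen Sq := by
  have h : Sq = {z : ℂ | (0 < z.re ∧ z.re < 1) ∧ 0 < z.im ∧ z.im < 1} := by
    ext z
    exact onb2_mem
  rw [h]
  exact ((isOpen_lt continuous_const Complex.continuous_re).inter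
    (isOpen_lt Complex.continuous_re continuous_const)).inter
    ((isOpen_lt continuous_const Complex.continuous_im).inter
      (isOpen_lt Complex.continuous_im continuous_const))

theorem onb2_int {f g : ℂ → ℝ} (hf : Integrable f (volume.restrict Sq)) (hg : Continuous g) :
    Integrable (fun z => f z * g z) (volume.restrict Sq) := by
  obtain ⟨C, hC⟩ := (isCompact_closedBall (0 : ℂ) 2).exists_bound_of_continuousOn hg.continuousOn
  refine hf.mul_bdd (c := C) hg.aestronglyMeasurable ?_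
  rw [ae_restrict_iff' onb2_open.measurableSet]
  refine Eventually.of_forall fun z hz => hC z ?_
  rw [mem_closedBall_zero_iff]
  exact onb2_norm hz

/-- a function orthogonal to the basis is orthogonal to all eigenfunctions -/
theorem onb2_all {E : ℕ → ℕ} {u : ℕ → ℂ → ℝ} (hu : IsBasis DirE E u) {f : ℂ → ℝ}
    (hf : Integrable f (volume.restrict Sq)) (h0 : ∀ n, ∫ z in Sq, f z * u n z = 0) (e : ℕ)
    {g : ℂ → ℝ} (hg : g ∈ DirE e) : ∫ z in Sq, f z * g z = 0 := by
  classical
  have h := onb1_dir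
  have hc : ∀ n, Continuous (u n) := fun n => h.cont (hu.mem n)
  have hm' : ∀ (n : {n // E n = e}), u n.1 ∈ DirE e := by
    rintro ⟨n, rfl⟩
    exact hu.mem n
  have hli : LinearIndependent ℝ (fun n : {n // E n = e} => (⟨u n.1, hm' n⟩ : DirE e)) := by
    rw [linearIndependent_iff']
    intro s c hs i hi
    have h1 : ∀ z, ∑ n ∈ s, c n * u n.1 z = 0 := by
      intro z
      have h2 := congrArg (fun x : DirE e => (x : ℂ → ℝ) z) hs
      simp only [Submodule.coe_sum, Submodule.coe_smul, Submodule.coe_zero, Finset.sum_apply,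
        Pi.smul_apply, smul_eq_mul, Pi.zero_apply] at h2
      exact h2
    have h2 : ∫ z in Sq, (∑ n ∈ s, c n * u n.1 z) * u i.1 z =
        ∑ n ∈ s, c n * (if n.1 = i.1 then 1 else 0) := by
      have e1 : ∀ z, (∑ n ∈ s, c n * u n.1 z) * u i.1 z = ∑ n ∈ s, c n * (u n.1 z * u i.1 z) := by
        intro z
        rw [Finset.sum_mul]
        exact Finset.sum_congr rfl fun n _ => by ring
      simp_rw [e1]
      rw [integral_finsetSum s (f := fun (n : {n // E n = e}) z => c n * (u n.1 z * u i.1 z))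
        (fun n _ => onb1_int (continuous_const.mul ((hc n.1).mul (hc i.1))))]
      refine Finset.sum_congr rfl fun n _ => ?_
      rw [integral_const_mul, hu.orth]
    simp_rw [h1] at h2
    simp only [zero_mul, integral_zero] at h2
    rw [Finset.sum_eq_single i] at h2
    · rw [if_pos rfl, mul_one] at h2
      exact h2.symm
    · intro n _ hn
      rw [if_neg (fun h => hn (Subtype.ext h)), mul_zero]
    · intro hn
      exact absurd hi hn
  have := h.fin e
  have hfin : Finite {n // E n = e} := hli.finite_of_isNoetherian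
  let _ : Fintype {n // E n = e} := Fintype.ofFinite _
  have hcard : Fintype.card {n // E n = e} = Module.finrank ℝ (DirE e) := by
    rw [← hu.full e, ← Nat.card_coe_set_eq, ← Nat.card_eq_fintype_card]
    rfl
  have hspan := hli.span_eq_top_of_card_eq_finrank' hcard
  have hmem : (⟨g, hg⟩ : DirE e) ∈ Submodule.span ℝ
      (Set.range fun n : {n // E n = e} => (⟨u n.1, hm' n⟩ : DirE e)) := by
    rw [hspan]
    exact Submodule.mem_top
  refine Submodule.span_induction (p := fun (x : DirE e) _ =>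
    ∫ z in Sq, f z * (x : ℂ → ℝ) z = 0) ?_ ?_ ?_ ?_ hmem
  · rintro _ ⟨n, rfl⟩
    exact h0 n.1
  · simp
  · intro x y _ _ hx hy
    have e1 : ∀ z, f z * ((x + y : DirE e) : ℂ → ℝ) z =
        f z * (x : ℂ → ℝ) z + f z * (y : ℂ → ℝ) z := by
      intro z
      rw [Submodule.coe_add, Pi.add_apply]
      ring
    simp_rw [e1]
    rw [integral_add (onb2_int hf (h.cont x.2)) (onb2_int hf (h.cont y.2)), hx, hy, add_zero]
  · intro c x _ hx
    have e1 : ∀ z, f z * ((c • x : DirE e) : ℂ → ℝ) z = c * (f z * (x : ℂ → ℝ) z) := by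
      intro z
      rw [Submodule.coe_smul, Pi.smul_apply, smul_eq_mul]
      ring
    simp_rw [e1]
    rw [integral_const_mul, hx, mul_zero]

/-- the sign of an integer as a real number -/
def onb2_sg (a : ℤ) : ℝ := if 0 ≤ a then 1 else -1

theorem onb2_sin (a : ℤ) (x : ℝ) :
    Real.sin (Real.pi * (a * x)) = onb2_sg a * Real.sin (Real.pi * (a.natAbs : ℕ) * x) := by
  unfold onb2_sg
  split_ifs with h
  · have h1 : ((a.natAbs : ℕ) : ℝ) = (a : ℝ) := by
      rw [Nat.cast_natAbs, abs_of_nonneg h]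
    rw [h1, one_mul, mul_assoc]
  · have h1 : ((a.natAbs : ℕ) : ℝ) = -(a : ℝ) := by
      rw [Nat.cast_natAbs, abs_of_neg (not_le.1 h), Int.cast_neg]
    rw [h1, show Real.pi * -(a : ℝ) * x = -(Real.pi * (a * x)) by ring, Real.sin_neg]
    ring

/-- the part which is odd in both variables -/
theorem onb2_ch (ξ : GI) (z : ℂ) :
    ch ξ z - ch ξ ((starRingEnd ℂ) z) - ch ξ (-(starRingEnd ℂ) z) + ch ξ (-z) =
      -4 * (((onb2_sg ξ.re * onb2_sg ξ.im) * sinw ξ.re.natAbs ξ.im.natAbs z : ℝ) : ℂ) := by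
  have h1 : (onb2_sg ξ.re * onb2_sg ξ.im) * sinw ξ.re.natAbs ξ.im.natAbs z =
      Real.sin (Real.pi * (ξ.re * z.re)) * Real.sin (Real.pi * (ξ.im * z.im)) := by
    rw [onb2_sin, onb2_sin]
    unfold sinw
    ring
  rw [h1]
  unfold ch
  simp only [Complex.conj_re, Complex.conj_im, Complex.neg_re, Complex.neg_im]
  set a : ℝ := Real.pi * (ξ.re * z.re) with ha
  set b : ℝ := Real.pi * (ξ.im * z.im) with hb
  have e1 : (Real.pi * (ξ.re * z.re + ξ.im * z.im) : ℝ) = a + b := by rw [ha, hb]; ring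
  have e2 : (Real.pi * (ξ.re * z.re + ξ.im * -z.im) : ℝ) = a - b := by rw [ha, hb]; ring
  have e3 : (Real.pi * (ξ.re * -z.re + ξ.im * - -z.im) : ℝ) = -(a - b) := by rw [ha, hb]; ring
  have e4 : (Real.pi * (ξ.re * -z.re + ξ.im * -z.im) : ℝ) = -(a + b) := by rw [ha, hb]; ring
  rw [e1, e2, e3, e4]
  have h2 : ∀ t : ℝ, Complex.exp ((t : ℝ) * I) + Complex.exp (((-t : ℝ) : ℂ) * I) =
      2 * ((Real.cos t : ℝ) : ℂ) := by
    intro t
    rw [Complex.exp_mul_I, Complex.exp_mul_I, Complex.ofReal_neg, Complex.cos_neg,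
      Complex.sin_neg, Complex.ofReal_cos]
    ring
  have h3 := h2 (a + b)
  have h4 := h2 (a - b)
  rw [Real.cos_add] at h3
  rw [Real.cos_sub] at h4
  push_cast at h3 h4 ⊢
  linear_combination h3 - h4

/-- a function orthogonal to all products of sines is orthogonal to all test functions -/
theorem onb2_test {f : ℂ → ℝ} (hf : Integrable f (volume.restrict Sq))
    (h0 : ∀ a b : ℕ, ∫ z in Sq, f z * sinw a b z = 0) (g : ℂ → ℝ) (hg : Continuous g)
    (hs : ∀ z, z ∉ Sq → g z = 0) : ∫ z in Sq, f z * g z = 0 := by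
  set ψ : ℂ → ℝ := fun z => g z - g ((starRingEnd ℂ) z) - g (-(starRingEnd ℂ) z) + g (-z) with hψ
  have hψc : Continuous ψ := by
    have hc : Continuous fun z : ℂ => (starRingEnd ℂ) z := Complex.continuous_conj
    exact ((hg.sub (hg.comp hc)).sub (hg.comp hc.neg)).add (hg.comp continuous_neg)
  have hψ0 : ∀ z : ℂ, (1 ≤ |z.re| ∨ 1 ≤ |z.im|) → ψ z = 0 := by
    intro z hz
    have key : ∀ w : ℂ, |w.re| = |z.re| → |w.im| = |z.im| → g w = 0 := by
      intro w h1 h2
      refine hs w fun hw => ?_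
      obtain ⟨h3, h4⟩ := onb2_mem.1 hw
      rw [abs_of_pos h3.1] at h1
      rw [abs_of_pos h4.1] at h2
      rcases hz with hz | hz
      · linarith [h3.2]
      · linarith [h4.2]
    show g z - g ((starRingEnd ℂ) z) - g (-(starRingEnd ℂ) z) + g (-z) = 0
    rw [key z rfl rfl, key _ (by simp) (by simp), key _ (by simp) (by simp),
      key _ (by simp) (by simp)]
    ring
  have hR : ∀ w, ψ w ≠ 0 → ‖w‖ ≤ 2 := by
    intro w hw
    have h1 : |w.re| < 1 ∧ |w.im| < 1 := by
      by_contra h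
      refine hw (hψ0 w ?_)
      by_cases h2 : 1 ≤ |w.re|
      · exact Or.inl h2
      · right
        by_contra h3
        exact h ⟨not_le.1 h2, not_le.1 h3⟩
    exact (Complex.norm_le_abs_re_add_abs_im w).trans (by linarith [h1.1, h1.2])
  have hPh : ∀ z : ℂ, |z.re| < 1 → |z.im| < 1 → QEG.Ph ψ z = ((ψ z : ℝ) : ℂ) := by
    intro z h1 h2
    unfold QEG.Ph
    rw [finsum_eq_single _ (0 : ℤ × ℤ)]
    · simp [QEG.tv]
    · intro p hp
      rw [hψ0, Complex.ofReal_zero]
      rw [Complex.add_re, Complex.add_im, QEG.tv_re, QEG.tv_im]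
      have key : ∀ (a : ℤ) (x : ℝ), |x| < 1 → a ≠ 0 → 1 ≤ |x + 2 * (a : ℝ)| := by
        intro a x hx ha
        rw [abs_lt] at hx
        rcases lt_or_gt_of_ne ha with h | h
        · have h3 : (a : ℝ) ≤ -1 := by
            have : a ≤ -1 := by omega
            exact_mod_cast this
          rw [le_abs]
          right
          linarith
        · have h3 : (1 : ℝ) ≤ (a : ℝ) := by
            have : 1 ≤ a := by omega
            exact_mod_cast this
          rw [le_abs]
          left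
          linarith
      by_cases h3 : p.1 = 0
      · right
        exact key _ _ h2 fun h4 => hp (Prod.ext h3 h4)
      · left
        exact key _ _ h1 h3
  have hgv : ∀ z ∈ Sq, QEG.Ph ψ z = (g z : ℂ) ∧ QEG.Ph ψ ((starRingEnd ℂ) z) = -(g z : ℂ) ∧
      QEG.Ph ψ (-(starRingEnd ℂ) z) = -(g z : ℂ) ∧ QEG.Ph ψ (-z) = (g z : ℂ) := by
    intro z hz
    obtain ⟨h1, h2⟩ := onb2_mem.1 hz
    have ha : |z.re| < 1 := by rw [abs_of_pos h1.1]; exact h1.2
    have hb : |z.im| < 1 := by rw [abs_of_pos h2.1]; exact h2.2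
    have e1 : g ((starRingEnd ℂ) z) = 0 := hs _ fun h => by
      have := (onb2_mem.1 h).2.1
      rw [Complex.conj_im] at this
      linarith [h2.1]
    have e2 : g (-(starRingEnd ℂ) z) = 0 := hs _ fun h => by
      have := (onb2_mem.1 h).1.1
      rw [Complex.neg_re, Complex.conj_re] at this
      linarith [h1.1]
    have e3 : g (-z) = 0 := hs _ fun h => by
      have := (onb2_mem.1 h).1.1
      rw [Complex.neg_re] at this
      linarith [h1.1]
    refine ⟨?_, ?_, ?_, ?_⟩
    · rw [hPh z ha hb]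
      show ((g z - g ((starRingEnd ℂ) z) - g (-(starRingEnd ℂ) z) + g (-z) : ℝ) : ℂ) = _
      rw [e1, e2, e3]
      simp
    · rw [hPh _ (by simpa using ha) (by simpa using hb)]
      show ((g ((starRingEnd ℂ) z) - g ((starRingEnd ℂ) ((starRingEnd ℂ) z)) -
        g (-(starRingEnd ℂ) ((starRingEnd ℂ) z)) + g (-(starRingEnd ℂ) z) : ℝ) : ℂ) = _
      rw [Complex.conj_conj, e1, e2, e3]
      simp
    · rw [hPh _ (by simpa using ha) (by simpa using hb)]
      show ((g (-(starRingEnd ℂ) z) - g ((starRingEnd ℂ) (-(starRingEnd ℂ) z)) -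
        g (-(starRingEnd ℂ) (-(starRingEnd ℂ) z)) + g (-(-(starRingEnd ℂ) z)) : ℝ) : ℂ) = _
      rw [map_neg, Complex.conj_conj, neg_neg, neg_neg, e1, e2, e3]
      simp
    · rw [hPh _ (by simpa using ha) (by simpa using hb)]
      show ((g (-z) - g ((starRingEnd ℂ) (-z)) -
        g (-(starRingEnd ℂ) (-z)) + g (-(-z)) : ℝ) : ℂ) = _
      rw [map_neg, neg_neg, neg_neg, e1, e2, e3]
      simp
  have hfc : Integrable (fun z => (f z : ℂ)) (volume.restrict Sq) := hf.ofReal
  have hmain : ∀ ε : ℝ, 0 < ε → |∫ z in Sq, f z * g z| ≤ ε * ∫ z in Sq, |f z| := by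
    intro ε hε
    obtain ⟨T, a, hTa⟩ := UNI (QEG.Ph ψ) (QEG.Ph_cont ψ hψc 2 hR) (QEG.Ph_per ψ) ε hε
    let w : GI → ℂ → ℝ := fun ξ z =>
      (onb2_sg ξ.re * onb2_sg ξ.im) * sinw ξ.re.natAbs ξ.im.natAbs z
    have hwc : ∀ ξ, Continuous (w ξ) := by
      intro ξ
      show Continuous fun z => (onb2_sg ξ.re * onb2_sg ξ.im) * sinw ξ.re.natAbs ξ.im.natAbs z
      unfold sinw
      fun_prop
    have hw0 : ∀ ξ, ∫ z in Sq, f z * w ξ z = 0 := by
      intro ξ
      have e1 : ∀ z, f z * w ξ z =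
          (onb2_sg ξ.re * onb2_sg ξ.im) * (f z * sinw ξ.re.natAbs ξ.im.natAbs z) := by
        intro z
        show f z * ((onb2_sg ξ.re * onb2_sg ξ.im) * sinw ξ.re.natAbs ξ.im.natAbs z) = _
        ring
      simp_rw [e1]
      rw [integral_const_mul, h0, mul_zero]
    let P : ℂ → ℂ := fun z => ∑ ξ ∈ T, a ξ * (w ξ z : ℂ)
    have hb : ∀ z ∈ Sq, ‖(g z : ℂ) + P z‖ ≤ ε := by
      intro z hz
      obtain ⟨g1, g2, g3, g4⟩ := hgv z hz
      have t1 := hTa z
      have t2 := hTa ((starRingEnd ℂ) z)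
      have t3 := hTa (-(starRingEnd ℂ) z)
      have t4 := hTa (-z)
      rw [g1] at t1
      rw [g2] at t2
      rw [g3] at t3
      rw [g4] at t4
      have hP : -4 * P z = (∑ ξ ∈ T, a ξ * ch ξ z) - (∑ ξ ∈ T, a ξ * ch ξ ((starRingEnd ℂ) z)) -
          (∑ ξ ∈ T, a ξ * ch ξ (-(starRingEnd ℂ) z)) + ∑ ξ ∈ T, a ξ * ch ξ (-z) := by
        rw [← Finset.sum_sub_distrib, ← Finset.sum_sub_distrib, ← Finset.sum_add_distrib]
        show -4 * ∑ ξ ∈ T, a ξ * (w ξ z : ℂ) = _
        rw [Finset.mul_sum]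
        refine Finset.sum_congr rfl fun ξ _ => ?_
        have h5 := onb2_ch ξ z
        have h6 : ((w ξ z : ℝ) : ℂ) =
          (((onb2_sg ξ.re * onb2_sg ξ.im) * sinw ξ.re.natAbs ξ.im.natAbs z : ℝ) : ℂ) := rfl
        rw [h6]
        linear_combination (-(a ξ)) * h5
      have h7 : 4 * ((g z : ℂ) + P z) = ((g z : ℂ) - ∑ ξ ∈ T, a ξ * ch ξ z) -
          (-(g z : ℂ) - ∑ ξ ∈ T, a ξ * ch ξ ((starRingEnd ℂ) z)) -
          (-(g z : ℂ) - ∑ ξ ∈ T, a ξ * ch ξ (-(starRingEnd ℂ) z)) +
          ((g z : ℂ) - ∑ ξ ∈ T, a ξ * ch ξ (-z)) := by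
        linear_combination (-1 : ℂ) * hP
      have h8 : ‖4 * ((g z : ℂ) + P z)‖ ≤ 4 * ε := by
        rw [h7]
        refine (norm_add_le _ _).trans ?_
        have h9 := norm_sub_le (((g z : ℂ) - ∑ ξ ∈ T, a ξ * ch ξ z) -
          (-(g z : ℂ) - ∑ ξ ∈ T, a ξ * ch ξ ((starRingEnd ℂ) z)))
          (-(g z : ℂ) - ∑ ξ ∈ T, a ξ * ch ξ (-(starRingEnd ℂ) z))
        have h10 := norm_sub_le ((g z : ℂ) - ∑ ξ ∈ T, a ξ * ch ξ z)
          (-(g z : ℂ) - ∑ ξ ∈ T, a ξ * ch ξ ((starRingEnd ℂ) z))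
        linarith
      rw [norm_mul] at h8
      have h11 : ‖(4 : ℂ)‖ = 4 := by norm_num
      rw [h11] at h8
      linarith
    have hPc : Continuous P := by
      show Continuous fun z => ∑ ξ ∈ T, a ξ * (w ξ z : ℂ)
      exact continuous_finsetSum _ fun ξ _ =>
        continuous_const.mul (Complex.continuous_ofReal.comp (hwc ξ))
    have hfw : ∀ ξ, Integrable (fun z => ((f z * w ξ z : ℝ) : ℂ)) (volume.restrict Sq) := fun ξ =>
      (onb2_int hf (hwc ξ)).ofReal
    have hfP : ∫ z in Sq, (f z : ℂ) * P z = 0 := by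
      have e1 : ∀ z, (f z : ℂ) * P z = ∑ ξ ∈ T, a ξ * ((f z * w ξ z : ℝ) : ℂ) := by
        intro z
        show (f z : ℂ) * ∑ ξ ∈ T, a ξ * (w ξ z : ℂ) = _
        rw [Finset.mul_sum]
        refine Finset.sum_congr rfl fun ξ _ => ?_
        push_cast
        ring
      simp_rw [e1]
      rw [integral_finsetSum T (f := fun ξ z => a ξ * ((f z * w ξ z : ℝ) : ℂ))
        (fun ξ _ => (hfw ξ).const_mul _)]
      refine Finset.sum_eq_zero fun ξ _ => ?_
      rw [integral_const_mul, integral_complex_ofReal, hw0]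
      simp
    have hfPi : Integrable (fun z => (f z : ℂ) * P z) (volume.restrict Sq) := by
      have e1 : (fun z => (f z : ℂ) * P z) = fun z => ∑ ξ ∈ T, a ξ * ((f z * w ξ z : ℝ) : ℂ) := by
        funext z
        show (f z : ℂ) * ∑ ξ ∈ T, a ξ * (w ξ z : ℂ) = _
        rw [Finset.mul_sum]
        refine Finset.sum_congr rfl fun ξ _ => ?_
        push_cast
        ring
      rw [e1]
      exact integrable_finsetSum T fun ξ _ => (hfw ξ).const_mul _
    have hfg : Integrable (fun z => ((f z * g z : ℝ) : ℂ)) (volume.restrict Sq) :=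
      (onb2_int hf hg).ofReal
    have h1 : ((∫ z in Sq, f z * g z : ℝ) : ℂ) = ∫ z in Sq, (f z : ℂ) * ((g z : ℂ) + P z) := by
      have e1 : ∀ z, (f z : ℂ) * ((g z : ℂ) + P z) =
          ((f z * g z : ℝ) : ℂ) + (f z : ℂ) * P z := by
        intro z
        push_cast
        ring
      simp_rw [e1]
      rw [integral_add hfg hfPi, hfP, add_zero, integral_complex_ofReal]
    have h2 : |∫ z in Sq, f z * g z| = ‖∫ z in Sq, (f z : ℂ) * ((g z : ℂ) + P z)‖ := by
      rw [← h1, Complex.norm_real, Real.norm_eq_abs]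
    rw [h2, ← integral_const_mul]
    refine norm_integral_le_of_norm_le (hf.abs.const_mul ε) ?_
    rw [ae_restrict_iff' onb2_open.measurableSet]
    refine Eventually.of_forall fun z hz => ?_
    rw [norm_mul, Complex.norm_real, Real.norm_eq_abs, mul_comm]
    exact mul_le_mul_of_nonneg_right (hb z hz) (abs_nonneg _)
  by_contra hne
  have hpos : 0 < |∫ z in Sq, f z * g z| := abs_pos.2 hne
  have hI : 0 ≤ ∫ z in Sq, |f z| := integral_nonneg fun z => abs_nonneg _
  have h1 := hmain (|∫ z in Sq, f z * g z| / (2 * ((∫ z in Sq, |f z|) + 1))) (by positivity)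
  have h2 : |∫ z in Sq, f z * g z| / (2 * ((∫ z in Sq, |f z|) + 1)) * (∫ z in Sq, |f z|) ≤
      |∫ z in Sq, f z * g z| / 2 := by
    rw [div_mul_eq_mul_div, div_le_div_iff₀ (by positivity) (by norm_num)]
    nlinarith
  linarith

theorem ONB2 : S_ONB2 := by
  intro E u hu
  refine ⟨hu.mono, hu.mem, hu.orth, ?_⟩
  intro f hf h0
  have hfin : IsFiniteMeasure (volume.restrict Sq) := by
    constructor
    rw [Measure.restrict_apply_univ]
    refine lt_of_le_of_lt (measure_mono (fun z hz => ?_ : Sq ⊆ Metric.closedBall (0 : ℂ) 2))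
      (isCompact_closedBall (0 : ℂ) 2).measure_lt_top
    rw [mem_closedBall_zero_iff]
    exact onb2_norm hz
  have hfi : Integrable f (volume.restrict Sq) := hf.integrable one_le_two
  have h1 : ∀ a b : ℕ, ∫ z in Sq, f z * sinw a b z = 0 := fun a b =>
    onb2_all hu hfi h0 (a ^ 2 + b ^ 2) (Submodule.subset_span ⟨a, b, rfl, rfl⟩)
  have hloc : LocallyIntegrableOn f Sq volume := IntegrableOn.locallyIntegrableOn hfi
  have h2 := onb2_open.ae_eq_zero_of_integral_contDiff_smul_eq_zero hloc (fun g hg _ hsupp => by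
    have hs : ∀ z, z ∉ Sq → g z = 0 := by
      intro z hz
      by_contra h
      exact hz (hsupp (subset_tsupport g h))
    have h3 := onb2_test hfi h1 g hg.continuous hs
    have h4 : ∫ z, g z • f z = ∫ z in Sq, f z * g z := by
      rw [← setIntegral_eq_integral_of_forall_compl_eq_zero (s := Sq) (fun z hz => by
        rw [hs z hz, zero_smul])]
      refine integral_congr_ae (Eventually.of_forall fun z => ?_)
      show g z • f z = f z * g z
      rw [smul_eq_mul, mul_comm]
    rw [h4]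
    exact h3)
  rw [Filter.EventuallyEq, ae_restrict_iff' onb2_open.measurableSet]
  filter_upwards [h2] with z hz hz1
  rw [hz hz1]
  rfl

end

end Pool.Agent.L0h77.BW
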