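import Pool.Agent.L0h77.BW.Gen3
import Pool.Agent.L0h77.BW.T_ONB2

/-! MP_6b977f_mp, project BW: the eigenfunctions of the torus -/

set_option autoImplicit false
set_option maxHeartbeats 400000
open MeasureTheory Filter Topology Complex
open scoped ContDiff

namespace Pool.Agent.L0h77.BW

open Pool.Agent.L0h56.BQ
open Pool.Agent.W745.RW (lap dx dy)

noncomputable section

theorem eig_sc (E a b : ℕ) (hab : a ^ 2 + b ^ 2 = E) :
    Eig E (fun z => Real.sin (Real.pi * a * z.re) * Real.cos (Real.pi * b * z.im)) := by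
  have h1 : dx (fun z : ℂ => Real.sin (Real.pi * a * z.re) * Real.cos (Real.pi * b * z.im)) =
      fun z : ℂ => (fun x : ℝ => Real.pi * a * Real.cos (Real.pi * a * x)) z.re *
      (fun x : ℝ => Real.cos (Real.pi * b * x)) z.im := dx_prod _ _ _ _ (d_sin _) (d_cos _)
  have h2 : dy (fun z : ℂ => Real.sin (Real.pi * a * z.re) * Real.cos (Real.pi * b * z.im)) =
      fun z : ℂ => (fun x : ℝ => Real.sin (Real.pi * a * x)) z.re *
      (fun x : ℝ => -(Real.pi * b * Real.sin (Real.pi * b * x))) z.im :=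
    dy_prod _ _ _ _ (d_sin _) (d_cos _)
  have h3 := dx_prod (fun x : ℝ => Real.pi * a * Real.cos (Real.pi * a * x))
    (fun x : ℝ => Real.cos (Real.pi * b * x))
    (fun x => Real.pi * a * (-(Real.pi * a * Real.sin (Real.pi * a * x)))) _
    (fun x => (d_cos _ x).const_mul _) (d_cos _)
  have h4 := dy_prod (fun x : ℝ => Real.sin (Real.pi * a * x))
    (fun x : ℝ => -(Real.pi * b * Real.sin (Real.pi * b * x))) _
    (fun x => -(Real.pi * b * (Real.pi * b * Real.cos (Real.pi * b * x)))) (d_sin _)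
    (fun x => ((d_sin _ x).const_mul _).neg)
  refine ⟨?_, fun z => ?_⟩
  · have hre : ContDiff ℝ ∞ (fun z : ℂ => z.re) := Complex.reCLM.contDiff
    have him : ContDiff ℝ ∞ (fun z : ℂ => z.im) := Complex.imCLM.contDiff
    exact (contDiff_const.mul hre).sin.mul (contDiff_const.mul him).cos
  · unfold lap
    rw [h1, h2, h3, h4]
    have h5 : (E : ℝ) = a ^ 2 + b ^ 2 := by exact_mod_cast hab.symm
    rw [h5]
    ring

theorem eig_cs (E a b : ℕ) (hab : a ^ 2 + b ^ 2 = E) :
    Eig E (fun z => Real.cos (Real.pi * a * z.re) * Real.sin (Real.pi * b * z.im)) := by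
  have h1 : dx (fun z : ℂ => Real.cos (Real.pi * a * z.re) * Real.sin (Real.pi * b * z.im)) =
      fun z : ℂ => (fun x : ℝ => -(Real.pi * a * Real.sin (Real.pi * a * x)))
      z.re * (fun x : ℝ => Real.sin (Real.pi * b * x)) z.im := dx_prod _ _ _ _ (d_cos _) (d_sin _)
  have h2 : dy (fun z : ℂ => Real.cos (Real.pi * a * z.re) * Real.sin (Real.pi * b * z.im)) =
      fun z : ℂ => (fun x : ℝ => Real.cos (Real.pi * a * x)) z.re *
      (fun x : ℝ => Real.pi * b * Real.cos (Real.pi * b * x)) z.im :=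
    dy_prod _ _ _ _ (d_cos _) (d_sin _)
  have h3 := dx_prod (fun x : ℝ => -(Real.pi * a * Real.sin (Real.pi * a * x)))
    (fun x : ℝ => Real.sin (Real.pi * b * x))
    (fun x => -(Real.pi * a * (Real.pi * a * Real.cos (Real.pi * a * x)))) _
    (fun x => ((d_sin _ x).const_mul _).neg) (d_sin _)
  have h4 := dy_prod (fun x : ℝ => Real.cos (Real.pi * a * x))
    (fun x : ℝ => Real.pi * b * Real.cos (Real.pi * b * x)) _
    (fun x => Real.pi * b * (-(Real.pi * b * Real.sin (Real.pi * b * x)))) (d_cos _)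
    (fun x => (d_cos _ x).const_mul _)
  refine ⟨?_, fun z => ?_⟩
  · have hre : ContDiff ℝ ∞ (fun z : ℂ => z.re) := Complex.reCLM.contDiff
    have him : ContDiff ℝ ∞ (fun z : ℂ => z.im) := Complex.imCLM.contDiff
    exact (contDiff_const.mul hre).cos.mul (contDiff_const.mul him).sin
  · unfold lap
    rw [h1, h2, h3, h4]
    have h5 : (E : ℝ) = a ^ 2 + b ^ 2 := by exact_mod_cast hab.symm
    rw [h5]
    ring

theorem onb2_cos (a : ℤ) (x : ℝ) :
    Real.cos (Real.pi * (a * x)) = Real.cos (Real.pi * (a.natAbs : ℕ) * x) := by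
  rcases le_or_gt 0 a with h | h
  · rw [Nat.cast_natAbs, abs_of_nonneg h, mul_assoc]
  · rw [Nat.cast_natAbs, abs_of_neg h, Int.cast_neg,
      show Real.pi * -(a : ℝ) * x = -(Real.pi * (a * x)) by ring, Real.cos_neg]

theorem TorE_eig {e : ℕ} {u : ℂ → ℝ} (hu : u ∈ TorE e) :
    Eig e u ∧ ∀ z, u (z + 2) = u z ∧ u (z + 2 * I) = u z := by
  refine Submodule.span_induction (p := fun (f : ℂ → ℝ) _ => Eig e f ∧
    ∀ z, f (z + 2) = f z ∧ f (z + 2 * I) = f z) ?_ ?_ ?_ ?_ hu
  · rintro f ⟨a, b, hab, hf⟩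
    have hN : a.natAbs ^ 2 + b.natAbs ^ 2 = e := by
      have h1 : ((a.natAbs ^ 2 + b.natAbs ^ 2 : ℕ) : ℤ) = (e : ℤ) := by
        push_cast
        rw [sq_abs, sq_abs]
        exact hab
      exact_mod_cast h1
    have e1 : ∀ z : ℂ, Real.pi * ((a : ℝ) * (z + 2).re + b * (z + 2).im) =
        Real.pi * (a * z.re + b * z.im) + a * (2 * Real.pi) := by
      intro z
      simp
      ring
    have e2 : ∀ z : ℂ, Real.pi * ((a : ℝ) * (z + 2 * I).re + b * (z + 2 * I).im) =
        Real.pi * (a * z.re + b * z.im) + b * (2 * Real.pi) := by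
      intro z
      simp
      ring
    rcases hf with rfl | rfl
    · refine ⟨?_, fun z => ⟨?_, ?_⟩⟩
      · have h1 := (Eig.cosw e _ _ hN).add ((Eig.sinw e _ _ hN).smul
          (-(onb2_sg a * onb2_sg b)))
        refine (congrArg (Eig e) (funext fun z => ?_)).mp h1
        show Real.cos _ * Real.cos _ + (-(onb2_sg a * onb2_sg b)) * (Real.sin _ * Real.sin _) = _
        rw [mul_add, Real.cos_add, onb2_cos, onb2_cos, onb2_sin, onb2_sin]
        ring
      · show Real.cos (Real.pi * (a * (z + 2).re + b * (z + 2).im)) = _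
        rw [e1, Real.cos_add_int_mul_two_pi]
      · show Real.cos (Real.pi * (a * (z + 2 * I).re + b * (z + 2 * I).im)) = _
        rw [e2, Real.cos_add_int_mul_two_pi]
    · refine ⟨?_, fun z => ⟨?_, ?_⟩⟩
      · have h1 := ((eig_sc e _ _ hN).smul (onb2_sg a)).add ((eig_cs e _ _ hN).smul (onb2_sg b))
        refine (congrArg (Eig e) (funext fun z => ?_)).mp h1
        show onb2_sg a * (Real.sin _ * Real.cos _) + onb2_sg b * (Real.cos _ * Real.sin _) = _
        rw [mul_add, Real.sin_add, onb2_cos, onb2_cos, onb2_sin, onb2_sin]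
        ring
      · show Real.sin (Real.pi * (a * (z + 2).re + b * (z + 2).im)) = _
        rw [e1, Real.sin_add_int_mul_two_pi]
      · show Real.sin (Real.pi * (a * (z + 2 * I).re + b * (z + 2 * I).im)) = _
        rw [e2, Real.sin_add_int_mul_two_pi]
  · exact ⟨Eig.zero e, fun z => ⟨rfl, rfl⟩⟩
  · rintro f g _ _ ⟨h1, h2⟩ ⟨h3, h4⟩
    refine ⟨h1.add h3, fun z => ⟨?_, ?_⟩⟩
    · show f (z + 2) + g (z + 2) = f z + g z
      rw [(h2 z).1, (h4 z).1]
    · show f (z + 2 * I) + g (z + 2 * I) = f z + g z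
      rw [(h2 z).2, (h4 z).2]
  · rintro r f _ ⟨h1, h2⟩
    refine ⟨h1.smul r, fun z => ⟨?_, ?_⟩⟩
    · show r * f (z + 2) = r * f z
      rw [(h2 z).1]
    · show r * f (z + 2 * I) = r * f z
      rw [(h2 z).2]

end

end Pool.Agent.L0h77.BW
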