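import Mathlib

/-! MP_6b977f_mp, project BW: random orthogonal matrices -/

set_option autoImplicit false
set_option maxHeartbeats 400000
open MeasureTheory Filter Topology

namespace Pool.Agent.L0h77.BW

noncomputable section

variable {ι : Type} [Fintype ι] [DecidableEq ι]

/-- the rows of the square matrix `O` are orthonormal -/
def Orth (O : ι → ι → ℝ) : Prop := ∀ i j, ∑ k, O i k * O j k = if i = j then 1 else 0

/-- the product of two matrices -/
def mulM (O Q : ι → ι → ℝ) : ι → ι → ℝ := fun i k => ∑ l, O i l * Q l k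

/-- `μ` is the Haar probability measure of the orthogonal group: `μ` is a probability measure which
is carried by the orthogonal matrices and is invariant under right multiplication by orthogonal
matrices -/
structure IsHaarLaw (μ : Measure (ι → ι → ℝ)) : Prop where
  prob : IsProbabilityMeasure μ
  orth : ∀ᵐ O ∂μ, Orth O
  inv : ∀ Q, Orth Q → μ.map (fun O => mulM O Q) = μ

theorem Orth.row {O : ι → ι → ℝ} (h : Orth O) (i : ι) : ∑ k, O i k ^ 2 = 1 := by
  have h1 := h i i
  rw [if_pos rfl] at h1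
  rw [← h1]
  exact Finset.sum_congr rfl fun k _ => by ring

theorem Orth.sq_le {O : ι → ι → ℝ} (h : Orth O) (i k : ι) : O i k ^ 2 ≤ 1 := by
  rw [← h.row i]
  exact Finset.single_le_sum (f := fun k => O i k ^ 2) (fun _ _ => sq_nonneg _) (Finset.mem_univ k)

/-- the reflection with normal vector `v` -/
def refl (v : ι → ℝ) : ι → ι → ℝ := fun a b => (if a = b then 1 else 0) - v a * v b

theorem refl_orth (v : ι → ℝ) (hv : ∑ k, v k ^ 2 = 2) : Orth (refl v) := by
  intro i j
  have h1 : ∀ k, refl v i k * refl v j k = (if i = k then (if j = k then 1 else 0) else 0) -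
      (if i = k then v j * v k else 0) - (if j = k then v i * v k else 0) +
        v i * v j * v k ^ 2 := by
    intro k
    unfold refl
    split_ifs <;> ring
  simp_rw [h1]
  rw [Finset.sum_add_distrib, Finset.sum_sub_distrib, Finset.sum_sub_distrib, ← Finset.mul_sum, hv,
    Finset.sum_ite_eq, Finset.sum_ite_eq, Finset.sum_ite_eq]
  simp only [Finset.mem_univ, if_true]
  by_cases h : i = j
  · subst h
    rw [if_pos rfl]
    ring
  · rw [if_neg h, if_neg (Ne.symm h)]
    ring

theorem mul_refl (O : ι → ι → ℝ) (v : ι → ℝ) (i b : ι) :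
    mulM O (refl v) i b = O i b - (∑ l, O i l * v l) * v b := by
  unfold mulM refl
  have h1 : ∀ l, O i l * ((if l = b then 1 else 0) - v l * v b) =
      (if l = b then O i l else 0) - (O i l * v l) * v b := by
    intro l
    split_ifs <;> ring
  simp_rw [h1]
  rw [Finset.sum_sub_distrib, Finset.sum_ite_eq', if_pos (Finset.mem_univ b), ← Finset.sum_mul]

/-- a vector with two coordinates -/
def two (k l : ι) (x y : ℝ) (m : ι) : ℝ := (if m = k then x else 0) + if m = l then y else 0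

theorem two_sum (k l : ι) (x y : ℝ) (f : ι → ℝ) : ∑ m, f m * two k l x y m = f k * x + f l * y := by
  unfold two
  simp only [mul_add, mul_ite, mul_zero, Finset.sum_add_distrib, Finset.sum_ite_eq',
    Finset.mem_univ, if_true]

theorem two_sq {k l : ι} (hkl : k ≠ l) (x y : ℝ) : ∑ m, two k l x y m ^ 2 = x ^ 2 + y ^ 2 := by
  have h1 : ∀ m, two k l x y m ^ 2 = two k l x y m * two k l x y m := fun m => pow_two _
  simp_rw [h1]
  rw [two_sum]
  unfold two
  rw [if_pos rfl, if_neg hkl, if_neg hkl.symm, if_pos rfl]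
  ring

theorem two_k {k l : ι} (hkl : k ≠ l) (x y : ℝ) : two k l x y k = x := by
  unfold two
  rw [if_pos rfl, if_neg hkl, add_zero]

theorem two_l {k l : ι} (hkl : k ≠ l) (x y : ℝ) : two k l x y l = y := by
  unfold two
  rw [if_pos rfl, if_neg hkl.symm, zero_add]

section

variable {μ : Measure (ι → ι → ℝ)}

theorem IsHaarLaw.int_inv (h : IsHaarLaw μ) {Q : ι → ι → ℝ} (hQ : Orth Q) (F : (ι → ι → ℝ) → ℝ)
    (hF : Measurable F) : ∫ O, F (mulM O Q) ∂μ = ∫ O, F O ∂μ := by
  have hm : Measurable fun O : ι → ι → ℝ => mulM O Q := by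
    unfold mulM
    fun_prop
  conv_rhs => rw [← h.inv Q hQ]
  rw [integral_map hm.aemeasurable hF.aestronglyMeasurable]

theorem IsHaarLaw.bdd (h : IsHaarLaw μ) (F : (ι → ι → ℝ) → ℝ) (hF : Measurable F) (C : ℝ)
    (hC : ∀ O, Orth O → |F O| ≤ C) : Integrable F μ := by
  have := h.prob
  refine Integrable.of_bound hF.aestronglyMeasurable C ?_
  filter_upwards [h.orth] with O hO
  exact hC O hO

theorem IsHaarLaw.int_mn (h : IsHaarLaw μ) (i k l : ι) :
    Integrable (fun O : ι → ι → ℝ => O i k ^ 2 * O i l ^ 2) μ := by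
  refine h.bdd _ (by fun_prop) 1 fun O hO => ?_
  rw [abs_of_nonneg (by positivity)]
  have h1 := hO.sq_le i k
  have h2 := hO.sq_le i l
  nlinarith [sq_nonneg (O i k), sq_nonneg (O i l)]

/-- the fourth moments of a row -/
def mom (μ : Measure (ι → ι → ℝ)) (i k l : ι) : ℝ := ∫ O, O i k ^ 2 * O i l ^ 2 ∂μ

theorem IsHaarLaw.swap (h : IsHaarLaw μ) (i : ι) {k l : ι} (hkl : k ≠ l) :
    mom μ i k k = mom μ i l l := by
  have h1 := h.int_inv (refl_orth (two k l 1 (-1)) (by rw [two_sq hkl]; norm_num))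
    (fun O => O i k ^ 2 * O i k ^ 2) (by fun_prop)
  unfold mom
  rw [← h1]
  congr 1
  funext O
  have h2 : mulM O (refl (two k l 1 (-1))) i k = O i l := by
    rw [mul_refl, two_sum, two_k hkl]
    ring
  rw [h2]

theorem IsHaarLaw.rot (h : IsHaarLaw μ) (i : ι) {k l : ι} (hkl : k ≠ l) :
    6 * mom μ i k l = mom μ i k k + mom μ i l l := by
  obtain ⟨s, hs0, hs1, hs2⟩ : ∃ s : ℝ, 0 ≤ s ∧ s ≤ 1 ∧ s ^ 2 = 1 / 2 := by
    exact ⟨√(1 / 2), Real.sqrt_nonneg _, Real.sqrt_le_iff.2 ⟨zero_le_one, by norm_num⟩,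
      Real.sq_sqrt (by norm_num)⟩
  set x : ℝ := √(1 - s) with hx
  set y : ℝ := -√(1 + s) with hy
  have hx2 : x ^ 2 = 1 - s := Real.sq_sqrt (by linarith)
  have hy2 : y ^ 2 = 1 + s := by rw [hy, neg_sq]; exact Real.sq_sqrt (by linarith)
  have hxy : x * y = -s := by
    rw [hx, hy, mul_neg, ← Real.sqrt_mul (by linarith)]
    have h1 : (1 - s) * (1 + s) = s ^ 2 := by nlinarith
    rw [h1, Real.sqrt_sq hs0]
  have h1 := h.int_inv (refl_orth (two k l x y) (by rw [two_sq hkl, hx2, hy2]; ring))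
    (fun O => O i k ^ 2 * O i l ^ 2) (by fun_prop)
  have h2 : ∀ O : ι → ι → ℝ, mulM O (refl (two k l x y)) i k ^ 2 *
      mulM O (refl (two k l x y)) i l ^ 2 = 1 / 4 * (O i k ^ 2 * O i k ^ 2) -
        1 / 2 * (O i k ^ 2 * O i l ^ 2) + 1 / 4 * (O i l ^ 2 * O i l ^ 2) := by
    intro O
    have h3 : mulM O (refl (two k l x y)) i k = s * O i k + s * O i l := by
      rw [mul_refl, two_sum, two_k hkl]
      linear_combination (-(O i k)) * hx2 + (-(O i l)) * hxy
    have h4 : mulM O (refl (two k l x y)) i l = s * O i k - s * O i l := by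
      rw [mul_refl, two_sum, two_l hkl]
      linear_combination (-(O i l)) * hy2 + (-(O i k)) * hxy
    rw [h3, h4]
    have h5 : s ^ 4 = 1 / 4 := by
      rw [show s ^ 4 = (s ^ 2) ^ 2 by ring, hs2]
      norm_num
    linear_combination (O i k ^ 2 - O i l ^ 2) ^ 2 * h5
  simp_rw [h2] at h1
  have i1 := h.int_mn i k k
  have i2 := h.int_mn i k l
  have i3 := h.int_mn i l l
  rw [integral_add (f := fun O : ι → ι → ℝ => 1 / 4 * (O i k ^ 2 * O i k ^ 2) -
      1 / 2 * (O i k ^ 2 * O i l ^ 2)) (g := fun O : ι → ι → ℝ => 1 / 4 * (O i l ^ 2 * O i l ^ 2))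
      ((i1.const_mul _).sub (i2.const_mul _)) (i3.const_mul _),
    integral_sub (f := fun O : ι → ι → ℝ => 1 / 4 * (O i k ^ 2 * O i k ^ 2))
      (g := fun O : ι → ι → ℝ => 1 / 2 * (O i k ^ 2 * O i l ^ 2))
      (i1.const_mul _) (i2.const_mul _), integral_const_mul, integral_const_mul,
    integral_const_mul] at h1
  unfold mom
  linarith

theorem IsHaarLaw.expand (h : IsHaarLaw μ) (i : ι) (g : ι → ℝ) :
    ∫ O, (∑ k, O i k ^ 2 * g k) ^ 2 ∂μ = ∑ k, ∑ l, g k * g l * mom μ i k l := by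
  have h1 : ∀ O : ι → ι → ℝ, (∑ k, O i k ^ 2 * g k) ^ 2 =
      ∑ k, ∑ l, g k * g l * (O i k ^ 2 * O i l ^ 2) := by
    intro O
    rw [pow_two, Finset.sum_mul_sum]
    exact Finset.sum_congr rfl fun k _ => Finset.sum_congr rfl fun l _ => by ring
  simp_rw [h1]
  rw [integral_finsetSum _ fun k _ => integrable_finsetSum _ fun l _ => (h.int_mn i k l).const_mul _]
  refine Finset.sum_congr rfl fun k _ => ?_
  rw [integral_finsetSum _ fun l _ => (h.int_mn i k l).const_mul _]
  refine Finset.sum_congr rfl fun l _ => ?_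
  rw [integral_const_mul]
  rfl

theorem IsHaarLaw.row (h : IsHaarLaw μ) (i : ι) (g : ι → ℝ) :
    ∫ O, (∑ k, O i k ^ 2 * g k) ^ 2 ∂μ = mom μ i i i / 3 * ((∑ k, g k) ^ 2 + 2 * ∑ k, g k ^ 2) := by
  set a := mom μ i i i with ha
  have h1 : ∀ k, mom μ i k k = a := by
    intro k
    by_cases hk : k = i
    · rw [hk]
    · exact h.swap i hk
  have h2 : ∀ k l, mom μ i k l = a / 3 + if k = l then 2 * a / 3 else 0 := by
    intro k l
    by_cases hkl : k = l
    · subst hkl
      rw [h1, if_pos rfl]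
      ring
    · have h3 := h.rot i hkl
      rw [h1, h1] at h3
      rw [if_neg hkl]
      linarith
  rw [h.expand]
  simp_rw [h2]
  have h3 : ∀ k, ∑ l, g k * g l * (a / 3 + if k = l then 2 * a / 3 else 0) =
      a / 3 * (g k * ∑ l, g l) + 2 * a / 3 * g k ^ 2 := by
    intro k
    have h4 : ∀ l, g k * g l * (a / 3 + if k = l then 2 * a / 3 else 0) =
        a / 3 * (g k * g l) + if k = l then g k * g l * (2 * a / 3) else 0 := by
      intro l
      split_ifs <;> ring
    simp_rw [h4]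
    rw [Finset.sum_add_distrib, Finset.sum_ite_eq, if_pos (Finset.mem_univ k), ← Finset.mul_sum,
      ← Finset.mul_sum]
    ring
  simp_rw [h3]
  rw [Finset.sum_add_distrib, ← Finset.mul_sum, ← Finset.mul_sum, ← Finset.sum_mul]
  ring

theorem IsHaarLaw.fourth (h : IsHaarLaw μ) (i : ι) :
    mom μ i i i * ((Fintype.card ι : ℝ) ^ 2 + 2 * Fintype.card ι) = 3 := by
  have := h.prob
  have h1 := h.row i fun _ => 1
  simp only [mul_one, one_pow, Finset.sum_const, Finset.card_univ, nsmul_eq_mul] at h1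
  have h2 : ∫ O, (∑ k, O i k ^ 2) ^ 2 ∂μ = 1 := by
    have h3 : (fun O : ι → ι → ℝ => (∑ k, O i k ^ 2) ^ 2) =ᵐ[μ] fun _ => (1 : ℝ) := by
      filter_upwards [h.orth] with O hO
      rw [hO.row i]
      norm_num
    rw [integral_congr_ae h3]
    simp
  rw [h2] at h1
  linarith

/-- the mean deviation -/
def dev (f : ι → ℝ) (O : ι → ι → ℝ) : ℝ :=
  ∑ i, (∑ k, O i k ^ 2 * f k - (∑ k, f k) / Fintype.card ι) ^ 2

theorem dev_meas (f : ι → ℝ) : Measurable (dev f) := by
  unfold dev
  fun_prop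

theorem dev_nn (f : ι → ℝ) (O : ι → ι → ℝ) : 0 ≤ dev f O := Finset.sum_nonneg fun _ _ => sq_nonneg _

theorem dev_le {f : ι → ℝ} (hf : ∀ k, |f k| ≤ 1) {O : ι → ι → ℝ} (hO : Orth O) :
    dev f O ≤ 4 * Fintype.card ι := by
  have h1 : ∀ i ∈ (Finset.univ : Finset ι),
      (∑ k, O i k ^ 2 * f k - (∑ k, f k) / Fintype.card ι) ^ 2 ≤ 4 := by
    intro i _
    have hc : (0 : ℝ) < Fintype.card ι := by
      have : 0 < Fintype.card ι := Fintype.card_pos_iff.2 ⟨i⟩
      exact_mod_cast this
    have h2 : |∑ k, O i k ^ 2 * f k| ≤ 1 := by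
      refine (Finset.abs_sum_le_sum_abs _ _).trans ?_
      rw [← hO.row i]
      refine Finset.sum_le_sum fun k _ => ?_
      rw [abs_mul, abs_of_nonneg (sq_nonneg _)]
      exact mul_le_of_le_one_right (sq_nonneg _) (hf k)
    have h3 : |(∑ k, f k) / Fintype.card ι| ≤ 1 := by
      rw [abs_div, abs_of_pos hc, div_le_one hc]
      refine (Finset.abs_sum_le_sum_abs _ _).trans ((Finset.sum_le_sum fun k _ => hf k).trans ?_)
      simp
    rw [abs_le] at h2 h3
    nlinarith
  have h2 := Finset.sum_le_sum h1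
  rw [Finset.sum_const, Finset.card_univ, nsmul_eq_mul] at h2
  unfold dev
  linarith

/-- the mean of the deviation is bounded -/
theorem IsHaarLaw.dev_int (h : IsHaarLaw μ) {f : ι → ℝ} (hf : ∀ k, |f k| ≤ 1) :
    ∫ O, dev f O ∂μ ≤ 2 := by
  have := h.prob
  set N : ℝ := (Fintype.card ι : ℝ) with hN
  set g : ι → ℝ := fun k => f k - (∑ k, f k) / N with hg
  have h1 : ∀ i, ∫ O, (∑ k, O i k ^ 2 * f k - (∑ k, f k) / N) ^ 2 ∂μ ≤ 2 / N := by
    intro i
    have hN0 : 0 < N := by
      have : 0 < Fintype.card ι := Fintype.card_pos_iff.2 ⟨i⟩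
      rw [hN]
      exact_mod_cast this
    have h2 : ∫ O, (∑ k, O i k ^ 2 * f k - (∑ k, f k) / N) ^ 2 ∂μ =
        ∫ O, (∑ k, O i k ^ 2 * g k) ^ 2 ∂μ := by
      refine integral_congr_ae ?_
      filter_upwards [h.orth] with O hO
      have h3 : ∑ k, O i k ^ 2 * g k = ∑ k, O i k ^ 2 * f k - (∑ k, f k) / N := by
        have h4 : ∀ k, O i k ^ 2 * g k = O i k ^ 2 * f k - O i k ^ 2 * ((∑ k, f k) / N) := by
          intro k
          simp only [hg]
          ring
        simp_rw [h4]
        rw [Finset.sum_sub_distrib, ← Finset.sum_mul, hO.row i, one_mul]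
      rw [h3]
    have h3 : ∑ k, g k = 0 := by
      simp only [hg]
      rw [Finset.sum_sub_distrib, Finset.sum_const, Finset.card_univ, nsmul_eq_mul, ← hN,
        mul_div_cancel₀ _ hN0.ne', sub_self]
    have h4 : ∑ k, g k ^ 2 ≤ N := by
      have h5 : ∑ k, g k ^ 2 = ∑ k, f k ^ 2 - (∑ k, f k) ^ 2 / N := by
        have h6 : ∀ k, g k ^ 2 = f k ^ 2 - 2 * ((∑ k, f k) / N) * f k + ((∑ k, f k) / N) ^ 2 := by
          intro k
          simp only [hg]
          ring
        simp_rw [h6]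
        rw [Finset.sum_add_distrib, Finset.sum_sub_distrib, ← Finset.mul_sum, Finset.sum_const,
          Finset.card_univ, nsmul_eq_mul, ← hN]
        field_simp
        ring
      have h7 : ∑ k, f k ^ 2 ≤ N := by
        have h8 : ∀ k ∈ (Finset.univ : Finset ι), f k ^ 2 ≤ 1 := fun k _ => by
          rw [← sq_abs]
          have := hf k
          have h0 := abs_nonneg (f k)
          nlinarith
        have h9 := Finset.sum_le_sum h8
        rw [Finset.sum_const, Finset.card_univ, nsmul_eq_mul, mul_one] at h9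
        exact h9
      have h8 : 0 ≤ (∑ k, f k) ^ 2 / N := by positivity
      linarith
    rw [h2, h.row, h3]
    have h5 := h.fourth i
    rw [← hN] at h5
    have h6 : mom μ i i i = 3 / (N ^ 2 + 2 * N) := by
      rw [eq_div_iff (by positivity)]
      exact h5
    rw [h6]
    have h7 : 3 / (N ^ 2 + 2 * N) / 3 * ((0 : ℝ) ^ 2 + 2 * ∑ k, g k ^ 2) ≤
        3 / (N ^ 2 + 2 * N) / 3 * (0 ^ 2 + 2 * N) := by
      refine mul_le_mul_of_nonneg_left ?_ (by positivity)
      linarith
    refine h7.trans ?_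
    rw [div_div, div_mul_eq_mul_div, div_le_div_iff₀ (by positivity) hN0]
    nlinarith
  unfold dev
  rw [integral_finsetSum _ fun i _ => ?_]
  · refine (Finset.sum_le_sum fun i _ => h1 i).trans ?_
    rw [Finset.sum_const, Finset.card_univ, nsmul_eq_mul, ← hN]
    by_cases hN0 : N = 0
    · rw [hN0]
      norm_num
    · rw [mul_div_cancel₀ _ hN0]
  · refine h.bdd _ (by fun_prop) 4 fun O hO => ?_
    rw [abs_of_nonneg (sq_nonneg _)]
    have hc : (0 : ℝ) < Fintype.card ι := by
      have : 0 < Fintype.card ι := Fintype.card_pos_iff.2 ⟨i⟩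
      exact_mod_cast this
    have h2 : |∑ k, O i k ^ 2 * f k| ≤ 1 := by
      refine (Finset.abs_sum_le_sum_abs _ _).trans ?_
      rw [← hO.row i]
      refine Finset.sum_le_sum fun k _ => ?_
      rw [abs_mul, abs_of_nonneg (sq_nonneg _)]
      exact mul_le_of_le_one_right (sq_nonneg _) (hf k)
    have h3 : |(∑ k, f k) / Fintype.card ι| ≤ 1 := by
      rw [abs_div, abs_of_pos hc, div_le_one hc]
      refine (Finset.abs_sum_le_sum_abs _ _).trans ((Finset.sum_le_sum fun k _ => hf k).trans ?_)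
      simp
    rw [abs_le] at h2 h3
    nlinarith

end

end

end Pool.Agent.L0h77.BW
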