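import Mathlib

/-! MP_6b977f_mp, project BW: a strong law -/

set_option autoImplicit false
set_option maxHeartbeats 400000
open MeasureTheory Filter Topology ProbabilityTheory

namespace Pool.Agent.L0h77.BW

theorem slln {Ω : Type} [MeasurableSpace Ω] (P : Measure Ω) [IsProbabilityMeasure P]
    (Y : ℕ → Ω → ℝ) (hm : ∀ e, Measurable (Y e))
    (hind : ∀ i j, i ≠ j → IndepFun (Y i) (Y j) P) (N : ℕ → ℕ)
    (h0 : ∀ e, ∀ᵐ ω ∂P, 0 ≤ Y e ω ∧ Y e ω ≤ 4 * N e) (hE : ∀ e, ∫ ω, Y e ω ∂P ≤ 2)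
    (C : ℝ) (hC : ∀ X : ℕ, (∑ e ∈ Finset.Icc 1 X, (N e : ℝ)) ≤ C * X)
    (hR : ∀ η : ℝ, 0 < η → ∀ᶠ X : ℕ in atTop,
      (((Finset.Icc 1 X).filter fun e => 0 < N e).card : ℝ) ≤ η * X) :
    ∀ᵐ ω ∂P, ∀ η : ℝ, 0 < η → ∀ᶠ X : ℕ in atTop, ∑ e ∈ Finset.Icc 1 X, Y e ω ≤ η * X := by
  classical
  have hC0 : 0 ≤ C := by
    have := hC 1
    have h1 : (0 : ℝ) ≤ ∑ e ∈ Finset.Icc 1 1, (N e : ℝ) := Finset.sum_nonneg fun _ _ => by positivity
    simpa using h1.trans this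
  have hbd : ∀ e, ∀ᵐ ω ∂P, ‖Y e ω‖ ≤ 4 * N e := fun e => by
    filter_upwards [h0 e] with ω hω
    rw [Real.norm_eq_abs, abs_of_nonneg hω.1]
    exact hω.2
  have hL2 : ∀ e, MemLp (Y e) 2 P := fun e =>
    MemLp.of_bound (hm e).aestronglyMeasurable _ (hbd e)
  have hL1 : ∀ e, Integrable (Y e) P := fun e =>
    Integrable.of_bound (hm e).aestronglyMeasurable _ (hbd e)
  -- the sums
  set Z : ℕ → Ω → ℝ := fun X => ∑ e ∈ Finset.Icc 1 X, Y e with hZ
  have hZL : ∀ X, MemLp (Z X) 2 P := fun X => memLp_finsetSum' _ fun e _ => hL2 e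
  -- the means
  have hmean : ∀ X, ∫ ω, Z X ω ∂P ≤ 2 * (((Finset.Icc 1 X).filter fun e => 0 < N e).card : ℝ) := by
    intro X
    have h1 : ∫ ω, Z X ω ∂P = ∑ e ∈ Finset.Icc 1 X, ∫ ω, Y e ω ∂P := by
      simp only [hZ, Finset.sum_apply]
      exact integral_finsetSum _ fun e _ => hL1 e
    rw [h1]
    have h2 : ∀ e ∈ Finset.Icc 1 X, ∫ ω, Y e ω ∂P ≤ if 0 < N e then 2 else 0 := by
      intro e _
      split_ifs with h
      · exact hE e
      · have h3 : N e = 0 := by omega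
        have h4 : Y e =ᵐ[P] fun _ => (0 : ℝ) := by
          filter_upwards [h0 e] with ω hω
          rw [h3] at hω
          have h5 := hω.2
          simp only [Nat.cast_zero, mul_zero] at h5
          exact le_antisymm h5 hω.1
        rw [integral_congr_ae h4, integral_zero]
    refine (Finset.sum_le_sum h2).trans (le_of_eq ?_)
    rw [← Finset.sum_filter, Finset.sum_const, nsmul_eq_mul]
    ring
  -- the variances
  have hvar : ∀ X : ℕ, Var[Z X; P] ≤ 8 * C * X := by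
    intro X
    have h1 : Var[Z X; P] = ∑ e ∈ Finset.Icc 1 X, Var[Y e; P] :=
      IndepFun.variance_sum (fun e _ => hL2 e) fun i _ j _ hij => hind i j hij
    rw [h1]
    have h2 : ∀ e ∈ Finset.Icc 1 X, Var[Y e; P] ≤ 8 * N e := by
      intro e _
      refine (variance_le_expectation_sq (hm e).aestronglyMeasurable).trans ?_
      have h3 : ∫ ω, (Y e ^ 2) ω ∂P ≤ ∫ ω, 4 * N e * Y e ω ∂P := by
        refine integral_mono_ae (hL2 e).integrable_sq ((hL1 e).const_mul _) ?_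
        filter_upwards [h0 e] with ω hω
        show Y e ω ^ 2 ≤ 4 * N e * Y e ω
        nlinarith [hω.1, hω.2]
      rw [integral_const_mul] at h3
      have h4 : (0 : ℝ) ≤ 4 * N e := by positivity
      have h5 := mul_le_mul_of_nonneg_left (hE e) h4
      linarith
    refine (Finset.sum_le_sum h2).trans ?_
    rw [← Finset.mul_sum]
    have := hC X
    linarith
  -- Borel-Cantelli along the powers of two
  have hBC : ∀ m : ℕ, ∀ᵐ ω ∂P, ∀ᶠ j : ℕ in atTop,
      Z (2 ^ j) ω < ∫ ω, Z (2 ^ j) ω ∂P + 1 / ((m : ℝ) + 1) * 2 ^ j := by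
    intro m
    set η : ℝ := 1 / ((m : ℝ) + 1) with hη
    have hη0 : 0 < η := by positivity
    have h1 : ∑' j : ℕ, P {ω | η * 2 ^ j ≤ |Z (2 ^ j) ω - ∫ ω, Z (2 ^ j) ω ∂P|} ≠ ⊤ := by
      have h2 : ∀ j : ℕ, P {ω | η * 2 ^ j ≤ |Z (2 ^ j) ω - ∫ ω, Z (2 ^ j) ω ∂P|} ≤
          ENNReal.ofReal (8 * C / η ^ 2 * (1 / 2) ^ j) := by
        intro j
        refine (meas_ge_le_variance_div_sq (hZL _) (by positivity)).trans
          (ENNReal.ofReal_le_ofReal ?_)
        have h3 := hvar (2 ^ j)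
        push_cast at h3
        rw [div_le_iff₀ (by positivity)]
        refine h3.trans (le_of_eq ?_)
        rw [mul_pow, one_div, inv_pow]
        field_simp
      refine ne_top_of_le_ne_top ?_ (ENNReal.tsum_le_tsum h2)
      rw [← ENNReal.ofReal_tsum_of_nonneg (fun j => by positivity)
        ((summable_geometric_of_lt_one (by norm_num) (by norm_num)).mul_left _)]
      exact ENNReal.ofReal_ne_top
    filter_upwards [ae_eventually_notMem h1] with ω hω
    filter_upwards [hω] with j hj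
    have h2 : |Z (2 ^ j) ω - ∫ ω, Z (2 ^ j) ω ∂P| < η * 2 ^ j := not_le.1 hj
    have := (abs_lt.1 h2).2
    linarith
  have hall := ae_all_iff.2 hBC
  have hnn := ae_all_iff.2 h0
  filter_upwards [hall, hnn] with ω hω hω0
  intro η hη
  obtain ⟨m, hm'⟩ := exists_nat_gt (6 / η)
  set δ : ℝ := 1 / ((m : ℝ) + 1) with hδ
  have hδ0 : 0 < δ := by positivity
  have hδη : 6 * δ ≤ η := by
    rw [hδ, mul_one_div, div_le_iff₀ (by positivity)]
    rw [div_lt_iff₀ hη] at hm'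
    nlinarith
  have hpow : Tendsto (fun j : ℕ => 2 ^ j) atTop atTop := tendsto_pow_atTop_atTop_of_one_lt one_lt_two
  have h1 : ∀ᶠ j : ℕ in atTop, Z (2 ^ j) ω ≤ 3 * δ * 2 ^ j := by
    filter_upwards [hω m, hpow.eventually (hR δ hδ0)] with j h2 h3
    have h4 := hmean (2 ^ j)
    push_cast at h3
    linarith
  obtain ⟨j0, hj0⟩ := eventually_atTop.1 h1
  refine eventually_atTop.2 ⟨2 ^ j0, fun X hX => ?_⟩
  have hX0 : X ≠ 0 := by
    have : 0 < 2 ^ j0 := by positivity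
    omega
  have hlog := Nat.lt_pow_succ_log_self one_lt_two X
  have hlog2 := Nat.pow_log_le_self 2 hX0
  have hj : j0 ≤ Nat.log 2 X := Nat.le_log_of_pow_le one_lt_two hX
  have h2 := hj0 (Nat.log 2 X + 1) (by omega)
  have h3 : ∑ e ∈ Finset.Icc 1 X, Y e ω ≤ Z (2 ^ (Nat.log 2 X + 1)) ω := by
    simp only [hZ, Finset.sum_apply]
    refine Finset.sum_le_sum_of_subset_of_nonneg ?_ fun e _ _ => (hω0 e).1
    intro e he
    rw [Finset.mem_Icc] at he ⊢
    exact ⟨he.1, he.2.trans hlog.le⟩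
  have h4 : (2 : ℝ) ^ (Nat.log 2 X + 1) ≤ 2 * X := by
    have h5 : 2 ^ (Nat.log 2 X + 1) ≤ 2 * X := by
      rw [pow_succ]
      omega
    exact_mod_cast h5
  have h5 : 3 * δ * 2 ^ (Nat.log 2 X + 1) ≤ 3 * δ * (2 * X) :=
    mul_le_mul_of_nonneg_left h4 (by positivity)
  have h6 : 6 * δ * X ≤ η * X := mul_le_mul_of_nonneg_right hδη (Nat.cast_nonneg _)
  linarith

end Pool.Agent.L0h77.BW
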