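import Pool.Agent.L0h77.BW.Exi
import Pool.Agent.L0h77.BW.T_ONB2
import Pool.Agent.L0h77.BW.Haar1
import Pool.Agent.L0h77.BW.Haar2

/-! MP_6b977f_mp, project BW: almost every basis of the unit square -/

set_option autoImplicit false
set_option maxHeartbeats 400000
open MeasureTheory Filter Topology Complex ProbabilityTheory

namespace Pool.Agent.L0h77.BW

open Pool.Agent.L0h56.BQ
open Pool.Agent.N661.BR (MW lin J0 resc IsCutoff IsQuantumErgodic IsRandomWave IsLocalLimit)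
open Pool.Agent.W745.RW (TF Dp)
open CONw (Se mem_Se card_Se uu bb G)

noncomputable section

/-- an enumeration of the pairs of positive integers with nondecreasing `a² + b²` -/
structure IsEnum (p : ℕ → ℕ × ℕ) : Prop where
  inj : Function.Injective p
  range : ∀ x : ℕ × ℕ, (∃ n, p n = x) ↔ 0 < x.1 ∧ 0 < x.2
  mono : Monotone fun n => (p n).1 ^ 2 + (p n).2 ^ 2

/-- the block of the infinite matrix `o` which belongs to the pairs with `a² + b² = e` -/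
def block (e : ℕ) (o : ℕ × ℕ → ℕ × ℕ → ℝ) : Se e → Se e → ℝ := fun p q => o p q

/-- the function `∑ o p q * 2 sin (π q₁ x) sin (π q₂ y)`, the sum over all `q` with `|q|² = |p|²` -/
def rf (o : ℕ × ℕ → ℕ × ℕ → ℝ) (p : ℕ × ℕ) (z : ℂ) : ℝ :=
  ∑ q ∈ Se (p.1 ^ 2 + p.2 ^ 2), 2 * o p q * sinw q.1 q.2 z

theorem IsEnum.mem {p : ℕ → ℕ × ℕ} (hp : IsEnum p) (n : ℕ) :
    p n ∈ Se ((p n).1 ^ 2 + (p n).2 ^ 2) := by
  have h1 := (hp.range (p n)).1 ⟨n, rfl⟩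
  exact mem_Se.2 ⟨h1.1, h1.2, rfl⟩

theorem IsEnum.image {p : ℕ → ℕ × ℕ} (hp : IsEnum p) (e : ℕ) :
    p '' {n | (p n).1 ^ 2 + (p n).2 ^ 2 = e} = (Se e : Set (ℕ × ℕ)) := by
  ext x
  rw [Set.mem_image, Finset.mem_coe, mem_Se]
  constructor
  · rintro ⟨n, hn, rfl⟩
    have h1 := (hp.range (p n)).1 ⟨n, rfl⟩
    exact ⟨h1.1, h1.2, hn⟩
  · rintro ⟨h1, h2, h3⟩
    obtain ⟨n, rfl⟩ := (hp.range x).2 ⟨h1, h2⟩
    exact ⟨n, h3, rfl⟩

theorem IsEnum.top {p : ℕ → ℕ × ℕ} (hp : IsEnum p) :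
    Tendsto (fun n => (p n).1 ^ 2 + (p n).2 ^ 2) atTop atTop := by
  refine tendsto_atTop_atTop_of_monotone hp.mono fun M => ?_
  obtain ⟨n, hn⟩ := (hp.range (M + 1, M + 1)).2 ⟨Nat.succ_pos _, Nat.succ_pos _⟩
  refine ⟨n, ?_⟩
  rw [hn]
  show M ≤ (M + 1) ^ 2 + (M + 1) ^ 2
  nlinarith

theorem block_sum {e : ℕ} {o : ℕ × ℕ → ℕ × ℕ → ℝ} (ho : Orth (block e o)) {p q : ℕ × ℕ}
    (hp : p ∈ Se e) (hq : q ∈ Se e) : ∑ k ∈ Se e, o p k * o q k = if p = q then 1 else 0 := by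
  have h1 := ho ⟨p, hp⟩ ⟨q, hq⟩
  rw [← Finset.sum_coe_sort (Se e) fun k => o p k * o q k]
  refine h1.trans ?_
  by_cases h : p = q
  · rw [if_pos h, if_pos (Subtype.ext h)]
  · rw [if_neg h, if_neg fun h' => h (congrArg Subtype.val h')]

theorem rf_basis {o : ℕ × ℕ → ℕ × ℕ → ℝ} (ho : ∀ e, Orth (block e o)) {p : ℕ → ℕ × ℕ}
    (hp : IsEnum p) : IsBasis DirE (fun n => (p n).1 ^ 2 + (p n).2 ^ 2) (fun n => rf o (p n)) := by
  refine ⟨hp.mono, hp.top, fun n => CONw.uu_mem _ _, fun m n => ?_, fun e => ?_⟩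
  · show ∫ z in Sq, uu _ (o (p m)) z * uu _ (o (p n)) z = _
    rw [CONw.uu_int]
    by_cases hE : (p m).1 ^ 2 + (p m).2 ^ 2 = (p n).1 ^ 2 + (p n).2 ^ 2
    · have h1 : ∑ x ∈ Se ((p m).1 ^ 2 + (p m).2 ^ 2), ∑ y ∈ Se ((p n).1 ^ 2 + (p n).2 ^ 2),
          (if x = y then o (p m) x * o (p n) y else 0) =
            ∑ x ∈ Se ((p n).1 ^ 2 + (p n).2 ^ 2), o (p m) x * o (p n) x := by
        rw [hE]
        refine Finset.sum_congr rfl fun x hx => ?_
        rw [Finset.sum_ite_eq, if_pos hx]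
      rw [h1, block_sum (ho _) (by rw [← hE]; exact hp.mem m) (hp.mem n)]
      by_cases hmn : m = n
      · rw [if_pos hmn, if_pos (by rw [hmn])]
      · rw [if_neg hmn, if_neg fun h => hmn (hp.inj h)]
    · rw [if_neg (fun h => hE (by rw [h]))]
      refine Finset.sum_eq_zero fun x hx => Finset.sum_eq_zero fun y hy => ?_
      rw [if_neg]
      rintro rfl
      apply hE
      rw [← (mem_Se.1 hx).2.2, ← (mem_Se.1 hy).2.2]
  · rw [(FR e).1, ← card_Se, ← Set.ncard_coe_finset, ← hp.image e,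
      Set.ncard_image_of_injective _ hp.inj]

/-- the functions on the blocks -/
def fe (e q : ℕ) (k : Se e) : ℝ := G e q ⟨k.1.1, k.1.2⟩

theorem fe_le (e q : ℕ) (k : Se e) : |fe e q k| ≤ 1 := by
  have hk := mem_Se.1 k.2
  have he : 0 < e := by
    rw [← hk.2.2]
    have := pow_pos hk.1 2
    omega
  have h2 : (⟨k.1.1, k.1.2⟩ : GI) ∈ V e := by
    rw [mem_V, norm_eq]
    show (k.1.1 : ℤ) ^ 2 + (k.1.2 : ℤ) ^ 2 = e
    exact_mod_cast hk.2.2
  unfold fe G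
  refine (Complex.abs_re_le_norm _).trans ?_
  rw [norm_pow, uE_norm e he _ h2, one_pow]

theorem dev_eq (e q : ℕ) (o : ℕ × ℕ → ℕ × ℕ → ℝ) : dev (fe e q) (block e o) =
    ∑ x ∈ Se e, (∑ ν ∈ V e, bb (o x) ν ^ 2 * ((uE e ν) ^ (2 * q)).re - avg e q) ^ 2 := by
  unfold dev
  rw [← Finset.sum_coe_sort (Se e)]
  refine Finset.sum_congr rfl fun i _ => ?_
  congr 2
  · have h1 := CONw.bb_sum e (o i) q
    unfold G at h1
    rw [h1, ← Finset.sum_coe_sort (Se e)]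
    rfl
  · rw [CONw.avg_eq, ← card_Se, Fintype.card_coe, ← Finset.sum_coe_sort (Se e)]
    rfl

theorem dev_F {p : ℕ → ℕ × ℕ} (hp : IsEnum p) (o : ℕ × ℕ → ℕ × ℕ → ℝ) (e q : ℕ) (F : Finset ℕ)
    (hF : ∀ n ∈ F, (p n).1 ^ 2 + (p n).2 ^ 2 = e) :
    ∑ n ∈ F, (∑ ν ∈ V ((p n).1 ^ 2 + (p n).2 ^ 2), bb (o (p n)) ν ^ 2 *
      ((uE ((p n).1 ^ 2 + (p n).2 ^ 2) ν) ^ (2 * q)).re - avg ((p n).1 ^ 2 + (p n).2 ^ 2) q) ^ 2 ≤
      dev (fe e q) (block e o) := by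
  classical
  rw [dev_eq]
  have h1 : ∀ n ∈ F, (∑ ν ∈ V ((p n).1 ^ 2 + (p n).2 ^ 2), bb (o (p n)) ν ^ 2 *
      ((uE ((p n).1 ^ 2 + (p n).2 ^ 2) ν) ^ (2 * q)).re - avg ((p n).1 ^ 2 + (p n).2 ^ 2) q) ^ 2 =
      (fun x => (∑ ν ∈ V e, bb (o x) ν ^ 2 * ((uE e ν) ^ (2 * q)).re - avg e q) ^ 2) (p n) := by
    intro n hn
    simp only [hF n hn]
  rw [Finset.sum_congr rfl h1, ← Finset.sum_image (s := F) (g := p)
    (f := fun x => (∑ ν ∈ V e, bb (o x) ν ^ 2 * ((uE e ν) ^ (2 * q)).re - avg e q) ^ 2)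
    (fun m _ n _ h => hp.inj h)]
  refine Finset.sum_le_sum_of_subset_of_nonneg ?_ fun _ _ _ => sq_nonneg _
  intro x hx
  rw [Finset.mem_image] at hx
  obtain ⟨n, hn, rfl⟩ := hx
  have h2 := hp.mem n
  rwa [hF n hn] at h2

/-- from the deviations to the indices -/
theorem dev_null {E : ℕ → ℕ} {u : ℕ → ℂ → ℝ} (hB : IsBasis DirE E u) (hE0 : ∀ n, 0 < E n)
    (a : ℕ → ℝ) (D : ℕ → ℝ) (hH : ∀ (e : ℕ) (F : Finset ℕ), (∀ n ∈ F, E n = e) →
      ∑ n ∈ F, a n ^ 2 ≤ D e)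
    (hD : ∀ η : ℝ, 0 < η → ∀ᶠ X : ℕ in atTop, ∑ e ∈ Finset.Icc 1 X, D e ≤ η * X)
    (δ : ℝ) (hδ : 0 < δ) : Null {n | δ < |a n|} := by
  classical
  rw [null_iff]
  intro ε hε
  have hT : ∀ e, {n | E n = e}.ncard = dirM e := fun e => by rw [hB.full, (FR e).1]
  have h2 := hB.top.eventually ((tendsto_sub_atTop_nat 1).eventually CNT.2)
  have h3 := hB.top.eventually (hD (ε * δ ^ 2 / 17) (by positivity))
  filter_upwards [h2, h3, eventually_ge_atTop 1] with N k2 k3 k4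
  have k6 : {n | E n ≤ E N - 1}.ncard ≤ N := by
    have h6 : {n | E n ≤ E N - 1} ⊆ (Finset.range N : Set ℕ) := by
      intro n hn
      rw [Finset.coe_range, Set.mem_Iio]
      by_contra h
      push Not at h
      have h8 := hB.mono h
      have h9 : E n ≤ E N - 1 := hn
      have h10 := hE0 N
      omega
    have h7 := Set.ncard_le_ncard h6 (Finset.finite_toSet _)
    rwa [Set.ncard_coe_finset, Finset.card_range] at h7
  have k7 : E N ≤ 16 * N + 1 := by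
    have h8 : ∑ e ∈ Finset.Icc 1 (E N - 1), dirM e ≤ {n | E n ≤ E N - 1}.ncard := by
      rw [← Finset.sum_congr rfl fun e _ => hT e]
      exact ncard_sum hB.top (E N - 1)
    omega
  set F : Finset ℕ := (Finset.range N).filter fun n => δ < |a n| with hF
  have hset : {n | δ < |a n|} ∩ Set.Iio N = (F : Set ℕ) := by
    ext n
    rw [hF, Finset.coe_filter]
    constructor
    · rintro ⟨h4, h5⟩
      exact ⟨Finset.mem_range.2 h5, h4⟩
    · rintro ⟨h4, h5⟩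
      exact ⟨h5, Finset.mem_range.1 h4⟩
  rw [hset, Set.ncard_coe_finset]
  have h4 : δ ^ 2 * F.card ≤ ∑ n ∈ F, a n ^ 2 := by
    have h5 : ∑ n ∈ F, δ ^ 2 ≤ ∑ n ∈ F, a n ^ 2 := by
      refine Finset.sum_le_sum fun n hn => ?_
      have h6 : δ < |a n| := (Finset.mem_filter.1 hn).2
      rw [← sq_abs (a n)]
      exact pow_le_pow_left₀ hδ.le h6.le 2
    rw [Finset.sum_const, nsmul_eq_mul] at h5
    linarith
  have h5 : ∑ n ∈ F, a n ^ 2 ≤ ∑ e ∈ Finset.Icc 1 (E N), D e := by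
    rw [← Finset.sum_fiberwise_of_maps_to (s := F) (t := Finset.Icc 1 (E N)) (g := E)]
    · refine Finset.sum_le_sum fun e _ => hH e _ fun n hn => (Finset.mem_filter.1 hn).2
    · intro n hn
      rw [Finset.mem_Icc]
      exact ⟨hE0 n, hB.mono (Finset.mem_range.1 (Finset.mem_filter.1 hn).1).le⟩
  have h6 : (E N : ℝ) ≤ 17 * N := by
    have : E N ≤ 17 * N := by omega
    exact_mod_cast this
  have h7 : ε * δ ^ 2 / 17 * (E N : ℝ) ≤ ε * δ ^ 2 / 17 * (17 * N) :=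
    mul_le_mul_of_nonneg_left h6 (by positivity)
  have h8 : δ ^ 2 * F.card ≤ δ ^ 2 * (ε * N) := by linarith
  exact le_of_mul_le_mul_left h8 (by positivity)

/-- quantum ergodicity from the exceptional sets of indices -/
theorem qe_of_null {E : ℕ → ℕ} {u : ℕ → ℂ → ℝ} {b : ℕ → GI → ℝ} (hB : IsBasis DirE E u)
    (hE : ∀ n, 0 < E n) (hr : ∀ n, Rep (-1) (E n) (b n) (u n))
    (hb : ∀ n, ∑ ν ∈ V (E n), b n ν ^ 2 = 1)
    (hq : ∀ q l : ℕ, 0 < q → Null (Bq E b q l)) :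
    ∃ m : ℕ → ℕ, FullDensity m ∧
      IsQuantumErgodic Sq (fun i => lamE (E (m i))) (fun i => u (m i)) := by
  have hBa : ∀ k R, Null (Ba E k R) := fun k R =>
    basis_null DEN CNT FR (Or.inl rfl) hB (fun e => ¬ NoSmall k R e) (nb k R)
  have hNull : ∀ j, Null (BX E b j) := by
    intro j
    unfold BX
    split_ifs
    · exact hBa _ _
    · exact hq _ _ (Nat.succ_pos _)
  obtain ⟨m, hm, -, hmB⟩ := DIAG (BX E b) hNull
  refine ⟨m, hm, ?_⟩
  refine qeg (fun i => E (m i)) (fun i => hE _) (fun R => ?_) (-1) (fun i => b (m i))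
    (fun i => u (m i)) (fun i => hr _) (fun i => hb _) ?_ Sq
  · have := hmB (Nat.pair 0 (Nat.pair R 0))
    rw [BX_a] at this
    refine this.mono fun i hi => ?_
    by_contra h
    exact hi h
  · intro q hq
    refine ang_of_even (σ := -1) (E := fun i => E (m i)) (fun i => hE _) (b := fun i => b (m i))
      (u := fun i => u (m i)) (fun i => hr _) (fun q hq1 => ?_) (by norm_num) q hq
    obtain ⟨q', rfl⟩ := Nat.exists_eq_succ_of_ne_zero hq1
    rw [Metric.tendsto_nhds]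
    intro ε hε
    obtain ⟨l, hl⟩ := exists_nat_gt (1 / ε)
    have := hmB (Nat.pair 1 (Nat.pair q' l))
    rw [BX_b] at this
    refine this.mono fun i hi => ?_
    rw [Real.dist_eq, sub_zero]
    have h1 : ¬ 1 / ((l : ℝ) + 1) < |∑ ν ∈ V (E (m i)), b (m i) ν ^ 2 *
        ((uE (E (m i)) ν) ^ (2 * (q' + 1))).re| := hi
    refine lt_of_le_of_lt (not_lt.1 h1) ?_
    rw [div_lt_iff₀ (by positivity)]
    rw [div_lt_iff₀ hε] at hl
    nlinarith

theorem dirM_sum (X : ℕ) : (∑ e ∈ Finset.Icc 1 X, (dirM e : ℝ)) ≤ 8 * X := by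
  classical
  have h1 := DV 1 X one_pos
  rw [Nat.divisors_one, Finset.card_singleton] at h1
  have h2 : ∑ e ∈ Finset.Icc 1 X, dirM e ≤ cnt (fun e => 1 ∣ e) X := by
    rw [cnt_eq]
    refine Finset.sum_le_sum fun e he => ?_
    rw [if_pos (one_dvd _)]
    have h6 := (Finset.mem_Icc.1 he).1
    exact (CNT.1 e h6).1.trans (CNT.1 e h6).2
  have h3 : (∑ e ∈ Finset.Icc 1 X, (dirM e : ℝ)) ≤ (cnt (fun e => 1 ∣ e) X : ℝ) := by
    exact_mod_cast h2
  push_cast at h1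
  linarith

theorem dirM_few (η : ℝ) (hη : 0 < η) : ∀ᶠ X : ℕ in atTop,
    (((Finset.Icc 1 X).filter fun e => 0 < dirM e).card : ℝ) ≤ η * X := by
  classical
  obtain ⟨K, hK⟩ := exists_nat_gt (16 / η)
  have hK0 : (0 : ℝ) < K := lt_trans (by positivity) hK
  filter_upwards [big K (η / 2) (by positivity)] with X hX
  have h1 : ∀ e ∈ Finset.Icc 1 X, (if 0 < dirM e then (1 : ℝ) else 0) ≤
      1 / K * (V e).card + if (V e).card < K then ((V e).card : ℝ) else 0 := by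
    intro e he
    have h6 := (Finset.mem_Icc.1 he).1
    have h7 := (CNT.1 e h6).1.trans (CNT.1 e h6).2
    by_cases h : 0 < dirM e
    · rw [if_pos h]
      have h8 : (1 : ℝ) ≤ (V e).card := by
        have : 1 ≤ (V e).card := by omega
        exact_mod_cast this
      by_cases h9 : (V e).card < K
      · rw [if_pos h9]
        have : (0 : ℝ) ≤ 1 / K * (V e).card := by positivity
        linarith
      · rw [if_neg h9, add_zero, one_div_mul_eq_div, le_div_iff₀ hK0, one_mul]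
        have : K ≤ (V e).card := not_lt.1 h9
        exact_mod_cast this
    · rw [if_neg h]
      split_ifs <;> positivity
  have h2 := Finset.sum_le_sum h1
  rw [Finset.sum_add_distrib, ← Finset.mul_sum, ← Finset.sum_filter, Finset.sum_const,
    nsmul_eq_mul, mul_one] at h2
  have h3 : ∑ e ∈ Finset.Icc 1 X, ((V e).card : ℝ) ≤ 8 * X := by
    have h1 := DV 1 X one_pos
    rw [Nat.divisors_one, Finset.card_singleton, cnt_eq] at h1
    simp only [one_dvd, if_true] at h1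
    push_cast at h1
    linarith
  have h4 : ∑ e ∈ Finset.Icc 1 X, (if (V e).card < K then ((V e).card : ℝ) else 0) ≤
      η / 2 * X := by
    refine le_trans (le_of_eq ?_) hX
    rw [cnt_eq]
    push_cast
    rfl
  have h5 : 1 / (K : ℝ) * (8 * X) ≤ η / 2 * X := by
    have h6 : 1 / (K : ℝ) * 8 ≤ η / 2 := by
      rw [div_mul_eq_mul_div, div_le_iff₀ hK0]
      rw [div_lt_iff₀ hη] at hK
      linarith
    have := mul_le_mul_of_nonneg_right h6 (Nat.cast_nonneg X : (0 : ℝ) ≤ X)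
    linarith
  have h6 : 1 / (K : ℝ) * ∑ e ∈ Finset.Icc 1 X, ((V e).card : ℝ) ≤ 1 / (K : ℝ) * (8 * X) :=
    mul_le_mul_of_nonneg_left h3 (by positivity)
  linarith

/-- the deterministic part -/
theorem aeb_det {o : ℕ × ℕ → ℕ × ℕ → ℝ} (ho : ∀ e, Orth (block e o))
    (hD : ∀ q : ℕ, ∀ η : ℝ, 0 < η → ∀ᶠ X : ℕ in atTop,
      ∑ e ∈ Finset.Icc 1 X, dev (fe e q) (block e o) ≤ η * X)
    {p : ℕ → ℕ × ℕ} (hp : IsEnum p) :
    IsONB DirE (fun n => (p n).1 ^ 2 + (p n).2 ^ 2) (fun n => rf o (p n)) ∧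
    (∃ n : ℕ → ℕ, FullDensity n ∧ IsQuantumErgodic Sq
      (fun i => lamE ((p (n i)).1 ^ 2 + (p (n i)).2 ^ 2)) (fun i => rf o (p (n i)))) ∧
    ∃ m : ℕ → ℕ, FullDensity m ∧ HasRandomWaveLimit Sq
      (fun i => lamE ((p (m i)).1 ^ 2 + (p (m i)).2 ^ 2)) (fun i => rf o (p (m i))) := by
  have hB := rf_basis ho hp
  have hO := ONB2 _ _ hB
  have hE0 : ∀ n, 0 < (p n).1 ^ 2 + (p n).2 ^ 2 := fun n => by
    have := pow_pos ((hp.range (p n)).1 ⟨n, rfl⟩).1 2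
    omega
  have hr : ∀ n, Rep (-1) ((p n).1 ^ 2 + (p n).2 ^ 2) (bb (o (p n))) (rf o (p n)) := fun n =>
    CONw.bb_rep _ _
  have hb : ∀ n, ∑ ν ∈ V ((p n).1 ^ 2 + (p n).2 ^ 2), bb (o (p n)) ν ^ 2 = 1 := fun n => by
    rw [CONw.bb_one]
    have h1 := block_sum (ho _) (hp.mem n) (hp.mem n)
    rw [if_pos rfl] at h1
    rw [← h1]
    exact Finset.sum_congr rfl fun _ _ => pow_two _
  have hnull : ∀ q l : ℕ, 0 < q →
      Null (Bq (fun n => (p n).1 ^ 2 + (p n).2 ^ 2) (fun n => bb (o (p n))) q l) := by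
    intro q l hq
    set δ : ℝ := 1 / ((l : ℝ) + 1) / 2 with hδ
    have hδ0 : 0 < δ := by positivity
    have h1 : Null {n | δ < |avg ((p n).1 ^ 2 + (p n).2 ^ 2) q|} :=
      basis_null DEN CNT FR (Or.inl rfl) hB (fun e => δ < |avg e q|) (MEAN big ne q hq δ hδ0)
    have h2 := dev_null hB hE0 (fun n => ∑ ν ∈ V ((p n).1 ^ 2 + (p n).2 ^ 2), bb (o (p n)) ν ^ 2 *
      ((uE ((p n).1 ^ 2 + (p n).2 ^ 2) ν) ^ (2 * q)).re - avg ((p n).1 ^ 2 + (p n).2 ^ 2) q)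
      (fun e => dev (fe e q) (block e o)) (fun e F hF => dev_F hp o e q F hF) (hD q) δ hδ0
    refine null_mono ?_ (null_union h1 h2)
    intro n hn
    have hn' : 1 / ((l : ℝ) + 1) < |∑ ν ∈ V ((p n).1 ^ 2 + (p n).2 ^ 2), bb (o (p n)) ν ^ 2 *
      ((uE ((p n).1 ^ 2 + (p n).2 ^ 2) ν) ^ (2 * q)).re| := hn
    by_contra hc
    have hc1 : ¬ δ < |avg ((p n).1 ^ 2 + (p n).2 ^ 2) q| := fun h => hc (Or.inl h)
    have hc2 : ¬ δ < |∑ ν ∈ V ((p n).1 ^ 2 + (p n).2 ^ 2), bb (o (p n)) ν ^ 2 *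
      ((uE ((p n).1 ^ 2 + (p n).2 ^ 2) ν) ^ (2 * q)).re - avg ((p n).1 ^ 2 + (p n).2 ^ 2) q| :=
      fun h => hc (Or.inr h)
    have h3 := abs_add_le (∑ ν ∈ V ((p n).1 ^ 2 + (p n).2 ^ 2), bb (o (p n)) ν ^ 2 *
      ((uE ((p n).1 ^ 2 + (p n).2 ^ 2) ν) ^ (2 * q)).re - avg ((p n).1 ^ 2 + (p n).2 ^ 2) q)
      (avg ((p n).1 ^ 2 + (p n).2 ^ 2) q)
    rw [sub_add_cancel] at h3
    have h4 : δ + δ = 1 / ((l : ℝ) + 1) := by rw [hδ]; ring
    linarith [not_lt.1 hc1, not_lt.1 hc2]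
  obtain ⟨n, hn, hq⟩ := qe_of_null hB hE0 hr hb hnull
  obtain ⟨m, hm, -, hw⟩ := main_one DirE (Or.inl rfl) _ _ hO n hn hq
  exact ⟨hO, ⟨n, hn, hq⟩, m, hm, hw⟩

/-- almost every basis -/
theorem aeb {Ω : Type} [MeasurableSpace Ω] (P : Measure Ω) [IsProbabilityMeasure P]
    (O : Ω → ℕ × ℕ → ℕ × ℕ → ℝ) (hm : ∀ e, Measurable fun ω => block e (O ω))
    (hind : iIndepFun (fun e ω => block e (O ω)) P)
    (hH : ∀ e, IsHaarLaw (P.map fun ω => block e (O ω))) :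
    ∀ᵐ ω ∂P, ∀ p : ℕ → ℕ × ℕ, IsEnum p →
      IsONB DirE (fun n => (p n).1 ^ 2 + (p n).2 ^ 2) (fun n => rf (O ω) (p n)) ∧
      (∃ n : ℕ → ℕ, FullDensity n ∧ IsQuantumErgodic Sq
        (fun i => lamE ((p (n i)).1 ^ 2 + (p (n i)).2 ^ 2)) (fun i => rf (O ω) (p (n i)))) ∧
      ∃ m : ℕ → ℕ, FullDensity m ∧ HasRandomWaveLimit Sq
        (fun i => lamE ((p (m i)).1 ^ 2 + (p (m i)).2 ^ 2)) (fun i => rf (O ω) (p (m i))) := by
  have ho : ∀ e, ∀ᵐ ω ∂P, Orth (block e (O ω)) := fun e =>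
    ae_of_ae_map (hm e).aemeasurable (hH e).orth
  have hsl : ∀ q : ℕ, ∀ᵐ ω ∂P, ∀ η : ℝ, 0 < η → ∀ᶠ X : ℕ in atTop,
      ∑ e ∈ Finset.Icc 1 X, dev (fe e q) (block e (O ω)) ≤ η * X := by
    intro q
    refine slln P (fun e ω => dev (fe e q) (block e (O ω))) (fun e => (dev_meas _).comp (hm e))
      (fun i j hij => ?_) dirM (fun e => ?_) (fun e => ?_) 8 dirM_sum dirM_few
    · exact (hind.comp (fun e => dev (fe e q)) (fun e => dev_meas _)).indepFun hij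
    · filter_upwards [ho e] with ω hω
      refine ⟨dev_nn _ _, ?_⟩
      have h1 := dev_le (fe_le e q) hω
      rwa [Fintype.card_coe, card_Se] at h1
    · have h1 := (hH e).dev_int (fe_le e q)
      rwa [integral_map (hm e).aemeasurable (dev_meas _).aestronglyMeasurable] at h1
  filter_upwards [ae_all_iff.2 ho, ae_all_iff.2 hsl] with ω h1 h2
  exact fun p hp => aeb_det h1 h2 hp

end

end Pool.Agent.L0h77.BW
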