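import Pool.Agent.L0h77.BW.Haar1
import Pool.Agent.L0h56.BW.T_CON

/-! MP_6b977f_mp, project BW: the Haar measure of the orthogonal group exists -/

set_option autoImplicit false
set_option maxHeartbeats 400000
open MeasureTheory Filter Topology ProbabilityTheory

namespace Pool.Agent.L0h77.BW

noncomputable section

section

variable {ι : Type} [Fintype ι] [DecidableEq ι]

theorem mem_orth (g : Matrix.orthogonalGroup ι ℝ) : (g : Matrix ι ι ℝ).transpose * g = 1 := by
  have h1 := (Matrix.mem_orthogonalGroup_iff' ι ℝ (A := (g : Matrix ι ι ℝ))).1 g.2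
  exact h1

theorem orth_compact : CompactSpace (Matrix.orthogonalGroup ι ℝ) := by
  have hK : IsCompact {O : Matrix ι ι ℝ | O ∈ Matrix.orthogonalGroup ι ℝ} := by
    have h1 : IsCompact (Set.univ.pi fun _ : ι => Set.univ.pi fun _ : ι => Set.Icc (-1 : ℝ) 1) :=
      isCompact_univ_pi fun _ => isCompact_univ_pi fun _ => isCompact_Icc
    refine h1.of_isClosed_subset ?_ ?_
    · have h2 : {O : Matrix ι ι ℝ | O ∈ Matrix.orthogonalGroup ι ℝ} =
          {O : Matrix ι ι ℝ | O.transpose * O = 1} := by
        ext O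
        exact Matrix.mem_orthogonalGroup_iff' ι ℝ
      rw [h2]
      exact isClosed_eq (by fun_prop) continuous_const
    · intro (O : Matrix ι ι ℝ) hO
      have h2 : O.transpose * O = 1 := (Matrix.mem_orthogonalGroup_iff' ι ℝ).1 hO
      rw [Set.mem_univ_pi]
      intro i
      rw [Set.mem_univ_pi]
      intro j
      have h3 := congrFun (congrFun h2 j) j
      rw [Matrix.mul_apply, Matrix.one_apply_eq] at h3
      have h4 : O i j ^ 2 ≤ 1 := by
        rw [← h3]
        refine le_trans (le_of_eq ?_) (Finset.single_le_sum (f := fun k => O.transpose j k * O k j)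
          (fun k _ => ?_) (Finset.mem_univ i))
        · rw [Matrix.transpose_apply, pow_two]
        · rw [Matrix.transpose_apply]
          exact mul_self_nonneg _
      exact abs_le.1 (abs_le_one_iff_mul_self_le_one.2 (by rw [← pow_two]; exact h4))
  exact isCompact_iff_compactSpace.1 hK

theorem haar_exists : ∃ μ : Measure (ι → ι → ℝ), IsHaarLaw μ := by
  classical
  have hc : CompactSpace (Matrix.orthogonalGroup ι ℝ) := orth_compact
  let _ : MeasurableSpace (Matrix.orthogonalGroup ι ℝ) := borel _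
  have : BorelSpace (Matrix.orthogonalGroup ι ℝ) := ⟨rfl⟩
  let ν : Measure (Matrix.orthogonalGroup ι ℝ) := Measure.haarMeasure ⊤
  have hν1 : ν Set.univ = 1 := by
    have := Measure.haarMeasure_self (K₀ := (⊤ : TopologicalSpace.PositiveCompacts
      (Matrix.orthogonalGroup ι ℝ)))
    simpa using this
  have hνp : IsProbabilityMeasure ν := ⟨hν1⟩
  let F : Matrix.orthogonalGroup ι ℝ → (ι → ι → ℝ) := fun g i j => (g : Matrix ι ι ℝ) j i
  have hFc : Continuous F := by
    refine continuous_pi fun i => continuous_pi fun j => ?_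
    exact (continuous_apply i).comp ((continuous_apply j).comp continuous_subtype_val)
  have hFm : Measurable F := hFc.measurable
  refine ⟨ν.map F, Measure.isProbabilityMeasure_map hFm.aemeasurable, ?_, fun Q hQ => ?_⟩
  · have hcl : MeasurableSet {O : ι → ι → ℝ | Orth O} := by
      have h1 : {O : ι → ι → ℝ | Orth O} = ⋂ i, ⋂ j,
          {O : ι → ι → ℝ | ∑ k, O i k * O j k = if i = j then 1 else 0} := by
        ext O
        simp only [Set.mem_iInter]
        rfl
      rw [h1]
      exact MeasurableSet.iInter fun i => MeasurableSet.iInter fun j =>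
        measurableSet_eq_fun (by fun_prop) measurable_const
    refine (ae_map_iff hFm.aemeasurable hcl).2 (Eventually.of_forall fun g i j => ?_)
    have h1 := congrFun (congrFun (mem_orth g) i) j
    rw [Matrix.mul_apply, Matrix.one_apply] at h1
    exact h1
  · have hm : Measurable fun O : ι → ι → ℝ => mulM O Q := by
      unfold mulM
      fun_prop
    rw [Measure.map_map hm hFm]
    let M : Matrix ι ι ℝ := fun i j => Q j i
    have hM : M ∈ Matrix.orthogonalGroup ι ℝ := by
      rw [Matrix.mem_orthogonalGroup_iff']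
      have h1 : (Matrix.of Q : Matrix ι ι ℝ) * (Matrix.of Q).transpose = 1 := by
        ext i j
        rw [Matrix.mul_apply, Matrix.one_apply]
        exact hQ i j
      exact h1
    let q : Matrix.orthogonalGroup ι ℝ := ⟨M, hM⟩
    have h1 : (fun O => mulM O Q) ∘ F = F ∘ fun g => q * g := by
      funext g i k
      show ∑ l, (g : Matrix ι ι ℝ) l i * Q l k = ((q * g : Matrix.orthogonalGroup ι ℝ) :
        Matrix ι ι ℝ) k i
      have h2 : ((q * g : Matrix.orthogonalGroup ι ℝ) : Matrix ι ι ℝ) = M * g := rfl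
      rw [h2, Matrix.mul_apply]
      refine Finset.sum_congr rfl fun l _ => ?_
      show _ = Q l k * _
      ring
    rw [h1, ← Measure.map_map hFm (measurable_const_mul q), map_mul_left_eq_self]

end

open CONw (Se mem_Se)

/-- the infinite matrix with given blocks -/
def glue (x : ∀ e, Se e → Se e → ℝ) (p q : ℕ × ℕ) : ℝ :=
  if h : p ∈ Se (p.1 ^ 2 + p.2 ^ 2) ∧ q ∈ Se (p.1 ^ 2 + p.2 ^ 2) then
    x (p.1 ^ 2 + p.2 ^ 2) ⟨p, h.1⟩ ⟨q, h.2⟩ else 0

theorem glue_block (x : ∀ e, Se e → Se e → ℝ) (e : ℕ) (p q : Se e) : glue x p q = x e p q := by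
  obtain ⟨⟨a, b⟩, hp⟩ := p
  obtain ⟨q, hq⟩ := q
  have h1 : a ^ 2 + b ^ 2 = e := (mem_Se.1 hp).2.2
  subst h1
  unfold glue
  rw [dif_pos ⟨hp, hq⟩]

/-- independent Haar distributed blocks exist -/
theorem blocks_exist : ∃ (Ω : Type) (_ : MeasurableSpace Ω) (P : Measure Ω)
    (O : Ω → ℕ × ℕ → ℕ × ℕ → ℝ), IsProbabilityMeasure P ∧
    (∀ e : ℕ, Measurable fun ω => (fun p q => O ω p q : Se e → Se e → ℝ)) ∧
    iIndepFun (fun (e : ℕ) ω => (fun p q => O ω p q : Se e → Se e → ℝ)) P ∧
    ∀ e : ℕ, IsHaarLaw (P.map fun ω => (fun p q => O ω p q : Se e → Se e → ℝ)) := by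
  choose μ hμ using fun e => haar_exists (ι := Se e)
  have hp : ∀ e, IsProbabilityMeasure (μ e) := fun e => (hμ e).prob
  have hb : ∀ e : ℕ, (fun (ω : ∀ e, Se e → Se e → ℝ) =>
      (fun p q => glue ω p q : Se e → Se e → ℝ)) = fun ω => ω e := by
    intro e
    funext ω p q
    exact glue_block ω e p q
  refine ⟨∀ e, Se e → Se e → ℝ, inferInstance, Measure.infinitePi μ, glue, inferInstance,
    fun e => ?_, ?_, fun e => ?_⟩
  · rw [hb]
    exact measurable_pi_apply e
  · have h1 := iIndepFun_infinitePi (P := μ) (X := fun e => (id : (Se e → Se e → ℝ) → _))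
      (fun e => measurable_id)
    have h2 : (fun (e : ℕ) (ω : ∀ e, Se e → Se e → ℝ) =>
        (fun p q => glue ω p q : Se e → Se e → ℝ)) = fun e ω => id (ω e) := by
      funext e
      exact hb e
    rw [h2]
    exact h1
  · rw [hb]
    have h1 : (Measure.infinitePi μ).map (fun ω => ω e) = μ e := by
      exact Measure.infinitePi_map_eval μ e
    rw [h1]
    exact hμ e

end

end Pool.Agent.L0h77.BW
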