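import Pool.Agent.L0h77.BW.Haar3
import Pool.Agent.L0h77.BW.Haar4

/-! MP_6b977f_mp, project BW: the enumeration of the pairs -/

set_option autoImplicit false
set_option maxHeartbeats 400000
open MeasureTheory Filter Topology ProbabilityTheory

namespace Pool.Agent.L0h77.BW

open CONw (Se mem_Se card_Se)

noncomputable section

theorem enum_exists : ∃ p : ℕ → ℕ × ℕ, IsEnum p := by
  classical
  obtain ⟨E, j, hmono, -, hlt, huniq⟩ := ENU dirM CONw.unb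
  let φ : ∀ e, Se e ≃ Fin (dirM e) := fun e => Finset.equivFinOfCardEq (card_Se e)
  let ψ : ℕ → ℕ → ℕ × ℕ := fun e i => if h : i < dirM e then ((φ e).symm ⟨i, h⟩ : Se e) else 0
  have hψ : ∀ e i, i < dirM e → ψ e i ∈ Se e := by
    intro e i h
    show (if h : i < dirM e then (((φ e).symm ⟨i, h⟩ : Se e) : ℕ × ℕ) else 0) ∈ Se e
    rw [dif_pos h]
    exact ((φ e).symm ⟨i, h⟩).2
  have hinj : ∀ e i i', i < dirM e → i' < dirM e → ψ e i = ψ e i' → i = i' := by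
    intro e i i' h h' h1
    have h2 : (((φ e).symm ⟨i, h⟩ : Se e) : ℕ × ℕ) = (((φ e).symm ⟨i', h'⟩ : Se e) : ℕ × ℕ) := by
      have h3 : (if h : i < dirM e then (((φ e).symm ⟨i, h⟩ : Se e) : ℕ × ℕ) else 0) =
        (if h : i' < dirM e then (((φ e).symm ⟨i', h⟩ : Se e) : ℕ × ℕ) else 0) := h1
      rwa [dif_pos h, dif_pos h'] at h3
    have h3 := (φ e).symm.injective (Subtype.ext h2)
    exact congrArg Fin.val h3
  have hen : ∀ n, (ψ (E n) (j n)).1 ^ 2 + (ψ (E n) (j n)).2 ^ 2 = E n := fun n =>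
    (mem_Se.1 (hψ _ _ (hlt n))).2.2
  refine ⟨fun n => ψ (E n) (j n), ⟨?_, ?_, ?_⟩⟩
  · intro m n h
    have h0 : ψ (E m) (j m) = ψ (E n) (j n) := h
    have h1 : E m = E n := by rw [← hen m, ← hen n, h0]
    have h2 : j m = j n := by
      rw [h1] at h0
      exact hinj _ _ _ (by rw [← h1]; exact hlt m) (hlt n) h0
    obtain ⟨k, -, hk⟩ := huniq (E n) (j n) (hlt n)
    rw [hk m ⟨h1, h2⟩, hk n ⟨rfl, rfl⟩]
  · intro x
    constructor
    · rintro ⟨n, rfl⟩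
      have h1 := mem_Se.1 (hψ _ _ (hlt n))
      exact ⟨h1.1, h1.2.1⟩
    · rintro ⟨h1, h2⟩
      have hx : x ∈ Se (x.1 ^ 2 + x.2 ^ 2) := mem_Se.2 ⟨h1, h2, rfl⟩
      set e := x.1 ^ 2 + x.2 ^ 2 with he
      obtain ⟨n, ⟨hn1, hn2⟩, -⟩ := huniq e (φ e ⟨x, hx⟩) (φ e ⟨x, hx⟩).2
      refine ⟨n, ?_⟩
      show ψ (E n) (j n) = x
      rw [hn1, hn2]
      show (if h : ((φ e ⟨x, hx⟩ : Fin (dirM e)) : ℕ) < dirM e then
        (((φ e).symm ⟨(φ e ⟨x, hx⟩ : ℕ), h⟩ : Se e) : ℕ × ℕ) else 0) = x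
      rw [dif_pos (φ e ⟨x, hx⟩).2]
      simp
  · intro m n h
    show (ψ (E m) (j m)).1 ^ 2 + (ψ (E m) (j m)).2 ^ 2 ≤ (ψ (E n) (j n)).1 ^ 2 +
      (ψ (E n) (j n)).2 ^ 2
    rw [hen, hen]
    exact hmono h

end

end Pool.Agent.L0h77.BW
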