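import Pool.Agent.L0h77.BW.All

/-! MP_6b977f_mp, project BW: quantum ergodic sequences with typical energies on polyominoes -/

set_option autoImplicit false
set_option maxHeartbeats 400000
open MeasureTheory Filter Topology Complex
open scoped ContDiff

namespace Pool.Agent.L0h77.BW

open Pool.Agent.L0h56.BQ
open Pool.Agent.N661.BR (MW lin J0 resc IsCutoff IsQuantumErgodic IsRandomWave IsLocalLimit)
open Pool.Agent.W745.RW (TF Dp)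

theorem polys (ε : ℝ) (hε : 0 < ε) : ∃ S : Set ℕ,
    (∀ X : ℕ, (cnt (fun e => e ∉ S) X : ℝ) ≤ ε * X) ∧
    ∀ Ω : Set ℂ, IsPoly Ω → Ω.Nonempty → ∀ E : ℕ → ℕ, (∀ n, 0 < E n ∧ E n ∈ S) →
      Tendsto E atTop atTop → ∀ u : ℕ → ℂ → ℝ,
      ((∀ n, u n ∈ DirE (E n)) ∨ ∀ n, u n ∈ NeuE (E n)) →
      (∀ n, ∫ z in Ω, u n z ^ 2 = volume.real Ω) →
      IsQuantumErgodic Ω (fun n => lamE (E n)) u → ∀ χ : ℝ → ℝ, IsCutoff χ →
        (∀ Ω' ⊆ Ω, IsOpen Ω' → Ω'.Nonempty → ∀ (K : ℕ) (w : Fin K → ℂ) (t : Fin K → ℝ),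
          Tendsto (fun n => (1 / volume.real Ω' : ℝ) * ∫ z in Ω', Complex.exp (I * ((∑ j, t j *
            resc χ Ω (lamE (E n)) (u n) z (w j) : ℝ) : ℂ))) atTop
            (𝓝 (Complex.exp ((-(∑ i, ∑ j, t i * t j * J0 ‖w i - w j‖) / 2 : ℝ))))) ∧
        ∀ μ : Measure MW, IsProbabilityMeasure μ →
          (IsLocalLimit χ Ω (fun n => lamE (E n)) u μ ↔ IsRandomWave μ) := by
  obtain ⟨S, hS, hG⟩ := cls ε hε
  refine ⟨S, hS, fun Ω hΩ hne E hE hEt u hu hn hq χ hχ => ?_⟩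
  have hE0 : ∀ n, 0 < E n := fun n => (hE n).1
  obtain ⟨σ, hσ, b, hb⟩ : ∃ σ : ℝ, σ * σ = 1 ∧ ∃ b : ℕ → GI → ℝ, ∀ n, Rep σ (E n) (b n) (u n) := by
    rcases hu with hu | hu
    · choose b hb using fun n => DirE_rep (hu n)
      exact ⟨-1, by norm_num, b, hb⟩
    · choose b hb using fun n => NeuE_rep (hu n)
      exact ⟨1, by norm_num, b, hb⟩
  have h1 := qsm_kap QSM E hE0 σ hσ b u hb Ω hΩ hne hn hq
  have h2 := hG E (fun n => (hE n).2) hE0 hEt (fun n => kap (E n) (b n)) (fun n => kap_nn _ _) h1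
  have key : ∀ Ω' ⊆ Ω, IsOpen Ω' → Ω'.Nonempty → ∀ (K : ℕ) (w : Fin K → ℂ) (t : Fin K → ℝ),
          Tendsto (fun n => (1 / volume.real Ω' : ℝ) * ∫ z in Ω', Complex.exp (I * ((∑ j, t j *
            resc χ Ω (lamE (E n)) (u n) z (w j) : ℝ) : ℂ))) atTop
            (𝓝 (Complex.exp ((-(∑ i, ∑ j, t i * t j * J0 ‖w i - w j‖) / 2 : ℝ)))) := by
    intro Ω' hsub ho hne' K w t
    exact poly E _ h2 σ hσ b u hb (fun n ν hν => le_kap _ _ ν hν) Ω hΩ hne hn hq Ω' ho hne' hsub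
      χ hχ K w t
  refine ⟨key, fun μ hμ => ?_⟩
  exact limit_iff χ Ω _ u (fun K w t => key Ω subset_rfl hΩ.op hne K w t) μ

end Pool.Agent.L0h77.BW
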