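import Pool.Agent.L0h77.BW.Defs

/-! MP_6b977f_mp, project BW: orthonormal bases of `L²` -/

set_option autoImplicit false
open MeasureTheory Filter Topology Complex
open scoped ContDiff

namespace Pool.Agent.L0h77.BW

open Pool.Agent.L0h56.BQ

noncomputable section

/-- `(u n)` is an orthonormal basis of the real Hilbert space `L²` of the unit square, `u n` lies in
the eigenspace `F (E n)` of the eigenvalue `π² E n`, and the eigenvalues are nondecreasing -/
structure IsONB (F : ℕ → Submodule ℝ (ℂ → ℝ)) (E : ℕ → ℕ) (u : ℕ → ℂ → ℝ) : Prop where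
  mono : Monotone E
  mem : ∀ n, u n ∈ F (E n)
  orth : ∀ m n, ∫ z in Sq, u m z * u n z = if m = n then 1 else 0
  compl : ∀ f : ℂ → ℝ, MemLp f 2 (volume.restrict Sq) → (∀ n, ∫ z in Sq, f z * u n z = 0) →
    f =ᵐ[volume.restrict Sq] 0

/-- ONB1 -/
def S_ONB1 : Prop := ∀ F : ℕ → Submodule ℝ (ℂ → ℝ), F = DirE ∨ F = NeuE →
  ∀ (E : ℕ → ℕ) (u : ℕ → ℂ → ℝ), IsONB F E u → IsBasis F E u

/-- ONB2 -/
def S_ONB2 : Prop := ∀ (E : ℕ → ℕ) (u : ℕ → ℂ → ℝ), IsBasis DirE E u → IsONB DirE E u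

end

end Pool.Agent.L0h77.BW
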