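import Pool.Agent.L0h77.BW.Stm3

/-! BW/ONB1: orthonormal bases of `L²` which consist of eigenfunctions are bases -/

set_option autoImplicit false
open MeasureTheory Filter Topology Complex
open scoped ContDiff

namespace Pool.Agent.L0h77.BW

open Pool.Agent.L0h56.BQ

noncomputable section

theorem onb1_symm {σ : ℝ} {E E' : ℕ} {b b' : GaussianInt → ℝ} {u u' : ℂ → ℝ} (h : Rep σ E b u)
    (h' : Rep σ E' b' u') (hσ : σ * σ = 1) : Symm fun z => u z * u' z where
  cont := h.cont.mul h'.cont
  p1 := fun z => by show u _ * u' _ = _; rw [h.p1, h'.p1]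
  p2 := fun z => by show u _ * u' _ = _; rw [h.p2, h'.p2]
  r1 := fun z => by
    show u _ * u' _ = _
    rw [h.r1, h'.r1]
    linear_combination (u z * u' z) * hσ
  r2 := fun z => by
    show u _ * u' _ = _
    rw [h.neg', h'.neg', h.r1, h'.r1]
    linear_combination (u z * u' z) * hσ

/-- different energies are orthogonal -/
theorem onb1_ip0 {σ : ℝ} {E E' : ℕ} {b b' : GaussianInt → ℝ} {u u' : ℂ → ℝ} (h : Rep σ E b u)
    (h' : Rep σ E' b' u') (hne : E ≠ E') : ∫ z in cell 2, u z * u' z = 0 := by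
  classical
  refine real_int ?_
  have h1 : ∀ z, ((u z * u' z : ℝ) : ℂ) =
      ∑ ν ∈ V E, ∑ ν' ∈ V E', ((b ν : ℂ) * (b' ν' : ℂ)) * ch (ν + ν') z := by
    intro z
    push_cast
    rw [h.eq, h'.eq, Finset.sum_mul_sum]
    refine Finset.sum_congr rfl fun ν _ => Finset.sum_congr rfl fun ν' _ => ?_
    rw [ch_add]
    ring
  simp_rw [h1]
  rw [csum (V E) (fun ν z => ∑ ν' ∈ V E', ((b ν : ℂ) * (b' ν' : ℂ)) * ch (ν + ν') z)
    (fun ν _ => continuous_finsetSum _ fun ν' _ => continuous_const.mul (ch_cont _))]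
  push_cast
  refine Finset.sum_eq_zero fun ν hν => ?_
  rw [csum (V E') (fun ν' z => ((b ν : ℂ) * (b' ν' : ℂ)) * ch (ν + ν') z)
    (fun ν' _ => continuous_const.mul (ch_cont _))]
  refine Finset.sum_eq_zero fun ν' hν' => ?_
  rw [integral_const_mul, int_ch, if_neg, mul_zero]
  intro h2
  apply hne
  have h3 : ν' = -ν := eq_neg_of_add_eq_zero_right h2
  have h4 := mem_V.1 hν
  have h5 := mem_V.1 hν'
  rw [h3, Zsqrtd.norm_neg] at h5
  have h6 : (E : ℤ) = (E' : ℤ) := h4.symm.trans h5
  exact_mod_cast h6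

theorem onb1_sq {σ : ℝ} {E E' : ℕ} {b b' : GaussianInt → ℝ} {u u' : ℂ → ℝ} (h : Rep σ E b u)
    (h' : Rep σ E' b' u') (hσ : σ * σ = 1) :
    ∫ z in Sq, u z * u' z = 1 / 4 * ∫ z in cell 2, u z * u' z :=
  (onb1_symm h h' hσ).cell_eq 0 0

/-- continuous functions are integrable on the square -/
theorem onb1_int {f : ℂ → ℝ} (hf : Continuous f) : Integrable f (volume.restrict Sq) := by
  have hb : Sq ⊆ Metric.closedBall (0 : ℂ) 2 := by
    rintro z ⟨h1, h2⟩
    have h1' : 0 < z.re ∧ z.re < 1 := by simpa using h1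
    have h2' : 0 < z.im ∧ z.im < 1 := by simpa using h2
    rw [mem_closedBall_zero_iff]
    refine (Complex.norm_le_abs_re_add_abs_im z).trans ?_
    rw [abs_of_pos h1'.1, abs_of_pos h2'.1]
    linarith [h1'.2, h2'.2]
  have h1 : IntegrableOn f (Metric.closedBall (0 : ℂ) 2) volume :=
    (hf.locallyIntegrable).integrableOn_isCompact (isCompact_closedBall _ _)
  exact h1.mono_set hb

/-- the two spaces, in the same way -/
structure Spc (F : ℕ → Submodule ℝ (ℂ → ℝ)) (σ : ℝ) : Prop where
  sg : σ * σ = 1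
  rep : ∀ e, ∀ f ∈ F e, ∃ b, Rep σ e b f
  fin : ∀ e, FiniteDimensional ℝ (F e)

theorem onb1_fin (e : ℕ) (w : ℕ → ℕ → ℂ → ℝ) : FiniteDimensional ℝ
    (Submodule.span ℝ {f : ℂ → ℝ | ∃ a b : ℕ, a ^ 2 + b ^ 2 = e ∧ f = w a b}) := by
  have hfin : {f : ℂ → ℝ | ∃ a b : ℕ, a ^ 2 + b ^ 2 = e ∧ f = w a b}.Finite := by
    refine ((Finset.range (e + 1) ×ˢ Finset.range (e + 1)).finite_toSet.image
      (fun p : ℕ × ℕ => w p.1 p.2)).subset ?_
    rintro f ⟨a, b, hab, rfl⟩
    have h1 : a ≤ a ^ 2 := Nat.le_self_pow (by norm_num) a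
    have h2 : b ≤ b ^ 2 := Nat.le_self_pow (by norm_num) b
    refine ⟨(a, b), ?_, rfl⟩
    rw [Finset.mem_coe, Finset.mem_product, Finset.mem_range, Finset.mem_range]
    constructor
    · show a < e + 1
      omega
    · show b < e + 1
      omega
  exact FiniteDimensional.span_of_finite ℝ hfin

theorem onb1_dir : Spc DirE (-1) where
  sg := by norm_num
  rep := fun _ _ hf => DirE_rep hf
  fin := fun e => onb1_fin e sinw

theorem onb1_neu : Spc NeuE 1 where
  sg := by norm_num
  rep := fun _ _ hf => NeuE_rep hf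
  fin := fun e => onb1_fin e cosw

theorem Spc.cont {F : ℕ → Submodule ℝ (ℂ → ℝ)} {σ : ℝ} (h : Spc F σ) {e : ℕ} {f : ℂ → ℝ}
    (hf : f ∈ F e) : Continuous f := by
  obtain ⟨b, hb⟩ := h.rep e f hf
  exact hb.cont

theorem Spc.ne {F : ℕ → Submodule ℝ (ℂ → ℝ)} {σ : ℝ} (h : Spc F σ) {e e' : ℕ} {f f' : ℂ → ℝ}
    (hf : f ∈ F e) (hf' : f' ∈ F e') (hne : e ≠ e') : ∫ z in Sq, f z * f' z = 0 := by
  obtain ⟨b, hb⟩ := h.rep e f hf
  obtain ⟨b', hb'⟩ := h.rep e' f' hf'
  rw [onb1_sq hb hb' h.sg, onb1_ip0 hb hb' hne, mul_zero]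

theorem Spc.zero {F : ℕ → Submodule ℝ (ℂ → ℝ)} {σ : ℝ} (h : Spc F σ) {e : ℕ} {f : ℂ → ℝ}
    (hf : f ∈ F e) (h0 : ∫ z in Sq, f z * f z = 0) : f = 0 := by
  obtain ⟨b, hb⟩ := h.rep e f hf
  rw [onb1_sq hb hb h.sg, hb.ip hb] at h0
  have h1 : ∑ ν ∈ V e, b ν * b ν = 0 := by linarith
  have h2 : ∀ ν ∈ V e, b ν = 0 := by
    intro ν hν
    have h3 := (Finset.sum_eq_zero_iff_of_nonneg (fun ν _ => mul_self_nonneg (b ν))).1 h1 ν hν
    exact mul_self_eq_zero.1 h3
  funext z
  have h4 : (f z : ℂ) = 0 := by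
    rw [hb.eq]
    refine Finset.sum_eq_zero fun ν hν => ?_
    rw [h2 ν hν]
    simp
  exact_mod_cast h4

theorem Spc.onb {F : ℕ → Submodule ℝ (ℂ → ℝ)} {σ : ℝ} (h : Spc F σ) {E : ℕ → ℕ} {u : ℕ → ℂ → ℝ}
    (hu : IsONB F E u) : IsBasis F E u := by
  classical
  have hc : ∀ n, Continuous (u n) := fun n => h.cont (hu.mem n)
  have hm' : ∀ (e : ℕ) (n : {n // E n = e}), u n.1 ∈ F e := by
    rintro e ⟨n, rfl⟩
    exact hu.mem n
  -- inner products of sums
  have hsum : ∀ (e : ℕ) (s : Finset {n // E n = e}) (c : {n // E n = e} → ℝ) (m : ℕ),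
      ∫ z in Sq, (∑ n ∈ s, c n * u n.1 z) * u m z = ∑ n ∈ s, c n * (if n.1 = m then 1 else 0) := by
    intro e s c m
    have e1 : ∀ z, (∑ n ∈ s, c n * u n.1 z) * u m z = ∑ n ∈ s, c n * (u n.1 z * u m z) := by
      intro z
      rw [Finset.sum_mul]
      exact Finset.sum_congr rfl fun n _ => by ring
    simp_rw [e1]
    rw [integral_finsetSum s (f := fun (n : {n // E n = e}) z => c n * (u n.1 z * u m z))
      (fun n _ => onb1_int (continuous_const.mul ((hc n.1).mul (hc m))))]
    refine Finset.sum_congr rfl fun n _ => ?_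
    rw [integral_const_mul, hu.orth]
  have hli : ∀ e, LinearIndependent ℝ
      (fun n : {n // E n = e} => (⟨u n.1, hm' e n⟩ : F e)) := by
    intro e
    rw [linearIndependent_iff']
    intro s c hs i hi
    have h1 : ∀ z, ∑ n ∈ s, c n * u n.1 z = 0 := by
      intro z
      have h2 := congrArg (fun x : F e => (x : ℂ → ℝ) z) hs
      simp only [Submodule.coe_sum, Submodule.coe_smul, Submodule.coe_zero, Finset.sum_apply,
        Pi.smul_apply, smul_eq_mul, Pi.zero_apply] at h2
      exact h2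
    have h2 := hsum e s c i.1
    simp_rw [h1] at h2
    simp only [zero_mul, integral_zero] at h2
    rw [Finset.sum_eq_single i] at h2
    · rw [if_pos rfl, mul_one] at h2
      exact h2.symm
    · intro n _ hn
      rw [if_neg (fun h => hn (Subtype.ext h)), mul_zero]
    · intro hn
      exact absurd hi hn
  have hfin : ∀ e, Finite {n // E n = e} := by
    intro e
    have := h.fin e
    exact (hli e).finite_of_isNoetherian
  have hfull : ∀ e, {n | E n = e}.ncard = Module.finrank ℝ (F e) := by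
    intro e
    have := h.fin e
    have := hfin e
    let _ : Fintype {n // E n = e} := Fintype.ofFinite _
    have hspan : ⊤ ≤ Submodule.span ℝ (Set.range
        (fun n : {n // E n = e} => (⟨u n.1, hm' e n⟩ : F e))) := by
      rintro ⟨g, hg⟩ -
      let c : {n // E n = e} → ℝ := fun n => ∫ z in Sq, g z * u n.1 z
      let f : ℂ → ℝ := fun z => g z - ∑ n, c n * u n.1 z
      have hsF : (fun z => ∑ n : {n // E n = e}, c n * u n.1 z) ∈ F e := by
        have e1 : (fun z => ∑ n : {n // E n = e}, c n * u n.1 z) =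
            ∑ n : {n // E n = e}, c n • u n.1 := by
          funext z
          simp [Finset.sum_apply]
        rw [e1]
        exact Submodule.sum_mem _ fun n _ => Submodule.smul_mem _ _ (hm' e n)
      have hfF : f ∈ F e := Submodule.sub_mem _ hg hsF
      have hfc : Continuous f := h.cont hfF
      have hgc : Continuous g := h.cont hg
      have horth : ∀ m, ∫ z in Sq, f z * u m z = 0 := by
        intro m
        by_cases hm : E m = e
        · have e1 : ∀ z, f z * u m z = g z * u m z - (∑ n, c n * u n.1 z) * u m z := by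
            intro z
            show (g z - ∑ n, c n * u n.1 z) * u m z = _
            ring
          simp_rw [e1]
          rw [integral_sub (f := fun z => g z * u m z)
            (g := fun z => (∑ n : {n // E n = e}, c n * u n.1 z) * u m z)
            (onb1_int (hgc.mul (hc m)))
            (onb1_int ((h.cont hsF).mul (hc m))), hsum e Finset.univ c m,
            Finset.sum_eq_single ⟨m, hm⟩]
          · rw [if_pos rfl, mul_one]
            exact sub_self _
          · intro n _ hn
            rw [if_neg (fun h => hn (Subtype.ext h)), mul_zero]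
          · intro hn
            exact absurd (Finset.mem_univ _) hn
        · exact h.ne hfF (hu.mem m) (Ne.symm hm)
      have hLp : MemLp f 2 (volume.restrict Sq) :=
        (memLp_two_iff_integrable_sq hfc.aestronglyMeasurable).2 (onb1_int (hfc.pow 2))
      have hae := hu.compl f hLp horth
      have h0 : ∫ z in Sq, f z * f z = 0 := by
        have h1 : (fun z => f z * f z) =ᵐ[volume.restrict Sq] fun _ => (0 : ℝ) := by
          filter_upwards [hae] with z hz
          rw [hz]
          simp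
        rw [integral_congr_ae h1, integral_zero]
      have hf0 : f = 0 := h.zero hfF h0
      have hg1 : (⟨g, hg⟩ : F e) = ∑ n : {n // E n = e}, c n •
          (⟨u n.1, hm' e n⟩ : F e) := by
        apply Subtype.ext
        funext z
        have h1 : g z - ∑ n : {n // E n = e}, c n * u n.1 z = 0 := congrFun hf0 z
        simp only [Submodule.coe_sum, Submodule.coe_smul, Finset.sum_apply, Pi.smul_apply,
          smul_eq_mul]
        linarith
      rw [hg1]
      exact Submodule.sum_mem _ fun n _ => Submodule.smul_mem _ _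
        (Submodule.subset_span ⟨n, rfl⟩)
    have hB := Module.finrank_eq_card_basis (Module.Basis.mk (hli e) hspan)
    rw [hB, ← Nat.card_coe_set_eq, ← Nat.card_eq_fintype_card]
    rfl
  refine ⟨hu.mono, ?_, hu.mem, hu.orth, hfull⟩
  refine tendsto_atTop_atTop_of_monotone hu.mono ?_
  intro B
  by_contra hcon
  push Not at hcon
  have hsub : (Set.univ : Set ℕ) ⊆ ⋃ e ∈ Finset.range B, {n | E n = e} := by
    intro n _
    rw [Set.mem_iUnion₂]
    exact ⟨E n, Finset.mem_range.2 (hcon n), rfl⟩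
  have hf : (⋃ e ∈ Finset.range B, {n | E n = e}).Finite := by
    refine Set.Finite.biUnion (Finset.finite_toSet _) ?_
    intro e _
    have : Finite ↥{n : ℕ | E n = e} := hfin e
    exact Set.toFinite _
  exact Set.infinite_univ (hf.subset hsub)

theorem ONB1 : S_ONB1 := by
  rintro F (rfl | rfl) E u hu
  · exact onb1_dir.onb hu
  · exact onb1_neu.onb hu

end

end Pool.Agent.L0h77.BW
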