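import Pool.Agent.L0h77.BW.PMom
import Pool.Agent.L0h77.BW.Polys
import Pool.Agent.L0h77.BW.Stm3
import Pool.Agent.L0h77.BW.T_ONB1

/-! MP_6b977f_mp, project BW: the main theorem, up to existence -/

set_option autoImplicit false
set_option maxHeartbeats 400000
open MeasureTheory Filter Topology Complex
open scoped ContDiff

namespace Pool.Agent.L0h77.BW

open Pool.Agent.L0h56.BQ
open Pool.Agent.N661.BR (MW lin J0 resc IsCutoff IsQuantumErgodic IsRandomWave IsLocalLimit)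
open Pool.Agent.W745.RW (TF Dp)

noncomputable section

/-- the local limits of the sequence `u n` of functions on `Ω`, with the eigenvalues `lam n`, are
those of the random wave: (1) a probability measure on `MW` is a limit point of the local measures
if and only if it is the law of the random wave; (2) for every nonempty open subset `Ω'` of `Ω` the
finite dimensional distributions of the rescaled functions at a random point of `Ω'` converge to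
those of the random wave; (3) all their moments converge to the moments of the random wave. -/
def HasRandomWaveLimit (Ω : Set ℂ) (lam : ℕ → ℝ) (u : ℕ → ℂ → ℝ) : Prop :=
  (∀ χ : ℝ → ℝ, IsCutoff χ → ∀ μ : Measure MW, IsProbabilityMeasure μ →
    (IsLocalLimit χ Ω lam u μ ↔ IsRandomWave μ)) ∧
  ∀ Ω' ⊆ Ω, IsOpen Ω' → Ω'.Nonempty → ∀ (K : ℕ) (w : Fin K → ℂ) (t : Fin K → ℝ),
    (∀ χ : ℝ → ℝ, IsCutoff χ → Tendsto (fun n => (1 / volume.real Ω' : ℝ) * ∫ z in Ω',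
      Complex.exp (I * ((∑ j, t j * resc χ Ω (lam n) (u n) z (w j) : ℝ) : ℂ))) atTop
      (𝓝 (Complex.exp ((-(∑ i, ∑ j, t i * t j * J0 ‖w i - w j‖) / 2 : ℝ))))) ∧
    ∀ k : ℕ, Tendsto (fun n => (1 / volume.real Ω' : ℝ) * ∫ z in Ω',
      (∑ j, t j * u n (z + w j / (√(lam n) : ℝ))) ^ k) atTop
      (𝓝 (gm k (∑ i, ∑ j, t i * t j * J0 ‖w i - w j‖)))

theorem hasRWL {E : ℕ → ℕ} {κ : ℕ → ℝ} (hG : Good E κ) {σ : ℝ} (hσ : σ * σ = 1)
    {b : ℕ → GI → ℝ} {u : ℕ → ℂ → ℝ} (hr : ∀ n, Rep σ (E n) (b n) (u n))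
    (hbκ : ∀ n, ∀ ν ∈ V (E n), |b n ν| ≤ κ n)
    {Ω : Set ℂ} (hΩ : IsPoly Ω) (hne : Ω.Nonempty) (hn : ∀ n, ∫ z in Ω, u n z ^ 2 = volume.real Ω)
    (hq : IsQuantumErgodic Ω (fun n => lamE (E n)) u) :
    HasRandomWaveLimit Ω (fun n => lamE (E n)) u := by
  refine ⟨fun χ hχ μ hμ => ?_, fun Ω' hsub ho hne' K w t => ⟨fun χ hχ => ?_, fun k => ?_⟩⟩
  · exact limit_iff χ Ω _ u (fun K w t => poly E κ hG σ hσ b u hr hbκ Ω hΩ hne hn hq Ω hΩ.op hne
      subset_rfl χ hχ K w t) μ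
  · exact poly E κ hG σ hσ b u hr hbκ Ω hΩ hne hn hq Ω' ho hne' hsub χ hχ K w t
  · exact pmom E κ hG σ hσ b u hr hbκ Ω hΩ hne hn hq Ω' ho hne' hsub K w t k

/-- every quantum ergodic basis -/
theorem main_one (F : ℕ → Submodule ℝ (ℂ → ℝ)) (hF : F = DirE ∨ F = NeuE)
    (E : ℕ → ℕ) (u : ℕ → ℂ → ℝ) (hB : IsONB F E u) (n : ℕ → ℕ) (hn : FullDensity n)
    (hq : IsQuantumErgodic Sq (fun i => lamE (E (n i))) (fun i => u (n i))) :
    ∃ m : ℕ → ℕ, FullDensity m ∧ Set.range m ⊆ Set.range n ∧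
      HasRandomWaveLimit Sq (fun i => lamE (E (m i))) (fun i => u (m i)) := by
  obtain ⟨m, hm, hmr, hqm, hnorm, σ, b, κ, hσ, hb, hG, hκ⟩ :=
    full_core QSM nb nc DEN DIAG CNT FR F hF E u (ONB1 F hF E u hB) n hn hq
  exact ⟨m, hm, hmr, hasRWL hG hσ hb hκ Sq_poly Sq_ne hnorm hqm⟩

/-- most energies on every polyomino -/
theorem main_three (ε : ℝ) (hε : 0 < ε) : ∃ S : Set ℕ,
    (∀ X : ℕ, (cnt (fun e => e ∉ S) X : ℝ) ≤ ε * X) ∧
    ∀ Ω : Set ℂ, IsPoly Ω → Ω.Nonempty → ∀ E : ℕ → ℕ, (∀ n, 0 < E n ∧ E n ∈ S) →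
      Tendsto E atTop atTop → ∀ u : ℕ → ℂ → ℝ,
      ((∀ n, u n ∈ DirE (E n)) ∨ ∀ n, u n ∈ NeuE (E n)) →
      (∀ n, ∫ z in Ω, u n z ^ 2 = volume.real Ω) →
      IsQuantumErgodic Ω (fun n => lamE (E n)) u →
      HasRandomWaveLimit Ω (fun n => lamE (E n)) u := by
  obtain ⟨S, hS, hG⟩ := cls ε hε
  refine ⟨S, hS, fun Ω hΩ hne E hE hEt u hu hn hq => ?_⟩
  have hE0 : ∀ n, 0 < E n := fun n => (hE n).1
  obtain ⟨σ, hσ, b, hb⟩ : ∃ σ : ℝ, σ * σ = 1 ∧ ∃ b : ℕ → GI → ℝ, ∀ n, Rep σ (E n) (b n) (u n) := by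
    rcases hu with hu | hu
    · choose b hb using fun n => DirE_rep (hu n)
      exact ⟨-1, by norm_num, b, hb⟩
    · choose b hb using fun n => NeuE_rep (hu n)
      exact ⟨1, by norm_num, b, hb⟩
  have h1 := qsm_kap QSM E hE0 σ hσ b u hb Ω hΩ hne hn hq
  have h2 := hG E (fun n => (hE n).2) hE0 hEt (fun n => kap (E n) (b n)) (fun n => kap_nn _ _) h1
  exact hasRWL h2 hσ hb (fun n ν hν => le_kap _ _ ν hν) hΩ hne hn hq

end

end Pool.Agent.L0h77.BW
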