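import Pool.Agent.L0h77.BW.T_MOMS

/-! MP_6b977f_mp, project BW: convergence of all moments -/

set_option autoImplicit false
set_option maxHeartbeats 400000
open MeasureTheory Filter Topology Complex
open scoped ContDiff

namespace Pool.Agent.L0h77.BW

open Pool.Agent.L0h56.BQ
open Pool.Agent.N661.BR (MW lin J0 resc IsCutoff IsQuantumErgodic IsRandomWave IsLocalLimit)
open Pool.Agent.W745.RW (TF Dp)

noncomputable section

theorem torus_mom (E : ℕ → ℕ) (κ : ℕ → ℝ) (hG : Good E κ)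
    (b : ℕ → GI → ℂ)
    (hb : ∀ n ν, b n (-ν) = (starRingEnd ℂ) (b n ν))
    (hb1 : ∀ n, ∑ ν ∈ V (E n), ‖b n ν‖ ^ 2 = 1)
    (hbκ : ∀ n, ∀ ν ∈ V (E n), ‖b n ν‖ ≤ κ n)
    (hA : ∀ q : ℤ, q ≠ 0 → Tendsto (fun n => ∑ ν ∈ V (E n), ((‖b n ν‖ ^ 2 : ℝ) : ℂ) *
      Complex.exp (I * (q * dirn ν : ℝ))) atTop (𝓝 0))
    (u : ℕ → ℂ → ℝ) (hu : ∀ n z, (u n z : ℂ) = ∑ ν ∈ V (E n), b n ν * ch ν z)
    (Ω : Set ℂ) (ho : IsOpen Ω) (hbd : Bornology.IsBounded Ω) (hne : Ω.Nonempty)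
    (K : ℕ) (w : Fin K → ℂ) (t : Fin K → ℝ) (k : ℕ) :
    Tendsto (fun n => (1 / volume.real Ω : ℝ) * ∫ z in Ω,
      (∑ j, t j * u n (z + w j / (√(lamE (E n)) : ℝ))) ^ k) atTop
      (𝓝 (gm k (∑ i, ∑ j, t i * t j * J0 ‖w i - w j‖))) := by
  have hvol : volume Ω ≠ ⊤ := hbd.measure_lt_top.ne
  have hvr : volume.real Ω ≠ 0 := by
    rw [measureReal_def]
    exact (ENNReal.toReal_pos (ho.measure_pos volume hne).ne' hvol).ne'
  have hE : ∀ n, 0 < E n := hG.pos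
  set c : ℕ → GaussianInt → ℂ := fun n ν => b n ν * TT (E n) w t ν with hc
  have hcs : ∀ n ν, c n (-ν) = (starRingEnd ℂ) (c n ν) := fun n ν => by
    simp only [hc]
    rw [hb, TT_neg, map_mul]
  set T0 : ℝ := ∑ j, |t j| with hT0
  have hT00 : 0 ≤ T0 := Finset.sum_nonneg fun _ _ => abs_nonneg _
  have hcκ : ∀ n, ∀ ν ∈ V (E n), ‖c n ν‖ ≤ T0 * κ n := by
    intro n ν hν
    simp only [hc]
    rw [norm_mul, mul_comm]
    exact mul_le_mul (TT_norm _ w t ν) (hbκ n ν hν) (norm_nonneg _) hT00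
  have hv : Tendsto (fun n => ∑ ν ∈ V (E n), ‖c n ν‖ ^ 2) atTop
      (𝓝 (∑ i, ∑ j, t i * t j * J0 ‖w i - w j‖)) := by
    have h1 : ∀ n, ∑ ν ∈ V (E n), ‖c n ν‖ ^ 2 = ∑ i, ∑ j, t i * t j *
        ∑ ν ∈ V (E n), ‖b n ν‖ ^ 2 * Real.cos ((w i - w j).re * Real.cos (dirn ν) +
          (w i - w j).im * Real.sin (dirn ν)) := by
      intro n
      have h2 : ∀ ν ∈ V (E n), ‖c n ν‖ ^ 2 = ∑ i, ∑ j, t i * t j *
          (‖b n ν‖ ^ 2 * Real.cos ((w i - w j).re * Real.cos (dirn ν) +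
          (w i - w j).im * Real.sin (dirn ν))) := by
        intro ν hν
        simp only [hc]
        rw [norm_mul, mul_pow, TT_sq _ (hE n) w t ν hν, Finset.mul_sum]
        refine Finset.sum_congr rfl fun i _ => ?_
        rw [Finset.mul_sum]
        refine Finset.sum_congr rfl fun j _ => ?_
        ring
      rw [Finset.sum_congr rfl h2, Finset.sum_comm]
      refine Finset.sum_congr rfl fun i _ => ?_
      rw [Finset.sum_comm]
      refine Finset.sum_congr rfl fun j _ => ?_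
      rw [Finset.mul_sum]
    simp_rw [h1]
    refine tendsto_finsetSum _ fun i _ => tendsto_finsetSum _ fun j _ => ?_
    exact (weyl_cov (fun n => V (E n)) (fun n ν => ‖b n ν‖ ^ 2)
      (fun n ν _ => by positivity) hb1 hA (w i - w j)).const_mul _
  have hg := momGL E κ hG c hcs T0 hcκ _ hv Ω ho hbd k
  have hlin : ∀ n z, ((∑ j, t j * u n (z + w j / (√(lamE (E n)) : ℝ)) : ℝ) : ℂ) =
      ∑ ν ∈ V (E n), c n ν * ch ν z := by
    intro n z
    push_cast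
    simp_rw [hu, ch_shift]
    have h1 : ∀ j : Fin K, (t j : ℂ) * ∑ ν ∈ V (E n),
        b n ν * (ch ν z * Complex.exp (I * (ph (E n) (w j) ν : ℝ))) =
        ∑ ν ∈ V (E n), b n ν * ((t j : ℂ) *
          Complex.exp (I * (ph (E n) (w j) ν : ℝ))) * ch ν z := by
      intro j
      rw [Finset.mul_sum]
      exact Finset.sum_congr rfl fun ν _ => by ring
    rw [Finset.sum_congr rfl fun j _ => h1 j, Finset.sum_comm]
    refine Finset.sum_congr rfl fun ν _ => ?_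
    simp only [hc]
    unfold TT
    rw [Finset.mul_sum, Finset.sum_mul]
  have h3 : ∀ n, ∫ z in Ω, (∑ ν ∈ V (E n), c n ν * ch ν z) ^ k =
      ((∫ z in Ω, (∑ j, t j * u n (z + w j / (√(lamE (E n)) : ℝ))) ^ k : ℝ) : ℂ) := by
    intro n
    rw [← integral_complex_ofReal]
    congr 1
    funext z
    rw [← hlin]
    push_cast
    rfl
  simp_rw [h3] at hg
  have h4 := (Complex.continuous_re.tendsto _).comp hg
  rw [← Complex.ofReal_mul, Complex.ofReal_re] at h4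
  have h5 : Tendsto (fun n => ∫ z in Ω, (∑ j, t j * u n (z + w j / (√(lamE (E n)) : ℝ))) ^ k) atTop
      (𝓝 (volume.real Ω * gm k (∑ i, ∑ j, t i * t j * J0 ‖w i - w j‖))) :=
    h4.congr fun n => by rw [Function.comp_apply, Complex.ofReal_re]
  have h6 := h5.const_mul (1 / volume.real Ω)
  rwa [← mul_assoc, one_div_mul_cancel hvr, one_mul] at h6

theorem pmom (E : ℕ → ℕ) (κ : ℕ → ℝ) (hG : Good E κ) (σ : ℝ) (hσ : σ * σ = 1)
    (b : ℕ → GI → ℝ) (u : ℕ → ℂ → ℝ) (hr : ∀ n, Rep σ (E n) (b n) (u n))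
    (hbκ : ∀ n, ∀ ν ∈ V (E n), |b n ν| ≤ κ n)
    (Ω : Set ℂ) (hΩ : IsPoly Ω) (hne : Ω.Nonempty) (hn : ∀ n, ∫ z in Ω, u n z ^ 2 = volume.real Ω)
    (hq : IsQuantumErgodic Ω (fun n => lamE (E n)) u)
    (Ω' : Set ℂ) (ho' : IsOpen Ω') (hne' : Ω'.Nonempty) (hsub : Ω' ⊆ Ω)
    (K : ℕ) (w : Fin K → ℂ) (t : Fin K → ℝ) (k : ℕ) :
    Tendsto (fun n => (1 / volume.real Ω' : ℝ) * ∫ z in Ω',
      (∑ j, t j * u n (z + w j / (√(lamE (E n)) : ℝ))) ^ k) atTop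
      (𝓝 (gm k (∑ i, ∑ j, t i * t j * J0 ‖w i - w j‖))) := by
  refine torus_mom E κ hG (fun n ν => (b n ν : ℂ)) ?_ ?_ ?_ ?_ u (fun n => (hr n).eq)
    Ω' ho' (hΩ.bd.subset hsub) hne' K w t k
  · intro n ν
    rw [(hr n).neg, Complex.conj_ofReal]
  · intro n
    rw [← norm_one' hσ hr hΩ hne hn n]
    refine Finset.sum_congr rfl fun ν _ => ?_
    rw [Complex.norm_real, Real.norm_eq_abs, sq_abs]
  · intro n ν hν
    rw [Complex.norm_real, Real.norm_eq_abs]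
    exact hbκ n ν hν
  · intro q hq0
    exact ang_of_even hG.pos hr (fun q hq1 => qe_even hσ hG.pos hr hΩ hne hn hq q hq1) hσ q hq0

end

end Pool.Agent.L0h77.BW
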