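import Pool.Agent.L0h77.BW.Defs

/-! MP_6b977f_mp, project BW: the recursion for the moments -/

set_option autoImplicit false
set_option maxHeartbeats 400000

namespace Pool.Agent.L0h77.BW

open Pool.Agent.L0h56.BQ

noncomputable section

open Classical

/-- minimal relations indexed by any finite type -/
def MinG {ι : Type} [Fintype ι] (τ : ι → GI) : Prop :=
  ∑ i, τ i = 0 ∧ ∀ s : Finset ι, s.Nonempty → s ≠ Finset.univ → ∑ i ∈ s, τ i ≠ 0

/-- the product of the values of `d` -/
def pd {ι : Type} [Fintype ι] (d : GI → ℝ) (τ : ι → GI) : ℝ := ∏ i, d (τ i)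

/-- tuples indexed by any finite type -/
def TupG (S : Finset GI) (ι : Type) [Fintype ι] : Finset (ι → GI) := Fintype.piFinset fun _ => S

theorem mem_TupG {S : Finset GI} {ι : Type} [Fintype ι] {τ : ι → GI} :
    τ ∈ TupG S ι ↔ ∀ i, τ i ∈ S := Fintype.mem_piFinset

theorem mem_Tup {S : Finset GI} {k : ℕ} {τ : Fin k → GI} : τ ∈ Tup S k ↔ ∀ i, τ i ∈ S :=
  Fintype.mem_piFinset

theorem reindex {ι : Type} [Fintype ι] {b : ℕ} (e : ι ≃ Fin b) (S : Finset GI) (d : GI → ℝ)
    (P : (ι → GI) → Prop) (Q : (Fin b → GI) → Prop) (h : ∀ τ : Fin b → GI, P (τ ∘ e) ↔ Q τ) :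
    ∑ τ ∈ (TupG S ι).filter P, pd d τ = ∑ τ ∈ (Tup S b).filter Q, ∏ i, d (τ i) := by
  refine Finset.sum_bij' (fun τ _ => τ ∘ e.symm) (fun τ _ => τ ∘ e) ?_ ?_ ?_ ?_ ?_
  · intro τ hτ
    rw [Finset.mem_filter, mem_TupG] at hτ
    rw [Finset.mem_filter, mem_Tup]
    refine ⟨fun i => hτ.1 _, ?_⟩
    rw [← h]
    have : (τ ∘ e.symm) ∘ e = τ := by funext i; simp
    rw [this]
    exact hτ.2
  · intro τ hτ
    rw [Finset.mem_filter, mem_Tup] at hτ
    rw [Finset.mem_filter, mem_TupG]
    exact ⟨fun i => hτ.1 _, (h τ).2 hτ.2⟩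
  · intro τ _
    funext i
    simp
  · intro τ _
    funext i
    simp
  · intro τ _
    unfold pd
    exact Fintype.prod_equiv e _ _ fun i => by simp

theorem min_reindex {ι : Type} [Fintype ι] {b : ℕ} (e : ι ≃ Fin b) (τ : Fin b → GI) :
    MinG (τ ∘ e) ↔ MinRel τ := by
  unfold MinG MinRel
  have h1 : ∑ i, (τ ∘ e) i = ∑ i, τ i := Fintype.sum_equiv e _ _ fun i => rfl
  rw [h1]
  refine and_congr_right fun _ => ?_
  constructor
  · intro h s hs hu
    have h2 := h (s.map e.symm.toEmbedding) (by simpa using hs) (by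
      intro h3
      apply hu
      have h4 := congrArg (Finset.map e.toEmbedding) h3
      rw [Finset.map_map] at h4
      simpa using h4)
    rw [Finset.sum_map] at h2
    simpa using h2
  · intro h s hs hu
    have h2 := h (s.map e.toEmbedding) (by simpa using hs) (by
      intro h3
      apply hu
      have h4 := congrArg (Finset.map e.symm.toEmbedding) h3
      rw [Finset.map_map] at h4
      simpa using h4)
    rw [Finset.sum_map] at h2
    simpa using h2

theorem split_sum {k : ℕ} (s : Finset (Fin k)) (S : Finset GI) (d : GI → ℝ)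
    (A : ({i // i ∈ s} → GI) → Prop) (B : ({i // ¬ i ∈ s} → GI) → Prop) :
    ∑ τ ∈ (Tup S k).filter (fun τ => A (fun i => τ i) ∧ B (fun i => τ i)), ∏ i, d (τ i) =
      (∑ τ ∈ (TupG S {i // i ∈ s}).filter A, pd d τ) *
        ∑ τ ∈ (TupG S {i // ¬ i ∈ s}).filter B, pd d τ := by
  rw [Finset.sum_mul_sum, ← Finset.sum_product']
  refine Finset.sum_bij' (fun τ _ => (Equiv.piEquivPiSubtypeProd (· ∈ s) fun _ => GI) τ)
    (fun q _ => (Equiv.piEquivPiSubtypeProd (· ∈ s) fun _ => GI).symm q) ?_ ?_ ?_ ?_ ?_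
  · intro τ hτ
    rw [Finset.mem_filter, mem_Tup] at hτ
    rw [Finset.mem_product, Finset.mem_filter, Finset.mem_filter, mem_TupG, mem_TupG]
    exact ⟨⟨fun i => hτ.1 _, hτ.2.1⟩, ⟨fun i => hτ.1 _, hτ.2.2⟩⟩
  · intro q hq
    rw [Finset.mem_product, Finset.mem_filter, Finset.mem_filter, mem_TupG, mem_TupG] at hq
    rw [Finset.mem_filter, mem_Tup]
    have h1 : (fun i : {i // i ∈ s} =>
        (Equiv.piEquivPiSubtypeProd (· ∈ s) fun _ => GI).symm q i) = q.1 := by
      funext i
      simp [Equiv.piEquivPiSubtypeProd, i.2]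
    have h2 : (fun i : {i // ¬ i ∈ s} =>
        (Equiv.piEquivPiSubtypeProd (· ∈ s) fun _ => GI).symm q i) = q.2 := by
      funext i
      simp [Equiv.piEquivPiSubtypeProd, i.2]
    rw [h1, h2]
    refine ⟨fun i => ?_, hq.1.2, hq.2.2⟩
    by_cases hi : i ∈ s
    · have := hq.1.1 ⟨i, hi⟩
      rw [← h1] at this
      exact this
    · have := hq.2.1 ⟨i, hi⟩
      rw [← h2] at this
      exact this
  · intro τ _
    exact Equiv.symm_apply_apply _ _
  · intro q _
    exact Equiv.apply_symm_apply _ _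
  · intro τ _
    unfold pd
    have h1 := Fintype.prod_subtype_mul_prod_subtype (fun i => i ∈ s) fun i => d (τ i)
    refine (Eq.trans (congrArg₂ (· * ·) ?_ ?_) h1).symm
    · exact Finset.prod_congr (Finset.ext fun x => by simp) fun _ _ => rfl
    · rfl

/-- a minimal relation on `s`, and sum zero on the complement -/
def Pt {k : ℕ} (s : Finset (Fin k)) (τ : Fin k → GI) : Prop :=
  MinG (fun i : {i // i ∈ s} => τ i) ∧ ∑ i : {i // ¬ i ∈ s}, τ i = 0

/-- sum zero -/
def Sz {ι : Type} [Fintype ι] (τ : ι → GI) : Prop := ∑ i, τ i = 0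

theorem filt_congr {α : Type} (s : Finset α) (P Q : α → Prop) (iP : DecidablePred P)
    (iQ : DecidablePred Q) (h : ∀ x, P x ↔ Q x) :
    @Finset.filter α P iP s = @Finset.filter α Q iQ s := by
  ext x
  simp only [Finset.mem_filter, h]

/-- for a fixed set of indices -/
theorem one_set {k : ℕ} (s : Finset (Fin k)) (S : Finset GI) (d : GI → ℝ) :
    ∑ τ ∈ (Tup S k).filter (Pt s), ∏ i, d (τ i) = RR S d s.card * SR S d (k - s.card) := by
  have h1 := split_sum s S d (fun τ => MinG τ) (fun τ => Sz τ)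
  have h2 : (Tup S k).filter (Pt s) = (Tup S k).filter (fun τ =>
      (fun τ => MinG τ) (fun i : {i // i ∈ s} => τ i) ∧
      (fun τ : {i // ¬ i ∈ s} → GI => Sz τ) (fun i => τ i)) :=
    filt_congr _ _ _ _ _ fun τ => Iff.rfl
  rw [h2]
  refine h1.trans ?_
  have e1 : {i // i ∈ s} ≃ Fin s.card := Fintype.equivFinOfCardEq (by simp)
  have e2 : {i // ¬ i ∈ s} ≃ Fin (k - s.card) := Fintype.equivFinOfCardEq (by
    rw [Fintype.card_subtype_compl]
    simp)
  have h3 := reindex e1 S d (fun τ => MinG τ) (fun τ => MinRel τ) fun τ => min_reindex e1 τ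
  have h4 := reindex e2 S d (fun τ => Sz τ) (fun τ => Sz τ) fun τ => by
    unfold Sz
    have : ∑ i, (τ ∘ e2) i = ∑ i, τ i := Fintype.sum_equiv e2 _ _ fun i => rfl
    rw [this]
  have h5 : RR S d s.card = ∑ τ ∈ (Tup S s.card).filter (fun τ => MinRel τ), ∏ i, d (τ i) := by
    unfold RR
    exact Finset.sum_congr (filt_congr _ _ _ _ _ fun τ => Iff.rfl) fun _ _ => rfl
  have h6 : SR S d (k - s.card) =
      ∑ τ ∈ (Tup S (k - s.card)).filter (fun τ => Sz τ), ∏ i, d (τ i) := by
    unfold SR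
    exact Finset.sum_congr (filt_congr _ _ _ _ _ fun τ => Iff.rfl) fun _ _ => rfl
  rw [h5, h6, ← h3, ← h4]

/-- a tuple with sum zero, with a nonzero first entry whose opposite does not occur, contains a
minimal relation of length at least three through the first entry -/
theorem exists_min {k : ℕ} (τ : Fin (k + 2) → GI) (h0 : ∑ i, τ i = 0) (hz : τ 0 ≠ 0)
    (hN : ∀ i : Fin (k + 1), τ i.succ ≠ - τ 0) :
    ∃ t ∈ (Finset.univ.erase (0 : Fin (k + 2))).powerset, 3 ≤ (insert 0 t).card ∧
      Pt (insert 0 t) τ := by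
  obtain ⟨s, hs, hmin⟩ := Finset.exists_min_image
    ((Finset.univ : Finset (Finset (Fin (k + 2)))).filter fun s => 0 ∈ s ∧ ∑ i ∈ s, τ i = 0)
    Finset.card ⟨Finset.univ, by simp [h0]⟩
  rw [Finset.mem_filter] at hs
  obtain ⟨-, hs0, hs1⟩ := hs
  have hins : insert 0 (s.erase 0) = s := Finset.insert_erase hs0
  refine ⟨s.erase 0, ?_, ?_⟩
  · rw [Finset.mem_powerset]
    exact Finset.erase_subset_erase _ (Finset.subset_univ _)
  rw [hins]
  unfold Pt
  have hcomp : ∑ i : {i // ¬ i ∈ s}, τ i = 0 := by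
    have h1 := Fintype.sum_subtype_add_sum_subtype (fun i => i ∈ s) τ
    have h2 : ∑ i : {i // i ∈ s}, τ i = 0 := by
      rw [← hs1]
      exact Finset.sum_coe_sort s τ
    have h3 : (∑ i : {i // i ∈ s}, τ i) + ∑ i : {i // ¬ i ∈ s}, τ i = 0 := by
      rw [← h0, ← h1]
      congr 1
      exact Finset.sum_congr (Finset.ext fun x => by simp) fun _ _ => rfl
    rw [h2, zero_add] at h3
    exact h3
  refine ⟨?_, ⟨?_, ?_⟩, hcomp⟩
  · by_contra hc
    have hc' : s.card ≤ 2 := by omega
    have hpos : 1 ≤ s.card := Finset.card_pos.2 ⟨0, hs0⟩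
    rcases (by omega : s.card = 1 ∨ s.card = 2) with h | h
    · rw [Finset.card_eq_one] at h
      obtain ⟨x, rfl⟩ := h
      rw [Finset.mem_singleton] at hs0
      rw [Finset.sum_singleton, ← hs0] at hs1
      exact hz hs1
    · have h2 : (s.erase 0).card = 1 := by rw [Finset.card_erase_of_mem hs0, h]
      rw [Finset.card_eq_one] at h2
      obtain ⟨x, hx⟩ := h2
      have h3 : ∑ i ∈ s, τ i = τ 0 + τ x := by
        rw [← hins, Finset.sum_insert (Finset.notMem_erase _ _), hx, Finset.sum_singleton]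
      have hx0 : x ≠ 0 := by
        have : x ∈ s.erase 0 := by rw [hx]; exact Finset.mem_singleton_self x
        exact (Finset.mem_erase.1 this).1
      obtain ⟨y, rfl⟩ := Fin.exists_succ_eq.2 hx0
      rw [hs1] at h3
      exact hN y (eq_neg_of_add_eq_zero_right h3.symm)
  · rw [← hs1]
    have h1 := Finset.sum_coe_sort s τ
    refine Eq.trans ?_ h1
    exact Finset.sum_congr (Finset.ext fun x => by simp) fun _ _ => rfl
  · intro t ht htu hsum
    set t' : Finset (Fin (k + 2)) := t.map (Function.Embedding.subtype _) with ht'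
    have ht's : t' ⊆ s := by
      intro x hx
      rw [ht', Finset.mem_map] at hx
      obtain ⟨y, _, rfl⟩ := hx
      exact y.2
    have hsum' : ∑ i ∈ t', τ i = 0 := by
      rw [ht', Finset.sum_map]
      exact hsum
    have hcard : t'.card = t.card := Finset.card_map _
    have hlt : t.card < s.card := by
      have h1 : t.card < Fintype.card {i // i ∈ s} := by
        rw [Finset.card_lt_iff_ne_univ]
        intro h2
        apply htu
        rw [h2]
      simpa using h1
    by_cases h0t : (0 : Fin (k + 2)) ∈ t'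
    · have := hmin t' (by rw [Finset.mem_filter]; exact ⟨Finset.mem_univ _, h0t, hsum'⟩)
      omega
    · have h2 : ∑ i ∈ s \ t', τ i = 0 := by
        have := Finset.sum_sdiff (f := τ) ht's
        rw [hsum', add_zero, hs1] at this
        exact this
      have := hmin (s \ t') (by
        rw [Finset.mem_filter]
        exact ⟨Finset.mem_univ _, Finset.mem_sdiff.2 ⟨hs0, h0t⟩, h2⟩)
      rw [Finset.card_sdiff_of_subset ht's, hcard] at this
      have h3 : 0 < t.card := Finset.card_pos.2 ht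
      omega

/-- no entry is opposite to the first one -/
def Nn {k : ℕ} (τ : Fin (k + 2) → GI) : Prop :=
  ∑ i, τ i = 0 ∧ ∀ i : Fin (k + 1), τ i.succ ≠ - τ 0

theorem sum_cover {α β : Type} (A : Finset α) (T : Finset β) (P : α → Prop) (Q : β → α → Prop)
    (f : α → ℝ) (hf : ∀ x, 0 ≤ f x) (h : ∀ x ∈ A, P x → ∃ t ∈ T, Q t x) :
    ∑ x ∈ A.filter P, f x ≤ ∑ t ∈ T, ∑ x ∈ A.filter (Q t), f x := by
  have h1 : ∀ t, ∑ x ∈ A.filter (Q t), f x = ∑ x ∈ A, if Q t x then f x else 0 := fun t =>
    Finset.sum_filter _ _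
  rw [Finset.sum_congr rfl fun t _ => h1 t, Finset.sum_comm, Finset.sum_filter]
  refine Finset.sum_le_sum fun x hx => ?_
  have hnn : ∀ t ∈ T, 0 ≤ (if Q t x then f x else 0) := by
    intro t _
    split_ifs
    · exact hf x
    · exact le_rfl
  split_ifs with hc
  · obtain ⟨t, ht, h4⟩ := h x hx hc
    have h5 := Finset.single_le_sum hnn ht
    rw [if_pos h4] at h5
    exact h5
  · exact Finset.sum_nonneg hnn

theorem sum_card {k : ℕ} (g : ℕ → ℝ) :
    ∑ t ∈ (Finset.univ.erase (0 : Fin (k + 2))).powerset.filter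
      (fun t => 3 ≤ (insert 0 t).card), g (insert 0 t).card =
    ∑ b ∈ Finset.Icc 3 (k + 2), ((k + 1).choose (b - 1) : ℝ) * g b := by
  calc _ = ∑ t ∈ (Finset.univ.erase (0 : Fin (k + 2))).powerset,
          (fun m : ℕ => if 3 ≤ m + 1 then g (m + 1) else 0) t.card := by
        rw [Finset.sum_filter]
        refine Finset.sum_congr rfl fun t ht => ?_
        have h1 : (0 : Fin (k + 2)) ∉ t := fun h =>
          (Finset.mem_erase.1 (Finset.mem_powerset.1 ht h)).1 rfl
        rw [Finset.card_insert_of_notMem h1]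
    _ = ∑ m ∈ Finset.range (k + 2), (k + 1).choose m •
          (if 3 ≤ m + 1 then g (m + 1) else 0) := by
        rw [Finset.sum_powerset_apply_card (fun m : ℕ => if 3 ≤ m + 1 then g (m + 1) else 0)]
        have h1 : (Finset.univ.erase (0 : Fin (k + 2))).card = k + 1 := by
          rw [Finset.card_erase_of_mem (Finset.mem_univ _), Finset.card_univ, Fintype.card_fin]
          omega
        rw [h1]
    _ = ∑ b ∈ Finset.Icc 3 (k + 2), ((k + 1).choose (b - 1) : ℝ) * g b := by
        have h1 : ∀ m ∈ Finset.range (k + 2), (k + 1).choose m •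
            (if 3 ≤ m + 1 then g (m + 1) else 0) =
            if 3 ≤ m + 1 then ((k + 1).choose m : ℝ) * g (m + 1) else 0 := by
          intro m _
          split_ifs
          · rw [nsmul_eq_mul]
          · rw [smul_zero]
        rw [Finset.sum_congr rfl h1, ← Finset.sum_filter]
        refine Finset.sum_bij' (fun m _ => m + 1) (fun b _ => b - 1) ?_ ?_ ?_ ?_ ?_
        · intro m hm
          rw [Finset.mem_filter, Finset.mem_range] at hm
          rw [Finset.mem_Icc]
          omega
        · intro b hb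
          rw [Finset.mem_Icc] at hb
          rw [Finset.mem_filter, Finset.mem_range]
          omega
        · intro m _
          simp
        · intro b hb
          rw [Finset.mem_Icc] at hb
          show b - 1 + 1 = b
          omega
        · intro m _
          simp

/-- the contribution of the tuples without a term opposite to the first one -/
theorem none_bound (k : ℕ) (S : Finset GI) (h0 : (0 : GI) ∉ S) (d : GI → ℝ) (hd : ∀ ν, 0 ≤ d ν) :
    ∑ τ ∈ (Tup S (k + 2)).filter (fun τ => Nn τ), ∏ i, d (τ i) ≤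
    ∑ b ∈ Finset.Icc 3 (k + 2), ((k + 1).choose (b - 1) : ℝ) * (RR S d b * SR S d (k + 2 - b)) := by
  have h1 := sum_cover (Tup S (k + 2)) ((Finset.univ.erase (0 : Fin (k + 2))).powerset.filter
    (fun t => 3 ≤ (insert 0 t).card)) (fun τ => Nn τ) (fun t τ => Pt (insert 0 t) τ)
    (fun τ => ∏ i, d (τ i)) (fun τ => Finset.prod_nonneg fun i _ => hd _) (by
      intro τ hτ hc
      have hz : τ 0 ≠ 0 := fun h => h0 (h ▸ mem_Tup.1 hτ 0)
      obtain ⟨t, ht, h3, h4⟩ := exists_min τ hc.1 hz hc.2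
      exact ⟨t, Finset.mem_filter.2 ⟨ht, h3⟩, h4⟩)
  refine h1.trans (le_of_eq ?_)
  rw [← sum_card (fun b => RR S d b * SR S d (k + 2 - b))]
  exact Finset.sum_congr rfl fun t _ => one_set (insert 0 t) S d

end

end Pool.Agent.L0h77.BW
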