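import Pool.Agent.L0h77.BW.T_R2
import Pool.Agent.Helper112.Arith

/-! MP_6b977f_mp, project BW, module LB: the sum of `Re (ν/|ν|)^{4q} |ν|^{-2s}` is bounded near
`s = 1` -/

set_option autoImplicit false
open MeasureTheory Filter Topology Complex

namespace Pool.Agent.L0h77.BW

open Pool.Agent.L0h56.BQ

namespace LBaux

/-- the unit square with centre `ν` -/
def Qc (ν : GI) : Set ℂ := {z | z.re ∈ Set.Ioc ((ν.re : ℝ) - 1 / 2) (ν.re + 1 / 2) ∧
  z.im ∈ Set.Ioc ((ν.im : ℝ) - 1 / 2) (ν.im + 1 / 2)}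

theorem Qc_meas (ν : GI) : MeasurableSet (Qc ν) :=
  (measurable_re measurableSet_Ioc).inter (measurable_im measurableSet_Ioc)

theorem Qc_vol (ν : GI) : volume (Qc ν) = 1 := by
  have h1 := (Complex.volume_preserving_equiv_real_prod.symm).measure_preimage
    (Qc_meas ν).nullMeasurableSet
  have h2 : Complex.measurableEquivRealProd.symm ⁻¹' (Qc ν) =
      Set.Ioc ((ν.re : ℝ) - 1 / 2) (ν.re + 1 / 2) ×ˢ
        Set.Ioc ((ν.im : ℝ) - 1 / 2) (ν.im + 1 / 2) := by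
    ext p
    simp [Qc]
  rw [h2] at h1
  rw [← h1, Measure.volume_eq_prod, Measure.prod_prod, Real.volume_Ioc, Real.volume_Ioc]
  have e1 : (ν.re : ℝ) + 1 / 2 - ((ν.re : ℝ) - 1 / 2) = 1 := by ring
  have e2 : (ν.im : ℝ) + 1 / 2 - ((ν.im : ℝ) - 1 / 2) = 1 := by ring
  rw [e1, e2]
  simp

theorem Qc_disj {ν μ : GI} (h : ν ≠ μ) : Disjoint (Qc ν) (Qc μ) := by
  rw [Set.disjoint_left]
  rintro z ⟨⟨h1, h2⟩, h3, h4⟩ ⟨⟨h5, h6⟩, h7, h8⟩
  apply h
  have g1 : (ν.re : ℝ) < μ.re + 1 := by linarith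
  have g2 : (μ.re : ℝ) < ν.re + 1 := by linarith
  have g3 : (ν.im : ℝ) < μ.im + 1 := by linarith
  have g4 : (μ.im : ℝ) < ν.im + 1 := by linarith
  have k1 : ν.re < μ.re + 1 := by exact_mod_cast g1
  have k2 : μ.re < ν.re + 1 := by exact_mod_cast g2
  have k3 : ν.im < μ.im + 1 := by exact_mod_cast g3
  have k4 : μ.im < ν.im + 1 := by exact_mod_cast g4
  exact Zsqrtd.ext (by omega) (by omega)

/-- `ν` as a complex number -/
abbrev tc (ν : GI) : ℂ := GaussianInt.toComplex ν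

theorem Qc_near {ν : GI} {z : ℂ} (hz : z ∈ Qc ν) : ‖z - tc ν‖ ≤ 3 / 4 := by
  obtain ⟨⟨h1, h2⟩, h3, h4⟩ := hz
  have e1 : (z - tc ν).re = z.re - ν.re := by simp
  have e2 : (z - tc ν).im = z.im - ν.im := by simp
  have h5 : ‖z - tc ν‖ ^ 2 = (z.re - ν.re) ^ 2 + (z.im - ν.im) ^ 2 := by
    rw [← Complex.normSq_eq_norm_sq, Complex.normSq_apply, e1, e2]
    ring
  have h6 : (z.re - ν.re) ^ 2 ≤ 1 / 4 := by nlinarith
  have h7 : (z.im - ν.im) ^ 2 ≤ 1 / 4 := by nlinarith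
  nlinarith [norm_nonneg (z - tc ν)]

theorem exists_Qc (z : ℂ) : ∃ ν : GI, z ∈ Qc ν := by
  refine ⟨⟨⌈z.re - 1 / 2⌉, ⌈z.im - 1 / 2⌉⟩, ?_, ?_⟩
  · constructor
    · have := Int.ceil_lt_add_one (z.re - 1 / 2)
      simp only
      linarith
    · have := Int.le_ceil (z.re - 1 / 2)
      simp only
      linarith
  · constructor
    · have := Int.ceil_lt_add_one (z.im - 1 / 2)
      simp only
      linarith
    · have := Int.le_ceil (z.im - 1 / 2)
      simp only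
      linarith

theorem Qc_zero {z : ℂ} (hz : ‖z‖ < 1 / 2) : z ∈ Qc 0 := by
  have h1 := (Complex.abs_re_le_norm z).trans_lt hz
  have h2 := (Complex.abs_im_le_norm z).trans_lt hz
  rw [abs_lt] at h1 h2
  refine ⟨⟨?_, ?_⟩, ?_, ?_⟩ <;> simp <;> linarith

/-- the function -/
noncomputable def ph (m : ℕ) (t : ℝ) (z : ℂ) : ℂ := z ^ m * ((‖z‖ ^ (-t) : ℝ) : ℂ)

theorem ph_meas (m : ℕ) (t : ℝ) : Measurable (ph m t) := by
  unfold ph
  refine (measurable_id.pow_const m).mul ?_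
  exact Complex.measurable_ofReal.comp (measurable_norm.pow_const _)

theorem ph_norm (m : ℕ) (t : ℝ) {z : ℂ} (hz : 0 < ‖z‖) : ‖ph m t z‖ = ‖z‖ ^ ((m : ℝ) - t) := by
  unfold ph
  rw [norm_mul, norm_pow, Complex.norm_real, Real.norm_eq_abs,
    abs_of_nonneg (Real.rpow_nonneg hz.le _), ← Real.rpow_natCast, ← Real.rpow_add hz]
  congr 1

/-- powers -/
theorem pow_diff {z w : ℂ} {R δ : ℝ} (hz : ‖z‖ ≤ R) (hw : ‖w‖ ≤ R) (hδ : ‖z - w‖ ≤ δ) (m : ℕ) :
    R * ‖z ^ m - w ^ m‖ ≤ m * δ * R ^ m := by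
  have hR : 0 ≤ R := (norm_nonneg z).trans hz
  have hδ0 : 0 ≤ δ := (norm_nonneg _).trans hδ
  induction m with
  | zero => simp
  | succ m ih =>
    have e : z ^ (m + 1) - w ^ (m + 1) = z * (z ^ m - w ^ m) + (z - w) * w ^ m := by ring
    rw [e]
    have h1 : ‖z * (z ^ m - w ^ m) + (z - w) * w ^ m‖ ≤ R * ‖z ^ m - w ^ m‖ + δ * R ^ m := by
      refine (norm_add_le _ _).trans ?_
      rw [norm_mul, norm_mul, norm_pow]
      exact add_le_add (mul_le_mul_of_nonneg_right hz (norm_nonneg _))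
        (mul_le_mul hδ (pow_le_pow_left₀ (norm_nonneg _) hw m) (by positivity) hδ0)
    calc R * ‖z * (z ^ m - w ^ m) + (z - w) * w ^ m‖
        ≤ R * (R * ‖z ^ m - w ^ m‖ + δ * R ^ m) := mul_le_mul_of_nonneg_left h1 hR
      _ ≤ R * (m * δ * R ^ m + δ * R ^ m) :=
          mul_le_mul_of_nonneg_left (by linarith) hR
      _ = _ := by
          push_cast
          ring

theorem rpow_diff_aux {a b t : ℝ} (ha : 0 < a) (hab : a ≤ b) (ht : 0 ≤ t) :
    a ^ (-t) - b ^ (-t) ≤ t * (b - a) * a ^ (-t - 1) := by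
  have hb : 0 < b := lt_of_lt_of_le ha hab
  have h1 : b ^ (-t) = a ^ (-t) * (b / a) ^ (-t) := by
    rw [Real.div_rpow hb.le ha.le]
    field_simp
  have h2 : 1 - t * (b / a - 1) ≤ (b / a) ^ (-t) := by
    rw [Real.rpow_def_of_pos (by positivity)]
    have h3 := Real.add_one_le_exp (Real.log (b / a) * -t)
    have h4 := Real.log_le_sub_one_of_pos (x := b / a) (by positivity)
    nlinarith
  have h3 : 0 < a ^ (-t) := Real.rpow_pos_of_pos ha _
  have h4 : a ^ (-t - 1) = a ^ (-t) / a := by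
    rw [Real.rpow_sub_one ha.ne']
  rw [h1, h4]
  have h5 : a ^ (-t) * (1 - t * (b / a - 1)) ≤ a ^ (-t) * (b / a) ^ (-t) :=
    mul_le_mul_of_nonneg_left h2 h3.le
  have h6 : t * (b - a) * (a ^ (-t) / a) = a ^ (-t) * (t * (b / a - 1)) := by
    field_simp
  rw [h6]
  linarith

theorem rpow_diff {a b c t : ℝ} (hc : 0 < c) (hca : c ≤ a) (hcb : c ≤ b) (ht : 0 ≤ t) :
    |a ^ (-t) - b ^ (-t)| ≤ t * |a - b| * c ^ (-t - 1) := by
  have key : ∀ a b : ℝ, c ≤ a → a ≤ b →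
      |a ^ (-t) - b ^ (-t)| ≤ t * |a - b| * c ^ (-t - 1) := by
    intro a b h1 h2
    have ha : 0 < a := lt_of_lt_of_le hc h1
    have h3 : b ^ (-t) ≤ a ^ (-t) := Real.rpow_le_rpow_of_nonpos ha h2 (by linarith)
    rw [abs_of_nonneg (by linarith), abs_sub_comm, abs_of_nonneg (by linarith)]
    refine (rpow_diff_aux ha h2 ht).trans ?_
    refine mul_le_mul_of_nonneg_left ?_ (mul_nonneg ht (by linarith))
    exact Real.rpow_le_rpow_of_nonpos hc h1 (by linarith)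
  rcases le_total a b with h | h
  · exact key a b hca h
  · rw [abs_sub_comm, abs_sub_comm a b]
    exact key b a hcb h

/-- the variation in a square -/
theorem near (m : ℕ) : ∃ K : ℝ, 0 < K ∧ ∀ s : ℝ, 1 ≤ s → s ≤ 2 → ∀ ν : GI, 1 ≤ ‖tc ν‖ →
    ∀ z ∈ Qc ν, ‖ph m (m + 2 * s) z - ph m (m + 2 * s) (tc ν)‖ ≤ K * ‖tc ν‖ ^ (-3 : ℝ) := by
  refine ⟨(m * 2 ^ m + (m + 4) * 4) * 4 ^ ((m : ℝ) + 4), by positivity, ?_⟩
  intro s hs1 hs2 ν hν z hz
  set w := tc ν with hw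
  set r := ‖w‖ with hr
  have hr0 : 0 < r := by linarith
  set t : ℝ := m + 2 * s with ht
  have ht0 : 0 ≤ t := by positivity
  have ht4 : t ≤ m + 4 := by linarith
  have hzw := Qc_near hz
  have h1 : ‖z‖ ≤ 2 * r := by
    have := norm_le_norm_add_norm_sub' z w
    linarith
  have h2 : r / 4 ≤ ‖z‖ := by
    have := norm_le_norm_add_norm_sub z w
    have h3 : ‖w - z‖ = ‖z - w‖ := norm_sub_rev _ _
    rw [← hr] at this
    linarith
  have hz0 : 0 < ‖z‖ := by linarith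
  have h4t : (r / 4) ^ (-t) ≤ 4 ^ ((m : ℝ) + 4) * r ^ (-t) := by
    rw [Real.div_rpow hr0.le (by norm_num), Real.rpow_neg (by norm_num : (0 : ℝ) ≤ 4), div_inv_eq_mul,
      mul_comm]
    refine mul_le_mul_of_nonneg_right ?_ (by positivity)
    exact Real.rpow_le_rpow_of_exponent_le (by norm_num) ht4
  have e : ph m t z - ph m t w = (z ^ m - w ^ m) * ((‖z‖ ^ (-t) : ℝ) : ℂ) +
      w ^ m * (((‖z‖ ^ (-t) - r ^ (-t) : ℝ)) : ℂ) := by
    unfold ph
    rw [← hr]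
    push_cast
    ring
  have hA : ‖(z ^ m - w ^ m) * ((‖z‖ ^ (-t) : ℝ) : ℂ)‖ ≤
      m * 2 ^ m * 4 ^ ((m : ℝ) + 4) * r ^ (-3 : ℝ) := by
    rw [norm_mul, Complex.norm_real, Real.norm_eq_abs,
      abs_of_nonneg (Real.rpow_nonneg hz0.le _)]
    have g1 := pow_diff (z := z) (w := w) (R := 2 * r) (δ := 1) h1 (by linarith) (by linarith) m
    have g2 : ‖z ^ m - w ^ m‖ ≤ m * 2 ^ m * r ^ ((m : ℝ) - 1) := by
      have g3 : r * ‖z ^ m - w ^ m‖ ≤ r * (m * 2 ^ m * r ^ ((m : ℝ) - 1)) := by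
        have g4 : r * (m * 2 ^ m * r ^ ((m : ℝ) - 1)) = m * 2 ^ m * r ^ m := by
          rw [Real.rpow_sub_one hr0.ne', Real.rpow_natCast]
          field_simp
        rw [g4]
        have g5 : (m : ℝ) * 1 * (2 * r) ^ m = m * 2 ^ m * r ^ m := by
          rw [mul_pow]
          ring
        rw [g5] at g1
        have g6 := norm_nonneg (z ^ m - w ^ m)
        nlinarith
      exact le_of_mul_le_mul_left g3 hr0
    have g3 : ‖z‖ ^ (-t) ≤ 4 ^ ((m : ℝ) + 4) * r ^ (-t) :=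
      (Real.rpow_le_rpow_of_nonpos (by positivity) h2 (by linarith)).trans h4t
    have g4 : r ^ ((m : ℝ) - 1) * r ^ (-t) ≤ r ^ (-3 : ℝ) := by
      rw [← Real.rpow_add hr0]
      exact Real.rpow_le_rpow_of_exponent_le hν (by rw [ht]; linarith)
    calc ‖z ^ m - w ^ m‖ * ‖z‖ ^ (-t)
        ≤ (m * 2 ^ m * r ^ ((m : ℝ) - 1)) * (4 ^ ((m : ℝ) + 4) * r ^ (-t)) :=
          mul_le_mul g2 g3 (by positivity) (by positivity)
      _ = m * 2 ^ m * 4 ^ ((m : ℝ) + 4) * (r ^ ((m : ℝ) - 1) * r ^ (-t)) := by ring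
      _ ≤ _ := mul_le_mul_of_nonneg_left g4 (by positivity)
  have hB : ‖w ^ m * (((‖z‖ ^ (-t) - r ^ (-t) : ℝ)) : ℂ)‖ ≤
      (m + 4) * 4 * 4 ^ ((m : ℝ) + 4) * r ^ (-3 : ℝ) := by
    rw [norm_mul, norm_pow, Complex.norm_real, Real.norm_eq_abs, ← hr]
    have g1 := rpow_diff (a := ‖z‖) (b := r) (c := r / 4) (t := t) (by positivity) h2
      (by linarith) ht0
    have g2 : |‖z‖ - r| ≤ 1 := by
      have := abs_norm_sub_norm_le z w
      rw [← hr] at this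
      linarith
    have g3 : (r / 4) ^ (-t - 1) ≤ 4 * 4 ^ ((m : ℝ) + 4) * r ^ (-t - 1) := by
      rw [Real.rpow_sub_one (by positivity), Real.rpow_sub_one hr0.ne']
      have g4 : (r / 4) ^ (-t) / (r / 4) = 4 * ((r / 4) ^ (-t) / r) := by
        field_simp
      rw [g4]
      have g5 : (r / 4) ^ (-t) / r ≤ 4 ^ ((m : ℝ) + 4) * r ^ (-t) / r :=
        div_le_div_of_nonneg_right h4t hr0.le
      calc 4 * ((r / 4) ^ (-t) / r) ≤ 4 * (4 ^ ((m : ℝ) + 4) * r ^ (-t) / r) := by linarith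
        _ = _ := by ring
    have g4 : |‖z‖ ^ (-t) - r ^ (-t)| ≤ (m + 4) * 1 * (4 * 4 ^ ((m : ℝ) + 4) * r ^ (-t - 1)) := by
      refine g1.trans ?_
      refine mul_le_mul (mul_le_mul ht4 g2 (abs_nonneg _) (by positivity)) g3 (by positivity)
        (by positivity)
    have g5 : r ^ (m : ℝ) * r ^ (-t - 1) ≤ r ^ (-3 : ℝ) := by
      rw [← Real.rpow_add hr0]
      exact Real.rpow_le_rpow_of_exponent_le hν (by rw [ht]; linarith)
    rw [← Real.rpow_natCast r m]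
    calc r ^ (m : ℝ) * |‖z‖ ^ (-t) - r ^ (-t)|
        ≤ r ^ (m : ℝ) * ((m + 4) * 1 * (4 * 4 ^ ((m : ℝ) + 4) * r ^ (-t - 1))) :=
          mul_le_mul_of_nonneg_left g4 (by positivity)
      _ = (m + 4) * 4 * 4 ^ ((m : ℝ) + 4) * (r ^ (m : ℝ) * r ^ (-t - 1)) := by ring
      _ ≤ _ := mul_le_mul_of_nonneg_left g5 (by positivity)
  rw [e]
  refine (norm_add_le _ _).trans ((add_le_add hA hB).trans (le_of_eq ?_))
  ring

/-- symmetric regions -/
theorem int_zero {m : ℕ} (hm : 0 < m) (t : ℝ) (A : Set ℂ) (hA : MeasurableSet A)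
    (hrot : ∀ z w : ℂ, ‖z‖ = ‖w‖ → (z ∈ A ↔ w ∈ A)) : ∫ z in A, ph m t z = 0 := by
  have hm0 : (m : ℂ) ≠ 0 := by exact_mod_cast hm.ne'
  set ω : Circle := Circle.exp (Real.pi / m) with hω
  have hωm : (ω : ℂ) ^ m = -1 := by
    rw [hω, Circle.coe_exp, ← Complex.exp_nat_mul]
    have e : (m : ℂ) * (((Real.pi / m : ℝ) : ℂ) * I) = Real.pi * I := by
      push_cast
      field_simp
    rw [e, Complex.exp_pi_mul_I]
  have h1 : ∀ z, A.indicator (ph m t) (rotation ω z) = -A.indicator (ph m t) z := by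
    intro z
    have hn : ‖rotation ω z‖ = ‖z‖ := LinearIsometryEquiv.norm_map _ _
    by_cases hz : z ∈ A
    · have hz' : rotation ω z ∈ A := (hrot _ _ hn).2 hz
      rw [Set.indicator_of_mem hz, Set.indicator_of_mem hz']
      unfold ph
      rw [hn, rotation_apply, mul_pow, hωm]
      ring
    · have hz' : rotation ω z ∉ A := fun h => hz ((hrot _ _ hn).1 h)
      rw [Set.indicator_of_notMem hz, Set.indicator_of_notMem hz', neg_zero]
  have h2 := ((rotation ω).measurePreserving).integral_comp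
    (rotation ω).toHomeomorph.measurableEmbedding (A.indicator (ph m t))
  have h3 : ∫ z, A.indicator (ph m t) (rotation ω z) = -∫ z, A.indicator (ph m t) z := by
    rw [← integral_neg]
    exact integral_congr_ae (Filter.Eventually.of_forall h1)
  rw [h3] at h2
  rw [← integral_indicator hA]
  have h4 : (2 : ℂ) * ∫ z, A.indicator (ph m t) z = 0 := by
    linear_combination -h2
  exact (mul_eq_zero.1 h4).resolve_left two_ne_zero

theorem tc_norm {e : ℕ} {ν : GI} (h : ν ∈ V e) : ‖tc ν‖ = √(e : ℝ) :=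
  norm_toComplex ν e (mem_V.1 h)

/-- the sum of the errors -/
theorem sum_bound : ∃ K : ℝ, 0 < K ∧ ∀ X : ℕ,
    ∑ e ∈ Finset.Icc 1 X, ∑ ν ∈ V e, ‖tc ν‖ ^ (-3 : ℝ) ≤ K := by
  obtain ⟨C, hC, hdiv⟩ := Pool.Agent.Helper112.divisor_bound (1 / 4) (by norm_num)
  have hsum : Summable fun n : ℕ => 1 / (n : ℝ) ^ ((5 : ℝ) / 4) :=
    Real.summable_one_div_nat_rpow.2 (by norm_num)
  have hZ0 : 0 ≤ ∑' n : ℕ, 1 / (n : ℝ) ^ ((5 : ℝ) / 4) := tsum_nonneg fun n => by positivity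
  refine ⟨4 * C * (∑' n : ℕ, 1 / (n : ℝ) ^ ((5 : ℝ) / 4)) + 1, by positivity, ?_⟩
  intro X
  have h1 : ∀ e ∈ Finset.Icc 1 X, ∑ ν ∈ V e, ‖tc ν‖ ^ (-3 : ℝ) ≤
      4 * C * (1 / (e : ℝ) ^ ((5 : ℝ) / 4)) := by
    intro e he
    have he1 := (Finset.mem_Icc.1 he).1
    have her : (0 : ℝ) < e := by exact_mod_cast he1
    have h2 : ∀ ν ∈ V e, ‖tc ν‖ ^ (-3 : ℝ) = (e : ℝ) ^ (-(3 / 2) : ℝ) := by
      intro ν hν
      rw [tc_norm hν, Real.sqrt_eq_rpow, ← Real.rpow_mul her.le]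
      norm_num
    rw [Finset.sum_congr rfl h2, Finset.sum_const, nsmul_eq_mul]
    have h3 : ((V e).card : ℝ) ≤ 4 * (C * (e : ℝ) ^ ((1 : ℝ) / 4)) := by
      have g1 : ((V e).card : ℝ) ≤ 4 * e.divisors.card := by exact_mod_cast R2 e he1
      have g2 := hdiv e he1
      linarith
    have h4 : (e : ℝ) ^ ((1 : ℝ) / 4) * (e : ℝ) ^ (-(3 / 2) : ℝ) =
        1 / (e : ℝ) ^ ((5 : ℝ) / 4) := by
      have g : 1 / (e : ℝ) ^ ((5 : ℝ) / 4) = (e : ℝ) ^ (-((5 : ℝ) / 4)) := by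
        rw [Real.rpow_neg her.le, one_div]
      rw [g, ← Real.rpow_add her]
      norm_num
    calc ((V e).card : ℝ) * (e : ℝ) ^ (-(3 / 2) : ℝ)
        ≤ 4 * (C * (e : ℝ) ^ ((1 : ℝ) / 4)) * (e : ℝ) ^ (-(3 / 2) : ℝ) :=
          mul_le_mul_of_nonneg_right h3 (by positivity)
      _ = 4 * C * ((e : ℝ) ^ ((1 : ℝ) / 4) * (e : ℝ) ^ (-(3 / 2) : ℝ)) := by ring
      _ = _ := by rw [h4]
  refine (Finset.sum_le_sum h1).trans ?_
  rw [← Finset.mul_sum]
  have h5 := hsum.sum_le_tsum (Finset.Icc 1 X) fun n _ => by positivity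
  have h6 : 0 ≤ 4 * C := by positivity
  have h7 := mul_le_mul_of_nonneg_left h5 h6
  linarith

/-- the Gaussian integers with `0 < |ν|² ≤ X` -/
noncomputable def NX (X : ℕ) : Finset GI := (Finset.Icc 1 X).biUnion V

theorem mem_NX {X : ℕ} {ν : GI} : ν ∈ NX X ↔ ν ≠ 0 ∧ ‖tc ν‖ ^ 2 ≤ X := by
  unfold NX
  have h1 : ‖tc ν‖ ^ 2 = (ν.norm : ℝ) := by
    rw [← Complex.normSq_eq_norm_sq]
    exact (GaussianInt.intCast_real_norm ν).symm
  have h2 := GaussianInt.norm_nonneg ν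
  rw [Finset.mem_biUnion, h1]
  constructor
  · rintro ⟨e, he, hν⟩
    rw [Finset.mem_Icc] at he
    rw [mem_V] at hν
    constructor
    · rintro rfl
      rw [Zsqrtd.norm_zero] at hν
      omega
    · rw [hν]
      exact_mod_cast he.2
  · rintro ⟨h3, h4⟩
    have h5 : ν.norm ≠ 0 := fun h => h3 (GaussianInt.norm_eq_zero.1 h)
    have h6 : ν.norm ≤ X := by exact_mod_cast h4
    refine ⟨ν.norm.toNat, ?_, ?_⟩
    · rw [Finset.mem_Icc]
      omega
    · rw [mem_V]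
      omega

theorem sum_NX {M : Type} [AddCommMonoid M] (X : ℕ) (f : GI → M) :
    ∑ ν ∈ NX X, f ν = ∑ e ∈ Finset.Icc 1 X, ∑ ν ∈ V e, f ν := by
  unfold NX
  rw [Finset.sum_biUnion]
  intro e _ e' _ h
  rw [Function.onFun, Finset.disjoint_left]
  intro ν h1 h2
  rw [mem_V] at h1 h2
  apply h
  have : (e : ℤ) = e' := by rw [← h1, ← h2]
  exact_mod_cast this

theorem one_le_tc {ν : GI} (h : ν ≠ 0) : 1 ≤ ‖tc ν‖ := by
  have h1 : ‖tc ν‖ ^ 2 = (ν.norm : ℝ) := by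
    rw [← Complex.normSq_eq_norm_sq]
    exact (GaussianInt.intCast_real_norm ν).symm
  have h2 := GaussianInt.norm_nonneg ν
  have h3 : ν.norm ≠ 0 := fun h' => h (GaussianInt.norm_eq_zero.1 h')
  have h4 : (1 : ℝ) ≤ ν.norm := by
    have : 1 ≤ ν.norm := by omega
    exact_mod_cast this
  nlinarith [norm_nonneg (tc ν)]

theorem Qc_low {ν : GI} (h : ν ≠ 0) {z : ℂ} (hz : z ∈ Qc ν) : 1 / 4 ≤ ‖z‖ := by
  have h1 := one_le_tc h
  have h2 := Qc_near hz
  have h3 := norm_le_norm_add_norm_sub z (tc ν)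
  have h4 : ‖tc ν - z‖ = ‖z - tc ν‖ := norm_sub_rev _ _
  linarith

theorem ph_bd (m : ℕ) {s : ℝ} (hs1 : 1 ≤ s) (hs2 : s ≤ 2) {z : ℂ} (hz : 1 / 4 ≤ ‖z‖) :
    ‖ph m (m + 2 * s) z‖ ≤ 256 := by
  have hz0 : 0 < ‖z‖ := by linarith
  rw [ph_norm m _ hz0]
  have e : (m : ℝ) - (m + 2 * s) = -(2 * s) := by ring
  rw [e]
  calc ‖z‖ ^ (-(2 * s)) ≤ (1 / 4 : ℝ) ^ (-(2 * s)) :=
        Real.rpow_le_rpow_of_nonpos (by norm_num) hz (by linarith)
    _ = 4 ^ (2 * s) := by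
        rw [one_div, Real.inv_rpow (by norm_num), Real.rpow_neg (by norm_num), inv_inv]
    _ ≤ 4 ^ (4 : ℝ) := Real.rpow_le_rpow_of_exponent_le (by norm_num) (by linarith)
    _ = 256 := by norm_num

theorem ball_vol (r : ℝ) (hr : 0 ≤ r) : volume.real (Metric.closedBall (0 : ℂ) r) ≤ 4 * r ^ 2 := by
  rw [Measure.real, Complex.volume_closedBall, ENNReal.toReal_mul, ENNReal.toReal_pow,
    ENNReal.toReal_ofReal hr]
  have h1 : ((NNReal.pi : ENNReal)).toReal = Real.pi := rfl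
  rw [h1]
  nlinarith [Real.pi_lt_four, sq_nonneg r]

theorem bound (m : ℕ) (hm : 0 < m) : ∃ C : ℝ, ∀ s : ℝ, 1 ≤ s → s ≤ 2 → ∀ X : ℕ, 0 < X →
    ‖∑ ν ∈ NX X, ph m (m + 2 * s) (tc ν)‖ ≤ C := by
  obtain ⟨K1, hK1, hnear⟩ := near m
  obtain ⟨K2, hK2, hsum⟩ := sum_bound
  refine ⟨K1 * K2 + (256 * 4 + 64), ?_⟩
  intro s hs1 hs2 X hX
  set t : ℝ := m + 2 * s with ht
  have hXr : (1 : ℝ) ≤ X := by exact_mod_cast hX
  have hX0 : (0 : ℝ) < X := by linarith
  have hsq : √(X : ℝ) ^ 2 = X := Real.sq_sqrt hX0.le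
  have hsq1 : 1 ≤ √(X : ℝ) := by rwa [Real.one_le_sqrt]
  set D : Set ℂ := ⋃ ν ∈ NX X, Qc ν with hD
  have hne : ∀ ν ∈ NX X, ν ≠ 0 := fun ν hν => (mem_NX.1 hν).1
  have hDlow : ∀ z ∈ D, 1 / 4 ≤ ‖z‖ := by
    intro z hz
    rw [hD, Set.mem_iUnion₂] at hz
    obtain ⟨ν, hν, hz⟩ := hz
    exact Qc_low (hne ν hν) hz
  have hDup : ∀ z ∈ D, ‖z‖ ≤ √(X : ℝ) + 1 := by
    intro z hz
    rw [hD, Set.mem_iUnion₂] at hz
    obtain ⟨ν, hν, hz⟩ := hz
    have h1 := Qc_near hz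
    have h2 := (mem_NX.1 hν).2
    have h3 : ‖tc ν‖ ≤ √(X : ℝ) := Real.le_sqrt_of_sq_le h2
    have h4 := norm_le_norm_add_norm_sub' z (tc ν)
    linarith
  have hDmeas : MeasurableSet D := Finset.measurableSet_biUnion _ fun ν _ => Qc_meas ν
  have hDsub : D ⊆ Metric.closedBall 0 (√(X : ℝ) + 1) := by
    intro z hz
    rw [mem_closedBall_zero_iff]
    exact hDup z hz
  have hDfin : volume D ≠ ⊤ :=
    ((measure_mono hDsub).trans_lt measure_closedBall_lt_top).ne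
  have hint : IntegrableOn (ph m t) D := by
    refine Measure.integrableOn_of_bounded hDfin (ph_meas m t).aestronglyMeasurable
      (M := 256) ?_
    rw [ae_restrict_iff' hDmeas]
    exact Filter.Eventually.of_forall fun z hz => ph_bd m hs1 hs2 (hDlow z hz)
  -- the integral over D
  set A : Set ℂ := {z | 1 ≤ ‖z‖ ∧ ‖z‖ ≤ √(X : ℝ) - 1} with hA
  have hAmeas : MeasurableSet A :=
    (measurableSet_le measurable_const measurable_norm).inter
      (measurableSet_le measurable_norm measurable_const)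
  have hAD : A ⊆ D := by
    rintro z ⟨h1, h2⟩
    obtain ⟨ν, hν⟩ := exists_Qc z
    have h3 := Qc_near hν
    rw [hD, Set.mem_iUnion₂]
    refine ⟨ν, mem_NX.2 ⟨?_, ?_⟩, hν⟩
    · rintro rfl
      simp at h3
      linarith
    · have h4 := norm_le_norm_add_norm_sub z (tc ν)
      have h5 : ‖tc ν‖ ≤ √(X : ℝ) := by
        have h6 := norm_le_norm_add_norm_sub z (tc ν)
        have h7 : ‖tc ν - z‖ = ‖z - tc ν‖ := norm_sub_rev _ _
        linarith
      calc ‖tc ν‖ ^ 2 ≤ √(X : ℝ) ^ 2 := pow_le_pow_left₀ (norm_nonneg _) h5 2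
        _ = X := hsq
  have hA0 : ∫ z in A, ph m t z = 0 :=
    int_zero hm t A hAmeas fun z w hzw => by
      rw [hA, Set.mem_ofPred_eq, Set.mem_ofPred_eq, hzw]
  have hDA : ∫ z in D, ph m t z = ∫ z in D \ A, ph m t z := by
    rw [setIntegral_sdiff hAmeas hint hAD, hA0, sub_zero]
  -- the two parts of D minus A
  set E1 : Set ℂ := (D \ A) ∩ {z | ‖z‖ < 1} with hE1
  set E2 : Set ℂ := (D \ A) \ {z | ‖z‖ < 1} with hE2
  have hS : MeasurableSet {z : ℂ | ‖z‖ < 1} := measurableSet_lt measurable_norm measurable_const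
  have hsplit : ∫ z in D \ A, ph m t z = (∫ z in E1, ph m t z) + ∫ z in E2, ph m t z :=
    (integral_inter_add_sdiff hS (hint.mono_set Set.sdiff_subset)).symm
  have hI1 : ‖∫ z in E1, ph m t z‖ ≤ 256 * 4 := by
    have hsub : E1 ⊆ Metric.closedBall 0 1 := by
      rintro z ⟨-, hz⟩
      rw [mem_closedBall_zero_iff]
      exact le_of_lt hz
    have hfin : volume E1 < ⊤ := (measure_mono hsub).trans_lt measure_closedBall_lt_top
    have h1 := norm_setIntegral_le_of_norm_le_const (f := ph m t) (C := 256) hfin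
      (fun z hz => ph_bd m hs1 hs2 (hDlow z hz.1.1))
    refine h1.trans ?_
    have h2 : volume.real E1 ≤ volume.real (Metric.closedBall (0 : ℂ) 1) :=
      measureReal_mono hsub measure_closedBall_lt_top.ne
    have h3 := ball_vol 1 zero_le_one
    nlinarith
  have hI2 : ‖∫ z in E2, ph m t z‖ ≤ 64 := by
    have hsub : E2 ⊆ Metric.closedBall 0 (√(X : ℝ) + 1) := fun z hz => hDsub hz.1.1
    have hfin : volume E2 < ⊤ := (measure_mono hsub).trans_lt measure_closedBall_lt_top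
    have h1 := norm_setIntegral_le_of_norm_le_const (f := ph m t) (C := 4 / X) hfin (by
      rintro z ⟨⟨hzD, hzA⟩, hz1⟩
      have hz1' : 1 ≤ ‖z‖ := by
        by_contra hcon
        push Not at hcon
        exact hz1 hcon
      have hz2 : √(X : ℝ) - 1 < ‖z‖ := by
        by_contra hcon
        push Not at hcon
        exact hzA ⟨hz1', hcon⟩
      have hz3 : √(X : ℝ) / 2 ≤ ‖z‖ := by linarith
      have hz0 : 0 < ‖z‖ := by linarith
      rw [ph_norm m _ hz0]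
      have e : (m : ℝ) - t = -(2 * s) := by rw [ht]; ring
      rw [e]
      calc ‖z‖ ^ (-(2 * s)) ≤ ‖z‖ ^ (-2 : ℝ) :=
            Real.rpow_le_rpow_of_exponent_le hz1' (by linarith)
        _ ≤ (√(X : ℝ) / 2) ^ (-2 : ℝ) :=
            Real.rpow_le_rpow_of_nonpos (by positivity) hz3 (by norm_num)
        _ = 4 / X := by
            rw [Real.rpow_neg (by positivity), Real.rpow_two, div_pow, hsq]
            norm_num)
    refine h1.trans ?_
    have h2 : volume.real E2 ≤ volume.real (Metric.closedBall (0 : ℂ) (√(X : ℝ) + 1)) :=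
      measureReal_mono hsub measure_closedBall_lt_top.ne
    have h3 := ball_vol (√(X : ℝ) + 1) (by positivity)
    have h4 : 4 * (√(X : ℝ) + 1) ^ 2 ≤ 16 * X := by nlinarith
    calc 4 / (X : ℝ) * volume.real E2 ≤ 4 / X * (16 * X) :=
          mul_le_mul_of_nonneg_left (by linarith) (by positivity)
      _ = 64 := by
          field_simp
          norm_num
  -- the sum
  have hDsum : ∫ z in D, ph m t z = ∑ ν ∈ NX X, ∫ z in Qc ν, ph m t z := by
    rw [hD]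
    refine integral_biUnion_finset _ (fun ν _ => Qc_meas ν) ?_ ?_
    · intro ν _ μ _ h
      exact Qc_disj h
    · intro ν hν
      exact hint.mono_set (Set.subset_biUnion_of_mem (u := fun ν => Qc ν) hν)
  have hterm : ∀ ν ∈ NX X, ‖ph m t (tc ν) - ∫ z in Qc ν, ph m t z‖ ≤ K1 * ‖tc ν‖ ^ (-3 : ℝ) := by
    intro ν hν
    have hv1 : volume.real (Qc ν) = 1 := by rw [Measure.real, Qc_vol]; rfl
    have hfin : volume (Qc ν) < ⊤ := by rw [Qc_vol]; exact ENNReal.one_lt_top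
    have hi : IntegrableOn (ph m t) (Qc ν) :=
      hint.mono_set (Set.subset_biUnion_of_mem (u := fun ν => Qc ν) hν)
    have h1 : ph m t (tc ν) = ∫ _z in Qc ν, ph m t (tc ν) := by
      rw [setIntegral_const, hv1, one_smul]
    have hcst : IntegrableOn (fun _ : ℂ => ph m t (tc ν)) (Qc ν) := integrableOn_const hfin.ne
    rw [h1, ← integral_sub hcst hi]
    have h2 := norm_setIntegral_le_of_norm_le_const
      (f := fun z => ph m t (tc ν) - ph m t z) (C := K1 * ‖tc ν‖ ^ (-3 : ℝ)) hfin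
      (fun z hz => by
        rw [norm_sub_rev]
        exact hnear s hs1 hs2 ν (one_le_tc (hne ν hν)) z hz)
    rwa [hv1, mul_one] at h2
  have h3 : ∑ ν ∈ NX X, ph m t (tc ν) =
      ∑ ν ∈ NX X, (ph m t (tc ν) - ∫ z in Qc ν, ph m t z) + ∫ z in D, ph m t z := by
    rw [hDsum, Finset.sum_sub_distrib]
    ring
  rw [h3]
  have h4 : ‖∑ ν ∈ NX X, (ph m t (tc ν) - ∫ z in Qc ν, ph m t z)‖ ≤ K1 * K2 := by
    refine (norm_sum_le _ _).trans ((Finset.sum_le_sum hterm).trans ?_)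
    rw [← Finset.mul_sum, sum_NX]
    exact mul_le_mul_of_nonneg_left (hsum X) hK1.le
  have h5 : ‖∫ z in D, ph m t z‖ ≤ 256 * 4 + 64 := by
    rw [hDA, hsplit]
    exact (norm_add_le _ _).trans (add_le_add hI1 hI2)
  exact (norm_add_le _ _).trans (add_le_add h4 h5)

end LBaux

open LBaux in
theorem LB : S_LB := by
  intro q hq
  obtain ⟨C, hC⟩ := bound (4 * q) (by omega)
  refine ⟨C, ?_⟩
  intro s hs1 hs2
  filter_upwards [eventually_ge_atTop 1] with X hX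
  have h1 : ∑ e ∈ Finset.Icc 1 X, (∑ ν ∈ V e, (uE e ν ^ (4 * q)).re) / (e : ℝ) ^ s =
      (∑ ν ∈ NX X, LBaux.ph (4 * q) ((4 * q : ℕ) + 2 * s) (tc ν)).re := by
    rw [sum_NX, Complex.re_sum]
    refine Finset.sum_congr rfl fun e he => ?_
    have he1 : (0 : ℝ) < e := by exact_mod_cast (Finset.mem_Icc.1 he).1
    rw [Complex.re_sum, Finset.sum_div]
    refine Finset.sum_congr rfl fun ν hν => ?_
    have hs0 : (0 : ℝ) < √(e : ℝ) := Real.sqrt_pos.2 he1
    unfold LBaux.ph uE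
    rw [tc_norm hν, Complex.re_mul_ofReal, div_pow, ← Complex.ofReal_pow, Complex.div_ofReal_re,
      neg_add, Real.rpow_add hs0, Real.rpow_neg hs0.le, Real.rpow_natCast]
    have e2 : √(e : ℝ) ^ (-(2 * s)) = ((e : ℝ) ^ s)⁻¹ := by
      rw [Real.rpow_neg hs0.le, Real.sqrt_eq_rpow, ← Real.rpow_mul he1.le]
      congr 2
      ring
    rw [e2]
    rw [div_eq_mul_inv, div_eq_mul_inv]
    ring
  rw [h1]
  exact (Complex.re_le_norm _).trans (hC s hs1.le hs2 X hX)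

end Pool.Agent.L0h77.BW
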