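import Pool.Agent.L0h77.BW.All

/-! MP_6b977f_mp, project BW: convergence of all moments on open sets -/

set_option autoImplicit false
set_option maxHeartbeats 400000
open MeasureTheory Filter Topology Complex
open scoped ContDiff

namespace Pool.Agent.L0h77.BW

open Pool.Agent.L0h56.BQ

noncomputable section

theorem momG (hAPX : S_APX) (hMOM : S_MOM) (S : ℕ → Finset GI) (hS : ∀ n, ∀ ν ∈ S n, -ν ∈ S n)
    (c : ℕ → GI → ℂ) (hc : ∀ n ν, c n (-ν) = (starRingEnd ℂ) (c n ν)) (v : ℝ)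
    (h0 : ∀ k, Tendsto (fun n => SS (S n) (c n) k 0) atTop (𝓝 (gm k v : ℂ)))
    (h1 : ∀ k ξ, ξ ≠ 0 → Tendsto (fun n => SS (S n) (c n) k ξ) atTop (𝓝 0))
    (Ω : Set ℂ) (hΩo : IsOpen Ω) (hΩb : Bornology.IsBounded Ω) (k : ℕ) :
    Tendsto (fun n => ∫ z in Ω, (∑ ν ∈ S n, c n ν * ch ν z) ^ k) atTop
      (𝓝 ((volume.real Ω : ℂ) * (gm k v : ℂ))) := by
  classical
  rw [Metric.tendsto_atTop]
  intro ε hε
  set W : ℝ := √(4 * (|gm (2 * k) v| + 1)) + 2 * (|gm k v| + 1) + 1 with hW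
  have hW0 : 0 < W := by positivity
  set δ : ℝ := ε / (4 * W) with hδ
  have hδ0 : 0 < δ := by positivity
  obtain ⟨T, a, hTa⟩ := hAPX Ω hΩo hΩb δ hδ0
  set A : ℂ := ∑ ξ ∈ T, a ξ * (if ξ = 0 then 1 else 0) with hA
  have hc1 : ∫ z in cell 2, ‖(1 : ℂ)‖ ^ 2 = 4 := by
    simp only [norm_one, one_pow, integral_const, smul_eq_mul, mul_one, measureReal_def,
      Measure.restrict_apply_univ, cell_vol 2 (by norm_num)]
    norm_num
  have hs4 : √(4 : ℝ) = 2 := by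
    rw [show (4 : ℝ) = 2 ^ 2 by norm_num]
    exact Real.sqrt_sq (by norm_num)
  have g1 := hTa (fun _ => 1) continuous_const ⟨fun _ => rfl, fun _ => rfl⟩
  rw [hc1, hs4] at g1
  have g2 : ∫ z in cell 2, (∑ ξ ∈ T, a ξ * ch (-ξ) z) * 1 = 4 * A := by
    simp only [mul_one]
    rw [csum T (fun ξ z => a ξ * ch (-ξ) z) (fun ξ _ => continuous_const.mul (ch_cont _)), hA,
      Finset.mul_sum]
    refine Finset.sum_congr rfl fun ξ _ => ?_
    rw [integral_const_mul, int_ch]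
    by_cases h : ξ = 0
    · rw [if_pos h, if_pos (by rw [h, neg_zero])]
      ring
    · rw [if_neg h, if_neg (by rwa [neg_eq_zero])]
      ring
  have g3 : ∫ z in Ω, (1 : ℂ) = (volume.real Ω : ℂ) := by simp
  rw [g2, g3] at g1
  have hYc : ∀ n, Continuous (fun z => ∑ ν ∈ S n, c n ν * ch ν z) := fun n =>
    continuous_finsetSum _ fun ν _ => continuous_const.mul (ch_cont ν)
  have b1 : Tendsto (fun n => ∫ z in cell 2, (∑ ξ ∈ T, a ξ * ch (-ξ) z) *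
      (∑ ν ∈ S n, c n ν * ch ν z) ^ k) atTop (𝓝 (4 * A * (gm k v : ℂ))) := by
    have e1 : ∀ n, ∫ z in cell 2, (∑ ξ ∈ T, a ξ * ch (-ξ) z) *
        (∑ ν ∈ S n, c n ν * ch ν z) ^ k = ∑ ξ ∈ T, a ξ * (4 * SS (S n) (c n) k ξ) := by
      intro n
      have e2 : ∀ z, (∑ ξ ∈ T, a ξ * ch (-ξ) z) * (∑ ν ∈ S n, c n ν * ch ν z) ^ k =
          ∑ ξ ∈ T, a ξ * ((∑ ν ∈ S n, c n ν * ch ν z) ^ k * ch (-ξ) z) := by
        intro z
        rw [Finset.sum_mul]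
        exact Finset.sum_congr rfl fun ξ _ => by ring
      simp_rw [e2]
      rw [csum T (fun ξ z => a ξ * ((∑ ν ∈ S n, c n ν * ch ν z) ^ k * ch (-ξ) z))
        (fun ξ _ => continuous_const.mul (((hYc n).pow k).mul (ch_cont _)))]
      exact Finset.sum_congr rfl fun ξ _ => by rw [integral_const_mul, hMOM]
    simp_rw [e1]
    have e3 : 4 * A * (gm k v : ℂ) =
        ∑ ξ ∈ T, a ξ * (4 * ((if ξ = 0 then 1 else 0) * (gm k v : ℂ))) := by
      rw [hA, Finset.mul_sum, Finset.sum_mul]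
      exact Finset.sum_congr rfl fun ξ _ => by ring
    rw [e3]
    refine tendsto_finsetSum _ fun ξ _ => Tendsto.const_mul _ (Tendsto.const_mul _ ?_)
    split_ifs with h
    · rw [h, one_mul]
      exact h0 k
    · rw [zero_mul]
      exact h1 k ξ h
  have b2 := (h0 (2 * k)).norm
  have hlt : ‖(gm (2 * k) v : ℂ)‖ < |gm (2 * k) v| + 1 := by
    rw [Complex.norm_real, Real.norm_eq_abs]
    linarith
  obtain ⟨N, hN⟩ := eventually_atTop.1 ((Metric.tendsto_nhds.1 b1 (ε / 4) (by linarith)).and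
    (b2.eventually_lt_const hlt))
  refine ⟨N, fun n hn => ?_⟩
  obtain ⟨c1, c5⟩ := hN n hn
  have hp1 : ∀ ν : GI, Per 2 (ch ν) := by
    intro ν
    have := ch_per ν 1 one_pos (by simp)
    simpa using this
  have hp : Per 2 (fun z => ∑ ν ∈ S n, c n ν * ch ν z) :=
    ⟨fun z => Finset.sum_congr rfl fun ν _ => by rw [(hp1 ν).1 z],
      fun z => Finset.sum_congr rfl fun ν _ => by rw [(hp1 ν).2 z]⟩
  have c2 := hTa (fun z => (∑ ν ∈ S n, c n ν * ch ν z) ^ k) ((hYc n).pow k)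
    ⟨fun z => by simp only [hp.1 z], fun z => by simp only [hp.2 z]⟩
  have c4 : ∫ z in cell 2, ‖(∑ ν ∈ S n, c n ν * ch ν z) ^ k‖ ^ 2 ≤
      4 * (|gm (2 * k) v| + 1) := by
    set X : ℂ → ℝ := fun z => (∑ ν ∈ S n, c n ν * ch ν z).re with hX
    have hY' : ∀ z, ∑ ν ∈ S n, c n ν * ch ν z = (X z : ℂ) := fun z =>
      (real_of_sym (S n) (c n) (hS n) (hc n) z).symm
    have e5 : ((∫ z in cell 2, ‖(∑ ν ∈ S n, c n ν * ch ν z) ^ k‖ ^ 2 : ℝ) : ℂ) =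
        4 * SS (S n) (c n) (2 * k) 0 := by
      rw [← hMOM, ← integral_complex_ofReal]
      congr 1
      funext z
      rw [hY' z, neg_zero, ch_zero, mul_one, norm_pow, Complex.norm_real, Real.norm_eq_abs,
        ← pow_mul, mul_comm k 2, Even.pow_abs ⟨k, by ring⟩]
      push_cast
      rfl
    have e6 : (∫ z in cell 2, ‖(∑ ν ∈ S n, c n ν * ch ν z) ^ k‖ ^ 2 : ℝ) ≤
        ‖((∫ z in cell 2, ‖(∑ ν ∈ S n, c n ν * ch ν z) ^ k‖ ^ 2 : ℝ) : ℂ)‖ := by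
      rw [Complex.norm_real]
      exact Real.le_norm_self _
    refine e6.trans ?_
    rw [e5, norm_mul]
    have : ‖(4 : ℂ)‖ = 4 := by norm_num
    rw [this]
    linarith
  have c6 : δ * √(∫ z in cell 2, ‖(∑ ν ∈ S n, c n ν * ch ν z) ^ k‖ ^ 2) ≤
      δ * √(4 * (|gm (2 * k) v| + 1)) :=
    mul_le_mul_of_nonneg_left (Real.sqrt_le_sqrt c4) hδ0.le
  rw [dist_eq_norm] at c1 ⊢
  have d1 : ‖4 * A * (gm k v : ℂ) - (volume.real Ω : ℂ) * (gm k v : ℂ)‖ ≤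
      δ * (2 * (|gm k v| + 1)) := by
    rw [← sub_mul, norm_mul, norm_sub_rev, Complex.norm_real, Real.norm_eq_abs]
    calc _ ≤ (δ * 2) * (|gm k v| + 1) := mul_le_mul g1 (by linarith) (abs_nonneg _) (by linarith)
      _ = _ := by ring
  have d2 : δ * √(4 * (|gm (2 * k) v| + 1)) + δ * (2 * (|gm k v| + 1)) ≤ ε / 4 := by
    have : δ * W = ε / 4 := by rw [hδ]; field_simp
    rw [← this, hW]
    nlinarith
  calc _ ≤ ‖(∫ z in Ω, (∑ ν ∈ S n, c n ν * ch ν z) ^ k) -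
        ∫ z in cell 2, (∑ ξ ∈ T, a ξ * ch (-ξ) z) * (∑ ν ∈ S n, c n ν * ch ν z) ^ k‖ +
        ‖(∫ z in cell 2, (∑ ξ ∈ T, a ξ * ch (-ξ) z) * (∑ ν ∈ S n, c n ν * ch ν z) ^ k) -
          4 * A * (gm k v : ℂ)‖ +
        ‖4 * A * (gm k v : ℂ) - (volume.real Ω : ℂ) * (gm k v : ℂ)‖ := by
        refine le_trans (le_of_eq ?_) (norm_add₃_le)
        congr 1
        ring
    _ < ε := by linarith

/-- the moments for good energies -/
theorem momGL (E : ℕ → ℕ) (κ : ℕ → ℝ) (hG : Good E κ) (c : ℕ → GI → ℂ)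
    (hc : ∀ n ν, c n (-ν) = (starRingEnd ℂ) (c n ν)) (T : ℝ)
    (hcT : ∀ n, ∀ ν ∈ V (E n), ‖c n ν‖ ≤ T * κ n) (v : ℝ)
    (hv : Tendsto (fun n => ∑ ν ∈ V (E n), ‖c n ν‖ ^ 2) atTop (𝓝 v))
    (Ω : Set ℂ) (hΩ : IsOpen Ω) (hΩb : Bornology.IsBounded Ω) (k : ℕ) :
    Tendsto (fun n => ∫ z in Ω, (∑ ν ∈ V (E n), c n ν * ch ν z) ^ k) atTop
      (𝓝 ((volume.real Ω : ℂ) * (gm k v : ℂ))) := by
  have hneg : ∀ n, ∀ ν ∈ V (E n), -ν ∈ V (E n) := fun n ν h => neg_mem_V h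
  have hzero : ∀ n, (0 : GI) ∉ V (E n) := by
    intro n h
    rw [mem_V, Zsqrtd.norm_zero] at h
    have := hG.pos n
    omega
  have hTκ : Tendsto (fun n => T * κ n) atTop (𝓝 0) := by
    simpa using hG.lim.const_mul T
  have hRR : ∀ b, 3 ≤ b → Tendsto (fun n => RR (V (E n)) (fun ν => ‖c n ν‖) b) atTop (𝓝 0) := by
    intro b hb
    obtain ⟨b', rfl⟩ : ∃ b', b = b' + 3 := ⟨b - 3, by omega⟩
    have hup : ∀ n, RR (V (E n)) (fun ν => ‖c n ν‖) (b' + 3) ≤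
        T ^ (b' + 1) * κ n ^ b' * (κ n * rc b' (E n)) * ∑ ν ∈ V (E n), ‖c n ν‖ ^ 2 := by
      intro n
      refine (RRB (E n) (fun ν => ‖c n ν‖) (T * κ n) (fun ν => norm_nonneg _)
        (hcT n) b').trans (le_of_eq ?_)
      ring
    have hlo : ∀ n, 0 ≤ RR (V (E n)) (fun ν => ‖c n ν‖) (b' + 3) := fun n =>
      Finset.sum_nonneg fun τ _ => Finset.prod_nonneg fun i _ => norm_nonneg _
    have hlim : Tendsto (fun n => T ^ (b' + 1) * κ n ^ b' * (κ n * rc b' (E n)) *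
        ∑ ν ∈ V (E n), ‖c n ν‖ ^ 2) atTop (𝓝 (T ^ (b' + 1) * 0 ^ b' * 0 * v)) :=
      (((hG.lim.pow b').const_mul (T ^ (b' + 1))).mul (hG.rel b')).mul hv
    rw [mul_zero, zero_mul] at hlim
    exact squeeze_zero hlo hup hlim
  have h1 := LIM REC (fun n => V (E n)) hneg hzero c hc (fun n => T * κ n) hcT hTκ hRR v hv
  refine momG (APX UNI) MOM (fun n => V (E n)) hneg c hc v (fun k => (h1 k).1)
    (fun k ξ hξ => ?_) Ω hΩ hΩb k
  refine tendsto_const_nhds.congr' ?_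
  refine (hG.small k ξ.norm.toNat).mono fun n hn => ?_
  symm
  unfold SS
  refine Finset.sum_eq_zero fun τ hτ => ?_
  exfalso
  rw [Finset.mem_filter, Tup, Fintype.mem_piFinset] at hτ
  have h2 := hn τ hτ.1 (by rw [hτ.2]; exact hξ)
  rw [hτ.2] at h2
  have h3 : 0 ≤ ξ.norm := GaussianInt.norm_nonneg ξ
  omega

end

end Pool.Agent.L0h77.BW
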