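import Pool.Agent.L0h77.BW.Defs

/-! MP_6b977f_mp, module NC2: reduction of a split minimal relation (helper26) -/

set_option autoImplicit false

namespace Pool.Agent.L0h77.BW

open Pool.Agent.L0h56.BQ

namespace NC2

/-- an element of prime norm divides, or its conjugate does -/
theorem dvd_or {q : ℕ} {v : GI} (h : Spl q v) {ν : GI} (hq : (q : ℤ) ∣ ν.norm) :
    v ∣ ν ∨ star v ∣ ν := by
  obtain ⟨j, hj, h1, h2⟩ := h.split 1 ν (by rwa [pow_one])
  have hj' : j = 0 ∨ j = 1 := by omega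
  rcases hj' with rfl | rfl
  · right; simpa using h2
  · left; simpa using h1

theorem prime_one_add_I : Prime (⟨1, 1⟩ : GI) := by
  have hn : (⟨1, 1⟩ : GI).norm = 2 := by rw [norm_eq]; norm_num
  have hirr : Irreducible (⟨1, 1⟩ : GI) := by
    refine ⟨?_, ?_⟩
    · intro hu
      have h1 := Zsqrtd.norm_eq_one_iff.2 hu
      rw [hn] at h1
      norm_num at h1
    · intro x z hxz
      have h1 : 2 = x.norm.natAbs * z.norm.natAbs := by
        have h2 : (2 : ℤ) = x.norm * z.norm := by rw [← hn, hxz, Zsqrtd.norm_mul]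
        rw [← Int.natAbs_mul, ← h2]
        rfl
      rcases (Nat.prime_mul_iff.1 (h1 ▸ Nat.prime_two)) with h | h
      · right; exact Zsqrtd.norm_eq_one_iff.1 h.2
      · left; exact Zsqrtd.norm_eq_one_iff.1 h.2
  exact hirr.prime

theorem one_add_I_dvd {ν : GI} (h : (2 : ℤ) ∣ ν.norm) : (⟨1, 1⟩ : GI) ∣ ν := by
  have h1 : (⟨1, 1⟩ : GI) ∣ ν * star ν := by
    rw [← Zsqrtd.norm_eq_mul_conj]
    obtain ⟨x, hx⟩ := h
    rw [hx]
    have h2 : (⟨1, 1⟩ : GI) * ⟨1, -1⟩ = ((2 : ℤ) : GI) := by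
      refine Zsqrtd.ext ?_ ?_ <;> simp
    push_cast
    have h3 : ((2 : GI)) = ⟨1, 1⟩ * ⟨1, -1⟩ := by rw [h2]; norm_num
    rw [h3, mul_assoc]
    exact dvd_mul_right _ _
  rcases prime_one_add_I.dvd_or_dvd h1 with h2 | h2
  · exact h2
  · obtain ⟨x, hx⟩ := h2
    have h3 : ν = star (⟨1, 1⟩ : GI) * star x := by
      rw [← star_star ν, hx, star_mul, mul_comm]
    have h4 : star (⟨1, 1⟩ : GI) = ⟨1, 1⟩ * ⟨0, -1⟩ := by
      refine Zsqrtd.ext ?_ ?_ <;> simp
    rw [h3, h4, mul_assoc]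
    exact dvd_mul_right _ _

theorem three_dvd {q : ℕ} (hq : q.Prime) (h3 : q % 4 = 3) {ν : GI} (h : (q : ℤ) ∣ ν.norm) :
    Prime (q : GI) ∧ (q : GI) ∣ ν := by
  have := Fact.mk hq
  have hp : Prime (q : GI) := GaussianInt.prime_of_nat_prime_of_mod_four_eq_three q h3
  refine ⟨hp, ?_⟩
  have h1 : (q : GI) ∣ ν * star ν := by
    rw [← Zsqrtd.norm_eq_mul_conj]
    obtain ⟨x, hx⟩ := h
    rw [hx]
    push_cast
    exact dvd_mul_right _ _
  rcases hp.dvd_or_dvd h1 with h2 | h2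
  · exact h2
  · obtain ⟨x, hx⟩ := h2
    refine ⟨star x, ?_⟩
    rw [← star_star ν, hx, star_mul, star_natCast, mul_comm]

/-- the conclusion of NC2 -/
def Goal (k e y : ℕ) : Prop :=
  ∃ (m p : ℕ) (ϖ : GI) (a : Fin k → GI) (s : Fin k → Bool), 0 < m ∧ p.Prime ∧ Spl p ϖ ∧ y < p ∧
    m * p ∣ e ∧ (∀ q : ℕ, q.Prime → q ∣ m → q < p) ∧ (∀ i, a i ∈ V m) ∧
    (∑ i, (if s i then ϖ else star ϖ) * a i = 0) ∧ (∑ i, if s i then a i else 0) ≠ 0

/-- the case without common divisors -/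
theorem direct (k e y : ℕ) (he : 0 < e) (hsq : ∀ p : ℕ, p.Prime → y < p → ¬ p ^ 2 ∣ e)
    (τ : Fin k → GI) (hV : ∀ i, τ i ∈ V e) (hmin : MinRel τ)
    (hs : ∃ p : ℕ, p.Prime ∧ y < p ∧ Splits p τ)
    (hcom : ∀ β : GI, Prime β → ∃ i, ¬ β ∣ τ i) : Goal k e y := by
  classical
  have hdv : ∀ p : ℕ, p.Prime ∧ y < p ∧ Splits p τ → p ≤ e := by
    rintro p ⟨_, _, ϖ, hϖ, ⟨i, x, hx⟩, _⟩
    have h1 := mem_V.1 (hV i)
    rw [hx, Zsqrtd.norm_mul, hϖ.nm] at h1
    exact Nat.le_of_dvd he (Int.natCast_dvd_natCast.1 ⟨x.norm, h1.symm⟩)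
  set p := Nat.findGreatest (fun p => p.Prime ∧ y < p ∧ Splits p τ) e with hpdef
  obtain ⟨p0, hp0⟩ := hs
  have hp : p.Prime ∧ y < p ∧ Splits p τ :=
    Nat.findGreatest_spec (P := fun p => p.Prime ∧ y < p ∧ Splits p τ) (hdv p0 hp0) hp0
  have hmax : ∀ q : ℕ, q.Prime ∧ y < q ∧ Splits q τ → q ≤ p := fun q hq =>
    Nat.le_findGreatest (hdv q hq) hq
  obtain ⟨hpp, hyp, ϖ, hϖ, ⟨i0, hi0⟩, j0, hj0⟩ := hp
  have hpe : p ∣ e := by
    obtain ⟨x, hx⟩ := hi0
    have h1 := mem_V.1 (hV i0)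
    rw [hx, Zsqrtd.norm_mul, hϖ.nm] at h1
    exact Int.natCast_dvd_natCast.1 ⟨x.norm, h1.symm⟩
  obtain ⟨m, hm⟩ := hpe
  have hm0 : 0 < m := by
    rcases Nat.eq_zero_or_pos m with h | h
    · rw [h, mul_zero] at hm; omega
    · exact h
  have hpm : ¬ p ∣ m := by
    rintro ⟨x, hx⟩
    exact hsq p hpp hyp ⟨x, by rw [hm, hx]; ring⟩
  have hp0' : (p : ℤ) ≠ 0 := by exact_mod_cast hpp.pos.ne'
  have hsplit : ∀ i, ¬ ϖ ∣ τ i → star ϖ ∣ τ i := by
    intro i hi
    rcases dvd_or hϖ (ν := τ i) (by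
      rw [mem_V.1 (hV i), hm]; push_cast; exact dvd_mul_right _ _) with h | h
    · exact absurd h hi
    · exact h
  choose x hx using fun i : {i // ϖ ∣ τ i} => i.2
  choose z hz using fun i : {i // ¬ ϖ ∣ τ i} => hsplit i.1 i.2
  refine ⟨m, p, ϖ, fun i => if h : ϖ ∣ τ i then x ⟨i, h⟩ else z ⟨i, h⟩,
    fun i => decide (ϖ ∣ τ i), hm0, hpp, hϖ, hyp, ⟨1, by rw [hm]; ring⟩, ?_, ?_, ?_, ?_⟩
  · intro q hq hqm
    by_cases hqy : q ≤ y
    · omega
    push Not at hqy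
    have hqp : q ≠ p := by rintro rfl; exact hpm hqm
    have hqe : ∀ i, (q : ℤ) ∣ (τ i).norm := by
      intro i
      rw [mem_V.1 (hV i), hm]
      exact_mod_cast hqm.mul_left p
    have hcase : q = 2 ∨ q % 4 = 3 ∨ q % 4 = 1 := by
      rcases hq.eq_two_or_odd with h | h
      · left; exact h
      · right; omega
    rcases hcase with h2 | h3 | h1
    · exfalso
      obtain ⟨i, hi⟩ := hcom _ prime_one_add_I
      exact hi (one_add_I_dvd (by have := hqe i; rw [h2] at this; exact_mod_cast this))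
    · exfalso
      obtain ⟨i, hi⟩ := hcom _ (three_dvd hq h3 (hqe i0)).1
      exact hi (three_dvd hq h3 (hqe i)).2
    · obtain ⟨v, hv⟩ := spl_exists q hq h1
      obtain ⟨j, hj⟩ := hcom _ hv.pr
      obtain ⟨i, hi⟩ := hcom _ (hv.star_spl hq).pr
      have h4 : v ∣ τ i := by
        rcases dvd_or hv (hqe i) with h | h
        · exact h
        · exact absurd h hi
      have h5 := hmax q ⟨hq, hqy, v, hv, ⟨i, h4⟩, j, hj⟩
      omega
  · intro i
    rw [mem_V]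
    by_cases h : ϖ ∣ τ i
    · simp only [h, dif_pos]
      have h1 := mem_V.1 (hV i)
      rw [hx ⟨i, h⟩, Zsqrtd.norm_mul, hϖ.nm, hm] at h1
      push_cast at h1
      exact mul_left_cancel₀ hp0' h1
    · simp only [h, dif_neg, not_false_iff]
      have h1 := mem_V.1 (hV i)
      rw [hz ⟨i, h⟩, Zsqrtd.norm_mul, Pool.Agent.L0h56.BQ.norm_star, hϖ.nm, hm] at h1
      push_cast at h1
      exact mul_left_cancel₀ hp0' h1
  · rw [← hmin.1]
    refine Finset.sum_congr rfl fun i _ => ?_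
    by_cases h : ϖ ∣ τ i
    · simp only [h, decide_true, if_true, dif_pos]
      exact (hx ⟨i, h⟩).symm
    · simp only [h, decide_false, dif_neg, not_false_iff, Bool.false_eq_true, if_false]
      exact (hz ⟨i, h⟩).symm
  · intro h0
    refine hmin.2 (Finset.univ.filter fun i => ϖ ∣ τ i) ⟨i0, by simpa using hi0⟩ ?_ ?_
    · intro h1
      have h2 : j0 ∈ Finset.univ.filter (fun i => ϖ ∣ τ i) := by rw [h1]; exact Finset.mem_univ _
      exact hj0 (Finset.mem_filter.1 h2).2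
    · have h3 : ∑ i ∈ Finset.univ.filter (fun i => ϖ ∣ τ i), τ i = ϖ * ∑ i, (if (decide (ϖ ∣ τ i)) = true
          then (if h : ϖ ∣ τ i then x ⟨i, h⟩ else z ⟨i, h⟩) else 0) := by
        rw [Finset.mul_sum, Finset.sum_filter]
        refine Finset.sum_congr rfl fun i _ => ?_
        by_cases h : ϖ ∣ τ i
        · simp only [h, decide_true, if_true, dif_pos]
          exact hx ⟨i, h⟩
        · simp [h]
      rw [h3, h0, mul_zero]

end NC2

/-- NC2 -/
theorem nc2 : S_NC2 := by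
  intro k e
  induction e using Nat.strong_induction_on with
  | _ e ih =>
  intro y he hsq τ hV hmin hs
  by_cases hcom : ∀ β : GI, Prime β → ∃ i, ¬ β ∣ τ i
  · exact NC2.direct k e y he hsq τ hV hmin hs hcom
  push Not at hcom
  obtain ⟨β, hβ, hd⟩ := hcom
  choose τ' hτ' using hd
  have hβ0 : β ≠ 0 := hβ.ne_zero
  have hN0 : β.norm ≠ 0 := fun h => hβ0 (GaussianInt.norm_eq_zero.1 h)
  have hNpos : 0 < β.norm := lt_of_le_of_ne (GaussianInt.norm_nonneg β) (Ne.symm hN0)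
  have hN1 : β.norm ≠ 1 := by
    intro h
    exact hβ.not_unit (Zsqrtd.norm_eq_one_iff.1 (by rw [h]; rfl))
  obtain ⟨p, hp, hyp, ϖ, hϖ, ⟨i0, hi0⟩, j0, hj0⟩ := hs
  have hnorm : ∀ i, β.norm * (τ' i).norm = e := by
    intro i
    rw [← Zsqrtd.norm_mul, ← hτ' i]
    exact mem_V.1 (hV i)
  set e' : ℕ := (τ' i0).norm.natAbs with he'
  have he'c : (e' : ℤ) = (τ' i0).norm := by
    rw [he']
    exact Int.natAbs_of_nonneg (GaussianInt.norm_nonneg _)
  have he2 : β.norm * e' = e := by rw [he'c]; exact hnorm i0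
  have hV' : ∀ i, τ' i ∈ V e' := by
    intro i
    rw [mem_V]
    exact mul_left_cancel₀ hN0 ((hnorm i).trans he2.symm)
  have he'0 : 0 < e' := by
    rcases Nat.eq_zero_or_pos e' with h | h
    · rw [h] at he2
      simp at he2
      omega
    · exact h
  have hdvd : e' ∣ e := by
    have : (e' : ℤ) ∣ (e : ℤ) := ⟨β.norm, by rw [← he2]; ring⟩
    exact_mod_cast this
  have hlt : e' < e := by
    have h1 : (2 : ℤ) ≤ β.norm := by omega
    have h2 : (e' : ℤ) < e := by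
      rw [← he2]
      have h3 : (0 : ℤ) < e' := by exact_mod_cast he'0
      nlinarith
    exact_mod_cast h2
  have hmin' : MinRel τ' := by
    refine ⟨?_, ?_⟩
    · have h1 := hmin.1
      have h2 : ∑ i, τ i = β * ∑ i, τ' i := by
        rw [Finset.mul_sum]
        exact Finset.sum_congr rfl fun i _ => hτ' i
      rw [h2] at h1
      exact (mul_eq_zero.1 h1).resolve_left hβ0
    · intro s h1 h2 h3
      refine hmin.2 s h1 h2 ?_
      have h4 : ∑ i ∈ s, τ i = β * ∑ i ∈ s, τ' i := by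
        rw [Finset.mul_sum]
        exact Finset.sum_congr rfl fun i _ => hτ' i
      rw [h4, h3, mul_zero]
  have hsp : ∃ p : ℕ, p.Prime ∧ y < p ∧ Splits p τ' := by
    refine ⟨p, hp, hyp, ϖ, hϖ, ⟨i0, ?_⟩, j0, ?_⟩
    · have h1 : ¬ ϖ ∣ β := by
        intro h
        exact hj0 (by rw [hτ' j0]; exact h.mul_right _)
      have h2 : ϖ ∣ β * τ' i0 := by rw [← hτ' i0]; exact hi0
      exact (hϖ.pr.dvd_or_dvd h2).resolve_left h1
    · intro h
      exact hj0 (by rw [hτ' j0]; exact h.mul_left _)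
  obtain ⟨m, q, v, a, s, h1, h2, h3, h4, h5, h6⟩ := ih e' hlt y he'0
    (fun p hp hy h => hsq p hp hy (h.trans hdvd)) τ' hV' hmin' hsp
  exact ⟨m, q, v, a, s, h1, h2, h3, h4, h5.trans hdvd, h6⟩

end Pool.Agent.L0h77.BW
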