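import Pool.Agent.L0h77.BW.T_NC2

/-! MP_6b977f_mp, module NC5: few energies have a minimal relation which is split by a large prime
(helper26) -/

set_option autoImplicit false

namespace Pool.Agent.L0h77.BW

open Pool.Agent.L0h56.BQ

namespace NC5

/-- union bound -/
theorem cnt_le {ι : Type} (P : ℕ → Prop) (X : ℕ) (I : Finset ι) (Q : ι → ℕ → Prop)
    (h : ∀ e ∈ Finset.Icc 1 X, P e → ∃ i ∈ I, Q i e) : cnt P X ≤ ∑ i ∈ I, cnt (Q i) X := by
  classical
  unfold cnt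
  rw [Finset.sum_filter]
  have h1 : ∀ i ∈ I, ∑ e ∈ (Finset.Icc 1 X).filter (Q i), (V e).card =
      ∑ e ∈ Finset.Icc 1 X, if Q i e then (V e).card else 0 := fun i _ => by
    rw [Finset.sum_filter]
  rw [Finset.sum_congr rfl h1, Finset.sum_comm]
  refine Finset.sum_le_sum fun e he => ?_
  by_cases hP : P e
  · rw [if_pos hP]
    obtain ⟨i, hi, hQ⟩ := h e he hP
    refine le_trans ?_ (Finset.single_le_sum (f := fun i => if Q i e then (V e).card else 0)
      (fun j _ => Nat.zero_le _) hi)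
    show (V e).card ≤ if Q i e then (V e).card else 0
    rw [if_pos hQ]
  · rw [if_neg hP]
    exact Nat.zero_le _

/-- the data determine the prime `p` -/
def Ok (k y m : ℕ) (a : Fin k → GI) (s : Fin k → Bool) (p : ℕ) : Prop :=
  ∃ ϖ : GI, p.Prime ∧ Spl p ϖ ∧ y < p ∧ (∀ q : ℕ, q.Prime → q ∣ m → q < p) ∧
    (∑ i, (if s i then ϖ else star ϖ) * a i = 0) ∧ (∑ i, if s i then a i else 0) ≠ 0

theorem term (hD : S_DV) (k y m X p : ℕ) (hm : 0 < m) (a : Fin k → GI)
    (s : Fin k → Bool) (hy : 0 < y) (h : Ok k y m a s p) :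
    (cnt (fun e => m * p ∣ e) X : ℝ) ≤
      16 * X / √y * (m.divisors.card / (m * √(lpf m))) := by
  obtain ⟨ϖ, hp, _, hyp, hq, _, _⟩ := h
  have hpm : ¬ p ∣ m := fun h => lt_irrefl _ (hq p hp h)
  have hmp : 0 < m * p := Nat.mul_pos hm hp.pos
  have hd : (m * p).divisors.card = m.divisors.card * 2 := by
    rw [Nat.Coprime.card_divisors_mul ((Nat.Prime.coprime_iff_not_dvd hp).2 hpm).symm,
      Nat.Prime.divisors hp, Finset.card_pair hp.one_lt.ne]
  have hlpf : lpf m ≤ p := by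
    unfold lpf
    refine max_le hp.one_lt.le (Finset.sup_le fun q hq' => ?_)
    exact (hq q (Nat.prime_of_mem_primeFactors hq') (Nat.dvd_of_mem_primeFactors hq')).le
  have hl1 : 1 ≤ lpf m := le_max_left _ _
  have h1 := hD (m * p) X hmp
  rw [hd] at h1
  have hpr : √(y : ℝ) * √(lpf m) ≤ p := by
    have h2 : √(y : ℝ) ≤ √(p : ℝ) := Real.sqrt_le_sqrt (by exact_mod_cast hyp.le)
    have h3 : √(lpf m : ℝ) ≤ √(p : ℝ) := Real.sqrt_le_sqrt (by exact_mod_cast hlpf)
    calc √(y : ℝ) * √(lpf m) ≤ √(p : ℝ) * √(p : ℝ) := mul_le_mul h2 h3 (by positivity) (by positivity)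
      _ = p := Real.mul_self_sqrt (Nat.cast_nonneg _)
  have hsy : 0 < √(y : ℝ) := Real.sqrt_pos.2 (by exact_mod_cast hy)
  have hsl : 0 < √(lpf m : ℝ) := Real.sqrt_pos.2 (by exact_mod_cast hl1)
  have hm' : (0 : ℝ) < m := by exact_mod_cast hm
  have hp' : (0 : ℝ) < p := by exact_mod_cast hp.pos
  refine h1.trans ?_
  push_cast
  have e1 : 16 * (X : ℝ) / √y * (m.divisors.card / (m * √(lpf m))) =
      16 * X * m.divisors.card / (m * (√y * √(lpf m))) := by
    field_simp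
  rw [e1]
  have e2 : 8 * ((m.divisors.card : ℝ) * 2) * X / (m * p) =
      16 * X * m.divisors.card / (m * p) := by ring
  rw [e2]
  exact div_le_div_of_nonneg_left (by positivity) (by positivity)
    (mul_le_mul_of_nonneg_left hpr hm'.le)

end NC5

/-- NC5 -/
theorem nc5 (h3 : S_NC3) (h4 : S_NC4) (hD : S_DV) (hR : S_R2) : S_NC5 := by
  classical
  intro k ε hε
  obtain ⟨C, hC⟩ := h4 (k + 1)
  set A : ℝ := 16 * 8 ^ k * (|C| + 1) / ε with hA
  have hA0 : 0 < A := by positivity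
  obtain ⟨y, hy⟩ := exists_nat_gt (A ^ 2)
  have hy0 : 0 < y := by
    have : (0 : ℝ) < y := lt_trans (by positivity) hy
    exact_mod_cast this
  refine ⟨y, hy0, fun X => ?_⟩
  have hsy : 0 < √(y : ℝ) := Real.sqrt_pos.2 (by exact_mod_cast hy0)
  have hAy : A ≤ √(y : ℝ) := Real.le_sqrt_of_sq_le hy.le
  -- the index set
  set pr : (ℕ × (Fin k → GI) × (Fin k → Bool)) → ℕ := fun t =>
    if h : ∃ p, NC5.Ok k y t.1 t.2.1 t.2.2 p then h.choose else 0 with hpr
  have hprs : ∀ t : ℕ × (Fin k → GI) × (Fin k → Bool), (∃ p, NC5.Ok k y t.1 t.2.1 t.2.2 p) →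
      NC5.Ok k y t.1 t.2.1 t.2.2 (pr t) := by
    intro t h
    rw [hpr]
    simp only [h, dif_pos]
    exact h.choose_spec
  set J : ℕ → Finset ((Fin k → GI) × (Fin k → Bool)) := fun m =>
    ((Fintype.piFinset fun _ : Fin k => V m) ×ˢ (Finset.univ : Finset (Fin k → Bool))).filter
      (fun t => ∃ p, NC5.Ok k y m t.1 t.2 p) with hJ
  set I : Finset (Σ _ : ℕ, (Fin k → GI) × (Fin k → Bool)) := (Finset.Icc 1 X).sigma J with hI
  have hb := NC5.cnt_le (fun e => (∀ p : ℕ, p.Prime → y < p → ¬ p ^ 2 ∣ e) ∧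
    ∃ τ : Fin k → GI, (∀ i, τ i ∈ V e) ∧ MinRel τ ∧ ∃ p : ℕ, p.Prime ∧ y < p ∧ Splits p τ) X I
    (fun t e => t.1 * pr (t.1, t.2) ∣ e) (by
      intro e he hP
      obtain ⟨hsq, τ, hV, hmin, hs⟩ := hP
      rw [Finset.mem_Icc] at he
      obtain ⟨m, p, ϖ, a, s, hm, hp, hϖ, hyp, hd, hq, ha, hsum, hne⟩ :=
        nc2 k e y (by omega) hsq τ hV hmin hs
      have hok : NC5.Ok k y m a s p := ⟨ϖ, hp, hϖ, hyp, hq, hsum, hne⟩
      obtain ⟨ϖ', hp', hϖ', hyp', hq', hsum', hne'⟩ := hprs (m, a, s) ⟨p, hok⟩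
      have heq : p = pr (m, a, s) := h3 k a s p _ ϖ ϖ' hp hp' hϖ hϖ' hsum hsum' hne
      have hle : m * p ≤ e := Nat.le_of_dvd (by omega) hd
      have hmX : m ≤ X := by
        have := Nat.le_mul_of_pos_right m hp.pos
        omega
      refine ⟨⟨m, a, s⟩, ?_, ?_⟩
      · rw [hI, Finset.mem_sigma]
        refine ⟨Finset.mem_Icc.2 ⟨hm, hmX⟩, ?_⟩
        rw [hJ]
        simp only [Finset.mem_filter, Finset.mem_product, Fintype.mem_piFinset, Finset.mem_univ,
          and_true]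
        exact ⟨ha, p, hok⟩
      · show m * pr (m, a, s) ∣ e
        rw [← heq]; exact hd)
  have hb' : (cnt (fun e => (∀ p : ℕ, p.Prime → y < p → ¬ p ^ 2 ∣ e) ∧
    ∃ τ : Fin k → GI, (∀ i, τ i ∈ V e) ∧ MinRel τ ∧ ∃ p : ℕ, p.Prime ∧ y < p ∧ Splits p τ) X : ℝ) ≤
      ∑ t ∈ I, (cnt (fun e => t.1 * pr (t.1, t.2) ∣ e) X : ℝ) := by exact_mod_cast hb
  refine hb'.trans ?_
  rw [hI, Finset.sum_sigma]
  have hin : ∀ m ∈ Finset.Icc 1 X, ∑ t ∈ J m, (cnt (fun e => m * pr (m, t) ∣ e) X : ℝ) ≤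
      16 * X / √y * 8 ^ k * ((m.divisors.card : ℝ) ^ (k + 1) / (m * √(lpf m))) := by
    intro m hm
    rw [Finset.mem_Icc] at hm
    have hm0 : 0 < m := hm.1
    have h1 : ∀ t ∈ J m, (cnt (fun e => m * pr (m, t) ∣ e) X : ℝ) ≤
        16 * X / √y * (m.divisors.card / (m * √(lpf m))) := by
      intro t ht
      rw [hJ] at ht
      have h2 := (Finset.mem_filter.1 ht).2
      exact NC5.term hD k y m X _ hm0 t.1 t.2 hy0 (hprs (m, t) h2)
    refine (Finset.sum_le_card_nsmul _ _ _ h1).trans ?_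
    rw [nsmul_eq_mul]
    have hcard : ((J m).card : ℝ) ≤ 8 ^ k * (m.divisors.card : ℝ) ^ k := by
      have h2 : (J m).card ≤ (8 * m.divisors.card) ^ k := by
        rw [hJ]
        refine (Finset.card_filter_le _ _).trans ?_
        rw [Finset.card_product, Fintype.card_piFinset]
        simp only [Finset.prod_const, Finset.card_univ, Fintype.card_fin, Fintype.card_fun,
          Fintype.card_bool]
        rw [← mul_pow]
        refine Nat.pow_le_pow_left ?_ k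
        have := hR m hm0
        omega
      calc ((J m).card : ℝ) ≤ (((8 * m.divisors.card) ^ k : ℕ) : ℝ) := by exact_mod_cast h2
        _ = 8 ^ k * (m.divisors.card : ℝ) ^ k := by push_cast; rw [mul_pow]
    have hpos : 0 ≤ 16 * (X : ℝ) / √y * (m.divisors.card / (m * √(lpf m))) := by positivity
    refine (mul_le_mul_of_nonneg_right hcard hpos).trans (le_of_eq ?_)
    rw [pow_succ]
    ring
  refine (Finset.sum_le_sum hin).trans ?_
  rw [← Finset.mul_sum]
  have hF := hC (Finset.Icc 1 X) (fun m hm => (Finset.mem_Icc.1 hm).1)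
  have hF' : ∑ m ∈ Finset.Icc 1 X, ((m.divisors.card : ℝ) ^ (k + 1) / (m * √(lpf m))) ≤ |C| + 1 :=
    hF.trans ((le_abs_self C).trans (by linarith))
  have hpos : 0 ≤ 16 * (X : ℝ) / √y * 8 ^ k := by positivity
  refine (mul_le_mul_of_nonneg_left hF' hpos).trans ?_
  have h5 : 16 * (X : ℝ) / √y * 8 ^ k * (|C| + 1) = (A * ε / √y) * X := by
    rw [hA]
    field_simp
  rw [h5]
  refine mul_le_mul_of_nonneg_right ?_ (Nat.cast_nonneg _)
  rw [div_le_iff₀ hsy, mul_comm]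
  exact mul_le_mul_of_nonneg_left hAy hε.le

end Pool.Agent.L0h77.BW
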